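import Pool.Agent.TIA.Defs

/-!
# AlB: basic facts on the independence number

`al G S` is the supremum of the sizes of the independent finite subsets of `S`; for finite `S` the
set of these sizes is nonempty (0) and bounded by `hS.toFinset.card`, so it is a maximum.
-/

namespace Pool.Agent.TIA

variable {V : Type} {G : SimpleGraph V}

theorem AlB_bdd (G : SimpleGraph V) {S : Set V} (hS : S.Finite) :
    BddAbove {m | ∃ I : Finset V, (I : Set V) ⊆ S ∧ Ind G (I : Set V) ∧ I.card = m} := by
  refine ⟨hS.toFinset.card, ?_⟩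
  rintro m ⟨I, hI, -, rfl⟩
  apply Finset.card_le_card
  intro x hx
  exact hS.mem_toFinset.2 (hI hx)

theorem AlB_ind_empty (G : SimpleGraph V) : Ind G ((∅ : Finset V) : Set V) := by
  intro x hx
  simp at hx

theorem exists_al (G : SimpleGraph V) {S : Set V} (hS : S.Finite) :
    ∃ I : Finset V, (I : Set V) ⊆ S ∧ Ind G (I : Set V) ∧ I.card = al G S :=
  Nat.sSup_mem (s := {m | ∃ I : Finset V, (I : Set V) ⊆ S ∧ Ind G (I : Set V) ∧ I.card = m})
    ⟨0, ∅, by simp, AlB_ind_empty G, rfl⟩ (AlB_bdd G hS)

theorem card_le_al {S : Set V} (hS : S.Finite) {I : Finset V} (hI : (I : Set V) ⊆ S)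
    (h : Ind G (I : Set V)) : I.card ≤ al G S :=
  le_csSup (AlB_bdd G hS) ⟨I, hI, h, rfl⟩

theorem al_le_iff {S : Set V} (hS : S.Finite) {c : ℕ} :
    al G S ≤ c ↔ ∀ I : Finset V, (I : Set V) ⊆ S → Ind G (I : Set V) → I.card ≤ c := by
  constructor
  · intro h I hI hi
    exact (card_le_al hS hI hi).trans h
  · intro h
    obtain ⟨I, hI, hi, hc⟩ := exists_al G hS
    rw [← hc]
    exact h I hI hi

theorem AlB_ind_mono {S T : Set V} (h : Ind G T) (hST : S ⊆ T) : Ind G S :=
  fun x hx y hy => h x (hST hx) y (hST hy)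

theorem al_mono {S T : Set V} (hT : T.Finite) (h : S ⊆ T) : al G S ≤ al G T := by
  rw [al_le_iff (hT.subset h)]
  intro I hI hi
  exact card_le_al hT (hI.trans h) hi

theorem al_union_le {S T : Set V} (hS : S.Finite) (hT : T.Finite) :
    al G (S ∪ T) ≤ al G S + al G T := by
  classical
  rw [al_le_iff (hS.union hT)]
  intro I hI hi
  have h1 : (I.filter (· ∈ S)).card ≤ al G S := by
    apply card_le_al hS
    · intro x hx
      rw [Finset.mem_coe, Finset.mem_filter] at hx
      exact hx.2
    · apply AlB_ind_mono hi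
      intro x hx
      rw [Finset.mem_coe, Finset.mem_filter] at hx
      exact hx.1
  have h2 : (I.filter (¬ · ∈ S)).card ≤ al G T := by
    apply card_le_al hT
    · intro x hx
      rw [Finset.mem_coe, Finset.mem_filter] at hx
      exact (hI hx.1).resolve_left hx.2
    · apply AlB_ind_mono hi
      intro x hx
      rw [Finset.mem_coe, Finset.mem_filter] at hx
      exact hx.1
  have h3 := Finset.card_filter_add_card_filter_not (s := I) (fun x => x ∈ S)
  omega

theorem al_empty : al G ∅ = 0 := by
  have h : al G ∅ ≤ 0 := by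
    rw [al_le_iff Set.finite_empty]
    intro I hI _
    have : I = ∅ := by
      rw [Finset.eq_empty_iff_forall_notMem]
      intro x hx
      exact hI hx
    rw [this]
    simp
  omega

theorem al_le_card (F : Finset V) : al G (F : Set V) ≤ F.card := by
  rw [al_le_iff F.finite_toSet]
  intro I hI _
  exact Finset.card_le_card (by exact_mod_cast hI)

theorem al_singleton_le (v : V) : al G {v} ≤ 1 := by
  have := al_le_card (G := G) {v}
  simpa using this

theorem al_biUnion_le {ι : Type} (F : Finset ι) (f : ι → Set V) (hf : ∀ i ∈ F, (f i).Finite)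
    (c : ℕ) (hc : ∀ i ∈ F, al G (f i) ≤ c) : al G (⋃ i ∈ F, f i) ≤ F.card * c := by
  classical
  induction F using Finset.induction_on with
  | empty =>
    simp [al_empty]
  | insert a F ha ih =>
    rw [Finset.set_biUnion_insert, Finset.card_insert_of_notMem ha]
    have h1 := ih (fun i hi => hf i (Finset.mem_insert_of_mem hi))
      (fun i hi => hc i (Finset.mem_insert_of_mem hi))
    have hfin : (⋃ i ∈ F, f i).Finite :=
      Set.Finite.biUnion F.finite_toSet fun i hi => hf i (Finset.mem_insert_of_mem hi)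
    have h2 := al_union_le (G := G) (hf a (Finset.mem_insert_self a F)) hfin
    have h3 := hc a (Finset.mem_insert_self a F)
    have h4 : (F.card + 1) * c = F.card * c + c := by ring
    omega

/-- Additivity on disjoint anticomplete sets. -/
theorem al_add_le {S T : Set V} (hS : S.Finite) (hT : T.Finite) (hd : Disjoint S T)
    (h : ∀ x ∈ S, ∀ y ∈ T, ¬ G.Adj x y) : al G S + al G T ≤ al G (S ∪ T) := by
  classical
  obtain ⟨I, hI, hi, hc⟩ := exists_al G hS
  obtain ⟨J, hJ, hj, hc'⟩ := exists_al G hT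
  have hdis : Disjoint I J := by
    rw [Finset.disjoint_left]
    intro x hx hx'
    exact Set.disjoint_left.1 hd (hI hx) (hJ hx')
  rw [← hc, ← hc', ← Finset.card_union_of_disjoint hdis]
  apply card_le_al (hS.union hT)
  · rw [Finset.coe_union]
    exact Set.union_subset_union hI hJ
  · intro x hx y hy
    rw [Finset.coe_union] at hx hy
    rcases hx with hx | hx <;> rcases hy with hy | hy
    · exact hi x hx y hy
    · exact h x (hI hx) y (hJ hy)
    · exact fun hadj => h y (hI hy) x (hJ hx) hadj.symm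
    · exact hj x hx y hy

theorem exists_ind_of_lt {S : Set V} (hS : S.Finite) {c : ℕ} (h : c < al G S) :
    ∃ I : Finset V, (I : Set V) ⊆ S ∧ Ind G (I : Set V) ∧ I.card = c + 1 := by
  obtain ⟨I, hI, hi, hc⟩ := exists_al G hS
  obtain ⟨J, hJ, hJc⟩ := Finset.exists_subset_card_eq (s := I) (n := c + 1) (by omega)
  have hJ' : (J : Set V) ⊆ (I : Set V) := by exact_mod_cast hJ
  exact ⟨J, hJ'.trans hI, AlB_ind_mono hi hJ', hJc⟩

/-- More than `c` independent vertices of `S`, as a sequence. -/
theorem exists_seq_of_lt {S : Set V} (hS : S.Finite) {c : ℕ} (h : c < al G S) :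
    ∃ r : ℕ → V, (∀ i < c + 1, r i ∈ S) ∧ ∀ i < c + 1, ∀ j < c + 1, i ≠ j →
      r i ≠ r j ∧ ¬ G.Adj (r i) (r j) := by
  obtain ⟨I, hI, hi, hc⟩ := exists_ind_of_lt hS h
  let e : Fin (c + 1) ≃ I := (Finset.equivFinOfCardEq hc).symm
  refine ⟨fun i => if h : i < c + 1 then (e ⟨i, h⟩ : V) else (e 0 : V), ?_, ?_⟩
  · intro i hi'
    simp only [hi', dif_pos]
    exact hI (e ⟨i, hi'⟩).2
  · intro i hi' j hj' hij
    simp only [hi', hj', dif_pos]
    refine ⟨?_, hi _ (e ⟨i, hi'⟩).2 _ (e ⟨j, hj'⟩).2⟩
    intro heq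
    have h1 := e.injective (Subtype.ext heq)
    exact hij (by simpa using h1)

end Pool.Agent.TIA
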