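import Pool.Agent.TIA.Defs

/-!
# The algorithm: definitions

Vertices are natural numbers `< n`, the graph is a list `E` of (ordered) pairs, vertex sets are lists.
`k`, `t` are fixed. `qq k t` bounds the independence number of the computed separators, `wm k t` the
independence number of the sets `W` of the recursion.
-/

namespace Pool.Agent.TIA

def qq (k t : ℕ) : ℕ := k * (1 + 4 * k * t) + 1

def wm (k t : ℕ) : ℕ := 3 * (t + qq k t + 1)

/-- adjacency test -/
def adjB (E : List (ℕ × ℕ)) (u v : ℕ) : Bool := decide ((u, v) ∈ E)

/-- all lists of length `c` with entries in `S` -/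
def tup (S : List ℕ) : ℕ → List (List ℕ)
  | 0 => [[]]
  | c + 1 => S.flatMap fun v => (tup S c).map fun l => v :: l

/-- all subsets of `S` with at most `c` elements, as sublists of `S` -/
def subs (S : List ℕ) (c : ℕ) : List (List ℕ) :=
  [] :: (tup S c).map fun l => S.filter fun v => decide (v ∈ l)

/-- `l` is independent -/
def indB (E : List (ℕ × ℕ)) (l : List ℕ) : Bool := l.all fun u => l.all fun v => !(adjB E u v)

/-- the tuple `l` of elements of `S` has `c` distinct entries and is independent -/
def dindB (E : List (ℕ × ℕ)) (S : List ℕ) (c : ℕ) (l : List ℕ) : Bool :=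
  decide ((S.filter fun v => decide (v ∈ l)).length = c) && indB E l

/-- the independence number of `S` is at most `c` -/
def alB (E : List (ℕ × ℕ)) (S : List ℕ) (c : ℕ) : Bool :=
  (tup S (c + 1)).all fun l => !(dindB E S (c + 1) l)

/-- one step of breadth first search in `S` -/
def grow (E : List (ℕ × ℕ)) (S C : List ℕ) : List ℕ :=
  S.filter fun u => decide (u ∈ C) || C.any fun w => adjB E w u

/-- the component of `v` in `S` -/
def compB (E : List (ℕ × ℕ)) (S : List ℕ) (v : ℕ) : List ℕ :=
  (grow E S)^[S.length] (S.filter fun u => decide (u = v))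

/-- `S` without `X` -/
def rest (S X : List ℕ) : List ℕ := S.filter fun v => !(decide (v ∈ X))

/-- intersection, as a sorted list of numbers `< n` -/
def cap (n : ℕ) (A B : List ℕ) : List ℕ :=
  (List.range n).filter fun u => decide (u ∈ A) && decide (u ∈ B)

/-- union, as a sorted list of numbers `< n` -/
def cup (n : ℕ) (A B : List ℕ) : List ℕ :=
  (List.range n).filter fun u => decide (u ∈ A) || decide (u ∈ B)

/-! ### Hitting sets by multiplicative weights -/

/-- the minimum of a nonempty list -/
def minL (l : List ℕ) : ℕ := l.foldl min (l.headD 0)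

/-- local ratio step: lower the costs of the members of `P` by their minimum -/
def lower (n : ℕ) (c P : List ℕ) : List ℕ :=
  (List.range n).map fun v =>
    if v ∈ P then c.getD v 0 - minL (P.map fun u => c.getD u 0) else c.getD v 0

/-- residual costs after all sets have been treated -/
def lrat (n : ℕ) (c : List ℕ) (F : List (List ℕ)) : List ℕ := F.foldl (lower n) c

/-- the local ratio hitting set -/
def hitSet (n : ℕ) (S c : List ℕ) (F : List (List ℕ)) : List ℕ :=
  S.filter fun v => decide ((lrat n c F).getD v 0 = 0)

/-- number of the sets in `Xs` that contain `v` -/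
def cnt (Xs : List (List ℕ)) (v : ℕ) : ℕ := Xs.countP fun X => decide (v ∈ X)

/-- the weight of the independent tuple `I` -/
def wt (q R : ℕ) (Xs : List (List ℕ)) (I : List ℕ) : ℕ :=
  (q + 1) ^ (I.map (cnt Xs)).sum * q ^ (q * R - (I.map (cnt Xs)).sum)

/-- the cost of the vertex `v` -/
def cost (q R : ℕ) (Is Xs : List (List ℕ)) (v : ℕ) : ℕ :=
  ((Is.filter fun I => decide (v ∈ I)).map (wt q R Xs)).sum

/-- one round -/
def mwStep (n q R : ℕ) (S : List ℕ) (Is F Xs : List (List ℕ)) : List (List ℕ) :=
  hitSet n S ((List.range n).map (cost q R Is Xs)) F :: Xs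

/-- number of rounds -/
def rounds (n q : ℕ) : ℕ := 2 * q ^ 2 * (n + 1)

/-- the independent `q`-tuples of `S` -/
def inds (E : List (ℕ × ℕ)) (S : List ℕ) (q : ℕ) : List (List ℕ) := (tup S q).filter (dindB E S q)

/-- all rounds -/
def mwRun (E : List (ℕ × ℕ)) (n q : ℕ) (S : List ℕ) (F : List (List ℕ)) : List (List ℕ) :=
  (mwStep n q (rounds n q) S (inds E S q) F)^[rounds n q] []

/-- the hitting set: vertices that are in at least a `1/K` fraction of the sets -/
def mwHit (E : List (ℕ × ℕ)) (n K q : ℕ) (S : List ℕ) (F : List (List ℕ)) : List ℕ :=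
  S.filter fun v => decide (rounds n q ≤ K * cnt (mwRun E n q S F) v)

/-! ### Separators -/

/-- `u` is in the closed neighbourhood of `J` -/
def nbB (E : List (ℕ × ℕ)) (J : List ℕ) (u : ℕ) : Bool :=
  J.any fun j => decide (u = j) || adjB E j u

/-- the vertices of `W` dominated by `J` and not by `J'` -/
def side (E : List (ℕ × ℕ)) (W J J' : List ℕ) : List ℕ :=
  W.filter fun u => nbB E J u && !(nbB E J' u)

/-- consecutive entries are equal or adjacent -/
def walkB (E : List (ℕ × ℕ)) (l : List ℕ) : Bool :=
  (l.zip l.tail).all fun p => decide (p.1 = p.2) || adjB E p.1 p.2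

/-- the walks with `k` entries in `S` from `A` to `B` -/
def fam (E : List (ℕ × ℕ)) (S A B : List ℕ) (k : ℕ) : List (List ℕ) :=
  (tup S k).filter fun l => walkB E l &&
    (decide (l.headD 0 ∈ A) && decide (l.reverse.headD 0 ∈ B))

/-- the candidate separators for `W` in `S` -/
def cands (k t n : ℕ) (E : List (ℕ × ℕ)) (S W : List ℕ) : List (List ℕ) :=
  (subs W (wm k t + 1)).flatMap fun J => (subs W (wm k t + 1)).map fun J' =>
    mwHit E n k (qq k t) S (fam E S (side E W J J') (side E W J' J) k)

/-- the test for a separator -/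
def okB (k t : ℕ) (E : List (ℕ × ℕ)) (S W X : List ℕ) : Bool :=
  alB E X (qq k t - 1) && (rest S X).all fun v =>
    alB E (W.filter fun u => decide (u ∈ compB E (rest S X) v)) (wm k t - qq k t)

/-- the separator -/
def sepB (k t n : ℕ) (E : List (ℕ × ℕ)) (S W : List ℕ) : List ℕ :=
  ((cands k t n E S W).filter (okB k t E S W)).headD []

/-! ### The recursion tree -/

/-- a node `(A, W)` -/
abbrev Nd := List ℕ × List ℕ

/-- `W` together with one new vertex of `A` (if there is one) -/
def wplus (n : ℕ) (nd : Nd) : List ℕ := cup n nd.2 (rest nd.1 nd.2).head?.toList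

/-- the separator of a node -/
def sepN (k t n : ℕ) (E : List (ℕ × ℕ)) (nd : Nd) : List ℕ := sepB k t n E nd.1 (wplus n nd)

/-- the bag of a node -/
def bag (k t n : ℕ) (E : List (ℕ × ℕ)) (nd : Nd) : List ℕ := cup n (wplus n nd) (sepN k t n E nd)

/-- the child for the component of `v` -/
def child (k t n : ℕ) (E : List (ℕ × ℕ)) (nd : Nd) (v : ℕ) : Nd :=
  (cup n (compB E (rest nd.1 (sepN k t n E nd)) v) (sepN k t n E nd),
    cup n (cap n (compB E (rest nd.1 (sepN k t n E nd)) v) (wplus n nd)) (sepN k t n E nd))

/-- the representatives (smallest vertices) of the components that are not inside `W⁺` -/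
def reps (k t n : ℕ) (E : List (ℕ × ℕ)) (nd : Nd) : List ℕ :=
  (rest nd.1 (sepN k t n E nd)).filter fun v =>
    ((compB E (rest nd.1 (sepN k t n E nd)) v).all fun u => decide (v ≤ u)) &&
      !((compB E (rest nd.1 (sepN k t n E nd)) v).all fun u => decide (u ∈ wplus n nd))

/-- the children of a node -/
def children (k t n : ℕ) (E : List (ℕ × ℕ)) (nd : Nd) : List Nd :=
  (reps k t n E nd).map (child k t n E nd)

/-- the next level -/
def nextL (k t n : ℕ) (E : List (ℕ × ℕ)) (L : List Nd) : List Nd :=
  (L.flatMap (children k t n E)).take n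

/-- the root -/
def root (n : ℕ) : Nd := (List.range n, [])

/-- all levels, the deepest first -/
def levs (k t n : ℕ) (E : List (ℕ × ℕ)) : List (List Nd) :=
  (fun acc => nextL k t n E (acc.headD []) :: acc)^[n] [[root n]]

/-! ### Dynamic programming -/

/-- table of a node: pairs `(J, I)`, `I` a largest independent set of `A` with `I ∩ W = J` -/
abbrev Tab := List (List ℕ × List ℕ)

/-- look up the entry `J` of the node `nd` -/
def look (T : List (Nd × Tab)) (nd : Nd) (J : List ℕ) : List ℕ :=
  T.flatMap fun e => if e.1 = nd then e.2.flatMap fun r => if r.1 = J then r.2 else [] else []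

/-- the independent set composed from `Q` (in the bag) and the entries of the children -/
def glue (k t n : ℕ) (E : List (ℕ × ℕ)) (T : List (Nd × Tab)) (nd : Nd) (Q : List ℕ) : List ℕ :=
  (List.range n).filter fun u => decide (u ∈ Q) ||
    (children k t n E nd).any fun ch => decide (u ∈ look T ch (cap n ch.2 Q))

/-- a longest list -/
def longest (l : List (List ℕ)) : List ℕ :=
  l.foldl (fun b x => if b.length < x.length then x else b) []

/-- the table of a node -/
def solve (k t n : ℕ) (E : List (ℕ × ℕ)) (T : List (Nd × Tab)) (nd : Nd) : Tab :=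
  ((subs nd.2 (wm k t)).filter (indB E)).map fun J =>
    (J, longest (((subs (bag k t n E nd) (wm k t + qq k t)).filter fun Q =>
      indB E Q && decide (cap n nd.2 Q = J)).map (glue k t n E T nd)))

/-- the tables of one level -/
def lstep (k t n : ℕ) (E : List (ℕ × ℕ)) (T : List (Nd × Tab)) (L : List Nd) : List (Nd × Tab) :=
  L.map fun nd => (nd, solve k t n E T nd)

/-- the tables of level 0 -/
def runDP (k t n : ℕ) (E : List (ℕ × ℕ)) : List (Nd × Tab) :=
  (levs k t n E).foldl (lstep k t n E) []

/-- the answer -/
def answer (k t n : ℕ) (E : List (ℕ × ℕ)) : List ℕ := look (runDP k t n E) (root n) []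

/-! ### Input and output -/

/-- the number of vertices: the position of the first `false` -/
def decN (l : List Bool) : ℕ := l.idxOf false

/-- the edges (ordered pairs) read from the adjacency matrix -/
def decE (l : List Bool) : List (ℕ × ℕ) :=
  (List.range (decN l)).flatMap fun i =>
    ((List.range (decN l)).filter fun j =>
      (l.drop (decN l + 1)).getD (i * decN l + j) false).map fun j => (i, j)

/-- the algorithm: from a graph to the characteristic vector of an independent set -/
def alg (k t : ℕ) (l : List Bool) : List Bool :=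
  (List.range (decN l)).map fun v => decide (v ∈ answer k t (decN l) (decE l))

/-- The encoding of a graph: `1^n 0` followed by the rows of the adjacency matrix. -/
noncomputable def encG {n : ℕ} (G : SimpleGraph (Fin n)) : List Bool :=
  List.replicate n true ++ false ::
    ((List.finRange n).flatMap fun i => (List.finRange n).map fun j =>
      @decide (G.Adj i j) (Classical.dec _))

/-- The encoding of a set of vertices: its characteristic vector. -/
def encS {n : ℕ} (S : Finset (Fin n)) : List Bool := (List.finRange n).map fun i => decide (i ∈ S)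

/-! ### Semantics -/

/-- the graph of a list of pairs -/
def gE (E : List (ℕ × ℕ)) : SimpleGraph ℕ := SimpleGraph.fromRel fun u v => (u, v) ∈ E

/-- `E` is a symmetric irreflexive relation on `{0, ..., n - 1}` -/
structure GoodE (n : ℕ) (E : List (ℕ × ℕ)) : Prop where
  lt : ∀ u v, (u, v) ∈ E → u < n ∧ v < n
  symm : ∀ u v, (u, v) ∈ E → (v, u) ∈ E
  irr : ∀ u, (u, u) ∉ E

/-- the set of the entries of a list -/
def toS (l : List ℕ) : Set ℕ := {v | v ∈ l}

/-- a sorted list of numbers `< n` -/
def Srt (n : ℕ) (l : List ℕ) : Prop := l.Sublist (List.range n)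

/-- balanced separators, for graphs on `{0, ..., n - 1}` -/
def BalN (H : SimpleGraph ℕ) (n t : ℕ) : Prop :=
  ∀ W : Set ℕ, (∀ v ∈ W, v < n) → ∃ X : Set ℕ, (∀ v ∈ X, v < n) ∧ al H X ≤ t ∧
    ∀ a < n, a ∉ X → 2 * al H (W ∩ cmp H ({v | v < n} \ X) a) ≤ al H W

end Pool.Agent.TIA
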