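import Pool.Agent.TIA.SegP

/-!
# Chain: the chain lemma

Segments, for `t < K`:
`S t = {x t (t-1) 0 if 1 ≤ t} ∪ {x t t a : a < a0} ∪ {e t} ∪ {x (t+1) t a : 1 ≤ a < a0}`.
* Disjoint and anticomplete for `t + 2 ≤ t'`: the structures of `S t` are `t, t+1`, those of `S t'` are
  `t', t'+1` (all larger), the hubs of `S t` are `t-1, t`, those of `S t'` are `t'-1, t'` (all larger):
  `c3` (x against x), `c4` (e against x), `c5` (e against e).
* `S t`, `S (t+1)` disjoint: `x t (t-1) 0`, `x t t a` against `x (t+1) (t+1) a`, `x (t+2) (t+1) a`: `c3`;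
  `x t (t-1) 0` against `x (t+1) t 0`: `c3`; `x t t a` against `x (t+1) t 0`: `c6a`; `e t` against
  `x (t+1) t 0`: `c6b`; `e t` against `x (t+1) (t+1) a`, `x (t+2) (t+1) a`: `c4`; `e t` against `e (t+1)`: `c5`;
  `x t _ _` against `e (t+1)`: `c4`; `x (t+1) t a` (`a ≥ 1`) against `x (t+1) t 0`: `c6c`, against
  `x (t+1) (t+1) b`: `c6d`, against `e (t+1)`: `c4`, against `x (t+2) (t+1) b`: `c3`.
* The union contains a walk from `x 0 0 0` to `x (K-1) (K-1) 0`: `x t t 0, ..., x t t (a0-1), e t,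
  x (t+1) t (a0-1), ..., x (t+1) t 0`, then `x (t+1) (t+1) 0` (equal or adjacent, `c2`).
  (For `t + 1 < K` the vertex `x (t+1) t 0` is in `S (t+1)`.)
Now `seg_path`.
-/

namespace Pool.Agent.TIA

variable {V : Type} {G : SimpleGraph V}

/-- segment number `t` -/
def Chain_Seg (a0 : ℕ) (x : ℕ → ℕ → ℕ → V) (e : ℕ → V) (t : ℕ) : Set V :=
  {v | (1 ≤ t ∧ v = x t (t - 1) 0) ∨ (∃ a, a < a0 ∧ v = x t t a) ∨ v = e t ∨
    ∃ a, 1 ≤ a ∧ a < a0 ∧ v = x (t + 1) t a}

theorem chain (K a0 : ℕ) (hK : 1 ≤ K) (h0 : 1 ≤ a0) (x : ℕ → ℕ → ℕ → V) (e : ℕ → V)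
    (c1 : ∀ i ≤ K, ∀ u < K, ∀ a, a + 1 < a0 → G.Adj (x i u a) (x i u (a + 1)))
    (c1' : ∀ i ≤ K, ∀ u < K, G.Adj (x i u (a0 - 1)) (e u))
    (c2 : ∀ i ≤ K, ∀ u < K, ∀ v < K, x i u 0 = x i v 0 ∨ G.Adj (x i u 0) (x i v 0))
    (c3 : ∀ i j, i < j → j ≤ K → ∀ u v, u < v → v < K → ∀ a < a0, ∀ b < a0,
      x i u a ≠ x j v b ∧ ¬ G.Adj (x i u a) (x j v b))
    (c4 : ∀ j ≤ K, ∀ u < K, ∀ v < K, u ≠ v → ∀ b < a0, e u ≠ x j v b ∧ ¬ G.Adj (e u) (x j v b))
    (c5 : ∀ u < K, ∀ v < K, u ≠ v → e u ≠ e v ∧ ¬ G.Adj (e u) (e v))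
    (c6a : ∀ i j, i < j → j ≤ K → ∀ u < K, ∀ a < a0, x i u a ≠ x j u 0)
    (c6b : ∀ j ≤ K, ∀ u < K, ∀ b < a0, e u ≠ x j u b)
    (c6c : ∀ j ≤ K, ∀ u < K, ∀ a, 1 ≤ a → a < a0 → x j u a ≠ x j u 0)
    (c6d : ∀ j ≤ K, ∀ u < K, ∀ v < K, u ≠ v → ∀ a, 1 ≤ a → a < a0 → ∀ b < a0,
      x j u a ≠ x j v b) : ∃ q, IPath G K q := by
  have mA : ∀ t, 1 ≤ t → x t (t - 1) 0 ∈ Chain_Seg a0 x e t := fun t ht => Or.inl ⟨ht, rfl⟩
  have mB : ∀ t a, a < a0 → x t t a ∈ Chain_Seg a0 x e t := fun t a ha =>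
    Or.inr (Or.inl ⟨a, ha, rfl⟩)
  have mC : ∀ t, e t ∈ Chain_Seg a0 x e t := fun t => Or.inr (Or.inr (Or.inl rfl))
  have mD : ∀ t a, 1 ≤ a → a < a0 → x (t + 1) t a ∈ Chain_Seg a0 x e t := fun t a h1 h2 =>
    Or.inr (Or.inr (Or.inr ⟨a, h1, h2, rfl⟩))
  -- far segments
  have far : ∀ t t', t + 2 ≤ t' → t' < K → ∀ v ∈ Chain_Seg a0 x e t,
      ∀ w ∈ Chain_Seg a0 x e t', v ≠ w ∧ ¬ G.Adj v w := by
    intro t t' h2 hK' v hv w hw
    -- general forms
    have xx : ∀ i u a j v b, i ≤ t + 1 → u ≤ t → a < a0 → t' ≤ j → j ≤ t' + 1 → t' - 1 ≤ v →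
        v ≤ t' → b < a0 → x i u a ≠ x j v b ∧ ¬ G.Adj (x i u a) (x j v b) := by
      intro i u a j v b hi hu ha hj hj' hv hv' hb
      exact c3 i j (by omega) (by omega) u v (by omega) (by omega) a ha b hb
    have xe : ∀ i u a, i ≤ t + 1 → u ≤ t → a < a0 →
        x i u a ≠ e t' ∧ ¬ G.Adj (x i u a) (e t') := by
      intro i u a hi hu ha
      have := c4 i (by omega) t' hK' u (by omega) (by omega) a ha
      exact ⟨fun h => this.1 h.symm, fun h => this.2 h.symm⟩
    have ex : ∀ j v b, t' ≤ j → j ≤ t' + 1 → t' - 1 ≤ v → v ≤ t' → b < a0 →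
        e t ≠ x j v b ∧ ¬ G.Adj (e t) (x j v b) := by
      intro j v b hj hj' hv hv' hb
      exact c4 j (by omega) t (by omega) v (by omega) (by omega) b hb
    have ee : e t ≠ e t' ∧ ¬ G.Adj (e t) (e t') := c5 t (by omega) t' hK' (by omega)
    rcases hv with ⟨ht, rfl⟩ | ⟨a, ha, rfl⟩ | rfl | ⟨a, ha1, ha, rfl⟩ <;>
      rcases hw with ⟨ht', rfl⟩ | ⟨b, hb, rfl⟩ | rfl | ⟨b, hb1, hb, rfl⟩
    · exact xx _ _ _ _ _ _ (by omega) (by omega) (by omega) (by omega) (by omega) (by omega)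
        (by omega) (by omega)
    · exact xx _ _ _ _ _ _ (by omega) (by omega) (by omega) (by omega) (by omega) (by omega)
        (by omega) (by omega)
    · exact xe _ _ _ (by omega) (by omega) (by omega)
    · exact xx _ _ _ _ _ _ (by omega) (by omega) (by omega) (by omega) (by omega) (by omega)
        (by omega) (by omega)
    · exact xx _ _ _ _ _ _ (by omega) (by omega) (by omega) (by omega) (by omega) (by omega)
        (by omega) (by omega)
    · exact xx _ _ _ _ _ _ (by omega) (by omega) (by omega) (by omega) (by omega) (by omega)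
        (by omega) (by omega)
    · exact xe _ _ _ (by omega) (by omega) (by omega)
    · exact xx _ _ _ _ _ _ (by omega) (by omega) (by omega) (by omega) (by omega) (by omega)
        (by omega) (by omega)
    · exact ex _ _ _ (by omega) (by omega) (by omega) (by omega) (by omega)
    · exact ex _ _ _ (by omega) (by omega) (by omega) (by omega) (by omega)
    · exact ee
    · exact ex _ _ _ (by omega) (by omega) (by omega) (by omega) (by omega)
    · exact xx _ _ _ _ _ _ (by omega) (by omega) (by omega) (by omega) (by omega) (by omega)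
        (by omega) (by omega)
    · exact xx _ _ _ _ _ _ (by omega) (by omega) (by omega) (by omega) (by omega) (by omega)
        (by omega) (by omega)
    · exact xe _ _ _ (by omega) (by omega) (by omega)
    · exact xx _ _ _ _ _ _ (by omega) (by omega) (by omega) (by omega) (by omega) (by omega)
        (by omega) (by omega)
  -- neighbouring segments are disjoint
  have near : ∀ t, t + 1 < K → ∀ v ∈ Chain_Seg a0 x e t,
      ∀ w ∈ Chain_Seg a0 x e (t + 1), v ≠ w := by
    intro t hK' v hv w hw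
    rcases hv with ⟨ht, rfl⟩ | ⟨a, ha, rfl⟩ | rfl | ⟨a, ha1, ha, rfl⟩ <;>
      rcases hw with ⟨ht', rfl⟩ | ⟨b, hb, rfl⟩ | rfl | ⟨b, hb1, hb, rfl⟩
    · exact (c3 t (t + 1) (by omega) (by omega) (t - 1) (t + 1 - 1) (by omega) (by omega) 0
        (by omega) 0 (by omega)).1
    · exact (c3 t (t + 1) (by omega) (by omega) (t - 1) (t + 1) (by omega) (by omega) 0
        (by omega) b hb).1
    · exact fun h => (c4 t (by omega) (t + 1) hK' (t - 1) (by omega) (by omega) 0
        (by omega)).1 h.symm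
    · exact (c3 t (t + 1 + 1) (by omega) (by omega) (t - 1) (t + 1) (by omega) (by omega) 0
        (by omega) b hb).1
    · exact c6a t (t + 1) (by omega) (by omega) t (by omega) a ha
    · exact (c3 t (t + 1) (by omega) (by omega) t (t + 1) (by omega) (by omega) a ha b hb).1
    · exact fun h => (c4 t (by omega) (t + 1) hK' t (by omega) (by omega) a ha).1 h.symm
    · exact (c3 t (t + 1 + 1) (by omega) (by omega) t (t + 1) (by omega) (by omega) a ha
        b hb).1
    · exact c6b (t + 1) (by omega) t (by omega) 0 (by omega)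
    · exact (c4 (t + 1) (by omega) t (by omega) (t + 1) (by omega) (by omega) b hb).1
    · exact (c5 t (by omega) (t + 1) hK' (by omega)).1
    · exact (c4 (t + 1 + 1) (by omega) t (by omega) (t + 1) (by omega) (by omega) b hb).1
    · exact c6c (t + 1) (by omega) t (by omega) a ha1 ha
    · exact c6d (t + 1) (by omega) t (by omega) (t + 1) (by omega) (by omega) a ha1 ha b hb
    · exact fun h => (c4 (t + 1) (by omega) (t + 1) hK' t (by omega) (by omega) a ha).1 h.symm
    · exact (c3 (t + 1) (t + 1 + 1) (by omega) (by omega) t (t + 1) (by omega) (by omega) a ha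
        b hb).1
  have neq : ∀ t t', t < t' → t' < K → ∀ v ∈ Chain_Seg a0 x e t,
      ∀ w ∈ Chain_Seg a0 x e t', v ≠ w := by
    intro t t' h1 hK' v hv w hw
    rcases Nat.lt_or_ge t' (t + 2) with h | h
    · obtain rfl : t' = t + 1 := by omega
      exact near t hK' v hv w hw
    · exact (far t t' h hK' v hv w hw).1
  refine seg_path K hK (Chain_Seg a0 x e) ?_ (fun i j h1 h2 v hv w hw =>
    (far i j h1 h2 v hv w hw).2) (mB 0 0 h0) (mB (K - 1) 0 h0) ?_
  · intro i hi j hj hij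
    rw [Set.disjoint_left]
    intro v hv hv'
    rcases Nat.lt_or_gt_of_ne hij with h | h
    · exact neq i j h hj v hv v hv' rfl
    · exact neq j i h hi v hv' v hv rfl
  -- the walk
  set U : Set V := {v | ∃ i < K, v ∈ Chain_Seg a0 x e i} with hU
  have uB : ∀ t a, t < K → a < a0 → x t t a ∈ U := fun t a ht ha => ⟨t, ht, mB t a ha⟩
  have uC : ∀ t, t < K → e t ∈ U := fun t ht => ⟨t, ht, mC t⟩
  have uD : ∀ t a, t + 1 < K → a < a0 → x (t + 1) t a ∈ U := by
    intro t a ht ha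
    rcases Nat.eq_zero_or_pos a with h | h
    · subst h
      exact ⟨t + 1, ht, mA (t + 1) (by omega)⟩
    · exact ⟨t, by omega, mD t a h ha⟩
  have up : ∀ t, t < K → ∀ a, a < a0 → Rch G U (x t t 0) (x t t a) := by
    intro t ht a
    induction a with
    | zero => exact fun _ => Rch.refl (uB t 0 ht h0)
    | succ a ih =>
      intro ha
      exact (ih (by omega)).trans (Rch.adj (uB t a ht (by omega)) (uB t (a + 1) ht ha)
        (c1 t (by omega) t ht a ha))
  have down : ∀ t, t + 1 < K → ∀ a, a < a0 → Rch G U (x (t + 1) t a) (x (t + 1) t 0) := by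
    intro t ht a
    induction a with
    | zero => exact fun _ => Rch.refl (uD t 0 ht h0)
    | succ a ih =>
      intro ha
      exact (Rch.adj (uD t a ht (by omega)) (uD t (a + 1) ht ha)
        (c1 (t + 1) (by omega) t (by omega) a ha)).symm.trans (ih (by omega))
  have step : ∀ t, t + 1 < K → Rch G U (x t t 0) (x (t + 1) (t + 1) 0) := by
    intro t ht
    have s1 := up t (by omega) (a0 - 1) (by omega)
    have s2 : Rch G U (x t t (a0 - 1)) (e t) :=
      Rch.adj (uB t _ (by omega) (by omega)) (uC t (by omega)) (c1' t (by omega) t (by omega))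
    have s3 : Rch G U (e t) (x (t + 1) t (a0 - 1)) :=
      Rch.adj (uC t (by omega)) (uD t _ ht (by omega))
        (c1' (t + 1) (by omega) t (by omega)).symm
    have s4 := down t ht (a0 - 1) (by omega)
    have s5 : Rch G U (x (t + 1) t 0) (x (t + 1) (t + 1) 0) := by
      rcases c2 (t + 1) (by omega) t (by omega) (t + 1) ht with h | h
      · rw [h]
        exact Rch.refl (uB (t + 1) 0 ht h0)
      · exact Rch.adj (uD t 0 ht h0) (uB (t + 1) 0 ht h0) h
    exact (((s1.trans s2).trans s3).trans s4).trans s5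
  have all : ∀ t, t < K → Rch G U (x 0 0 0) (x t t 0) := by
    intro t
    induction t with
    | zero => exact fun ht => Rch.refl (uB 0 0 ht h0)
    | succ t ih => exact fun ht => (ih (by omega)).trans (step t ht)
  exact all (K - 1) (by omega)

end Pool.Agent.TIA
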