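import Pool.Agent.TIA.Ram

/-!
# DblRam: double Ramsey lemma (section E of the notes)

Given `P`, `L` let `L'` be the Ramsey number (`ramsey2`) for `max L 2` and colours
`(Fin (P+1) → Fin (P+1) → Prop × Prop) ^ 3`. Given `N` let `N'` be the Ramsey number for `max N 2` and the
colours `Fin L' → Fin L' → Fin (P+1) → Fin (P+1) → Prop × Prop`.
First apply `ramsey2` to the pairs `i < j < N'`, colour `(u, v, a, b) ↦ (x i u a = x j v b, G.Adj ..)`; this gives
`f` and a table `T (u, v, a, b)`. Then to the pairs `u < v < L'` with colour `(T(u,v), T(v,u), T(u,u))`; this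
gives `g`. For the diagonal entries `T(g u, g u)` of the last index use the colour
`(T(u,v), T(v,u), T(u,u), T(v,v))` instead (so that with `L ≥ 2` all diagonal entries agree).
-/

namespace Pool.Agent.TIA

/-- tables -/
abbrev DblRam_T (P : ℕ) : Type := Fin (P + 1) → Fin (P + 1) → Prop × Prop

theorem dbl_ramsey (P L : ℕ) : ∃ L', ∀ N, ∃ N', ∀ (V : Type) (G : SimpleGraph V)
    (x : ℕ → ℕ → ℕ → V), ∃ f g E A, Sub f N N' ∧ Sub g L L' ∧
      HomF G N L P (fun i u a => x (f i) (g u) a) E A := by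
  classical
  obtain ⟨L', hL'⟩ := ramsey2 (DblRam_T P × DblRam_T P × DblRam_T P) (L + 1)
  refine ⟨L', fun N => ?_⟩
  obtain ⟨N', hN'⟩ := ramsey2 (Fin L' → Fin L' → DblRam_T P) N
  refine ⟨N', fun V G x => ?_⟩
  obtain ⟨f, hf, κ, hκ⟩ := hN' (fun i j u v a b => (x i u a = x j v b, G.Adj (x i u a) (x j v b)))
  obtain ⟨T, hT⟩ : ∃ T : ℕ → ℕ → DblRam_T P, ∀ u v (hu : u < L') (hv : v < L'),
      T u v = κ ⟨u, hu⟩ ⟨v, hv⟩ := by
    refine ⟨fun u v => if h : u < L' ∧ v < L' then κ ⟨u, h.1⟩ ⟨v, h.2⟩ else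
      fun _ _ => (True, True), ?_⟩
    intro u v hu hv
    simp only
    rw [dif_pos ⟨hu, hv⟩]
  obtain ⟨g, hg, κ2, hκ2⟩ := hL' (fun u v => (T u v, T v u, T u u))
  have key : ∀ i j, i < j → j < N → ∀ u v, u < L' → v < L' →
      ∀ a b (ha : a < P + 1) (hb : b < P + 1),
      ((x (f i) u a = x (f j) v b) ↔ (T u v ⟨a, ha⟩ ⟨b, hb⟩).1) ∧
      (G.Adj (x (f i) u a) (x (f j) v b) ↔ (T u v ⟨a, ha⟩ ⟨b, hb⟩).2) := by
    intro i j hij hj u v hu hv a b ha hb
    have h := congrFun (congrFun (congrFun (congrFun (hκ i j hij hj) ⟨u, hu⟩) ⟨v, hv⟩)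
      ⟨a, ha⟩) ⟨b, hb⟩
    rw [hT u v hu hv]
    exact ⟨iff_of_eq (congrArg Prod.fst h), iff_of_eq (congrArg Prod.snd h)⟩
  obtain ⟨tb, htb⟩ : ∃ tb : Ordering → DblRam_T P, ∀ u < L, ∀ v < L,
      T (g u) (g v) = tb (compare u v) := by
    refine ⟨fun o => match o with
      | .lt => κ2.1
      | .gt => κ2.2.1
      | .eq => κ2.2.2, ?_⟩
    intro u hu v hv
    rcases lt_trichotomy u v with h | h | h
    · rw [compare_lt_iff_lt.2 h]
      exact congrArg Prod.fst (hκ2 u v h (by omega))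
    · subst h
      rw [compare_eq_iff_eq.2 rfl]
      exact congrArg (fun p => p.2.2) (hκ2 u L hu (by omega))
    · rw [compare_gt_iff_gt.2 h]
      exact congrArg (fun p => p.2.1) (hκ2 v u h (by omega))
  refine ⟨f, g, fun o a b => ∃ (ha : a < P + 1) (hb : b < P + 1), (tb o ⟨a, ha⟩ ⟨b, hb⟩).1,
    fun o a b => ∃ (ha : a < P + 1) (hb : b < P + 1), (tb o ⟨a, ha⟩ ⟨b, hb⟩).2, hf,
    hg.mono (Nat.le_succ L) le_rfl, ?_⟩
  intro i j hij hj u hu v hv a ha b hb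
  have ha' : a < P + 1 := by omega
  have hb' : b < P + 1 := by omega
  have h := key i j hij hj (g u) (g v) (hg.2 u (by omega)) (hg.2 v (by omega)) a b ha' hb'
  rw [htb u hu v hv] at h
  constructor
  · exact h.1.trans ⟨fun h' => ⟨ha', hb', h'⟩, fun ⟨_, _, h'⟩ => h'⟩
  · exact h.2.trans ⟨fun h' => ⟨ha', hb', h'⟩, fun ⟨_, _, h'⟩ => h'⟩

end Pool.Agent.TIA
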