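import Pool.Agent.TIA.ClqCh
import Pool.Agent.TIA.DblRam

/-!
# Claim1: bounded sequences of unlinked clique-type structures (section G of the notes)

`k = 0` is trivial (`PFree G 0` with a vertex; `R = 1`: the structure has a vertex if `n' ≥ 1`; choose `n' ≥ 1`).
`k ≥ 1`: `L = max k (2s+3) + e + 1`, `N = max (k+1) (s+3)`, `n' = max n L'` where `L'` is from
`dbl_ramsey (P := p) L`; `N'` from `dbl_ramsey`. `R` = pigeonhole number (`pigeon`) of `N'` for the colours
`Fin n' → Fin m` (hub tuples, `M` numbered by an injection into `Fin m`).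
Given the `R` structures pass to `N'` with the same hubs (on `< n'`), then to `N`, `L` by `dbl_ramsey` (the
indices `u` range over `< L'`, `L' ≤ n'`). If `A .lt 0 0` and `A .gt 0 0` both hold, the structures `f 0`, `f 1` are
`e`-linked by any `e + 1` of the hubs `h (g u)`: contradiction. If `A .lt 0 0` is false: `clq_chain`. If
`A .gt 0 0` is false: reverse the indices `u ↦ L - 1 - u` (`Clq.reindex`; tables with `.lt` and `.gt` swapped,
`compare (L-1-u) (L-1-v) = compare v u`) and apply `clq_chain`. Contradiction to `PFree G k`.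
-/

namespace Pool.Agent.TIA

namespace Claim1

theorem clq_congr {V : Type} {G : SimpleGraph V} {B : Set V} {M : Finset V} {n p : ℕ}
    {h h' : ℕ → V} {x : ℕ → ℕ → V} (hs : Clq G B M n p h x) (hh : ∀ i < n, h i = h' i) :
    Clq G B M n p h' x := by
  refine ⟨⟨fun i hi => hh i hi ▸ hs.hubs.1 i hi, fun i hi j hj hij => ?_⟩, fun i hi => ?_,
    hs.cross, fun i hi j hj hij a ha => ?_⟩
  · rw [← hh i hi, ← hh j hj] at hij
    exact hs.hubs.2 i hi j hj hij
  · rw [← hh i hi]
    exact hs.leg i hi
  · rw [← hh j hj]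
    exact hs.crossHub i hi j hj hij a ha

end Claim1

theorem claim1 (k s p e n : ℕ) : ∃ n', n ≤ n' ∧ ∀ m, ∃ R, ∀ (V : Type) (G : SimpleGraph V)
    (M : Finset V) (B : Set V), PFree G k → KFree G s → Ind G (M : Set V) → M.card ≤ m →
    (∀ b ∈ B, b ∉ M) → ∀ (h : ℕ → ℕ → V) (x : ℕ → ℕ → ℕ → V),
    (∀ i < R, Clq G B M n' p (h i) (x i)) →
    (∀ i < R, ∀ j < R, i ≠ j → ∀ u < n', ∀ v < n', x i u 0 ≠ x j v 0) →
    (∀ i j, i < j → j < R → ¬ Linked G e n' (h i) (x i) (h j) (x j)) → False := by
  classical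
  rcases Nat.eq_zero_or_pos k with rfl | hk
  · refine ⟨n, le_rfl, fun m => ⟨0, fun V G M B hP _ _ _ _ h _ _ _ _ => hP (h 0) ⟨?_, ?_⟩⟩⟩
    · intro i hi
      omega
    · intro i hi
      omega
  set L := max k (2 * s + 3) + e + 1 with hL
  set N := max (k + 1) (s + 3) with hN
  have hkL : k ≤ L := by omega
  have hsL : 2 * s + 3 ≤ L := by omega
  have heL : e + 1 ≤ L := by omega
  have hkN : k + 1 ≤ N := by omega
  have hsN : s + 3 ≤ N := by omega
  obtain ⟨L', hL'⟩ := dbl_ramsey p L
  obtain ⟨N', hN'⟩ := hL' N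
  refine ⟨max n L', le_max_left _ _, fun m => ?_⟩
  set n' := max n L' with hn'
  have hL'n : L' ≤ n' := le_max_right _ _
  obtain ⟨R, hR⟩ := pigeon (Fin n' → Fin (m + 1)) N'
  refine ⟨R, fun V G M B hP hK hMi hMc hB h x hst hdj hnl => ?_⟩
  let col : ℕ → Fin n' → Fin (m + 1) := fun i u =>
    if hi : h i u ∈ M then ⟨(M.equivFin ⟨h i u, hi⟩).1, by
      have := (M.equivFin ⟨h i u, hi⟩).2
      omega⟩ else 0
  obtain ⟨f, hf, κ, hκ⟩ := hR col
  have hfR : ∀ i < N', f i < R := hf.2
  have hhub : ∀ i < N', ∀ j < N', ∀ u < n', h (f i) u = h (f j) u := by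
    intro i hi j hj u hu
    have h1 : col (f i) ⟨u, hu⟩ = col (f j) ⟨u, hu⟩ := by rw [hκ i hi, hκ j hj]
    have h2 : h (f i) u ∈ M := (hst _ (hfR i hi)).hubs.1 u hu
    have h3 : h (f j) u ∈ M := (hst _ (hfR j hj)).hubs.1 u hu
    simp only [col, h2, h3, dif_pos, Fin.mk.injEq] at h1
    have h4 := M.equivFin.injective (Fin.ext h1)
    exact congrArg Subtype.val h4
  obtain ⟨f', g, E, A, hf', hg, hom⟩ := hN' V G (fun i u a => x (f i) u a)
  have hF : Sub (fun i => f (f' i)) N R := hf.comp hf'
  set F : ℕ → ℕ := fun i => f (f' i) with hFdef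
  have hgn : ∀ u < L, g u < n' := fun u hu => (hg.2 u hu).trans_le hL'n
  have hginj : ∀ u < L, ∀ v < L, g u = g v → u = v := by
    intro u hu v hv huv
    rcases lt_trichotomy u v with h1 | h1 | h1
    · have := hg.1 u v h1 hv
      omega
    · exact h1
    · have := hg.1 v u h1 hu
      omega
  have hFinj : ∀ i < N, ∀ j < N, i ≠ j → F i ≠ F j := by
    intro i hi j hj hij
    rcases lt_or_gt_of_ne hij with h1 | h1
    · exact (hF.1 i j h1 hj).ne
    · exact (hF.1 j i h1 hi).ne'
  have hFR : ∀ i < N, F i < R := hF.2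
  have hN0 : 0 < N := by omega
  have hN1 : 1 < N := by omega
  set hh : ℕ → V := fun u => h (F 0) (g u) with hhdef
  set y : ℕ → ℕ → ℕ → V := fun i u a => x (F i) (g u) a with hy
  have hhub' : ∀ i < N, ∀ u < L, h (F i) (g u) = hh u := by
    intro i hi u hu
    exact hhub _ (hf'.2 i hi) _ (hf'.2 0 hN0) _ (hgn u hu)
  have hcl : ∀ i < N, Clq G B M L p hh (y i) := by
    intro i hi
    exact Claim1.clq_congr ((hst _ (hFR i hi)).reindex hgn hginj) (hhub' i hi)
  have hdj' : ∀ i < N, ∀ j < N, i ≠ j → ∀ u < L, ∀ v < L, y i u 0 ≠ y j v 0 := by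
    intro i hi j hj hij u hu v hv
    exact hdj _ (hFR i hi) _ (hFR j hj) (hFinj i hi j hj hij) _ (hgn u hu) _ (hgn v hv)
  have hom' : HomF G N L p y E A := hom
  by_cases hA : A .lt 0 0
  · by_cases hA' : A .gt 0 0
    · -- linked
      refine hnl (F 0) (F 1) (hF.1 0 1 one_pos hN1) (hFR 1 hN1) ?_
      refine ⟨(Finset.range (e + 1)).image hh, ?_, ?_, ?_⟩
      · rw [Finset.card_image_of_injOn, Finset.card_range]
        intro u hu v hv huv
        have hu' : u < L := by
          have := Finset.mem_range.1 (Finset.mem_coe.1 hu)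
          omega
        have hv' : v < L := by
          have := Finset.mem_range.1 (Finset.mem_coe.1 hv)
          omega
        exact (hcl 0 hN0).hubs.2 u hu' v hv' huv
      · intro w hw
        obtain ⟨u, hu, rfl⟩ := Finset.mem_image.1 hw
        have hu' : u < L := by
          have := Finset.mem_range.1 hu
          omega
        exact ⟨⟨g u, hgn u hu', hhub' 0 hN0 u hu'⟩, ⟨g u, hgn u hu', hhub' 1 hN1 u hu'⟩⟩
      · intro i hi j hj hiU hjU hij
        obtain ⟨u, hu, hu1⟩ := Finset.mem_image.1 hiU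
        obtain ⟨v, hv, hv1⟩ := Finset.mem_image.1 hjU
        have hu' : u < L := by
          have := Finset.mem_range.1 hu
          omega
        have hv' : v < L := by
          have := Finset.mem_range.1 hv
          omega
        have hi' : i = g u := by
          refine (hst _ (hFR 0 hN0)).hubs.2 i hi (g u) (hgn u hu') ?_
          rw [← hu1]
        have hj' : j = g v := by
          refine (hst _ (hFR 1 hN1)).hubs.2 j hj (g v) (hgn v hv') ?_
          rw [← hv1, hhub' 1 hN1 v hv']
        subst hi' hj'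
        have huv : u ≠ v := by
          rintro rfl
          apply hij
          rw [hhub' 0 hN0 u hu', hhub' 1 hN1 u hu']
        have h1 := (hom' 0 1 one_pos hN1 u hu' v hv' 0 (Nat.zero_le _) 0 (Nat.zero_le _)).2
        refine h1.2 ?_
        rcases lt_or_gt_of_ne huv with h2 | h2
        · rw [compare_lt_iff_lt.2 h2]
          exact hA
        · rw [compare_gt_iff_gt.2 h2]
          exact hA'
    · -- reverse the indices
      have hlt : ∀ u < L, L - 1 - u < L := fun u hu => by omega
      obtain ⟨q, hq⟩ := clq_chain k s N L p hk hkN hsN hkL hsL hK M B hMi hB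
        (fun u => hh (L - 1 - u)) (fun i u a => y i (L - 1 - u) a)
        (fun i hi => (hcl i hi).reindex hlt (fun u hu v hv huv => by omega))
        (fun i hi j hj hij u hu v hv => hdj' i hi j hj hij _ (hlt u hu) _ (hlt v hv))
        (fun o a b => E o.swap a b) (fun o a b => A o.swap a b)
        (fun i j hij hj u hu v hv a ha b hb => by
          have h1 := hom' i j hij hj (L - 1 - u) (hlt u hu) (L - 1 - v) (hlt v hv) a ha b hb
          have h2 : compare (L - 1 - u) (L - 1 - v) = (compare u v).swap := by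
            rcases lt_trichotomy u v with h3 | h3 | h3
            · rw [compare_lt_iff_lt.2 h3, compare_gt_iff_gt.2 (by omega)]
              rfl
            · subst h3
              simp
            · rw [compare_gt_iff_gt.2 h3, compare_lt_iff_lt.2 (by omega)]
              rfl
          rw [h2] at h1
          exact h1) hA'
      exact hP q hq
  · obtain ⟨q, hq⟩ := clq_chain k s N L p hk hkN hsN hkL hsL hK M B hMi hB hh y hcl hdj' E A hom' hA
    exact hP q hq

end Pool.Agent.TIA
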