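import Pool.Agent.TIA.Ram

/-!
# Transv: independent transversals in `K_{s,s}`-free graphs

`m` families `w u 0, ..., w u (q-1)` (`u < m`), each consisting of `q` distinct pairwise nonadjacent vertices. Let
`q` be the Ramsey number (`ramsey2`) of `max (2s) (max m 3)` for the colour `(i, j) ↦ ((u, v) ↦ (w u i = w v j,
G.Adj (w u i) (w v j)))`, `u, v < m`. On the homogeneous set `f`: for `u < v` (or any `u ≠ v`) and `i < j` the vertices
`w u (f i)`, `w v (f j)` are distinct (otherwise `w v (f 1) = w u (f 0) = w v (f 2)`) and nonadjacent (otherwise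
`{w u (f i) : i < s}` and `{w v (f j) : s ≤ j < 2s}` form a `K_{s,s}`). Choose `g u = f u` (for `u < v` the
indices satisfy `f u < f v`).
-/

namespace Pool.Agent.TIA

theorem Transv_card {V : Type} [DecidableEq V] (w : ℕ → V) (f : ℕ → ℕ) (F : Finset ℕ)
    (h : ∀ i ∈ F, ∀ j ∈ F, w (f i) = w (f j) → i = j) :
    (F.image fun i => w (f i)).card = F.card :=
  Finset.card_image_of_injOn (fun i hi j hj hij => h i hi j hj hij)

theorem transversal (s m : ℕ) : ∃ q, ∀ (V : Type) (G : SimpleGraph V), KFree G s →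
    ∀ w : ℕ → ℕ → V, (∀ u < m, ∀ i < q, ∀ j < q, i ≠ j → w u i ≠ w u j ∧ ¬ G.Adj (w u i) (w u j)) →
    ∃ g : ℕ → ℕ, (∀ u < m, g u < q) ∧ ∀ u < m, ∀ v < m, u ≠ v →
      w u (g u) ≠ w v (g v) ∧ ¬ G.Adj (w u (g u)) (w v (g v)) := by
  classical
  obtain ⟨q, hq⟩ := ramsey2 (Fin m → Fin m → Prop × Prop) (max (2 * s) (max m 3))
  refine ⟨q, ?_⟩
  intro V G hK w hw
  obtain ⟨f, ⟨hf1, hf2⟩, κ, hκ⟩ := hq (fun i j u v => (w u i = w v j, G.Adj (w u i) (w v j)))
  have hN1 : 2 * s ≤ max (2 * s) (max m 3) := le_max_left _ _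
  have hN2 : m ≤ max (2 * s) (max m 3) := (le_max_left _ _).trans (le_max_right _ _)
  have hN3 : 3 ≤ max (2 * s) (max m 3) := (le_max_right _ _).trans (le_max_right _ _)
  generalize max (2 * s) (max m 3) = N at *
  have hE : ∀ (u v : Fin m) (i j : ℕ), i < j → j < N →
      ((w u (f i) = w v (f j)) ↔ (κ u v).1) ∧ (G.Adj (w u (f i)) (w v (f j)) ↔ (κ u v).2) := by
    intro u v i j hij hj
    have h := congrFun (congrFun (hκ i j hij hj) u) v
    constructor
    · exact iff_of_eq (congrArg Prod.fst h)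
    · exact iff_of_eq (congrArg Prod.snd h)
  have hne : ∀ i < N, ∀ j < N, i ≠ j → f i ≠ f j := by
    intro i hi j hj hij
    rcases lt_or_gt_of_ne hij with h | h
    · exact (hf1 i j h hj).ne
    · exact (hf1 j i h hi).ne'
  have hw' : ∀ u < m, ∀ i < N, ∀ j < N, i ≠ j →
      w u (f i) ≠ w u (f j) ∧ ¬ G.Adj (w u (f i)) (w u (f j)) := by
    intro u hu i hi j hj hij
    exact hw u hu _ (hf2 i hi) _ (hf2 j hj) (hne i hi j hj hij)
  have h1 : ∀ u v : Fin m, ¬ (κ u v).1 := by
    intro u v h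
    have e1 := ((hE u v 0 1 (by omega) (by omega)).1).2 h
    have e2 := ((hE u v 0 2 (by omega) (by omega)).1).2 h
    exact (hw' v v.2 1 (by omega) 2 (by omega) (by omega)).1 (e1.symm.trans e2)
  have h2 : ∀ u v : Fin m, ¬ (κ u v).2 := by
    intro u v h
    have hi1 : ∀ i ∈ Finset.range s, ∀ j ∈ Finset.range s,
        w u (f i) = w u (f j) → i = j := by
      intro i hi j hj hij
      rw [Finset.mem_range] at hi hj
      by_contra hne'
      exact (hw' u u.2 i (by omega) j (by omega) hne').1 hij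
    have hi2 : ∀ i ∈ Finset.Ico s (2 * s), ∀ j ∈ Finset.Ico s (2 * s),
        w v (f i) = w v (f j) → i = j := by
      intro i hi j hj hij
      rw [Finset.mem_Ico] at hi hj
      by_contra hne'
      exact (hw' v v.2 i (by omega) j (by omega) hne').1 hij
    have c1 := Transv_card (w u) f (Finset.range s) hi1
    have c2 := Transv_card (w v) f (Finset.Ico s (2 * s)) hi2
    refine hK ((Finset.range s).image fun i => w u (f i))
      ((Finset.Ico s (2 * s)).image fun i => w v (f i)) ?_ ?_ ?_ ?_ ?_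
    · intro x hx y hy
      rw [Finset.mem_coe, Finset.mem_image] at hx hy
      obtain ⟨i, hi, rfl⟩ := hx
      obtain ⟨j, hj, rfl⟩ := hy
      rw [Finset.mem_range] at hi hj
      by_cases hij : i = j
      · subst hij
        exact G.loopless.irrefl _
      · exact (hw' u u.2 i (by omega) j (by omega) hij).2
    · intro x hx y hy
      rw [Finset.mem_coe, Finset.mem_image] at hx hy
      obtain ⟨i, hi, rfl⟩ := hx
      obtain ⟨j, hj, rfl⟩ := hy
      rw [Finset.mem_Ico] at hi hj
      by_cases hij : i = j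
      · subst hij
        exact G.loopless.irrefl _
      · exact (hw' v v.2 i (by omega) j (by omega) hij).2
    · intro x hx y hy
      rw [Finset.mem_image] at hx hy
      obtain ⟨i, hi, rfl⟩ := hx
      obtain ⟨j, hj, rfl⟩ := hy
      rw [Finset.mem_range] at hi
      rw [Finset.mem_Ico] at hj
      exact ((hE u v i j (by omega) (by omega)).2).2 h
    · rw [c1, Finset.card_range]
    · rw [c2, Nat.card_Ico]
      omega
  refine ⟨f, fun u hu => hf2 u (by omega), ?_⟩
  intro u hu v hv huv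
  rcases lt_or_gt_of_ne huv with h | h
  · have e := hE ⟨u, hu⟩ ⟨v, hv⟩ u v h (by omega)
    exact ⟨fun h' => h1 _ _ (e.1.1 h'), fun h' => h2 _ _ (e.2.1 h')⟩
  · have e := hE ⟨v, hv⟩ ⟨u, hu⟩ v u h (by omega)
    exact ⟨fun h' => h1 _ _ (e.1.1 h'.symm), fun h' => h2 _ _ (e.2.1 h'.symm)⟩

end Pool.Agent.TIA
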