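import Pool.Agent.TIA.Comb
import Pool.Agent.TIA.Transv
import Pool.Agent.TIA.AlB

/-!
# Claim2: the second claim on clique-type structures (section H of the notes)

`N` from `comb s p n` (with `P = p`); `q'` from `transversal s N` (as a bound: `al ≤ q'` fails means more than `q'`,
so at least `q'` independent vertices); `e = (p + 1) * N + 2`.
Suppose `al (T_u) > q'` for every `u ∈ U`. For `u ∈ U` (number the elements of `U` by `h0 : {0..e-1} → V`
injective) `exists_seq_of_lt` gives independent vertices `w u 0, ..., w u q'` in `T_u`; for each of them the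
structure `Y` in the definition of `T_u` provides a leg `y` (length `p`, in `B`) to the hub `u` with `y 0 = w u i` and
`c` adjacent to `y 0` (as `u ∈ U`; the index of `u` in `Y` is unique since hubs are injective). `c` is not on the
leg: `c ≠ y 0` (adjacent); `c = y a` with `a ≥ 1` contradicts that `c` is adjacent to the clique vertex of another
`v ∈ U` (`U` has `≥ 2` elements), `Clq.cross`.
Let `last(u,i)` be the last `a ≤ p` with `G.Adj c (y a)`. Case 1: for at least `N` of the `u` with a common value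
`a ≥ 1` there is an `i` with `last(u,i) = a` (pigeonhole over `a ∈ {1..p}`): legs cut at `a` (length `p - a`),
centre `c`: `comb` gives `HasStar n` or `HasClq n p'` with `p' ≤ p - a < p`: contradiction.
Case 2: otherwise for at least `N` of the `u ∈ U` all `last(u,i) = 0` (`e - p * N ≥ N`). `transversal` gives one `i` for
each of these `u` such that the `w u i` are distinct and pairwise nonadjacent: `comb` with legs of length `p`,
centre `c`; its last part gives `p' < p`: contradiction.
-/

namespace Pool.Agent.TIA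

/-- the vertices `c_Y(u)` for the structures `Y` whose hubs contain `U` and with `c` adjacent to all `c_Y(v)`,
`v ∈ U` -/
def TSet {V : Type} (G : SimpleGraph V) (B : Set V) (M : Finset V) (p n' : ℕ) (c : V)
    (U : Finset V) (u : V) : Set V :=
  {w | ∃ h x, Clq G B M n' p h x ∧ (∀ v ∈ U, ∃ j < n', h j = v ∧ G.Adj c (x j 0)) ∧
    ∃ i < n', h i = u ∧ x i 0 = w}

theorem Claim2_enum {V : Type} (c : V) (F : Finset V) {N : ℕ} (hN : N ≤ F.card) :
    ∃ f : ℕ → V, (∀ i < N, f i ∈ F) ∧ ∀ i < N, ∀ j < N, f i = f j → i = j := by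
  classical
  refine ⟨fun i => if h : i < F.card then (F.equivFin.symm ⟨i, h⟩ : V) else c, ?_, ?_⟩
  · intro i hi
    have h : i < F.card := by omega
    simp only [dif_pos h]
    exact (F.equivFin.symm ⟨i, h⟩).2
  · intro i hi j hj hij
    have h : i < F.card := by omega
    have h' : j < F.card := by omega
    simp only [dif_pos h, dif_pos h'] at hij
    have := F.equivFin.symm.injective (Subtype.ext hij)
    exact congrArg Fin.val this

/-- the last index with the property -/
theorem Claim2_last {p b : ℕ} {Q : ℕ → Prop} (hb : b ≤ p) (hQ : Q b) :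
    ∃ a, b ≤ a ∧ a ≤ p ∧ Q a ∧ ∀ a', a < a' → a' ≤ p → ¬ Q a' := by
  classical
  refine ⟨Nat.findGreatest Q p, Nat.le_findGreatest hb hQ, Nat.findGreatest_le p,
    Nat.findGreatest_spec hb hQ, ?_⟩
  intro a' h1 h2
  exact Nat.findGreatest_is_greatest h1 h2

/-- the legs provided by `TSet` -/
theorem Claim2_leg {V : Type} {G : SimpleGraph V} {B : Set V} {M : Finset V} {p n' : ℕ} {c : V}
    {U : Finset V} {u : V} (hU2 : ∃ v ∈ U, v ≠ u) (hu : u ∈ U) {w : V}
    (hw : w ∈ TSet G B M p n' c U u) :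
    ∃ y : ℕ → V, Leg G B p y u ∧ y 0 = w ∧ G.Adj c (y 0) ∧ ∀ a ≤ p, c ≠ y a := by
  obtain ⟨h, x, hY, hadj, j, hj, hju, hjw⟩ := hw
  have hcj : G.Adj c (x j 0) := by
    obtain ⟨j', hj', h1, h2⟩ := hadj u hu
    have : j' = j := hY.hubs.2 j' hj' j hj (h1.trans hju.symm)
    rw [← this]; exact h2
  refine ⟨x j, ?_, hjw, hcj, ?_⟩
  · have := hY.leg j hj
    rw [hju] at this
    exact this
  · intro a ha hc
    rcases Nat.eq_zero_or_pos a with h0 | h0
    · subst h0
      rw [← hc] at hcj
      exact G.loopless.irrefl _ hcj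
    · obtain ⟨v, hv, hvu⟩ := hU2
      obtain ⟨j', hj', h1, h2⟩ := hadj v hv
      have hne : j ≠ j' := by
        rintro rfl
        exact hvu (h1.symm.trans hju)
      rw [hc] at h2
      have := (hY.cross j hj j' hj' hne a ha 0 (by omega)).2.1 h2
      omega

theorem claim2 (s p n : ℕ) : ∃ e q', 2 ≤ e ∧ ∀ (V : Type) [Finite V] (G : SimpleGraph V)
    (M : Finset V) (B : Set V), KFree G s → Sparse G B M s → (∀ b ∈ B, b ∉ M) →
    ¬ HasStar G B M n → (∀ p' < p, ¬ HasClq G B M n p') → ∀ n', ∀ c ∈ B, ∀ U : Finset V,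
    U ⊆ M → U.card = e → ∃ u ∈ U, al G (TSet G B M p n' c U u) ≤ q' := by
  classical
  obtain ⟨N, hN⟩ := comb s p n
  obtain ⟨q', hq'⟩ := transversal s N
  refine ⟨(p + 1) * N + 2, q', by omega, ?_⟩
  intro V _ G M B hK hSp hB hnS hnC n' c hc U hUM hUc
  by_contra hcon
  push Not at hcon
  have hU2 : ∀ u, ∃ v ∈ U, v ≠ u := by
    intro u
    by_contra h
    push Not at h
    have h1 : U ⊆ {u} := by
      intro v hv
      rw [Finset.mem_singleton]; exact h v hv
    have h2 := Finset.card_le_card h1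
    rw [Finset.card_singleton] at h2
    omega
  have hseq : ∀ u ∈ U, ∃ r : ℕ → V, (∀ i < q' + 1, r i ∈ TSet G B M p n' c U u) ∧
      ∀ i < q' + 1, ∀ j < q' + 1, i ≠ j → r i ≠ r j ∧ ¬ G.Adj (r i) (r j) := by
    intro u hu
    exact exists_seq_of_lt (Set.toFinite _) (hcon u hu)
  choose! w hw1 hw2 using hseq
  have hlegs : ∀ u ∈ U, ∀ i < q' + 1, ∃ y : ℕ → V, Leg G B p y u ∧ y 0 = w u i ∧
      G.Adj c (y 0) ∧ ∀ a ≤ p, c ≠ y a := by
    intro u hu i hi
    exact Claim2_leg (hU2 u) hu (hw1 u hu i hi)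
  have hlegs' : ∀ u, ∀ i, ∃ y : ℕ → V, (u ∈ U → i < q' + 1 → Leg G B p y u ∧ y 0 = w u i ∧
      G.Adj c (y 0) ∧ ∀ a ≤ p, c ≠ y a) := by
    intro u i
    by_cases h : u ∈ U ∧ i < q' + 1
    · obtain ⟨y, hy⟩ := hlegs u h.1 i h.2
      exact ⟨y, fun _ _ => hy⟩
    · exact ⟨fun _ => c, fun h1 h2 => absurd ⟨h1, h2⟩ h⟩
  choose Y hY using hlegs'
  let Q : ℕ → V → Prop := fun a u => ∃ i < q' + 1, G.Adj c (Y u i a) ∧
    ∀ b, a < b → b ≤ p → ¬ G.Adj c (Y u i b)
  by_cases hcase : ∃ a, 1 ≤ a ∧ a ≤ p ∧ N ≤ (U.filter (Q a)).card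
  · obtain ⟨a, ha1, hap, hcard⟩ := hcase
    obtain ⟨f, hf1, hf2⟩ := Claim2_enum c _ hcard
    have hfU : ∀ i < N, f i ∈ U := fun i hi => (Finset.mem_filter.1 (hf1 i hi)).1
    have hfQ : ∀ i, ∃ ι, i < N → ι < q' + 1 ∧ G.Adj c (Y (f i) ι a) ∧
        ∀ b, a < b → b ≤ p → ¬ G.Adj c (Y (f i) ι b) := by
      intro i
      by_cases hi : i < N
      · obtain ⟨ι, h1, h2, h3⟩ := (Finset.mem_filter.1 (hf1 i hi)).2
        exact ⟨ι, fun _ => ⟨h1, h2, h3⟩⟩
      · exact ⟨0, fun h => absurd h hi⟩
    choose ι hι using hfQ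
    have key := hN V G M B hK hSp hB (p - a) (by omega) c f (fun i b => Y (f i) (ι i) (a + b)) hc
      ⟨fun i hi => hUM (hfU i hi), hf2⟩ ?_ ?_
    · rcases key with key | ⟨p', hp', key, _⟩
      · exact hnS key
      · exact hnC p' (by omega) key
    · intro i hi
      have h1 := (hY (f i) (ι i) (hfU i hi) (hι i hi).1).1
      refine ⟨fun b hb => h1.1 (a + b) (by omega), ?_, ?_⟩
      · exact IPath.shift h1.2.1 (by omega)
      · intro b hb
        rw [h1.2.2 (a + b) (by omega)]
        omega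
    · intro i hi b hb
      have h1 := (hY (f i) (ι i) (hfU i hi) (hι i hi).1).2.2.2
      refine ⟨h1 (a + b) (by omega), ?_⟩
      constructor
      · intro hadj
        by_contra hb0
        exact (hι i hi).2.2 (a + b) (by omega) (by omega) hadj
      · rintro rfl
        exact (hι i hi).2.1
  · push Not at hcase
    have hcard : N ≤ (U \ (Finset.Icc 1 p).biUnion fun a => U.filter (Q a)).card := by
      have h1 := Finset.le_card_sdiff ((Finset.Icc 1 p).biUnion fun a => U.filter (Q a)) U
      have h2 : ((Finset.Icc 1 p).biUnion fun a => U.filter (Q a)).card ≤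
          (Finset.Icc 1 p).card * N := by
        refine Finset.card_biUnion_le_card_mul _ _ _ ?_
        intro a ha
        rw [Finset.mem_Icc] at ha
        exact (hcase a ha.1 ha.2).le
      rw [Nat.card_Icc] at h2
      have h3 : p + 1 - 1 = p := by omega
      rw [h3] at h2
      have h4 : (p + 1) * N = p * N + N := by ring
      omega
    obtain ⟨f, hf1, hf2⟩ := Claim2_enum c _ hcard
    have hfU : ∀ i < N, f i ∈ U := fun i hi => (Finset.mem_sdiff.1 (hf1 i hi)).1
    have hf0 : ∀ i < N, ∀ ι < q' + 1, ∀ b ≤ p, G.Adj c (Y (f i) ι b) → b = 0 := by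
      intro i hi ι hι b hb hadj
      by_contra hb0
      obtain ⟨a, h1, h2, h3, h4⟩ := Claim2_last (Q := fun b => G.Adj c (Y (f i) ι b)) hb hadj
      apply (Finset.mem_sdiff.1 (hf1 i hi)).2
      rw [Finset.mem_biUnion]
      refine ⟨a, Finset.mem_Icc.2 ⟨by omega, h2⟩, ?_⟩
      rw [Finset.mem_filter]
      exact ⟨hfU i hi, ι, hι, h3, h4⟩
    obtain ⟨g, hg1, hg2⟩ := hq' V G hK (fun u i => w (f u) i) (by
      intro u hu i hi j hj hij
      exact hw2 (f u) (hfU u hu) i (by omega) j (by omega) hij)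
    have key := hN V G M B hK hSp hB p le_rfl c f (fun i b => Y (f i) (g i) b) hc
      ⟨fun i hi => hUM (hfU i hi), hf2⟩ ?_ ?_
    · rcases key with key | ⟨p', hp', key, hlt⟩
      · exact hnS key
      · refine hnC p' (hlt ?_) key
        intro i hi j hj hij
        have e1 := (hY (f i) (g i) (hfU i hi) (by have := hg1 i hi; omega)).2.1
        have e2 := (hY (f j) (g j) (hfU j hj) (by have := hg1 j hj; omega)).2.1
        rw [e1, e2]
        exact hg2 i hi j hj hij
    · intro i hi
      exact (hY (f i) (g i) (hfU i hi) (by have := hg1 i hi; omega)).1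
    · intro i hi b hb
      have h1 := hY (f i) (g i) (hfU i hi) (by have := hg1 i hi; omega)
      refine ⟨h1.2.2.2 b hb, ?_⟩
      constructor
      · exact hf0 i hi (g i) (by have := hg1 i hi; omega) b hb
      · rintro rfl
        exact h1.2.2.1

end Pool.Agent.TIA
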