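import Pool.Agent.TIA.Defs

/-!
# StructB: passing to sub-structures

Restriction of structures to fewer legs (any injective re-indexing `g` of `{0..L-1}` into `{0..n-1}`) and
monotonicity in `B`. Immediate from the definitions.
-/

namespace Pool.Agent.TIA

variable {V : Type} {G : SimpleGraph V} {B B' : Set V} {M : Finset V} {n p L : ℕ} {z : V}
  {h : ℕ → V} {x : ℕ → ℕ → V} {g : ℕ → ℕ}

theorem StructB_hubs (hs : Hubs M n h) (hg : ∀ i < L, g i < n)
    (hi : ∀ i < L, ∀ j < L, g i = g j → i = j) : Hubs M L (fun i => h (g i)) :=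
  ⟨fun i hL => hs.1 _ (hg i hL),
    fun i hL j hL' e => hi i hL j hL' (hs.2 _ (hg i hL) _ (hg j hL') e)⟩

theorem StructB_leg {q : ℕ → V} {v : V} (hs : Leg G B p q v) (hB : B ⊆ B') : Leg G B' p q v :=
  ⟨fun a ha => hB (hs.1 a ha), hs.2.1, hs.2.2⟩

theorem Star.reindex (hs : Star G B M n p z h x) (hg : ∀ i < L, g i < n)
    (hi : ∀ i < L, ∀ j < L, g i = g j → i = j) :
    Star G B M L p z (fun i => h (g i)) (fun i => x (g i)) where
  cen := hs.cen
  hubs := StructB_hubs hs.hubs hg hi
  leg := fun i hL => hs.leg _ (hg i hL)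
  cenHub := fun i hL => hs.cenHub _ (hg i hL)
  cenLeg := fun i hL => hs.cenLeg _ (hg i hL)
  cross := fun i hL j hL' hne =>
    hs.cross _ (hg i hL) _ (hg j hL') (fun e => hne (hi i hL j hL' e))
  crossHub := fun i hL j hL' hne =>
    hs.crossHub _ (hg i hL) _ (hg j hL') (fun e => hne (hi i hL j hL' e))

theorem Clq.reindex (hs : Clq G B M n p h x) (hg : ∀ i < L, g i < n)
    (hi : ∀ i < L, ∀ j < L, g i = g j → i = j) :
    Clq G B M L p (fun i => h (g i)) (fun i => x (g i)) where
  hubs := StructB_hubs hs.hubs hg hi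
  leg := fun i hL => hs.leg _ (hg i hL)
  cross := fun i hL j hL' hne =>
    hs.cross _ (hg i hL) _ (hg j hL') (fun e => hne (hi i hL j hL' e))
  crossHub := fun i hL j hL' hne =>
    hs.crossHub _ (hg i hL) _ (hg j hL') (fun e => hne (hi i hL j hL' e))

theorem Star.mono (hs : Star G B M n p z h x) (hB : B ⊆ B') : Star G B' M n p z h x where
  cen := hB hs.cen
  hubs := hs.hubs
  leg := fun i hi => StructB_leg (hs.leg i hi) hB
  cenHub := hs.cenHub
  cenLeg := hs.cenLeg
  cross := hs.cross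
  crossHub := hs.crossHub

/-- A clique-type structure in `B'` all of whose legs lie in `B`. -/
theorem Clq.mono (hs : Clq G B M n p h x) (hB : B ⊆ B') : Clq G B' M n p h x where
  hubs := hs.hubs
  leg := fun i hi => StructB_leg (hs.leg i hi) hB
  cross := hs.cross
  crossHub := hs.crossHub

theorem HasStar.anti (hs : HasStar G B M n) (hL : L ≤ n) (hB : B ⊆ B') : HasStar G B' M L := by
  obtain ⟨p, z, h, x, hs⟩ := hs
  exact ⟨p, z, _, _, (hs.mono hB).reindex (g := fun i => i) (fun i hi => lt_of_lt_of_le hi hL)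
    (fun i _ j _ e => e)⟩

theorem HasClq.anti (hs : HasClq G B M n p) (hL : L ≤ n) (hB : B ⊆ B') : HasClq G B' M L p := by
  obtain ⟨h, x, hs⟩ := hs
  exact ⟨_, _, (hs.mono hB).reindex (g := fun i => i) (fun i hi => lt_of_lt_of_le hi hL)
    (fun i _ j _ e => e)⟩

theorem Sparse.mono {s : ℕ} (h : Sparse G B' M s) (hB : B ⊆ B') : Sparse G B M s :=
  fun b hb => h b (hB hb)

end Pool.Agent.TIA
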