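import Pool.Agent.TIA.Chain
import Pool.Agent.TIA.StructB

/-!
# ClqCh: many clique-type structures with the same hubs give an induced path (section G, case `A .lt`)

`N` structures `Clq G B M L p h (x i)` (same hubs `h u`, `u < L`), the cliques `{x i u 0 : u < L}` pairwise disjoint,
`HomF` with tables `E`, `A` and `A .lt 0 0` false.
1. `E .lt a b`, `E .gt a b` are false (`x i u a = x j v b = x j w b`, legs of one structure are disjoint;
   for `.gt` use two values of the larger index `u`).
2. `E .eq a b → a = b` (three structures, as in StarCh), `E .eq 0 0` false (disjoint cliques).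
3. `a0` = least `a ≤ p` with `E .eq a a`, or `p + 1`; `a0 ≥ 1`; `e u = x 0 u a0` (`= x j u a0` for all `j < N`) or
   `e u = h u`.
4. `A .lt a b` false for `a, b < a0`: (0,0) hypothesis. (a,b ≥ 1): `{x 0 u a : u < s}` against
   `{x 1 v b : s ≤ v < 2s}` (independent: legs at levels `≥ 1` are anticomplete): `K_{s,s}`.
   (0,b), b ≥ 1: `{x i i 0 : i < s}` is independent (pairs `i < i'`, `u = i < u' = i'`: `A .lt 0 0` false;
   distinct by 1.), complete to `{x s v b : s ≤ v < 2s}` (`i < s`, `u = i < v`): `K_{s,s}`.
   (a,0), a ≥ 1: `{x 0 u a : u < s}` against `{x j (s+j) 0 : 1 ≤ j ≤ s}`.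
5. `chain` with `K = k`: c1, c1' legs; c2: equal or adjacent (clique); c3 = 1. + 4.; c4: `e u = x j u a0`, `a0 ≥ 1`,
   against `x j v b`: `cross`; hub case: `crossHub`, `h u ∉ B`; c5: `cross`, resp. `Ind G M`; c6a: 2.; c6b, c6c:
   injectivity of the leg (`h u ∉ B`); c6d: `cross`.
-/

namespace Pool.Agent.TIA

variable {V : Type} {G : SimpleGraph V}

theorem clq_chain (k s N L p : ℕ) (hk : 1 ≤ k) (hN : k + 1 ≤ N) (hN' : s + 3 ≤ N) (hL : k ≤ L)
    (hL' : 2 * s + 3 ≤ L) (hK : KFree G s) (M : Finset V) (B : Set V)
    (hM : Ind G (M : Set V)) (hB : ∀ b ∈ B, b ∉ M) (h : ℕ → V) (x : ℕ → ℕ → ℕ → V)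
    (hst : ∀ i < N, Clq G B M L p h (x i))
    (hr : ∀ i < N, ∀ j < N, i ≠ j → ∀ u < L, ∀ v < L, x i u 0 ≠ x j v 0)
    (E A : Ordering → ℕ → ℕ → Prop) (hom : HomF G N L p x E A) (hA : ¬ A .lt 0 0) :
    ∃ q, IPath G k q := by
  classical
  -- basic tools
  have cross : ∀ i < N, ∀ u < L, ∀ v < L, u ≠ v → ∀ a ≤ p, ∀ b ≤ p,
      x i u a ≠ x i v b ∧ (G.Adj (x i u a) (x i v b) ↔ (a = 0 ∧ b = 0)) := by
    intro i hi u hu v hv huv a ha b hb
    exact (hst i hi).cross u hu v hv huv a ha b hb
  have linj : ∀ i < N, ∀ u < L, ∀ a ≤ p, ∀ b ≤ p, x i u a = x i u b → a = b := by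
    intro i hi u hu a ha b hb hab
    exact ((hst i hi).leg u hu).2.1.1 a (by omega) b (by omega) hab
  have ladj : ∀ i < N, ∀ u < L, ∀ a, a + 1 ≤ p → G.Adj (x i u a) (x i u (a + 1)) := by
    intro i hi u hu a ha
    exact (((hst i hi).leg u hu).2.1.2 a (by omega) (a + 1) (by omega)).2 (Or.inr rfl)
  have hlt : ∀ u v : ℕ, u < v → compare u v = .lt := fun u v huv => by
    exact Nat.compare_eq_lt.2 huv
  have heq : ∀ u : ℕ, compare u u = .eq := fun u => by
    exact Nat.compare_eq_eq.2 rfl
  have homlt : ∀ i j, i < j → j < N → ∀ u v, u < v → v < L → ∀ a ≤ p, ∀ b ≤ p,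
      (x i u a = x j v b ↔ E .lt a b) ∧ (G.Adj (x i u a) (x j v b) ↔ A .lt a b) := by
    intro i j hij hj u v huv hv a ha b hb
    have := hom i j hij hj u (by omega) v hv a ha b hb
    rw [hlt u v huv] at this
    exact this
  have homeq : ∀ i j, i < j → j < N → ∀ u < L, ∀ a ≤ p, ∀ b ≤ p,
      (x i u a = x j u b ↔ E .eq a b) ∧ (G.Adj (x i u a) (x j u b) ↔ A .eq a b) := by
    intro i j hij hj u hu a ha b hb
    have := hom i j hij hj u hu u hu a ha b hb
    rw [heq u] at this
    exact this
  -- 1
  have E1 : ∀ a ≤ p, ∀ b ≤ p, ¬ E .lt a b := by
    intro a ha b hb hE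
    have e1 := (homlt 0 1 (by omega) (by omega) 0 1 (by omega) (by omega) a ha b hb).1.2 hE
    have e2 := (homlt 0 1 (by omega) (by omega) 0 2 (by omega) (by omega) a ha b hb).1.2 hE
    exact (cross 1 (by omega) 1 (by omega) 2 (by omega) (by omega) b hb b hb).1 (e1.symm.trans e2)
  -- 2
  have E2 : ∀ a ≤ p, ∀ b ≤ p, E .eq a b → a = b := by
    intro a ha b hb hE
    have e1 := (homeq 0 1 (by omega) (by omega) 0 (by omega) a ha b hb).1.2 hE
    have e2 := (homeq 0 2 (by omega) (by omega) 0 (by omega) a ha b hb).1.2 hE
    have e3 := (homeq 1 2 (by omega) (by omega) 0 (by omega) a ha b hb).1.2 hE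
    exact linj 1 (by omega) 0 (by omega) a ha b hb (e3.trans (e2.symm.trans e1))
  have E0 : ¬ E .eq 0 0 := by
    intro hE
    have e1 := (homeq 0 1 (by omega) (by omega) 0 (by omega) 0 (by omega) 0 (by omega)).1.2 hE
    exact hr 0 (by omega) 1 (by omega) (by omega) 0 (by omega) 0 (by omega) e1
  -- 3
  have hex : ∃ a, E .eq a a ∨ a = p + 1 := ⟨p + 1, Or.inr rfl⟩
  obtain ⟨a0, ha0, hmin⟩ : ∃ a0, (E .eq a0 a0 ∨ a0 = p + 1) ∧
      ∀ a < a0, ¬ (E .eq a a ∨ a = p + 1) := ⟨Nat.find hex, Nat.find_spec hex,
      fun a ha => Nat.find_min hex ha⟩
  have ha0p : a0 ≤ p + 1 := by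
    by_contra hc
    exact hmin (p + 1) (by omega) (Or.inr rfl)
  have ha01 : 1 ≤ a0 := by
    by_contra hc
    have h0 : a0 = 0 := by omega
    rw [h0] at ha0
    rcases ha0 with h1 | h1
    · exact E0 h1
    · omega
  -- 4
  have A1 : ∀ a < a0, ∀ b < a0, ¬ A .lt a b := by
    intro a ha b hb hAab
    have hap : a ≤ p := by omega
    have hbp : b ≤ p := by omega
    rcases Nat.eq_zero_or_pos a with ha' | ha'
    · subst ha'
      rcases Nat.eq_zero_or_pos b with hb' | hb'
      · subst hb'
        exact hA hAab
      · -- (0,b)
        refine hK ((Finset.range s).image (fun i => x i i 0))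
          ((Finset.range s).image (fun v => x s (s + v) b)) ?_ ?_ ?_ ?_ ?_
        · intro y hy z hz
          simp only [Finset.coe_image, Set.mem_image, Finset.coe_range, Set.mem_Iio] at hy hz
          obtain ⟨i, hi, rfl⟩ := hy
          obtain ⟨j, hj, rfl⟩ := hz
          rcases lt_trichotomy i j with hij | hij | hij
          · intro hadj
            exact hA ((homlt i j hij (by omega) i j hij (by omega) 0 (by omega) 0 (by omega)).2.1
              hadj)
          · subst hij
            exact G.loopless.irrefl _
          · intro hadj
            exact hA ((homlt j i hij (by omega) j i hij (by omega) 0 (by omega) 0 (by omega)).2.1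
              hadj.symm)
        · intro y hy z hz
          simp only [Finset.coe_image, Set.mem_image, Finset.coe_range, Set.mem_Iio] at hy hz
          obtain ⟨i, hi, rfl⟩ := hy
          obtain ⟨j, hj, rfl⟩ := hz
          by_cases hij : i = j
          · subst hij
            exact G.loopless.irrefl _
          · intro hadj
            have := (cross s (by omega) (s + i) (by omega) (s + j) (by omega) (by omega) b hbp b
              hbp).2.1 hadj
            omega
        · intro y hy z hz
          simp only [Finset.mem_image, Finset.mem_range] at hy hz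
          obtain ⟨i, hi, rfl⟩ := hy
          obtain ⟨j, hj, rfl⟩ := hz
          exact (homlt i s hi (by omega) i (s + j) (by omega) (by omega) 0 (by omega) b hbp).2.2
            hAab
        · rw [Finset.card_image_of_injOn]
          · simp
          · intro i hi j hj hij
            simp only [Finset.coe_range, Set.mem_Iio] at hi hj
            simp only at hij
            rcases lt_trichotomy i j with h1 | h1 | h1
            · exact absurd ((homlt i j h1 (by omega) i j h1 (by omega) 0 (by omega) 0
                (by omega)).1.1 hij) (E1 0 (by omega) 0 (by omega))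
            · exact h1
            · exact absurd ((homlt j i h1 (by omega) j i h1 (by omega) 0 (by omega) 0
                (by omega)).1.1 hij.symm) (E1 0 (by omega) 0 (by omega))
        · rw [Finset.card_image_of_injOn]
          · simp
          · intro i hi j hj hij
            simp only [Finset.coe_range, Set.mem_Iio] at hi hj
            simp only at hij
            by_contra hne
            exact (cross s (by omega) (s + i) (by omega) (s + j) (by omega) (by omega) b hbp b
              hbp).1 hij
    · rcases Nat.eq_zero_or_pos b with hb' | hb'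
      · -- (a,0)
        subst hb'
        refine hK ((Finset.range s).image (fun u => x 0 u a))
          ((Finset.range s).image (fun j => x (j + 1) (s + (j + 1)) 0)) ?_ ?_ ?_ ?_ ?_
        · intro y hy z hz
          simp only [Finset.coe_image, Set.mem_image, Finset.coe_range, Set.mem_Iio] at hy hz
          obtain ⟨i, hi, rfl⟩ := hy
          obtain ⟨j, hj, rfl⟩ := hz
          by_cases hij : i = j
          · subst hij
            exact G.loopless.irrefl _
          · intro hadj
            have := (cross 0 (by omega) i (by omega) j (by omega) hij a hap a hap).2.1 hadj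
            omega
        · intro y hy z hz
          simp only [Finset.coe_image, Set.mem_image, Finset.coe_range, Set.mem_Iio] at hy hz
          obtain ⟨i, hi, rfl⟩ := hy
          obtain ⟨j, hj, rfl⟩ := hz
          rcases lt_trichotomy i j with hij | hij | hij
          · intro hadj
            exact hA ((homlt (i + 1) (j + 1) (by omega) (by omega) (s + (i + 1)) (s + (j + 1))
              (by omega) (by omega) 0 (by omega) 0 (by omega)).2.1 hadj)
          · subst hij
            exact G.loopless.irrefl _
          · intro hadj
            exact hA ((homlt (j + 1) (i + 1) (by omega) (by omega) (s + (j + 1)) (s + (i + 1))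
              (by omega) (by omega) 0 (by omega) 0 (by omega)).2.1 hadj.symm)
        · intro y hy z hz
          simp only [Finset.mem_image, Finset.mem_range] at hy hz
          obtain ⟨i, hi, rfl⟩ := hy
          obtain ⟨j, hj, rfl⟩ := hz
          exact (homlt 0 (j + 1) (by omega) (by omega) i (s + (j + 1)) (by omega) (by omega) a
            hap 0 (by omega)).2.2 hAab
        · rw [Finset.card_image_of_injOn]
          · simp
          · intro i hi j hj hij
            simp only [Finset.coe_range, Set.mem_Iio] at hi hj
            simp only at hij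
            by_contra hne
            exact (cross 0 (by omega) i (by omega) j (by omega) hne a hap a hap).1 hij
        · rw [Finset.card_image_of_injOn]
          · simp
          · intro i hi j hj hij
            simp only [Finset.coe_range, Set.mem_Iio] at hi hj
            simp only at hij
            rcases lt_trichotomy i j with h1 | h1 | h1
            · exact absurd ((homlt (i + 1) (j + 1) (by omega) (by omega) (s + (i + 1))
                (s + (j + 1)) (by omega) (by omega) 0 (by omega) 0
                (by omega)).1.1 hij) (E1 0 (by omega) 0 (by omega))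
            · exact h1
            · exact absurd ((homlt (j + 1) (i + 1) (by omega) (by omega) (s + (j + 1))
                (s + (i + 1)) (by omega) (by omega) 0 (by omega) 0
                (by omega)).1.1 hij.symm) (E1 0 (by omega) 0 (by omega))
      · -- (a,b)
        refine hK ((Finset.range s).image (fun u => x 0 u a))
          ((Finset.range s).image (fun v => x 1 (s + v) b)) ?_ ?_ ?_ ?_ ?_
        · intro y hy z hz
          simp only [Finset.coe_image, Set.mem_image, Finset.coe_range, Set.mem_Iio] at hy hz
          obtain ⟨i, hi, rfl⟩ := hy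
          obtain ⟨j, hj, rfl⟩ := hz
          by_cases hij : i = j
          · subst hij
            exact G.loopless.irrefl _
          · intro hadj
            have := (cross 0 (by omega) i (by omega) j (by omega) hij a hap a hap).2.1 hadj
            omega
        · intro y hy z hz
          simp only [Finset.coe_image, Set.mem_image, Finset.coe_range, Set.mem_Iio] at hy hz
          obtain ⟨i, hi, rfl⟩ := hy
          obtain ⟨j, hj, rfl⟩ := hz
          by_cases hij : i = j
          · subst hij
            exact G.loopless.irrefl _
          · intro hadj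
            have := (cross 1 (by omega) (s + i) (by omega) (s + j) (by omega) (by omega) b hbp b
              hbp).2.1 hadj
            omega
        · intro y hy z hz
          simp only [Finset.mem_image, Finset.mem_range] at hy hz
          obtain ⟨i, hi, rfl⟩ := hy
          obtain ⟨j, hj, rfl⟩ := hz
          exact (homlt 0 1 (by omega) (by omega) i (s + j) (by omega) (by omega) a hap b
            hbp).2.2 hAab
        · rw [Finset.card_image_of_injOn]
          · simp
          · intro i hi j hj hij
            simp only [Finset.coe_range, Set.mem_Iio] at hi hj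
            simp only at hij
            by_contra hne
            exact (cross 0 (by omega) i (by omega) j (by omega) hne a hap a hap).1 hij
        · rw [Finset.card_image_of_injOn]
          · simp
          · intro i hi j hj hij
            simp only [Finset.coe_range, Set.mem_Iio] at hi hj
            simp only at hij
            by_contra hne
            exact (cross 1 (by omega) (s + i) (by omega) (s + j) (by omega) (by omega) b hbp b
              hbp).1 hij
  -- 5
  have hubB : ∀ i < N, ∀ u < L, ∀ v < L, ∀ a ≤ p, h v ≠ x i u a := by
    intro i hi u hu v hv a ha he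
    exact hB _ (((hst i hi).leg u hu).1 a ha) (he ▸ (hst i hi).hubs.1 v hv)
  by_cases hcase : a0 = p + 1
  · subst hcase
    refine chain k (p + 1) hk ha01 x h ?_ ?_ ?_ ?_ ?_ ?_ ?_ ?_ ?_ ?_
    · intro i hi u hu a ha
      exact ladj i (by omega) u (by omega) a (by omega)
    · intro i hi u hu
      exact (((hst i (by omega)).leg u (by omega)).2.2 (p + 1 - 1) (by omega)).2 (by omega)
    · intro i hi u hu v hv
      by_cases huv : u = v
      · left; rw [huv]
      · right
        exact (cross i (by omega) u (by omega) v (by omega) huv 0 (by omega) 0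
          (by omega)).2.2 ⟨rfl, rfl⟩
    · intro i j hij hj u v huv hv a ha b hb
      have := homlt i j hij (by omega) u v huv (by omega) a (by omega) b (by omega)
      exact ⟨fun hc => E1 a (by omega) b (by omega) (this.1.1 hc),
        fun hc => A1 a ha b hb (this.2.1 hc)⟩
    · intro j hj u hu v hv huv b hb
      refine ⟨hubB j (by omega) v (by omega) u (by omega) b (by omega), fun hc => ?_⟩
      exact (hst j (by omega)).crossHub v (by omega) u (by omega) (Ne.symm huv) b (by omega)
        hc.symm
    · intro u hu v hv huv
      refine ⟨fun hc => huv ((hst 0 (by omega)).hubs.2 u (by omega) v (by omega) hc), ?_⟩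
      exact hM _ ((hst 0 (by omega)).hubs.1 u (by omega)) _
        ((hst 0 (by omega)).hubs.1 v (by omega))
    · intro i j hij hj u hu a ha hc
      have h1 := (homeq i j hij (by omega) u (by omega) a (by omega) 0 (by omega)).1.1 hc
      have h2 := E2 a (by omega) 0 (by omega) h1
      subst h2
      exact E0 h1
    · intro j hj u hu b hb
      exact hubB j (by omega) u (by omega) u (by omega) b (by omega)
    · intro j hj u hu a ha1 ha hc
      have := linj j (by omega) u (by omega) a (by omega) 0 (by omega) hc
      omega
    · intro j hj u hu v hv huv a ha1 ha b hb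
      exact (cross j (by omega) u (by omega) v (by omega) huv a (by omega) b (by omega)).1
  · have ha0' : a0 ≤ p := by omega
    have hE0 : E .eq a0 a0 := by
      rcases ha0 with h1 | h1
      · exact h1
      · exact absurd h1 hcase
    have hxe : ∀ j < N, ∀ u < L, x 0 u a0 = x j u a0 := by
      intro j hj u hu
      rcases Nat.eq_zero_or_pos j with hj' | hj'
      · rw [hj']
      · exact (homeq 0 j hj' hj u hu a0 ha0' a0 ha0').1.2 hE0
    refine chain k a0 hk ha01 x (fun u => x 0 u a0) ?_ ?_ ?_ ?_ ?_ ?_ ?_ ?_ ?_ ?_
    · intro i hi u hu a ha
      exact ladj i (by omega) u (by omega) a (by omega)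
    · intro i hi u hu
      have h1 := ladj i (by omega) u (by omega) (a0 - 1) (by omega)
      have h2 : a0 - 1 + 1 = a0 := by omega
      rw [h2] at h1
      show G.Adj _ (x 0 u a0)
      rw [hxe i (by omega) u (by omega)]
      exact h1
    · intro i hi u hu v hv
      by_cases huv : u = v
      · left; rw [huv]
      · right
        exact (cross i (by omega) u (by omega) v (by omega) huv 0 (by omega) 0
          (by omega)).2.2 ⟨rfl, rfl⟩
    · intro i j hij hj u v huv hv a ha b hb
      have := homlt i j hij (by omega) u v huv (by omega) a (by omega) b (by omega)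
      exact ⟨fun hc => E1 a (by omega) b (by omega) (this.1.1 hc),
        fun hc => A1 a ha b hb (this.2.1 hc)⟩
    · intro j hj u hu v hv huv b hb
      show x 0 u a0 ≠ x j v b ∧ ¬ G.Adj (x 0 u a0) (x j v b)
      rw [hxe j (by omega) u (by omega)]
      have := cross j (by omega) u (by omega) v (by omega) huv a0 ha0' b (by omega)
      refine ⟨this.1, fun hc => ?_⟩
      have := this.2.1 hc
      omega
    · intro u hu v hv huv
      show x 0 u a0 ≠ x 0 v a0 ∧ ¬ G.Adj (x 0 u a0) (x 0 v a0)
      have := cross 0 (by omega) u (by omega) v (by omega) huv a0 ha0' a0 ha0'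
      refine ⟨this.1, fun hc => ?_⟩
      have := this.2.1 hc
      omega
    · intro i j hij hj u hu a ha hc
      have h1 := (homeq i j hij (by omega) u (by omega) a (by omega) 0 (by omega)).1.1 hc
      have h2 := E2 a (by omega) 0 (by omega) h1
      subst h2
      exact E0 h1
    · intro j hj u hu b hb
      show x 0 u a0 ≠ x j u b
      rw [hxe j (by omega) u (by omega)]
      intro hc
      have := linj j (by omega) u (by omega) a0 ha0' b (by omega) hc
      omega
    · intro j hj u hu a ha1 ha hc
      have := linj j (by omega) u (by omega) a (by omega) 0 (by omega) hc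
      omega
    · intro j hj u hu v hv huv a ha1 ha b hb
      exact (cross j (by omega) u (by omega) v (by omega) huv a (by omega) b (by omega)).1

end Pool.Agent.TIA
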