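import Pool.Agent.TIA.Ram

/-!
# CombR: Ramsey for a family of legs

`ramsey2` with colours `Fin (P+1) → Fin (P+1) → Prop × Prop × Prop × Prop`:
`(i, j) ↦ (a, b) ↦ (x i a = x j b, G.Adj (x i a) (x j b), G.Adj (x i a) (h j), G.Adj (x j a) (h i))`
(the last two do not depend on `b`).
-/

namespace Pool.Agent.TIA

theorem comb_ram (P n : ℕ) : ∃ N, ∀ (V : Type) (G : SimpleGraph V) (h : ℕ → V) (x : ℕ → ℕ → V),
    ∃ (f : ℕ → ℕ) (E A : ℕ → ℕ → Prop) (H1 H2 : ℕ → Prop), Sub f n N ∧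
      ∀ i j, i < j → j < n → ∀ a ≤ P, ∀ b ≤ P,
        (x (f i) a = x (f j) b ↔ E a b) ∧ (G.Adj (x (f i) a) (x (f j) b) ↔ A a b) ∧
        (G.Adj (x (f i) a) (h (f j)) ↔ H1 a) ∧ (G.Adj (x (f j) a) (h (f i)) ↔ H2 a) := by
  obtain ⟨N, hN⟩ := ramsey2 (Fin (P + 1) → Fin (P + 1) → Prop × Prop × Prop × Prop) n
  refine ⟨N, fun V G h x => ?_⟩
  obtain ⟨f, hf, κ, hκ⟩ := hN (fun i j a b =>
    (x i a = x j b, G.Adj (x i a) (x j b), G.Adj (x i a) (h j), G.Adj (x j a) (h i)))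
  have hm : ∀ a : ℕ, a % (P + 1) < P + 1 := fun a => Nat.mod_lt _ (Nat.succ_pos _)
  refine ⟨f, fun a b => (κ ⟨a % (P + 1), hm a⟩ ⟨b % (P + 1), hm b⟩).1,
    fun a b => (κ ⟨a % (P + 1), hm a⟩ ⟨b % (P + 1), hm b⟩).2.1,
    fun a => (κ ⟨a % (P + 1), hm a⟩ ⟨0 % (P + 1), hm 0⟩).2.2.1,
    fun a => (κ ⟨a % (P + 1), hm a⟩ ⟨0 % (P + 1), hm 0⟩).2.2.2, hf, ?_⟩
  intro i j hij hj a ha b hb
  have ea : a % (P + 1) = a := Nat.mod_eq_of_lt (by omega)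
  have eb : b % (P + 1) = b := Nat.mod_eq_of_lt (by omega)
  have e0 : 0 % (P + 1) = 0 := Nat.zero_mod _
  rw [← hκ i j hij hj]
  simp only [ea, eb, and_self]

end Pool.Agent.TIA
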