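import Pool.Agent.TIA.RchB

/-!
# ShortP: shortest paths are induced paths

`short_path`: among all sequences `q 0, ..., q d` in `S` with `q 0 = a`, consecutive vertices adjacent
and `q d ∈ T` choose one with `d` minimal (`Nat.find`; existence by induction on the walk). Then
`q i ∉ T` for `i < d`, `q i = q j` or `G.Adj (q i) (q j)` with `i + 2 ≤ j` (resp. `i < j`) would give a
shorter sequence (cut out the part between), and if `q i` had a neighbour `c ∈ T ∩ S` with
`i + 1 < d`, the sequence `q 0, ..., q i, c` would be shorter.
-/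

namespace Pool.Agent.TIA

variable {V : Type} {G : SimpleGraph V}

/-- `q 0, ..., q d` is a walk in `S` that starts in `a` -/
def ShortP_W (G : SimpleGraph V) (S : Set V) (a : V) (d : ℕ) (q : ℕ → V) : Prop :=
  q 0 = a ∧ (∀ i ≤ d, q i ∈ S) ∧ ∀ i < d, G.Adj (q i) (q (i + 1))

theorem ShortP_exists {S : Set V} {a b : V} (h : Rch G S a b) :
    ∃ d q, ShortP_W G S a d q ∧ q d = b := by
  obtain ⟨ha, h⟩ := h
  induction h with
  | refl => exact ⟨0, fun _ => a, ⟨rfl, fun _ _ => ha, fun i hi => by omega⟩, rfl⟩
  | @tail b c _ hbc ih =>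
    obtain ⟨d, q, ⟨q0, qS, qA⟩, qd⟩ := ih
    refine ⟨d + 1, fun i => if i ≤ d then q i else c, ⟨?_, ?_, ?_⟩, ?_⟩
    · simp [q0]
    · intro i hi
      by_cases hid : i ≤ d
      · simp only [hid, if_true]; exact qS i hid
      · simp only [hid, if_false]; exact hbc.2.2
    · intro i hi
      by_cases hid : i + 1 ≤ d
      · have h1 : i ≤ d := by omega
        simp only [hid, h1, if_true]
        exact qA i (by omega)
      · have h1 : i = d := by omega
        subst h1
        simp only [le_refl, if_true, hid, if_false, qd]
        exact hbc.1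
    · simp

/-- cutting out a piece of a walk -/
theorem ShortP_cut {S : Set V} {a : V} {d i m : ℕ} {q : ℕ → V} (hw : ShortP_W G S a d q)
    (him : i + 1 < m) (hm : m ≤ d) (hadj : G.Adj (q i) (q m)) :
    ShortP_W G S a (d - (m - i - 1)) (fun t => if t ≤ i then q t else q (t + (m - i - 1))) ∧
      (fun t => if t ≤ i then q t else q (t + (m - i - 1))) (d - (m - i - 1)) = q d := by
  obtain ⟨q0, qS, qA⟩ := hw
  refine ⟨⟨?_, ?_, ?_⟩, ?_⟩
  · simp [q0]
  · intro t ht
    by_cases hti : t ≤ i
    · simp only [hti, if_true]; exact qS t (by omega)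
    · simp only [hti, if_false]; exact qS _ (by omega)
  · intro t ht
    by_cases h1 : t + 1 ≤ i
    · have h2 : t ≤ i := by omega
      simp only [h1, h2, if_true]
      exact qA t (by omega)
    · by_cases h2 : t ≤ i
      · have h3 : t = i := by omega
        subst h3
        simp only [le_refl, if_true, h1, if_false]
        rw [show t + 1 + (m - t - 1) = m by omega]
        exact hadj
      · simp only [h1, h2, if_false]
        rw [show t + 1 + (m - i - 1) = t + (m - i - 1) + 1 by omega]
        exact qA _ (by omega)
  · have h1 : ¬ (d - (m - i - 1) ≤ i) := by omega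
    simp only [h1, if_false]
    rw [show d - (m - i - 1) + (m - i - 1) = d by omega]

theorem short_path {S T : Set V} {a b : V} (h : Rch G S a b) (hb : b ∈ T) :
    ∃ (d : ℕ) (q : ℕ → V), q 0 = a ∧ (∀ i ≤ d, q i ∈ S) ∧ q d ∈ T ∧ (∀ i < d, q i ∉ T) ∧
      IPath G (d + 1) q ∧ ∀ i, i + 1 < d → ∀ c ∈ T ∩ S, ¬ G.Adj (q i) c := by
  classical
  have hex : ∃ d, ∃ q, ShortP_W G S a d q ∧ q d ∈ T := by
    obtain ⟨d, q, hw, hq⟩ := ShortP_exists h
    exact ⟨d, q, hw, by rw [hq]; exact hb⟩
  obtain ⟨q, hw, hqT⟩ := Nat.find_spec hex
  have hmin : ∀ d' < Nat.find hex, ¬ ∃ q, ShortP_W G S a d' q ∧ q d' ∈ T :=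
    fun d' hd' => Nat.find_min hex hd'
  generalize Nat.find hex = d at hw hqT hmin
  have hw' := hw
  obtain ⟨q0, qS, qA⟩ := hw'
  have n1 : ∀ i < d, q i ∉ T := fun i hi hT =>
    hmin i hi ⟨q, ⟨q0, fun j hj => qS j (by omega), fun j hj => qA j (by omega)⟩, hT⟩
  have n2 : ∀ i m, i + 1 < m → m ≤ d → ¬ G.Adj (q i) (q m) := by
    intro i m him hm hadj
    obtain ⟨c1, c2⟩ := ShortP_cut hw him hm hadj
    refine hmin (d - (m - i - 1)) (by omega) ⟨_, c1, ?_⟩
    have c3 := hqT
    rw [← c2] at c3
    exact c3
  have n3 : ∀ i j, i < j → j ≤ d → q i ≠ q j := by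
    intro i j hij hj he
    rcases Nat.lt_or_ge j d with h1 | h1
    · refine n2 i (j + 1) (by omega) (by omega) ?_
      rw [he]
      exact qA j h1
    · have : j = d := by omega
      subst this
      exact n1 i hij (by rw [he]; exact hqT)
  refine ⟨d, q, q0, qS, hqT, n1, ⟨?_, ?_⟩, ?_⟩
  · intro i hi j hj he
    rcases lt_trichotomy i j with h1 | h1 | h1
    · exact absurd he (n3 i j h1 (by omega))
    · exact h1
    · exact absurd he.symm (n3 j i h1 (by omega))
  · intro i hi j hj
    constructor
    · intro hadj
      by_contra hcon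
      rw [not_or] at hcon
      rcases lt_trichotomy i j with h1 | h1 | h1
      · exact n2 i j (by omega) (by omega) hadj
      · rw [h1] at hadj
        exact G.irrefl hadj
      · exact n2 j i (by omega) (by omega) hadj.symm
    · rintro (h1 | h1)
      · rw [h1]
        exact (qA j (by omega)).symm
      · rw [h1]
        exact qA i (by omega)
  · intro i hi c hc hadj
    refine hmin (i + 1) hi ⟨fun t => if t ≤ i then q t else c, ⟨?_, ?_, ?_⟩, ?_⟩
    · simp [q0]
    · intro t ht
      by_cases hti : t ≤ i
      · simp only [hti, if_true]; exact qS t (by omega)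
      · simp only [hti, if_false]; exact hc.2
    · intro t ht
      by_cases h1 : t + 1 ≤ i
      · have h2 : t ≤ i := by omega
        simp only [h1, h2, if_true]
        exact qA t (by omega)
      · have h3 : t = i := by omega
        subst h3
        simp only [le_refl, if_true, h1, if_false]
        exact hadj
    · simp only [Nat.not_succ_le_self, if_false]
      exact hc.1

theorem IPath.sub {l l' : ℕ} {q : ℕ → V} (h : IPath G l q) (hl : l' ≤ l) : IPath G l' q :=
  ⟨fun i hi j hj => h.1 i (by omega) j (by omega), fun i hi j hj => h.2 i (by omega) j (by omega)⟩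

theorem IPath.shift {l l' b : ℕ} {q : ℕ → V} (h : IPath G l q) (hl : b + l' ≤ l) :
    IPath G l' (fun i => q (b + i)) := by
  constructor
  · intro i hi j hj he
    have := h.1 (b + i) (by omega) (b + j) (by omega) he
    omega
  · intro i hi j hj
    rw [h.2 (b + i) (by omega) (b + j) (by omega)]
    constructor <;> intro h' <;> omega

/-- In a graph without induced path with `k` vertices, shortest paths have fewer than `k` vertices. -/
theorem PFree.short {k l : ℕ} {q : ℕ → V} (hk : PFree G k) (h : IPath G l q) : l < k := by
  by_contra hc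
  exact hk q (h.sub (by omega))

/-- Appending two induced paths: the first `l` vertices are `p`, then `q 1, ..., q d`, where
`q 0 = p (l - 1)` and the vertices `p i`, `i + 1 < l`, are different from and not adjacent to the
`q j`, `1 ≤ j ≤ d`. -/
theorem IPath.append {l d : ℕ} {p q : ℕ → V} (hl : 1 ≤ l) (hp : IPath G l p)
    (hq : IPath G (d + 1) q) (h0 : q 0 = p (l - 1))
    (h1 : ∀ i, i + 1 < l → ∀ j, 1 ≤ j → j ≤ d → p i ≠ q j ∧ ¬ G.Adj (p i) (q j)) :
    IPath G (l + d) (fun i => if i < l then p i else q (i - (l - 1))) := by
  have e1 : ∀ i, i < l → (if i < l then p i else q (i - (l - 1))) = p i := fun i hi => if_pos hi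
  have e2 : ∀ i, l ≤ i + 1 → (if i < l then p i else q (i - (l - 1))) = q (i - (l - 1)) := by
    intro i hi
    by_cases hil : i < l
    · have : i = l - 1 := by omega
      rw [if_pos hil, this, Nat.sub_self, h0]
    · rw [if_neg hil]
  constructor
  · intro i hi j hj he
    simp only at he
    by_cases hi' : i < l
    · by_cases hj' : j < l
      · rw [e1 i hi', e1 j hj'] at he
        exact hp.1 i hi' j hj' he
      · by_cases hi2 : i + 1 < l
        · rw [e1 i hi', e2 j (by omega)] at he
          exact absurd he (h1 i hi2 (j - (l - 1)) (by omega) (by omega)).1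
        · rw [e2 i (by omega), e2 j (by omega)] at he
          have := hq.1 _ (by omega) _ (by omega) he
          omega
    · by_cases hj' : j + 1 < l
      · rw [e2 i (by omega), e1 j (by omega)] at he
        exact absurd he.symm (h1 j hj' (i - (l - 1)) (by omega) (by omega)).1
      · rw [e2 i (by omega), e2 j (by omega)] at he
        have := hq.1 _ (by omega) _ (by omega) he
        omega
  · intro i hi j hj
    simp only
    by_cases hi' : i < l
    · by_cases hj' : j < l
      · rw [e1 i hi', e1 j hj']
        exact hp.2 i hi' j hj'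
      · by_cases hi2 : i + 1 < l
        · rw [e1 i hi', e2 j (by omega)]
          have := (h1 i hi2 (j - (l - 1)) (by omega) (by omega)).2
          constructor
          · intro h; exact absurd h this
          · intro h; omega
        · rw [e2 i (by omega), e2 j (by omega), hq.2 _ (by omega) _ (by omega)]
          constructor <;> intro h' <;> omega
    · by_cases hj' : j + 1 < l
      · rw [e2 i (by omega), e1 j (by omega)]
        have := (h1 j hj' (i - (l - 1)) (by omega) (by omega)).2
        constructor
        · intro h; exact absurd h.symm this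
        · intro h; omega
      · rw [e2 i (by omega), e2 j (by omega), hq.2 _ (by omega) _ (by omega)]
        constructor <;> intro h' <;> omega

end Pool.Agent.TIA
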