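import Pool.Agent.TIA.CombC
import Pool.Agent.TIA.CombR
import Pool.Agent.TIA.ShortP

/-!
# Comb: the comb lemma (section C of the notes)

`n0 = n + 2s + 4`; `N` from `comb_ram P n0`. Pass to the homogeneous indices `f i`.
(a) `H1 a`, `H2 a` are false for `a ≤ p`: `x (f 0) a` would be adjacent to the hubs `h (f j)`, `1 ≤ j < n0` (`≥ s`
many distinct), contradiction to Sparse; the same with `x (f (n0-1)) a`.
(b) `E a b → a = b`: indices 0, 1, 2: `x 0 a = x 1 b`, `x 0 a = x 2 b`, `x 1 a = x 2 b`, so `x 1 a = x 1 b`, and legs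
are injective.
(c) `E p p` is false: the common vertex `x (f i) p` would be adjacent to all hubs `h (f i)`.
If no `E a a` holds: `comb_core` with `z`. Otherwise let `b0 < p` be the last level with `E b0 b0` (core), `z' = x (f 0) b0`
(`= x (f i) b0` for all `i`), legs `x' i a = x (f i) (b0 + 1 + a)`, `p1 = p - b0 - 1`, table `A' a b = A (b0+1+a) (b0+1+b)`:
pairwise disjoint (`E a b` false for `a ≠ b` by (b), for `a = b > b0` by the choice of `b0`), `z'` is adjacent to
exactly the first vertex of each new leg (induced path). `comb_core` gives `p' ≤ p1 < p`.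
The last part: if the vertices `x i 0` are distinct and nonadjacent then `E 0 0` and `A 0 0` are false; without core removal
`comb_core` gives `p' < p`; with core removal `p' ≤ p1 < p`.
-/

namespace Pool.Agent.TIA

theorem comb (s P n : ℕ) : ∃ N, ∀ (V : Type) (G : SimpleGraph V) (M : Finset V) (B : Set V),
    KFree G s → Sparse G B M s → (∀ b ∈ B, b ∉ M) → ∀ p ≤ P, ∀ (z : V) (h : ℕ → V)
    (x : ℕ → ℕ → V), z ∈ B → Hubs M N h → (∀ i < N, Leg G B p (x i) (h i)) →
    (∀ i < N, ∀ a ≤ p, z ≠ x i a ∧ (G.Adj z (x i a) ↔ a = 0)) →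
    HasStar G B M n ∨ ∃ p' ≤ p, HasClq G B M n p' ∧
      ((∀ i < N, ∀ j < N, i ≠ j → x i 0 ≠ x j 0 ∧ ¬ G.Adj (x i 0) (x j 0)) → p' < p) := by
  classical
  obtain ⟨n0, hn0⟩ : ∃ n0, n0 = n + 2 * s + 4 := ⟨_, rfl⟩
  obtain ⟨N, hN⟩ := comb_ram P n0
  refine ⟨N, ?_⟩
  intro V G M B hK hsp hBM p hpP z h x hz hh hl hzx
  obtain ⟨f, E, A, H1, H2, hf, hhom⟩ := hN V G h x
  have hfN : ∀ i < n0, f i < N := hf.2
  have hfinj : ∀ i < n0, ∀ j < n0, f i = f j → i = j := by
    intro i hi j hj hij
    rcases lt_trichotomy i j with h1 | h1 | h1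
    · exact absurd hij (hf.1 i j h1 hj).ne
    · exact h1
    · exact absurd hij.symm (hf.1 j i h1 hi).ne
  have hh' : Hubs M n0 (fun i => h (f i)) := by
    refine ⟨fun i hi => hh.1 _ (hfN i hi), fun i hi j hj hij => ?_⟩
    exact hfinj i hi j hj (hh.2 _ (hfN i hi) _ (hfN j hj) hij)
  have hl' : ∀ i < n0, Leg G B p (x (f i)) (h (f i)) := fun i hi => hl _ (hfN i hi)
  -- (a)
  have hH1 : ∀ a ≤ p, ¬ H1 a := by
    intro a ha hH
    have hb : x (f 0) a ∈ B := (hl' 0 (by omega)).1 a ha
    have hc := hsp _ hb ((Finset.Ico 1 n0).image (fun j => h (f j))) ?_ ?_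
    · rw [Finset.card_image_of_injOn, Nat.card_Ico] at hc
      · omega
      · intro i hi j hj hij
        rw [Finset.coe_Ico, Set.mem_Ico] at hi hj
        exact hh'.2 i hi.2 j hj.2 hij
    · intro v hv
      obtain ⟨j, hj, rfl⟩ := Finset.mem_image.1 hv
      exact hh'.1 j (Finset.mem_Ico.1 hj).2
    · intro v hv
      obtain ⟨j, hj, rfl⟩ := Finset.mem_image.1 hv
      have hj' := Finset.mem_Ico.1 hj
      exact (hhom 0 j (by omega) hj'.2 a (ha.trans hpP) a (ha.trans hpP)).2.2.1.2 hH
  have hH2 : ∀ a ≤ p, ¬ H2 a := by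
    intro a ha hH
    have hb : x (f (n0 - 1)) a ∈ B := (hl' (n0 - 1) (by omega)).1 a ha
    have hc := hsp _ hb ((Finset.range (n0 - 1)).image (fun j => h (f j))) ?_ ?_
    · rw [Finset.card_image_of_injOn, Finset.card_range] at hc
      · omega
      · intro i hi j hj hij
        rw [Finset.coe_range, Set.mem_Iio] at hi hj
        exact hh'.2 i (by omega) j (by omega) hij
    · intro v hv
      obtain ⟨j, hj, rfl⟩ := Finset.mem_image.1 hv
      have := Finset.mem_range.1 hj
      exact hh'.1 j (by omega)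
    · intro v hv
      obtain ⟨j, hj, rfl⟩ := Finset.mem_image.1 hv
      have hj' := Finset.mem_range.1 hj
      exact (hhom j (n0 - 1) hj' (by omega) a (ha.trans hpP) a (ha.trans hpP)).2.2.2.2 hH
  have hc : ∀ i < n0, ∀ j < n0, i ≠ j → ∀ a ≤ p, ¬ G.Adj (x (f i) a) (h (f j)) := by
    intro i hi j hj hij a ha hadj
    rcases lt_or_gt_of_ne hij with h1 | h1
    · exact hH1 a ha ((hhom i j h1 hj a (ha.trans hpP) a (ha.trans hpP)).2.2.1.1 hadj)
    · exact hH2 a ha ((hhom j i h1 hi a (ha.trans hpP) a (ha.trans hpP)).2.2.2.1 hadj)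
  -- (b)
  have hEab : ∀ a ≤ p, ∀ b ≤ p, E a b → a = b := by
    intro a ha b hb hE
    have e1 := (hhom 0 1 (by omega) (by omega) a (ha.trans hpP) b (hb.trans hpP)).1.2 hE
    have e2 := (hhom 0 2 (by omega) (by omega) a (ha.trans hpP) b (hb.trans hpP)).1.2 hE
    have e3 := (hhom 1 2 (by omega) (by omega) a (ha.trans hpP) b (hb.trans hpP)).1.2 hE
    have e4 : x (f 1) a = x (f 1) b := e3.trans (e2.symm.trans e1)
    exact (hl' 1 (by omega)).2.1.1 a (by omega) b (by omega) e4
  -- (c)
  have hEpp : ¬ E p p := by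
    intro hE
    have e1 := (hhom 0 1 (by omega) (by omega) p hpP p hpP).1.2 hE
    have e2 : G.Adj (x (f 0) p) (h (f 0)) := ((hl' 0 (by omega)).2.2 p le_rfl).2 rfl
    rw [e1] at e2
    exact hc 1 (by omega) 0 (by omega) (by omega) p le_rfl e2
  by_cases hcore : ∃ a ≤ p, E a a
  · -- the last core level
    obtain ⟨b0, hb0p, hb0, hmax⟩ : ∃ b0 ≤ p, E b0 b0 ∧ ∀ c, b0 < c → c ≤ p → ¬ E c c := by
      have hne : ((Finset.range (p + 1)).filter (fun a => E a a)).Nonempty := by
        obtain ⟨a, ha, hE⟩ := hcore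
        exact ⟨a, Finset.mem_filter.2 ⟨Finset.mem_range.2 (by omega), hE⟩⟩
      have hm := Finset.max'_mem _ hne
      have hle : ∀ c, c ≤ p → E c c →
          c ≤ ((Finset.range (p + 1)).filter (fun a => E a a)).max' hne := fun c h1 h2 =>
        Finset.le_max' ((Finset.range (p + 1)).filter (fun a => E a a)) c
          (Finset.mem_filter.2 ⟨Finset.mem_range.2 (by omega), h2⟩)
      rw [Finset.mem_filter, Finset.mem_range] at hm
      refine ⟨_, Nat.lt_succ_iff.1 hm.1, hm.2, ?_⟩
      intro c hc1 hc2 hE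
      exact absurd (hle c hc2 hE) (not_le.2 hc1)
    have hb0lt : b0 < p := by
      rcases Nat.lt_or_eq_of_le hb0p with h1 | h1
      · exact h1
      · rw [h1] at hb0; exact absurd hb0 hEpp
    have hzeq : ∀ i < n0, x (f 0) b0 = x (f i) b0 := by
      intro i hi
      rcases Nat.eq_zero_or_pos i with h1 | h1
      · rw [h1]
      · exact (hhom 0 i h1 hi b0 (hb0p.trans hpP) b0 (hb0p.trans hpP)).1.2 hb0
    have key := comb_core s n (p - b0 - 1) n0 (by omega) (by omega) hK M B hsp hBM (x (f 0) b0)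
      (fun i => h (f i)) (fun i a => x (f i) (b0 + 1 + a))
      (fun a b => A (b0 + 1 + a) (b0 + 1 + b)) ((hl' 0 (by omega)).1 b0 hb0p) hh' ?_ ?_ ?_ ?_ ?_
    · rcases key with hstar | ⟨p', hp', hclq, _⟩
      · exact Or.inl hstar
      · exact Or.inr ⟨p', by omega, hclq, fun _ => by omega⟩
    · intro i hi
      refine ⟨fun a ha => (hl' i hi).1 _ (by omega), ?_, ?_⟩
      · exact (hl' i hi).2.1.shift (b := b0 + 1) (by omega)
      · intro a ha
        rw [(hl' i hi).2.2 _ (by omega)]
        omega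
    · intro i hi a ha
      have hI := (hl' i hi).2.1
      constructor
      · rw [hzeq i hi]
        intro he
        have := hI.1 b0 (by omega) (b0 + 1 + a) (by omega) he
        omega
      · rw [hzeq i hi]
        rw [hI.2 b0 (by omega) (b0 + 1 + a) (by omega)]
        omega
    · intro i hi j hj hij a ha b hb he
      rcases lt_or_gt_of_ne hij with h1 | h1
      · have hE := (hhom i j h1 hj (b0 + 1 + a) (by omega) (b0 + 1 + b) (by omega)).1.1 he
        have h2 := hEab _ (by omega) _ (by omega) hE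
        rw [← h2] at hE
        exact hmax _ (by omega) (by omega) hE
      · have hE := (hhom j i h1 hi (b0 + 1 + b) (by omega) (b0 + 1 + a) (by omega)).1.1 he.symm
        have h2 := hEab _ (by omega) _ (by omega) hE
        rw [← h2] at hE
        exact hmax _ (by omega) (by omega) hE
    · intro i j hij hj a ha b hb
      exact (hhom i j hij hj (b0 + 1 + a) (by omega) (b0 + 1 + b) (by omega)).2.1
    · intro i hi j hj hij a ha
      exact hc i hi j hj hij _ (by omega)
  · have hno : ∀ a ≤ p, ¬ E a a := fun a ha hE => hcore ⟨a, ha, hE⟩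
    have key := comb_core s n p n0 (by omega) (by omega) hK M B hsp hBM z
      (fun i => h (f i)) (fun i a => x (f i) a) A hz hh' hl' ?_ ?_ ?_ hc
    · rcases key with hstar | ⟨p', hp', hclq, hlt⟩
      · exact Or.inl hstar
      · refine Or.inr ⟨p', hp', hclq, fun hdist => hlt ?_⟩
        intro hA0
        have h01 := (hhom 0 1 (by omega) (by omega) 0 (Nat.zero_le _) 0 (Nat.zero_le _)).2.1.2 hA0
        have hne : f 0 ≠ f 1 := (hf.1 0 1 (by omega) (by omega)).ne
        exact (hdist _ (hfN 0 (by omega)) _ (hfN 1 (by omega)) hne).2 h01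
    · intro i hi a ha
      exact hzx _ (hfN i hi) a ha
    · intro i hi j hj hij a ha b hb he
      rcases lt_or_gt_of_ne hij with h1 | h1
      · have hE := (hhom i j h1 hj a (by omega) b (by omega)).1.1 he
        have h2 := hEab _ ha _ hb hE
        rw [← h2] at hE
        exact hno _ ha hE
      · have hE := (hhom j i h1 hi b (by omega) a (by omega)).1.1 he.symm
        have h2 := hEab _ hb _ ha hE
        rw [← h2] at hE
        exact hno _ hb hE
    · intro i j hij hj a ha b hb
      exact (hhom i j hij hj a (by omega) b (by omega)).2.1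

end Pool.Agent.TIA
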