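import Pool.Agent.TIA.StructB

/-!
# CombC: core of the comb lemma (disjoint legs, homogeneous adjacency)

`n0` legs `x i` (levels `0..p`) with hubs `h i`, pairwise disjoint, cross adjacency `x i a ~ x j b` (`i < j`) given by
the table `A a b`, no cross hub adjacency, `z` adjacent to exactly the first vertices.
Level `a` is a clique level if `A a a`, otherwise an independent level.
(e) If `A a a` and `A b b` are false, then `A a b` is false: else `{x i a : i < s}` and `{x j b : s ≤ j < 2s}` form a
`K_{s,s}`.
* No clique level: all legs are pairwise anticomplete. The hubs adjacent to `z` are `< s` many (Sparse): choose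
  `n` indices with `h i` not adjacent to `z`: `Star` with centre `z`.
* Otherwise `b* ` = last clique level. If `A b* j` and `A j b*` are false for all `j > b*`: the legs cut at
  `b*` (levels `b*, ..., p`) form a `Clq` of length `p - b*` (levels `> b*` are independent levels).
  `p' = p - b* ≤ p`, and `b* ≥ 1` if `A 0 0` is false.
* Otherwise let `b' > b*` be the last level with `A b* b'` or `A b' b*`. If `A b* b'`: centre `x 0 b*`, legs
  `x i b', ..., x i p` for `i = 1..n` (centre adjacent to `x i b'`, not adjacent to later levels, by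
  the choice of `b'`; its only possible hub neighbour is `h 0`). If `A b' b*`: centre `x (n0-1) b*`, legs of
  `i = 0..n-1`, cut at `b'`. Both are `Star`s of size `n` (legs of length `p - b'`).
Use `IPath.shift` for cut legs.
-/

namespace Pool.Agent.TIA

variable {V : Type} {G : SimpleGraph V}

theorem CombC_last (p : ℕ) (P : ℕ → Prop) (h : ∃ b ≤ p, P b) :
    ∃ b ≤ p, P b ∧ ∀ a, b < a → a ≤ p → ¬ P a := by
  classical
  obtain ⟨b, hb, hPb⟩ := h
  refine ⟨Nat.findGreatest P p, Nat.findGreatest_le p, Nat.findGreatest_spec hb hPb, ?_⟩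
  intro a h1 h2
  exact Nat.findGreatest_is_greatest h1 h2

theorem CombC_leg {B : Set V} {p c : ℕ} {x : ℕ → V} {h : V} (hl : Leg G B p x h) (hc : c ≤ p) :
    Leg G B (p - c) (fun a => x (c + a)) h := by
  obtain ⟨h1, ⟨h2, h3⟩, h4⟩ := hl
  refine ⟨?_, ⟨?_, ?_⟩, ?_⟩
  · intro a ha
    exact h1 _ (by omega)
  · intro i hi j hj hij
    have := h2 (c + i) (by omega) (c + j) (by omega) hij
    omega
  · intro i hi j hj
    have := h3 (c + i) (by omega) (c + j) (by omega)
    simp only []
    rw [this]
    omega
  · intro a ha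
    have := h4 (c + a) (by omega)
    simp only []
    rw [this]
    omega

theorem CombC_card (N s : ℕ) (P : ℕ → Prop) (h : ℕ → V)
    (hinj : ∀ i < N, ∀ j < N, h i = h j → i = j)
    (hs : ∀ F : Finset V, (∀ f ∈ F, ∃ i < N, h i = f ∧ P i) → F.card < s) (n : ℕ)
    (hn : n + s ≤ N) :
    ∃ g : ℕ → ℕ, (∀ i < n, g i < N ∧ ¬ P (g i)) ∧ ∀ i < n, ∀ j < n, g i = g j → i = j := by
  classical
  let Q : Finset ℕ := (Finset.range N).filter P
  let R : Finset ℕ := (Finset.range N).filter (fun i => ¬ P i)
  have hQ : Q.card < s := by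
    have h1 : (Q.image h).card = Q.card := by
      apply Finset.card_image_of_injOn
      intro i hi j hj hij
      have hi' := Finset.mem_filter.1 (Finset.mem_coe.1 hi)
      have hj' := Finset.mem_filter.1 (Finset.mem_coe.1 hj)
      exact hinj i (Finset.mem_range.1 hi'.1) j (Finset.mem_range.1 hj'.1) hij
    rw [← h1]
    apply hs
    intro f hf
    obtain ⟨i, hi, rfl⟩ := Finset.mem_image.1 hf
    have hi' := Finset.mem_filter.1 hi
    exact ⟨i, Finset.mem_range.1 hi'.1, rfl, hi'.2⟩
  have hQR : Q.card + R.card = N := by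
    have := Finset.card_filter_add_card_filter_not (s := Finset.range N) P
    simpa using this
  have hR : n ≤ R.card := by omega
  obtain ⟨T, hTR, hT⟩ := Finset.exists_subset_card_eq hR
  let e := T.orderEmbOfFin hT
  refine ⟨fun i => if hi : i < n then e ⟨i, hi⟩ else 0, ?_, ?_⟩
  · intro i hi
    have h1 : e ⟨i, hi⟩ ∈ T := Finset.orderEmbOfFin_mem T hT _
    have h2 := Finset.mem_filter.1 (hTR h1)
    simp only [hi, dite_true]
    exact ⟨Finset.mem_range.1 h2.1, h2.2⟩
  · intro i hi j hj hij
    simp only [hi, hj, dite_true] at hij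
    have := e.injective hij
    simpa using this

theorem comb_core (s n p n0 : ℕ) (h1 : n + s + 1 ≤ n0) (h2 : 2 * s ≤ n0) (hK : KFree G s)
    (M : Finset V) (B : Set V) (hsp : Sparse G B M s) (hB : ∀ b ∈ B, b ∉ M) (z : V)
    (h : ℕ → V) (x : ℕ → ℕ → V) (A : ℕ → ℕ → Prop) (hz : z ∈ B) (hh : Hubs M n0 h)
    (hl : ∀ i < n0, Leg G B p (x i) (h i))
    (hzx : ∀ i < n0, ∀ a ≤ p, z ≠ x i a ∧ (G.Adj z (x i a) ↔ a = 0))
    (hd : ∀ i < n0, ∀ j < n0, i ≠ j → ∀ a ≤ p, ∀ b ≤ p, x i a ≠ x j b)
    (hA : ∀ i j, i < j → j < n0 → ∀ a ≤ p, ∀ b ≤ p, (G.Adj (x i a) (x j b) ↔ A a b))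
    (hc : ∀ i < n0, ∀ j < n0, i ≠ j → ∀ a ≤ p, ¬ G.Adj (x i a) (h j)) :
    HasStar G B M n ∨ ∃ p' ≤ p, HasClq G B M n p' ∧ (¬ A 0 0 → p' < p) := by
  classical
  -- (e)
  have he : ∀ a ≤ p, ∀ b ≤ p, ¬ A a a → ¬ A b b → ¬ A a b := by
    intro a ha b hb hna hnb hab
    have hcl : ∀ c ≤ p, ¬ A c c → ∀ i < n0, ∀ j < n0, ¬ G.Adj (x i c) (x j c) := by
      intro c hc' hnc i hi j hj hadj
      rcases lt_trichotomy i j with hij | hij | hij
      · exact hnc ((hA i j hij hj c hc' c hc').1 hadj)
      · subst hij
        exact G.loopless.irrefl _ hadj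
      · exact hnc ((hA j i hij hi c hc' c hc').1 hadj.symm)
    have hci : ∀ c ≤ p, ∀ u v, v ≤ n0 → ((Finset.Ico u v).image (fun i => x i c)).card = v - u := by
      intro c hc' u v hv
      rw [Finset.card_image_of_injOn, Nat.card_Ico]
      intro i hi j hj hij
      have hi' := Finset.mem_Ico.1 (Finset.mem_coe.1 hi)
      have hj' := Finset.mem_Ico.1 (Finset.mem_coe.1 hj)
      by_contra hne
      exact hd i (by omega) j (by omega) hne c hc' c hc' hij
    refine hK ((Finset.Ico 0 s).image (fun i => x i a)) ((Finset.Ico s (2 * s)).image (fun i => x i b))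
      ?_ ?_ ?_ ?_ ?_
    · intro u hu v hv
      obtain ⟨i, hi, rfl⟩ := Finset.mem_image.1 (Finset.mem_coe.1 hu)
      obtain ⟨j, hj, rfl⟩ := Finset.mem_image.1 (Finset.mem_coe.1 hv)
      have hi' := Finset.mem_Ico.1 hi
      have hj' := Finset.mem_Ico.1 hj
      exact hcl a ha hna i (by omega) j (by omega)
    · intro u hu v hv
      obtain ⟨i, hi, rfl⟩ := Finset.mem_image.1 (Finset.mem_coe.1 hu)
      obtain ⟨j, hj, rfl⟩ := Finset.mem_image.1 (Finset.mem_coe.1 hv)
      have hi' := Finset.mem_Ico.1 hi
      have hj' := Finset.mem_Ico.1 hj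
      exact hcl b hb hnb i (by omega) j (by omega)
    · intro u hu v hv
      obtain ⟨i, hi, rfl⟩ := Finset.mem_image.1 hu
      obtain ⟨j, hj, rfl⟩ := Finset.mem_image.1 hv
      have hi' := Finset.mem_Ico.1 hi
      have hj' := Finset.mem_Ico.1 hj
      exact (hA i j (by omega) (by omega) a ha b hb).2 hab
    · rw [hci a ha 0 s (by omega)]; omega
    · rw [hci b hb s (2 * s) (by omega)]; omega
  -- adjacency between different legs at independent levels
  have hcr : ∀ a ≤ p, ∀ b ≤ p, ¬ A a a → ¬ A b b → ∀ i < n0, ∀ j < n0, i ≠ j →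
      ¬ G.Adj (x i a) (x j b) := by
    intro a ha b hb hna hnb i hi j hj hij hadj
    rcases lt_or_gt_of_ne hij with h' | h'
    · exact he a ha b hb hna hnb ((hA i j h' hj a ha b hb).1 hadj)
    · exact he b hb a ha hnb hna ((hA j i h' hi b hb a ha).1 hadj.symm)
  by_cases hcase : ∃ b ≤ p, A b b
  · obtain ⟨b0, hb0, hAb, hlast⟩ := CombC_last p (fun b => A b b) hcase
    by_cases hcase2 : ∃ b ≤ p, b0 < b ∧ (A b0 b ∨ A b b0)
    · obtain ⟨b1, hb1, ⟨hb01, hA1⟩, hlast1⟩ :=
        CombC_last p (fun b => b0 < b ∧ (A b0 b ∨ A b b0)) hcase2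
      have hno : ∀ a, b1 < a → a ≤ p → ¬ A b0 a ∧ ¬ A a b0 := by
        intro a h3 h4
        constructor
        · intro h5
          exact hlast1 a h3 h4 ⟨by omega, Or.inl h5⟩
        · intro h5
          exact hlast1 a h3 h4 ⟨by omega, Or.inr h5⟩
      left
      rcases hA1 with hA1 | hA1
      · refine ⟨p - b1, x 0 b0, fun i => h (i + 1), fun i a => x (i + 1) (b1 + a), ?_⟩
        refine ⟨(hl 0 (by omega)).1 b0 hb0, ⟨?_, ?_⟩, ?_, ?_, ?_, ?_, ?_⟩
        · intro i hi
          exact hh.1 (i + 1) (by omega)
        · intro i hi j hj hij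
          have := hh.2 (i + 1) (by omega) (j + 1) (by omega) hij
          omega
        · intro i hi
          exact CombC_leg (hl (i + 1) (by omega)) hb1
        · intro i hi
          exact hc 0 (by omega) (i + 1) (by omega) (by omega) b0 hb0
        · intro i hi a ha
          refine ⟨hd 0 (by omega) (i + 1) (by omega) (by omega) b0 hb0 (b1 + a) (by omega), ?_⟩
          rw [hA 0 (i + 1) (by omega) (by omega) b0 hb0 (b1 + a) (by omega)]
          constructor
          · intro h3
            by_contra h4
            exact (hno (b1 + a) (by omega) (by omega)).1 h3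
          · intro h3
            subst h3
            exact hA1
        · intro i hi j hj hij a ha b hb
          refine ⟨hd (i + 1) (by omega) (j + 1) (by omega) (by omega) _ (by omega) _ (by omega), ?_⟩
          exact hcr _ (by omega) _ (by omega) (hlast _ (by omega) (by omega))
            (hlast _ (by omega) (by omega)) _ (by omega) _ (by omega) (by omega)
        · intro i hi j hj hij a ha
          exact hc (i + 1) (by omega) (j + 1) (by omega) (by omega) _ (by omega)
      · refine ⟨p - b1, x n b0, fun i => h i, fun i a => x i (b1 + a), ?_⟩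
        refine ⟨(hl n (by omega)).1 b0 hb0, ⟨?_, ?_⟩, ?_, ?_, ?_, ?_, ?_⟩
        · intro i hi
          exact hh.1 i (by omega)
        · intro i hi j hj hij
          exact hh.2 i (by omega) j (by omega) hij
        · intro i hi
          exact CombC_leg (hl i (by omega)) hb1
        · intro i hi
          exact hc n (by omega) i (by omega) (by omega) b0 hb0
        · intro i hi a ha
          refine ⟨hd n (by omega) i (by omega) (by omega) b0 hb0 (b1 + a) (by omega), ?_⟩
          rw [G.adj_comm, hA i n (by omega) (by omega) (b1 + a) (by omega) b0 hb0]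
          constructor
          · intro h3
            by_contra h4
            exact (hno (b1 + a) (by omega) (by omega)).2 h3
          · intro h3
            subst h3
            exact hA1
        · intro i hi j hj hij a ha b hb
          refine ⟨hd i (by omega) j (by omega) (by omega) _ (by omega) _ (by omega), ?_⟩
          exact hcr _ (by omega) _ (by omega) (hlast _ (by omega) (by omega))
            (hlast _ (by omega) (by omega)) _ (by omega) _ (by omega) (by omega)
        · intro i hi j hj hij a ha
          exact hc i (by omega) j (by omega) (by omega) _ (by omega)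
    · right
      refine ⟨p - b0, by omega, ⟨h, fun i a => x i (b0 + a), ?_⟩, ?_⟩
      · have hno : ∀ a, b0 < a → a ≤ p → ¬ A b0 a ∧ ¬ A a b0 := by
          intro a h3 h4
          constructor
          · intro h5
            exact hcase2 ⟨a, h4, h3, Or.inl h5⟩
          · intro h5
            exact hcase2 ⟨a, h4, h3, Or.inr h5⟩
        have hlt : ∀ i j, i < j → j < n → ∀ a ≤ p - b0, ∀ b ≤ p - b0,
            (G.Adj (x i (b0 + a)) (x j (b0 + b)) ↔ (a = 0 ∧ b = 0)) := by
          intro i j hij hj a ha b hb
          rw [hA i j hij (by omega) _ (by omega) _ (by omega)]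
          constructor
          · intro h3
            by_cases ha0 : a = 0
            · refine ⟨ha0, ?_⟩
              by_contra hb0'
              subst ha0
              exact (hno (b0 + b) (by omega) (by omega)).1 h3
            · exfalso
              by_cases hb0' : b = 0
              · subst hb0'
                exact (hno (b0 + a) (by omega) (by omega)).2 h3
              · exact he _ (by omega) _ (by omega) (hlast (b0 + a) (by omega) (by omega))
                  (hlast (b0 + b) (by omega) (by omega)) h3
          · rintro ⟨rfl, rfl⟩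
            exact hAb
        refine ⟨⟨?_, ?_⟩, ?_, ?_, ?_⟩
        · intro i hi
          exact hh.1 i (by omega)
        · intro i hi j hj hij
          exact hh.2 i (by omega) j (by omega) hij
        · intro i hi
          exact CombC_leg (hl i (by omega)) hb0
        · intro i hi j hj hij a ha b hb
          refine ⟨hd i (by omega) j (by omega) hij _ (by omega) _ (by omega), ?_⟩
          rcases lt_or_gt_of_ne hij with h' | h'
          · exact hlt i j h' hj a ha b hb
          · rw [G.adj_comm, hlt j i h' hi b hb a ha]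
            exact and_comm
        · intro i hi j hj hij a ha
          exact hc i (by omega) j (by omega) hij _ (by omega)
      · intro h00
        have : b0 ≠ 0 := by
          intro h3
          subst h3
          exact h00 hAb
        omega
  · left
    have hna : ∀ a ≤ p, ¬ A a a := fun a ha h3 => hcase ⟨a, ha, h3⟩
    obtain ⟨g, hg1, hg2⟩ := CombC_card n0 s (fun i => G.Adj z (h i)) h hh.2 (by
      intro F hF
      refine hsp z hz F ?_ ?_
      · intro f hf
        obtain ⟨i, hi, rfl, -⟩ := hF f hf
        exact hh.1 i hi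
      · intro f hf
        obtain ⟨i, hi, rfl, h3⟩ := hF f hf
        exact h3) n (by omega)
    refine ⟨p, z, fun i => h (g i), fun i => x (g i), ?_⟩
    refine ⟨hz, ⟨?_, ?_⟩, ?_, ?_, ?_, ?_, ?_⟩
    · intro i hi
      exact hh.1 _ (hg1 i hi).1
    · intro i hi j hj hij
      exact hg2 i hi j hj (hh.2 _ (hg1 i hi).1 _ (hg1 j hj).1 hij)
    · intro i hi
      exact hl _ (hg1 i hi).1
    · intro i hi
      exact (hg1 i hi).2
    · intro i hi a ha
      exact hzx _ (hg1 i hi).1 a ha
    · intro i hi j hj hij a ha b hb
      have hne : g i ≠ g j := fun h3 => hij (hg2 i hi j hj h3)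
      exact ⟨hd _ (hg1 i hi).1 _ (hg1 j hj).1 hne a ha b hb,
        hcr a ha b hb (hna a ha) (hna b hb) _ (hg1 i hi).1 _ (hg1 j hj).1 hne⟩
    · intro i hi j hj hij a ha
      have hne : g i ≠ g j := fun h3 => hij (hg2 i hi j hj h3)
      exact hc _ (hg1 i hi).1 _ (hg1 j hj).1 hne a ha

end Pool.Agent.TIA
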