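import Pool.Agent.TIA.Tree

/-!
# Levels: the levels of the recursion tree are complete

`Ls 0 = [root n]`, `Ls (i+1) = nextL .. (Ls i)`. By induction on `i ≤ n`: all nodes of `Ls i` are valid, the sum of their
potentials is at most `n - i` (`pot_children`, summed over the level; `(root n)` has potential `n`), and for `i ≥ 1` every node
has potential `≥ 1` (`child_pot`), so the level has at most `n - i` nodes. Hence `take n` in `nextL` does nothing: the flatMap has
total potential `≤ n - i - 1` and each of its nodes has potential `≥ 1`. At level `n` the total potential is 0, so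
the nodes (if any: `n = 0`) have no children.
-/

namespace Pool.Agent.TIA

theorem Levels_sum (L : List Nd) :
    (L.map fun nd => pot nd - 1).sum ≤ (L.map pot).sum - 1 := by
  induction L with
  | nil => simp
  | cons a L ih =>
    simp only [List.map_cons, List.sum_cons]
    omega

theorem Levels_len (L : List Nd) (h : ∀ nd ∈ L, 1 ≤ pot nd) : L.length ≤ (L.map pot).sum := by
  induction L with
  | nil => simp
  | cons a L ih =>
    simp only [List.map_cons, List.sum_cons, List.length_cons]
    have h1 := h a List.mem_cons_self
    have h2 := ih fun nd hnd => h nd (List.mem_cons_of_mem _ hnd)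
    omega

theorem Levels_mem (L : List Nd) (nd : Nd) (h : nd ∈ L) : pot nd ≤ (L.map pot).sum := by
  induction L with
  | nil => exact absurd h List.not_mem_nil
  | cons a L ih =>
    simp only [List.map_cons, List.sum_cons]
    rcases List.mem_cons.1 h with rfl | h
    · omega
    · have := ih h
      omega

theorem Levels_flat (k t n : ℕ) (E : List (ℕ × ℕ)) (h : Hyp k t n E) (L : List Nd)
    (hv : ∀ nd ∈ L, Valid k t n E nd) :
    ((L.flatMap (children k t n E)).map pot).sum ≤ (L.map fun nd => pot nd - 1).sum := by
  induction L with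
  | nil => simp
  | cons a L ih =>
    simp only [List.flatMap_cons, List.map_append, List.sum_append, List.map_cons, List.sum_cons]
    have h1 := pot_children h (hv a List.mem_cons_self)
    have h2 := ih fun nd hnd => hv nd (List.mem_cons_of_mem _ hnd)
    omega

theorem Levels_pot_root (n : ℕ) : pot (root n) = n := by
  unfold pot root rest
  simp

theorem levs_spec (k t n : ℕ) (E : List (ℕ × ℕ)) (h : Hyp k t n E) : ∃ Ls : ℕ → List Nd,
    levs k t n E = ((List.range (n + 1)).map Ls).reverse ∧ Ls 0 = [root n] ∧
    (∀ i ≤ n, ∀ nd ∈ Ls i, Valid k t n E nd) ∧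
    (∀ i < n, ∀ nd ∈ Ls i, ∀ ch ∈ children k t n E nd, ch ∈ Ls (i + 1)) ∧
    ∀ nd ∈ Ls n, children k t n E nd = [] := by
  obtain ⟨Ls, hLs⟩ : ∃ Ls : ℕ → List Nd, Ls = fun i => (nextL k t n E)^[i] [root n] := ⟨_, rfl⟩
  have h0 : Ls 0 = [root n] := by rw [hLs]; rfl
  have hs : ∀ i, Ls (i + 1) = nextL k t n E (Ls i) := fun i => by
    rw [hLs]
    exact Function.iterate_succ_apply' _ _ _
  clear hLs
  have hlev : ∀ m, (fun acc => nextL k t n E (acc.headD []) :: acc)^[m] [[root n]] =
      ((List.range (m + 1)).map Ls).reverse := by
    intro m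
    induction m with
    | zero => simp [h0]
    | succ m ih =>
      rw [Function.iterate_succ_apply', ih, List.range_succ (n := m + 1), List.map_append,
        List.reverse_append]
      have h1 : (((List.range (m + 1)).map Ls).reverse).headD [] = Ls m := by
        rw [List.range_succ, List.map_append, List.reverse_append]
        simp
      show nextL k t n E ((((List.range (m + 1)).map Ls).reverse).headD []) :: _ = _
      rw [h1, ← hs]
      simp
  have step : ∀ i < n, (∀ nd ∈ Ls i, Valid k t n E nd) → ((Ls i).map pot).sum ≤ n - i →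
      Ls (i + 1) = (Ls i).flatMap (children k t n E) ∧
      ((Ls (i + 1)).map pot).sum ≤ n - (i + 1) := by
    intro i hi hv hp
    have h1 := Levels_flat k t n E h (Ls i) hv
    have h2 := Levels_sum (Ls i)
    have h3 : (((Ls i).flatMap (children k t n E)).map pot).sum ≤ n - (i + 1) := by omega
    have h4 : ∀ nd ∈ (Ls i).flatMap (children k t n E), 1 ≤ pot nd := by
      intro nd hnd
      obtain ⟨a, ha, hnd⟩ := List.mem_flatMap.1 hnd
      exact child_pot (hv a ha) h.good nd hnd
    have h5 := Levels_len _ h4
    have h6 : Ls (i + 1) = (Ls i).flatMap (children k t n E) := by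
      rw [hs]
      unfold nextL
      exact List.take_of_length_le (by omega)
    exact ⟨h6, by rw [h6]; exact h3⟩
  have main : ∀ i ≤ n, (∀ nd ∈ Ls i, Valid k t n E nd) ∧ ((Ls i).map pot).sum ≤ n - i := by
    intro i
    induction i with
    | zero =>
      intro _
      rw [h0]
      refine ⟨?_, ?_⟩
      · intro nd hnd
        rw [List.mem_singleton.1 hnd]
        exact root_valid k t n E
      · simp [Levels_pot_root]
    | succ i ih =>
      intro hi
      obtain ⟨h1, h2⟩ := ih (by omega)
      obtain ⟨h3, h4⟩ := step i (by omega) h1 h2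
      refine ⟨?_, h4⟩
      rw [h3]
      intro nd hnd
      obtain ⟨a, ha, hnd⟩ := List.mem_flatMap.1 hnd
      exact child_valid h (h1 a ha) nd hnd
  refine ⟨Ls, hlev n, h0, fun i hi => (main i hi).1, ?_, ?_⟩
  · intro i hi nd hnd ch hch
    rw [(step i hi (main i hi.le).1 (main i hi.le).2).1]
    exact List.mem_flatMap.2 ⟨nd, hnd, hch⟩
  · intro nd hnd
    obtain ⟨h1, h2⟩ := main n le_rfl
    refine children_of_pot_zero h.good (h1 nd hnd) ?_
    have := Levels_mem _ _ hnd
    omega

end Pool.Agent.TIA
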