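import Pool.Agent.TIA.Solve
import Pool.Agent.TIA.Levels

/-!
# DP: correctness of the whole algorithm on edge lists

`levs_spec` and induction from the deepest level: after the fold over the levels `n, n-1, ..., i` the table `T_i` is
`TabOK` at all nodes of `Ls i` (`solve_ok`; the children of the nodes of `Ls i` are in `Ls (i+1)`, at level `n` there are no
children). At level 0: `TabOK` at `root n = (range n, [])` for `J = []`: `IsOpt E n (range n) [] [] I`.
-/

namespace Pool.Agent.TIA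

/-- the table after the levels `n, ..., i` -/
def DP_tab (k t n : ℕ) (E : List (ℕ × ℕ)) (Ls : ℕ → List Nd) (i : ℕ) : List (Nd × Tab) :=
  (List.range' i (n + 1 - i)).foldr (fun j T => lstep k t n E T (Ls j)) []

theorem DP_tab_step (k t n : ℕ) (E : List (ℕ × ℕ)) (Ls : ℕ → List Nd) (i : ℕ) (hi : i ≤ n) :
    DP_tab k t n E Ls i = lstep k t n E (DP_tab k t n E Ls (i + 1)) (Ls i) := by
  have e : n + 1 - i = (n + 1 - (i + 1)) + 1 := by omega
  rw [DP_tab, e, List.range'_succ, List.foldr_cons, DP_tab]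

theorem DP_run (k t n : ℕ) (E : List (ℕ × ℕ)) (Ls : ℕ → List Nd)
    (hL : levs k t n E = ((List.range (n + 1)).map Ls).reverse) :
    runDP k t n E = DP_tab k t n E Ls 0 := by
  rw [runDP, hL, List.foldl_reverse, List.foldr_map, DP_tab, Nat.sub_zero, List.range_eq_range']

theorem DP_ok (k t n : ℕ) (E : List (ℕ × ℕ)) (h : Hyp k t n E) (Ls : ℕ → List Nd)
    (hV : ∀ i ≤ n, ∀ nd ∈ Ls i, Valid k t n E nd)
    (hC : ∀ i < n, ∀ nd ∈ Ls i, ∀ ch ∈ children k t n E nd, ch ∈ Ls (i + 1))
    (hN : ∀ nd ∈ Ls n, children k t n E nd = []) (d : ℕ) :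
    ∀ i, i + d = n → ∀ nd ∈ Ls i, TabOK E n (DP_tab k t n E Ls i) nd := by
  induction d with
  | zero =>
    intro i hi nd hnd
    have hi' : i = n := by omega
    subst hi'
    rw [DP_tab_step k t i E Ls i le_rfl]
    refine solve_ok k t i E h nd (hV i le_rfl nd hnd) _ (fun ch hch => ?_) _ hnd
    rw [hN nd hnd] at hch
    exact absurd hch List.not_mem_nil
  | succ d ih =>
    intro i hi nd hnd
    rw [DP_tab_step k t n E Ls i (by omega)]
    refine solve_ok k t n E h nd (hV i (by omega) nd hnd) _ (fun ch hch => ?_) _ hnd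
    exact ih (i + 1) (by omega) ch (hC i (by omega) nd hnd ch hch)

theorem answer_spec (k t n : ℕ) (E : List (ℕ × ℕ)) (h : Hyp k t n E) :
    ∃ I, Srt n I ∧ Ind (gE E) (toS I) ∧ (∀ v, v ∈ answer k t n E ↔ v ∈ I) ∧
      ∀ I', Srt n I' → Ind (gE E) (toS I') → I'.length ≤ I.length := by
  obtain ⟨Ls, hL, h0, hV, hC, hN⟩ := levs_spec k t n E h
  have hok := DP_ok k t n E h Ls hV hC hN n 0 (by omega) (root n) (by rw [h0]; simp)
  rw [← DP_run k t n E Ls hL] at hok
  obtain ⟨I, hI, hmem⟩ := hok [] (List.nil_sublist _) (fun v hv => absurd hv List.not_mem_nil)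
    (fun x hx => absurd hx List.not_mem_nil)
  refine ⟨I, hI.srt, hI.ind, hmem, fun I' hs hi => hI.max I' hs (fun v hv => ?_) hi
    (fun v hv => absurd hv List.not_mem_nil)⟩
  exact hs.subset hv

end Pool.Agent.TIA
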