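import Mathlib

/-!
# Definitions: induced paths, bicliques, independence number, separators, havens, structures
-/

namespace Pool.Agent.TIA

open Relation

variable {V : Type}

/-- `I` is an independent set. -/
def Ind (G : SimpleGraph V) (I : Set V) : Prop := ∀ x ∈ I, ∀ y ∈ I, ¬ G.Adj x y

/-- The independence number of the subgraph induced by `S` (for finite `S`). -/
noncomputable def al (G : SimpleGraph V) (S : Set V) : ℕ :=
  sSup {m | ∃ I : Finset V, (I : Set V) ⊆ S ∧ Ind G (I : Set V) ∧ I.card = m}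

/-- There is a walk from `a` to `b` all of whose vertices are in `S`. -/
def Rch (G : SimpleGraph V) (S : Set V) (a b : V) : Prop :=
  a ∈ S ∧ ReflTransGen (fun x y => G.Adj x y ∧ x ∈ S ∧ y ∈ S) a b

/-- The component of `a` in the subgraph induced by `S`. -/
def cmp (G : SimpleGraph V) (S : Set V) (a : V) : Set V := {b | Rch G S a b}

/-- `q 0, ..., q (l - 1)` is an induced path with `l` vertices. -/
def IPath (G : SimpleGraph V) (l : ℕ) (q : ℕ → V) : Prop :=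
  (∀ i < l, ∀ j < l, q i = q j → i = j) ∧
    ∀ i < l, ∀ j < l, (G.Adj (q i) (q j) ↔ (i = j + 1 ∨ j = i + 1))

/-- No induced path with `k` vertices. -/
def PFree (G : SimpleGraph V) (k : ℕ) : Prop := ∀ q : ℕ → V, ¬ IPath G k q

/-- No induced `K_{s,s}`. -/
def KFree (G : SimpleGraph V) (s : ℕ) : Prop :=
  ∀ A B : Finset V, Ind G (A : Set V) → Ind G (B : Set V) → (∀ a ∈ A, ∀ b ∈ B, G.Adj a b) →
    s ≤ A.card → s ≤ B.card → False

/-- Balanced separators of independence number at most `t`. -/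
def Bal (G : SimpleGraph V) (t : ℕ) : Prop :=
  ∀ W : Set V, ∃ X : Set V, al G X ≤ t ∧ ∀ a ∉ X, 2 * al G (W ∩ cmp G Xᶜ a) ≤ al G W

/-- Havens of order `t`. -/
structure Haven (G : SimpleGraph V) (t : ℕ) where
  β : Set V → Set V
  disj : ∀ X, al G X ≤ t → ∀ a ∈ β X, a ∉ X
  ne : ∀ X, al G X ≤ t → (β X).Nonempty
  conn : ∀ X, al G X ≤ t → ∀ a ∈ β X, ∀ b ∈ β X, Rch G (β X) a b
  closed : ∀ X, al G X ≤ t → ∀ a ∈ β X, ∀ b, b ∉ X → G.Adj a b → b ∈ β X
  mono : ∀ X Y, X ⊆ Y → al G Y ≤ t → β Y ⊆ β X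

/-- `x` is an `r`-hub. -/
def Hub {G : SimpleGraph V} {t : ℕ} (H : Haven G t) (r : ℕ) (x : V) : Prop :=
  ∀ X, x ∉ X → al G X ≤ r → x ∈ H.β X

/-- Every vertex of `B` has fewer than `s` neighbours in `M`. -/
def Sparse (G : SimpleGraph V) (B : Set V) (M : Finset V) (s : ℕ) : Prop :=
  ∀ b ∈ B, ∀ F : Finset V, F ⊆ M → (∀ f ∈ F, G.Adj b f) → F.card < s

/-- `h 0, ..., h (n - 1)` are distinct elements of `M`. -/
def Hubs (M : Finset V) (n : ℕ) (h : ℕ → V) : Prop :=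
  (∀ i < n, h i ∈ M) ∧ ∀ i < n, ∀ j < n, h i = h j → i = j

/-- A leg in `B` with levels `0, ..., p` that ends at the hub `h`. -/
def Leg (G : SimpleGraph V) (B : Set V) (p : ℕ) (x : ℕ → V) (h : V) : Prop :=
  (∀ a ≤ p, x a ∈ B) ∧ IPath G (p + 1) x ∧ ∀ a ≤ p, (G.Adj (x a) h ↔ a = p)

/-- Star-type structure with `n` legs: centre `z`, legs `x i` (levels `0..p`), hubs `h i`. -/
structure Star (G : SimpleGraph V) (B : Set V) (M : Finset V) (n p : ℕ) (z : V) (h : ℕ → V)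
    (x : ℕ → ℕ → V) : Prop where
  cen : z ∈ B
  hubs : Hubs M n h
  leg : ∀ i < n, Leg G B p (x i) (h i)
  cenHub : ∀ i < n, ¬ G.Adj z (h i)
  cenLeg : ∀ i < n, ∀ a ≤ p, z ≠ x i a ∧ (G.Adj z (x i a) ↔ a = 0)
  cross : ∀ i < n, ∀ j < n, i ≠ j → ∀ a ≤ p, ∀ b ≤ p, x i a ≠ x j b ∧ ¬ G.Adj (x i a) (x j b)
  crossHub : ∀ i < n, ∀ j < n, i ≠ j → ∀ a ≤ p, ¬ G.Adj (x i a) (h j)

/-- Clique-type structure with `n` legs (levels `0..p`); the vertices `x i 0` form a clique. -/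
structure Clq (G : SimpleGraph V) (B : Set V) (M : Finset V) (n p : ℕ) (h : ℕ → V)
    (x : ℕ → ℕ → V) : Prop where
  hubs : Hubs M n h
  leg : ∀ i < n, Leg G B p (x i) (h i)
  cross : ∀ i < n, ∀ j < n, i ≠ j → ∀ a ≤ p, ∀ b ≤ p,
    x i a ≠ x j b ∧ (G.Adj (x i a) (x j b) ↔ (a = 0 ∧ b = 0))
  crossHub : ∀ i < n, ∀ j < n, i ≠ j → ∀ a ≤ p, ¬ G.Adj (x i a) (h j)

/-- There is a star-type structure with `n` legs. -/
def HasStar (G : SimpleGraph V) (B : Set V) (M : Finset V) (n : ℕ) : Prop :=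
  ∃ p z h x, Star G B M n p z h x

/-- There is a clique-type structure with `n` legs of length `p`. -/
def HasClq (G : SimpleGraph V) (B : Set V) (M : Finset V) (n p : ℕ) : Prop :=
  ∃ h x, Clq G B M n p h x

/-- The pattern of `x i a` against `x j b`: equal or not, adjacent or not. -/
def Pat (G : SimpleGraph V) (u v : V) : Prop × Prop := (u = v, G.Adj u v)

/-- Two clique-type structures are `e`-linked. -/
def Linked (G : SimpleGraph V) (e n : ℕ) (h : ℕ → V) (x : ℕ → ℕ → V) (h' : ℕ → V)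
    (x' : ℕ → ℕ → V) : Prop :=
  ∃ U : Finset V, U.card = e + 1 ∧ (∀ u ∈ U, (∃ i < n, h i = u) ∧ ∃ j < n, h' j = u) ∧
    ∀ i < n, ∀ j < n, h i ∈ U → h' j ∈ U → h i ≠ h' j → G.Adj (x i 0) (x' j 0)

/-- `f` is strictly increasing on `{0, ..., N - 1}` with values below `R`. -/
def Sub (f : ℕ → ℕ) (N R : ℕ) : Prop := (∀ i j, i < j → j < N → f i < f j) ∧ ∀ i < N, f i < R

/-- Homogeneous double families: for `i < j` the relations between `x i u a` and `x j v b` depend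
only on `a`, `b` and the order of `u`, `v`. -/
def HomF (G : SimpleGraph V) (N L P : ℕ) (x : ℕ → ℕ → ℕ → V) (E A : Ordering → ℕ → ℕ → Prop) :
    Prop :=
  ∀ i j, i < j → j < N → ∀ u < L, ∀ v < L, ∀ a ≤ P, ∀ b ≤ P,
    (x i u a = x j v b ↔ E (compare u v) a b) ∧ (G.Adj (x i u a) (x j v b) ↔ A (compare u v) a b)

end Pool.Agent.TIA
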