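import Pool.Agent.TIA.AlgD

/-!
# Enc: decoding the adjacency matrix

`encG G = 1^n 0 rows`: the first `false` is at position `n`; the entry `(i, j)` of the matrix is at position `n + 1 + i n + j`.
-/

namespace Pool.Agent.TIA

theorem Enc_flat {α β : Type} (m : ℕ) (f : α → List β) (hf : ∀ a, (f a).length = m) (d : β) :
    ∀ (L : List α) (i j : ℕ) (hi : i < L.length), j < m →
      (L.flatMap f).getD (i * m + j) d = (f L[i]).getD j d := by
  intro L
  induction L with
  | nil => intro i j hi; simp at hi
  | cons a L ih =>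
    intro i j hi hj
    rw [List.flatMap_cons]
    cases i with
    | zero =>
      rw [Nat.zero_mul, Nat.zero_add, List.getD_append _ _ _ _ (by rw [hf]; exact hj)]
      rfl
    | succ i =>
      rw [List.getD_append_right _ _ _ _ (by rw [hf]; nlinarith)]
      have e : (i + 1) * m + j - (f a).length = i * m + j := by
        rw [hf, Nat.succ_mul]; omega
      rw [e, ih i j (by simpa using hi) hj]
      rfl

variable {n : ℕ} (G : SimpleGraph (Fin n))

theorem decN_enc : decN (encG G) = n := by
  unfold decN encG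
  rw [List.idxOf_append, if_neg (by simp)]
  simp

theorem Enc_drop : (encG G).drop (n + 1) =
    ((List.finRange n).flatMap fun i => (List.finRange n).map fun j =>
      @decide (G.Adj i j) (Classical.dec _)) := by
  unfold encG
  rw [List.drop_append]
  simp

theorem Enc_entry {i j : ℕ} (hi : i < n) (hj : j < n) :
    ((encG G).drop (n + 1)).getD (i * n + j) false =
      @decide (G.Adj ⟨i, hi⟩ ⟨j, hj⟩) (Classical.dec _) := by
  rw [Enc_drop, Enc_flat n _ (by intro a; simp) false (List.finRange n) i j (by simpa using hi) hj]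
  rw [List.getD_eq_getElem _ _ (by simpa using hj)]
  simp

theorem mem_decE (i j : ℕ) : (i, j) ∈ decE (encG G) ↔
    ∃ (hi : i < n) (hj : j < n), G.Adj ⟨i, hi⟩ ⟨j, hj⟩ := by
  unfold decE
  rw [decN_enc]
  simp only [List.mem_flatMap, List.mem_range, List.mem_map, List.mem_filter, Prod.mk.injEq]
  constructor
  · rintro ⟨a, ha, b, ⟨hb, hab⟩, rfl, rfl⟩
    rw [Enc_entry G ha hb] at hab
    exact ⟨ha, hb, @of_decide_eq_true _ (Classical.dec _) hab⟩
  · rintro ⟨hi, hj, h⟩
    refine ⟨i, hi, j, ⟨hj, ?_⟩, rfl, rfl⟩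
    rw [Enc_entry G hi hj]
    exact @decide_eq_true _ (Classical.dec _) h

theorem good_enc : GoodE n (decE (encG G)) where
  lt := by
    intro u v h
    obtain ⟨hu, hv, -⟩ := (mem_decE G u v).mp h
    exact ⟨hu, hv⟩
  symm := by
    intro u v h
    obtain ⟨hu, hv, ha⟩ := (mem_decE G u v).mp h
    exact (mem_decE G v u).mpr ⟨hv, hu, ha.symm⟩
  irr := by
    intro u h
    obtain ⟨hu, hv, ha⟩ := (mem_decE G u u).mp h
    exact G.irrefl ha

theorem alg_enc (k t : ℕ) : alg k t (encG G) =
    encS (Finset.univ.filter fun i : Fin n => (i : ℕ) ∈ answer k t n (decE (encG G))) := by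
  unfold alg encS
  rw [decN_enc]
  apply List.ext_getElem
  · simp
  · intro i h1 h2
    simp

end Pool.Agent.TIA
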