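import Pool.Agent.TIA.PolD

/-!
# PolE: polynomial-time closure for the dynamic programming loop and the whole algorithm

`runDP` see PolD; `decN` = `idxOf` (`FP.Poly.idxOf`), bounded by `l.length`; `decE` by `range`, `flatMap`, `filter`,
`map`, `drop`, `getD`.
-/

namespace Pool.Agent.TIA

open FP

variable {α : Type} [Code α]

theorem PolE_size_filter {β : Type} [Code β] (p : β → Bool) (l : List β) :
    size (l.filter p) ≤ size l := by
  induction l with
  | nil => simp
  | cons a l ih =>
    rw [List.filter_cons, size_cons]
    split_ifs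
    · rw [size_cons]; omega
    · omega

theorem PolE_size_map {β γ : Type} [Code β] [Code γ] (F : β → γ) (c R : ℕ) (l : List β)
    (h : ∀ x ∈ l, size (F x) ≤ c * size x + R) :
    size (l.map F) ≤ (c + 2 * R + 1) * size l := by
  induction l with
  | nil => simp [size_nil]
  | cons a l ih =>
    rw [List.map_cons, size_cons, size_cons]
    have h1 := ih (fun x hx => h x (List.mem_cons_of_mem _ hx))
    have h2 := h a List.mem_cons_self
    have h3 : (c + 2 * R + 1) * (2 * size a + 1 + size l) =
      (c + 2 * R + 1) * size l + 2 * (c * size a) + c + 2 * R + 1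
        + (4 * R * size a + 2 * size a) := by ring
    rw [h3]
    have : 0 ≤ 4 * R * size a := Nat.zero_le _
    omega

theorem PolE_longest (P : List ℕ → Prop) : ∀ (l : List (List ℕ)) (b : List ℕ), P b →
    (∀ x ∈ l, P x) → P (l.foldl (fun b x => if b.length < x.length then x else b) b) := by
  intro l
  induction l with
  | nil => intro b hb _; exact hb
  | cons a l ih =>
    intro b hb hl
    rw [List.foldl_cons]
    apply ih
    · split_ifs
      · exact hl a List.mem_cons_self
      · exact hb
    · exact fun x hx => hl x (List.mem_cons_of_mem _ hx)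

theorem PolE_size_solve (k t n : ℕ) (E : List (ℕ × ℕ)) (T : List (Nd × Tab)) (nd : Nd) :
    size (solve k t n E T nd) ≤
      (2 + 2 * (1 + size (List.range n)) + 1) * size (subs nd.2 (wm k t)) := by
  unfold solve
  refine (PolE_size_map _ 2 (1 + size (List.range n)) _ ?_).trans
    (Nat.mul_le_mul_left _ (PolE_size_filter _ _))
  intro J _
  rw [size_pair]
  have h1 : size (longest (((subs (bag k t n E nd) (wm k t + qq k t)).filter fun Q =>
      indB E Q && decide (cap n nd.2 Q = J)).map (glue k t n E T nd))) ≤ size (List.range n) := by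
    unfold longest
    apply PolE_longest (fun x => size x ≤ size (List.range n))
    · rw [size_nil]; exact Nat.zero_le _
    · intro x hx
      obtain ⟨Q, _, rfl⟩ := List.mem_map.mp hx
      exact PolE_size_filter _ _
  omega

theorem poly_runDP (k t : ℕ) {n : α → ℕ} {e : α → List (ℕ × ℕ)} (he : Poly e) (hn : Poly n)
    (hb : PolyBdd n) : Poly (fun a => runDP k t (n a) (e a)) := by
  obtain ⟨P, hP⟩ := (poly_subs (α := List ℕ) (wm k t) (f := fun S => S) Poly.ident).size_le
  obtain ⟨Q, hQ⟩ := (poly_levs k t he hn hb).size_le
  obtain ⟨R, hR⟩ := (Poly.range hn hb).size_le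
  unfold runDP
  refine Poly.foldl (h := fun a T L => lstep k t (n a) (e a) T L) (poly_levs k t he hn hb)
    (FP.Poly.const []) ?_ ((2 + 2 * (1 + (2 + 2 * (1 + R) + 1) * P.comp Q) + 1) * Q) ?_
  · unfold lstep
    have hn' : Poly (fun p : (α × List (Nd × Tab) × List Nd) × Nd => n p.1.1) :=
      hn.comp (f := fun p : (α × List (Nd × Tab) × List Nd) × Nd => p.1.1) (by fun_prop)
    have he' : Poly (fun p : (α × List (Nd × Tab) × List Nd) × Nd => e p.1.1) :=
      he.comp (f := fun p : (α × List (Nd × Tab) × List Nd) × Nd => p.1.1) (by fun_prop)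
    have hb' : PolyBdd (fun p : (α × List (Nd × Tab) × List Nd) × Nd => n p.1.1) :=
      hb.comp (g := fun p : (α × List (Nd × Tab) × List Nd) × Nd => p.1.1) (by fun_prop)
    refine FP.Poly.map (g := fun (p : α × List (Nd × Tab) × List Nd) nd =>
      (nd, solve k t (n p.1) (e p.1) p.2.1 nd)) (by fun_prop) ?_
    refine Poly.pair (by fun_prop) ?_
    exact poly_solve k t (n := fun p : (α × List (Nd × Tab) × List Nd) × Nd => n p.1.1)
      he' hn' hb' (by fun_prop) (by fun_prop)
  · intro a j hj
    rcases Nat.eq_zero_or_pos j with rfl | hj0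
    · rw [List.take_zero, List.foldl_nil, size_nil]; exact Nat.zero_le _
    · obtain ⟨i, rfl⟩ : ∃ i, j = i + 1 := ⟨j - 1, by omega⟩
      have hi : i < (levs k t (n a) (e a)).length := by omega
      rw [List.take_succ_eq_append_getElem hi, List.foldl_append, List.foldl_cons, List.foldl_nil]
      set T := ((levs k t (n a) (e a)).take i).foldl (fun T L => lstep k t (n a) (e a) T L) []
      have hL : (levs k t (n a) (e a))[i] ∈ levs k t (n a) (e a) := List.getElem_mem hi
      set L := (levs k t (n a) (e a))[i]
      have h1 : size L ≤ Q.eval (size a) := by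
        have := size_le_of_mem hL
        have := hQ a
        omega
      have h2 : size (List.range (n a)) ≤ R.eval (size a) := hR a
      have key : size (lstep k t (n a) (e a) T L) ≤
          (2 + 2 * (1 + (2 + 2 * (1 + R.eval (size a)) + 1) * P.eval (Q.eval (size a))) + 1)
            * size L := by
        unfold lstep
        apply PolE_size_map
        intro nd hnd
        rw [size_pair]
        have h3 : size nd.2 ≤ Q.eval (size a) := by
          have h4 := size_le_of_mem hnd
          have h5 := size_prod nd
          omega
        have h6 : size (subs nd.2 (wm k t)) ≤ P.eval (Q.eval (size a)) :=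
          (hP nd.2).trans (NPC.eval_mono P h3)
        have h7 := PolE_size_solve k t (n a) (e a) T nd
        have h8 : (2 + 2 * (1 + size (List.range (n a))) + 1) * size (subs nd.2 (wm k t)) ≤
            (2 + 2 * (1 + R.eval (size a)) + 1) * P.eval (Q.eval (size a)) :=
          Nat.mul_le_mul (by omega) h6
        omega
      refine key.trans ((Nat.mul_le_mul_left _ h1).trans (le_of_eq ?_))
      simp only [Polynomial.eval_add, Polynomial.eval_mul, Polynomial.eval_ofNat,
        Polynomial.eval_one, Polynomial.eval_comp]

theorem poly_answer (k t : ℕ) {n : α → ℕ} {e : α → List (ℕ × ℕ)} (he : Poly e) (hn : Poly n)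
    (hb : PolyBdd n) : Poly (fun a => answer k t (n a) (e a)) := by
  unfold answer
  refine poly_look (poly_runDP k t he hn hb) ?_ (FP.Poly.const [])
  unfold root
  exact Poly.pair (Poly.range hn hb) (FP.Poly.const [])

theorem poly_alg (k t : ℕ) : Poly (alg k t) := by
  have hN : Poly (fun l : List Bool => decN l) := by
    unfold decN
    exact Poly.idxOf (FP.Poly.const false) Poly.ident
  have hNb : PolyBdd (fun l : List Bool => decN l) := by
    refine (PolyBdd.length (f := fun l : List Bool => l) Poly.ident).mono ?_
    intro l
    exact List.idxOf_le_length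
  have hE : Poly (fun l : List Bool => decE l) := by
    unfold decE
    refine Poly.flatMap (g := fun (l : List Bool) i => ((List.range (decN l)).filter fun j =>
      (l.drop (decN l + 1)).getD (i * decN l + j) false).map fun j => (i, j))
      (Poly.range hN hNb) ?_
    have hN1 : Poly (fun p : List Bool × ℕ => decN p.1) :=
      hN.comp (f := fun p : List Bool × ℕ => p.1) (by fun_prop)
    have hN1b : PolyBdd (fun p : List Bool × ℕ => decN p.1) :=
      hNb.comp (g := fun p : List Bool × ℕ => p.1) (by fun_prop)
    refine FP.Poly.map (g := fun (p : List Bool × ℕ) j => (p.2, j)) ?_ (by fun_prop)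
    refine Poly.filter (g := fun (p : List Bool × ℕ) j =>
      (p.1.drop (decN p.1 + 1)).getD (p.2 * decN p.1 + j) false) (Poly.range hN1 hN1b) ?_
    have hN2 : Poly (fun p : (List Bool × ℕ) × ℕ => decN p.1.1) :=
      hN.comp (f := fun p : (List Bool × ℕ) × ℕ => p.1.1) (by fun_prop)
    refine Poly.getD ?_ ?_ (FP.Poly.const false)
    · exact Poly.drop (Poly.add hN2 (FP.Poly.const 1)) (by fun_prop)
    · exact Poly.add (Poly.mul (by fun_prop) hN2) (by fun_prop)
  have hA := poly_answer k t hE hN hNb
  unfold alg
  refine FP.Poly.map (g := fun (l : List Bool) v => decide (v ∈ answer k t (decN l) (decE l)))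
    (Poly.range hN hNb) ?_
  have hA1 : Poly (fun p : List Bool × ℕ => answer k t (decN p.1) (decE p.1)) :=
    hA.comp (f := fun p : List Bool × ℕ => p.1) (by fun_prop)
  exact Poly.decideMem (by fun_prop) hA1

end Pool.Agent.TIA
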