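import Pool.Agent.TIA.Defs

/-!
# RchB: walks inside a set and components

`Rch G S a b`: `a ∈ S` and there is a walk from `a` to `b` inside `S` (reflexive transitive closure).
All by induction on `ReflTransGen`.
-/

namespace Pool.Agent.TIA

variable {V : Type} {G : SimpleGraph V} {S T D : Set V} {a b c : V}

theorem Rch.refl (h : a ∈ S) : Rch G S a a := ⟨h, Relation.ReflTransGen.refl⟩

theorem Rch.left (h : Rch G S a b) : a ∈ S := h.1

theorem Rch.right (h : Rch G S a b) : b ∈ S := by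
  obtain ⟨h1, h2⟩ := h
  induction h2 with
  | refl => exact h1
  | tail _ hs _ => exact hs.2.2

theorem Rch.symm (h : Rch G S a b) : Rch G S b a := by
  refine ⟨h.right, ?_⟩
  obtain ⟨h1, h2⟩ := h
  induction h2 with
  | refl => exact Relation.ReflTransGen.refl
  | tail _ hs ih => exact Relation.ReflTransGen.head ⟨hs.1.symm, hs.2.2, hs.2.1⟩ ih

theorem Rch.trans (h : Rch G S a b) (h' : Rch G S b c) : Rch G S a c := ⟨h.1, h.2.trans h'.2⟩

theorem Rch.mono (h : Rch G S a b) (hST : S ⊆ T) : Rch G T a b :=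
  ⟨hST h.1, Relation.ReflTransGen.mono (fun _ _ hs => ⟨hs.1, hST hs.2.1, hST hs.2.2⟩) _ _ h.2⟩

theorem Rch.adj (ha : a ∈ S) (hb : b ∈ S) (h : G.Adj a b) : Rch G S a b :=
  ⟨ha, Relation.ReflTransGen.single ⟨h, ha, hb⟩⟩

/-- A set `D` that is closed under adjacency inside `S` absorbs the walks in `S` that start in it. -/
theorem Rch.closed (h : Rch G S a b) (ha : a ∈ D) (hD : ∀ x ∈ D, ∀ y ∈ S, G.Adj x y → y ∈ D) :
    b ∈ D ∧ Rch G (S ∩ D) a b := by
  obtain ⟨h1, h2⟩ := h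
  induction h2 with
  | refl => exact ⟨ha, Rch.refl ⟨h1, ha⟩⟩
  | tail _ hs ih =>
    have h3 := hD _ ih.1 _ hs.2.2 hs.1
    exact ⟨h3, ih.2.trans (Rch.adj ⟨hs.2.1, ih.1⟩ ⟨hs.2.2, h3⟩ hs.1)⟩

/-- A walk that leaves `D` uses an edge from `D` to its complement. -/
theorem Rch.exit (h : Rch G S a b) (ha : a ∈ D) (hb : b ∉ D) :
    ∃ x ∈ S ∩ D, ∃ y ∈ S, y ∉ D ∧ G.Adj x y := by
  by_contra hc
  push Not at hc
  refine hb (by
    obtain ⟨h1, h2⟩ := h
    clear hb
    induction h2 with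
    | refl => exact ha
    | tail _ hs ih =>
      by_contra h3
      exact hc _ ⟨hs.2.1, ih⟩ _ hs.2.2 h3 hs.1)

theorem mem_cmp_self (h : a ∈ S) : a ∈ cmp G S a := Rch.refl h

theorem cmp_subset : cmp G S a ⊆ S := fun _ h => Rch.right h

theorem cmp_eq_of_mem (h : b ∈ cmp G S a) : cmp G S b = cmp G S a := by
  ext x
  exact ⟨fun hx => Rch.trans h hx, fun hx => Rch.trans (Rch.symm h) hx⟩

theorem cmp_closed (hb : b ∈ cmp G S a) (hc : c ∈ S) (h : G.Adj b c) : c ∈ cmp G S a :=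
  Rch.trans hb (Rch.adj (Rch.right hb) hc h)

theorem cmp_conn (hb : b ∈ cmp G S a) (hc : c ∈ cmp G S a) : Rch G (cmp G S a) b c := by
  have h1 : Rch G S b c := Rch.trans (Rch.symm hb) hc
  exact (h1.closed (D := cmp G S a) hb (fun x hx y hy hxy => cmp_closed hx hy hxy)).2.mono
    Set.inter_subset_right

theorem cmp_mono (hST : S ⊆ T) : cmp G S a ⊆ cmp G T a := fun _ h => Rch.mono h hST

/-- Two components are equal or disjoint and anticomplete. -/
theorem cmp_disj (h : cmp G S a ≠ cmp G S b) : Disjoint (cmp G S a) (cmp G S b) ∧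
    ∀ x ∈ cmp G S a, ∀ y ∈ cmp G S b, ¬ G.Adj x y := by
  constructor
  · rw [Set.disjoint_left]
    intro x hx hx'
    exact h ((cmp_eq_of_mem hx).symm.trans (cmp_eq_of_mem hx'))
  · intro x hx y hy hxy
    have h1 : y ∈ cmp G S a := cmp_closed hx (cmp_subset hy) hxy
    exact h ((cmp_eq_of_mem h1).symm.trans (cmp_eq_of_mem hy))

end Pool.Agent.TIA
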