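import Pool.Agent.TIA.TDa
import Pool.Agent.TIA.AlB
import Pool.Agent.TIA.RchB

/-!
# TDb: balanced separators give a tree decomposition (section 0 of the notes)

`rdec_of_bal`: for all `W ⊆ A` with `al W ≤ 3 t` there is a decomposition of `G[A]` with bags of `al ≤ 4 t + 1` whose root bag contains
`W`. Strong induction on `|A \ W|` (`Set.ncard`). If `A \ W` is empty: `rdec_single` with `A` (`= W`). Otherwise let
`v ∈ A \ W`, `W⁺ = W ∪ {v}`, `X0` from `Bal` for `W⁺`, `X = X0 ∩ A`; for `a ∈ A \ X` the component `cmp G (A \ X) a` is contained in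
`cmp G X0ᶜ a` (`cmp_mono`), so `2 al (W⁺ ∩ cmp G (A \ X) a) ≤ al W⁺ ≤ 3 t + 1`. Start with the single bag `B0 = W⁺ ∪ X`
(`al ≤ 4 t + 1`) and add the components one after the other (induction over a Finset of components, or over a list of
representatives in different components): for a component `C` the child is the decomposition of `C ∪ X` with
`W1 = (W⁺ ∩ C) ∪ X` in the root bag (induction hypothesis: `|(C ∪ X) \ W1| ≤ |C \ W⁺| < |A \ W|` since `v ∈ W⁺`;
`al W1 ≤ (3t+1)/2 + t`, i.e. `≤ 3 t`). `rdec_glue` with `A' = B0 ∪ (components treated so far)`: `A' ∩ (C ∪ X) ⊆ W1` because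
components are disjoint; no edges between `A' \ (C ∪ X)` and `C` (`cmp_closed`: neighbours of `C` in `A` are in `C ∪ X`).
Finally `A' = A`.
`treeAlpha_of_bal`: `A = univ`, `W = ∅`, `treeAlpha_of_rdec`.
-/

namespace Pool.Agent.TIA

variable {V : Type} {G : SimpleGraph V}

theorem TDb_step [Finite V] (t : ℕ) (hB : Bal G t) (A W : Set V) (hW : W ⊆ A)
    (hal : al G W ≤ 3 * t) (v : V) (hvA : v ∈ A) (hvW : v ∉ W)
    (IH : ∀ A1 W1 : Set V, W1 ⊆ A1 → al G W1 ≤ 3 * t → (A1 \ W1).ncard < (A \ W).ncard →
      ∃ m π B, RDec G A1 (4 * t + 1) m π B ∧ W1 ⊆ B 0) :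
    ∃ m π B, RDec G A (4 * t + 1) m π B ∧ W ⊆ B 0 := by
  classical
  have fin : ∀ S : Set V, S.Finite := fun S => S.toFinite
  have hWp : al G ({v} ∪ W) ≤ 3 * t + 1 := by
    have h1 := al_union_le (G := G) (fin {v}) (fin W)
    have h2 := al_singleton_le (G := G) v
    omega
  obtain ⟨X0, hX0, hbal⟩ := hB ({v} ∪ W)
  have hXal : al G (X0 ∩ A) ≤ t := le_trans (al_mono (fin _) Set.inter_subset_left) hX0
  have hB0 : al G (({v} ∪ W) ∪ (X0 ∩ A)) ≤ 4 * t + 1 := by
    have h1 := al_union_le (G := G) (fin ({v} ∪ W)) (fin (X0 ∩ A))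
    omega
  have hWpA : ({v} ∪ W) ⊆ A := by
    rintro u (hu | hu)
    · rw [Set.mem_singleton_iff] at hu
      rw [hu]; exact hvA
    · exact hW hu
  have hB0A : ({v} ∪ W) ∪ (X0 ∩ A) ⊆ A := Set.union_subset hWpA Set.inter_subset_right
  have key : ∀ F : Finset V, ∃ m π B,
      RDec G ((({v} ∪ W) ∪ (X0 ∩ A)) ∪ ⋃ a ∈ F, cmp G (A \ (X0 ∩ A)) a) (4 * t + 1) m π B ∧
        B 0 = ({v} ∪ W) ∪ (X0 ∩ A) := by
    intro F
    induction F using Finset.induction_on with
    | empty =>
      refine ⟨1, fun _ => 0, fun _ => ({v} ∪ W) ∪ (X0 ∩ A), ?_, rfl⟩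
      have h0 : ((({v} ∪ W) ∪ (X0 ∩ A)) ∪ ⋃ a ∈ (∅ : Finset V), cmp G (A \ (X0 ∩ A)) a)
          = ({v} ∪ W) ∪ (X0 ∩ A) := by simp
      rw [h0]
      exact rdec_single _ _ hB0
    | @insert a F haF ih =>
      obtain ⟨m, π, B, hD, hB0'⟩ := ih
      have hins : ((({v} ∪ W) ∪ (X0 ∩ A)) ∪ ⋃ b ∈ insert a F, cmp G (A \ (X0 ∩ A)) b)
          = ((({v} ∪ W) ∪ (X0 ∩ A)) ∪ ⋃ b ∈ F, cmp G (A \ (X0 ∩ A)) b) ∪
            (cmp G (A \ (X0 ∩ A)) a ∪ (X0 ∩ A)) := by
        ext u
        simp only [Set.mem_union, Set.mem_iUnion, Finset.mem_insert]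
        constructor
        · rintro (h | ⟨b, hb, h⟩)
          · exact Or.inl (Or.inl h)
          · rcases hb with rfl | hb
            · exact Or.inr (Or.inl h)
            · exact Or.inl (Or.inr ⟨b, hb, h⟩)
        · rintro ((h | ⟨b, hb, h⟩) | (h | h))
          · exact Or.inl h
          · exact Or.inr ⟨b, Or.inr hb, h⟩
          · exact Or.inr ⟨a, Or.inl rfl, h⟩
          · exact Or.inl (Or.inr h)
      by_cases haS : a ∈ A \ (X0 ∩ A)
      · by_cases hcov : ∃ b ∈ F, a ∈ cmp G (A \ (X0 ∩ A)) b
        · obtain ⟨b, hbF, hb⟩ := hcov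
          refine ⟨m, π, B, ?_, hB0'⟩
          have heq : ((({v} ∪ W) ∪ (X0 ∩ A)) ∪ ⋃ b ∈ insert a F, cmp G (A \ (X0 ∩ A)) b)
              = ((({v} ∪ W) ∪ (X0 ∩ A)) ∪ ⋃ b ∈ F, cmp G (A \ (X0 ∩ A)) b) := by
            rw [hins]
            apply Set.union_eq_self_of_subset_right
            apply Set.union_subset
            · intro u hu
              rw [cmp_eq_of_mem hb] at hu
              exact Or.inr (Set.mem_biUnion (show b ∈ (F : Set V) from hbF) hu)
            · intro u hu
              exact Or.inl (Or.inr hu)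
          rw [heq]
          exact hD
        · have haC : a ∈ cmp G (A \ (X0 ∩ A)) a := mem_cmp_self haS
          have hCA : cmp G (A \ (X0 ∩ A)) a ⊆ A \ (X0 ∩ A) := cmp_subset
          have hdisj : ∀ b ∈ F, ∀ u, u ∈ cmp G (A \ (X0 ∩ A)) a →
              u ∉ cmp G (A \ (X0 ∩ A)) b := by
            intro b hb u hu hub
            have hne : cmp G (A \ (X0 ∩ A)) a ≠ cmp G (A \ (X0 ∩ A)) b := by
              intro h
              apply hcov
              refine ⟨b, hb, ?_⟩
              rw [← h]
              exact haC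
            exact Set.disjoint_left.1 (cmp_disj hne).1 hu hub
          have haX0 : a ∉ X0 := fun h => haS.2 ⟨h, haS.1⟩
          have h2al : 2 * al G (({v} ∪ W) ∩ cmp G (A \ (X0 ∩ A)) a) ≤ 3 * t + 1 := by
            have h3 := hbal a haX0
            have h4 : al G (({v} ∪ W) ∩ cmp G (A \ (X0 ∩ A)) a)
                ≤ al G (({v} ∪ W) ∩ cmp G X0ᶜ a) := by
              apply al_mono (fin _)
              apply Set.inter_subset_inter_right
              apply cmp_mono
              intro u hu hu0
              exact hu.2 ⟨hu0, hu.1⟩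
            omega
          obtain ⟨m1, π1, B1, hD1, hW1⟩ := IH (cmp G (A \ (X0 ∩ A)) a ∪ (X0 ∩ A))
            ((({v} ∪ W) ∩ cmp G (A \ (X0 ∩ A)) a) ∪ (X0 ∩ A))
            (Set.union_subset_union_left _ Set.inter_subset_right)
            (by
              have h5 := al_union_le (G := G) (fin (({v} ∪ W) ∩ cmp G (A \ (X0 ∩ A)) a))
                (fin (X0 ∩ A))
              omega)
            (by
              apply Set.ncard_lt_ncard _ (fin _)
              rw [Set.ssubset_iff_of_subset]
              · refine ⟨v, ⟨hvA, hvW⟩, ?_⟩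
                rintro ⟨h6, h7⟩
                apply h7
                rcases h6 with h6 | h6
                · exact Or.inl ⟨Or.inl rfl, h6⟩
                · exact Or.inr h6
              · rintro u ⟨hu1, hu2⟩
                rcases hu1 with hu1 | hu1
                · refine ⟨(hCA hu1).1, ?_⟩
                  intro huW
                  exact hu2 (Or.inl ⟨Or.inr huW, hu1⟩)
                · exact absurd (Or.inr hu1) hu2)
          obtain ⟨π', B', hD', hB'⟩ := rdec_glue hD hD1 (W1 := (({v} ∪ W) ∩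
              cmp G (A \ (X0 ∩ A)) a) ∪ (X0 ∩ A)) (by
              rw [hB0']
              exact Set.union_subset_union_left _ Set.inter_subset_left) hW1
            (by
              rintro u ⟨hu1, hu2⟩
              rcases hu2 with hu2 | hu2
              · rcases hu1 with (hu1 | hu1) | hu1
                · exact Or.inl ⟨hu1, hu2⟩
                · exact Or.inr hu1
                · exfalso
                  obtain ⟨b, hb, hub⟩ := Set.mem_iUnion₂.1 hu1
                  exact hdisj b hb u hu2 hub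
              · exact Or.inr hu2)
            (by
              intro u hu w hw hu1 hw1 hadj
              rcases hw with hw | hw
              · apply hu1
                left
                have huA : u ∈ A := by
                  rcases hu with hu | hu
                  · exact hB0A hu
                  · obtain ⟨b, hb, hub⟩ := Set.mem_iUnion₂.1 hu
                    exact (cmp_subset hub).1
                have huS : u ∈ A \ (X0 ∩ A) := ⟨huA, fun h => hu1 (Or.inr h)⟩
                exact cmp_closed hw huS hadj.symm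
              · exact hw1 (Or.inl (Or.inr hw)))
          refine ⟨m + m1, π', B', ?_, hB'.trans hB0'⟩
          rw [hins]
          exact hD'
      · refine ⟨m, π, B, ?_, hB0'⟩
        have heq : ((({v} ∪ W) ∪ (X0 ∩ A)) ∪ ⋃ b ∈ insert a F, cmp G (A \ (X0 ∩ A)) b)
            = ((({v} ∪ W) ∪ (X0 ∩ A)) ∪ ⋃ b ∈ F, cmp G (A \ (X0 ∩ A)) b) := by
          rw [hins]
          apply Set.union_eq_self_of_subset_right
          apply Set.union_subset
          · intro u hu
            exact absurd (Rch.left hu) haS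
          · intro u hu
            exact Or.inl (Or.inr hu)
        rw [heq]
        exact hD
  have := Fintype.ofFinite V
  obtain ⟨m, π, B, hD, hB0'⟩ := key Finset.univ
  have hA : ((({v} ∪ W) ∪ (X0 ∩ A)) ∪ ⋃ a ∈ (Finset.univ : Finset V), cmp G (A \ (X0 ∩ A)) a)
      = A := by
    apply Set.Subset.antisymm
    · apply Set.union_subset hB0A
      apply Set.iUnion₂_subset
      intro a _ u hu
      exact (cmp_subset hu).1
    · intro u hu
      by_cases huX : u ∈ X0 ∩ A
      · exact Or.inl (Or.inr huX)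
      · exact Or.inr (Set.mem_iUnion₂.2 ⟨u, Finset.mem_univ u, mem_cmp_self ⟨hu, huX⟩⟩)
  rw [hA] at hD
  refine ⟨m, π, B, hD, ?_⟩
  rw [hB0']
  intro u hu
  exact Or.inl (Or.inr hu)

theorem rdec_of_bal [Finite V] (t : ℕ) (hB : Bal G t) (A W : Set V) (hW : W ⊆ A)
    (hal : al G W ≤ 3 * t) : ∃ m π B, RDec G A (4 * t + 1) m π B ∧ W ⊆ B 0 := by
  have main : ∀ n : ℕ, ∀ A W : Set V, W ⊆ A → al G W ≤ 3 * t → (A \ W).ncard = n →
      ∃ m π B, RDec G A (4 * t + 1) m π B ∧ W ⊆ B 0 := by
    intro n
    induction n using Nat.strong_induction_on with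
    | _ n ih =>
      intro A W hW hal hn
      by_cases hne : ∃ v, v ∈ A ∧ v ∉ W
      · obtain ⟨v, hvA, hvW⟩ := hne
        refine TDb_step t hB A W hW hal v hvA hvW ?_
        intro A1 W1 h1 h2 h3
        exact ih _ (by omega) A1 W1 h1 h2 rfl
      · have hAW : A = W := by
          apply Set.Subset.antisymm _ hW
          intro v hv
          by_contra hvW
          exact hne ⟨v, hv, hvW⟩
        refine ⟨1, fun _ => 0, fun _ => A, rdec_single A _ ?_, ?_⟩
        · rw [hAW]; omega
        · exact hW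
  exact main _ A W hW hal rfl

theorem treeAlpha_of_bal [Finite V] (t : ℕ) (hB : Bal G t) : TreeAlphaLe G (4 * t + 1) := by
  obtain ⟨m, π, B, hD, -⟩ := rdec_of_bal t hB Set.univ ∅ (Set.empty_subset _) (by
    rw [al_empty]; omega)
  exact treeAlpha_of_rdec hD

end Pool.Agent.TIA
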