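import Pool.Agent.TIA.Enc
import Pool.Agent.TIA.AlB
import Pool.Agent.TIA.RchB

/-!
# Transf: transfer between the graph on `Fin n` and the graph `gE (decE (encG G))` on `ℕ`

`H = gE (decE (encG G))`: `H.Adj u v ↔ ∃ hu hv, G.Adj ⟨u,hu⟩ ⟨v,hv⟩` (`mem_decE`).
* `pfree_of_iso`: an induced path `q` in `G` with `k` vertices gives an embedding of `pathGraph k` (for `k ≥ 1`; `PFree G k` for
  `k = 0` is false unless `V` is empty, but then `IsEmpty (pathGraph 0 ↪g G)` is false); an embedding exists for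
  `k = 0`, so the hypothesis is contradictory then. `kfree_of_iso`: from `A`, `B` with `≥ s` elements take subsets with exactly
  `s` elements, enumerate them by `Fin s` and map `Sum.inl`, `Sum.inr`.
* `PFree G k → PFree H k` for `k ≥ 2`: every vertex of an induced path with `≥ 2` vertices has a neighbour, so it is `< n`.
* `Bal G t → BalN H n t`: take the preimage of `W` in `Fin n`, `X` the image; `al` and `cmp` correspond under
  `Fin.val`.
* independent sets: sorted lists `< n` and finsets of `Fin n`.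
-/

namespace Pool.Agent.TIA

theorem pfree_of_iso {V : Type} {G : SimpleGraph V} {k : ℕ}
    (h : IsEmpty (SimpleGraph.pathGraph k ↪g G)) : PFree G k := by
  intro q hq
  refine h.false ⟨⟨fun i : Fin k => q i, ?_⟩, ?_⟩
  · intro i j hij
    exact Fin.ext (hq.1 i i.2 j j.2 hij)
  · intro i j
    change G.Adj (q i) (q j) ↔ _
    rw [hq.2 i i.2 j j.2, SimpleGraph.pathGraph_adj]
    omega

theorem kfree_of_iso {V : Type} {G : SimpleGraph V} {s : ℕ}
    (h : IsEmpty (completeBipartiteGraph (Fin s) (Fin s) ↪g G)) : KFree G s := by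
  intro A B hA hB hAB hsA hsB
  obtain ⟨A', hA', cA⟩ := Finset.exists_subset_card_eq hsA
  obtain ⟨B', hB', cB⟩ := Finset.exists_subset_card_eq hsB
  have f : Fin s ≃ A' := (Finset.equivFinOfCardEq cA).symm
  have g : Fin s ≃ B' := (Finset.equivFinOfCardEq cB).symm
  have fA : ∀ i, (f i : V) ∈ A := fun i => hA' (f i).2
  have gB : ∀ i, (g i : V) ∈ B := fun i => hB' (g i).2
  refine h.false ⟨⟨Sum.elim (fun i => (f i : V)) (fun i => (g i : V)), ?_⟩, ?_⟩
  · rintro (i | i) (j | j) hij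
    · simp only [Sum.elim_inl] at hij
      rw [f.injective (Subtype.ext hij)]
    · exfalso
      simp only [Sum.elim_inl, Sum.elim_inr] at hij
      have := hAB _ (fA i) _ (gB j)
      rw [hij] at this
      exact G.irrefl this
    · exfalso
      simp only [Sum.elim_inl, Sum.elim_inr] at hij
      have := hAB _ (fA j) _ (gB i)
      rw [hij] at this
      exact G.irrefl this
    · simp only [Sum.elim_inr] at hij
      rw [g.injective (Subtype.ext hij)]
  · rintro (i | i) (j | j)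
    · constructor
      · intro hh
        exact absurd hh (hA _ (fA i) _ (fA j))
      · intro hh
        simp [completeBipartiteGraph] at hh
    · constructor
      · intro _
        simp [completeBipartiteGraph]
      · intro _
        exact hAB _ (fA i) _ (gB j)
    · constructor
      · intro _
        simp [completeBipartiteGraph]
      · intro _
        exact (hAB _ (fA j) _ (gB i)).symm
    · constructor
      · intro hh
        exact absurd hh (hB _ (gB i) _ (gB j))
      · intro hh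
        simp [completeBipartiteGraph] at hh

theorem trfP_adj {n : ℕ} (G : SimpleGraph (Fin n)) (u v : ℕ) :
    (gE (decE (encG G))).Adj u v ↔ ∃ (hu : u < n) (hv : v < n), G.Adj ⟨u, hu⟩ ⟨v, hv⟩ := by
  unfold gE
  rw [SimpleGraph.fromRel_adj, mem_decE, mem_decE]
  constructor
  · rintro ⟨_, h | h⟩
    · exact h
    · obtain ⟨hv, hu, h⟩ := h
      exact ⟨hu, hv, h.symm⟩
  · intro h
    refine ⟨?_, Or.inl h⟩
    obtain ⟨hu, hv, h⟩ := h
    intro he
    subst he
    exact G.irrefl h

theorem trfP_adj' {n : ℕ} (G : SimpleGraph (Fin n)) (i j : Fin n) :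
    (gE (decE (encG G))).Adj i j ↔ G.Adj i j := by
  rw [trfP_adj]
  constructor
  · rintro ⟨_, _, h⟩
    exact h
  · intro h
    exact ⟨i.2, j.2, h⟩

theorem pfree_trans {n : ℕ} (G : SimpleGraph (Fin n)) (k : ℕ) (hk : 2 ≤ k) (h : PFree G k) :
    PFree (gE (decE (encG G))) k := by
  intro q hq
  have hlt : ∀ i < k, q i < n := by
    intro i hi
    by_cases hi' : i + 1 < k
    · obtain ⟨hu, _, _⟩ := (trfP_adj G _ _).1 ((hq.2 i hi (i + 1) hi').2 (Or.inr rfl))
      exact hu
    · have hi1 : i - 1 < k := by omega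
      obtain ⟨hu, _, _⟩ := (trfP_adj G _ _).1 ((hq.2 i hi (i - 1) hi1).2 (Or.inl (by omega)))
      exact hu
  have hn : 0 < n := lt_of_le_of_lt (Nat.zero_le _) (hlt 0 (by omega))
  have e : ∀ i < k, (((if hi : q i < n then (⟨q i, hi⟩ : Fin n) else ⟨0, hn⟩) : Fin n) : ℕ) =
      q i := by
    intro i hi
    rw [dif_pos (hlt i hi)]
  refine h (fun i => if hi : q i < n then (⟨q i, hi⟩ : Fin n) else ⟨0, hn⟩) ⟨?_, ?_⟩
  · intro i hi j hj hij
    apply hq.1 i hi j hj
    have := congrArg (fun x : Fin n => (x : ℕ)) hij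
    simp only at this
    rw [e i hi, e j hj] at this
    exact this
  · intro i hi j hj
    rw [← hq.2 i hi j hj, ← trfP_adj' G, e i hi, e j hj]

theorem trfP_al {n : ℕ} (G : SimpleGraph (Fin n)) (S : Set (Fin n)) :
    al (gE (decE (encG G))) (Fin.val '' S) = al G S := by
  unfold al
  congr 1
  ext m
  constructor
  · rintro ⟨I, hIS, hI, rfl⟩
    refine ⟨Finset.univ.filter fun i : Fin n => (i : ℕ) ∈ I, ?_, ?_, ?_⟩
    · intro i hi
      have hi' : (i : ℕ) ∈ I := (Finset.mem_filter.1 (Finset.mem_coe.1 hi)).2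
      obtain ⟨j, hj, hji⟩ := hIS (Finset.mem_coe.2 hi')
      rw [← Fin.ext hji]
      exact hj
    · intro i hi j hj hadj
      have hi' : (i : ℕ) ∈ I := (Finset.mem_filter.1 (Finset.mem_coe.1 hi)).2
      have hj' : (j : ℕ) ∈ I := (Finset.mem_filter.1 (Finset.mem_coe.1 hj)).2
      exact hI _ (Finset.mem_coe.2 hi') _ (Finset.mem_coe.2 hj') ((trfP_adj' G i j).2 hadj)
    · have : I = (Finset.univ.filter fun i : Fin n => (i : ℕ) ∈ I).map
          ⟨Fin.val, Fin.val_injective⟩ := by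
        ext v
        rw [Finset.mem_map]
        constructor
        · intro hv
          obtain ⟨j, _, hjv⟩ := hIS (Finset.mem_coe.2 hv)
          refine ⟨j, ?_, hjv⟩
          rw [Finset.mem_filter]
          refine ⟨Finset.mem_univ _, ?_⟩
          rw [hjv]
          exact hv
        · rintro ⟨j, hj, hjv⟩
          rw [← hjv]
          exact (Finset.mem_filter.1 hj).2
      conv_rhs => rw [this]
      rw [Finset.card_map]
  · rintro ⟨I, hIS, hI, rfl⟩
    refine ⟨I.map ⟨Fin.val, Fin.val_injective⟩, ?_, ?_, Finset.card_map _⟩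
    · intro v hv
      obtain ⟨j, hj, hjv⟩ := Finset.mem_map.1 (Finset.mem_coe.1 hv)
      exact ⟨j, hIS (Finset.mem_coe.2 hj), hjv⟩
    · intro u hu v hv hadj
      obtain ⟨i, hi, rfl⟩ := Finset.mem_map.1 (Finset.mem_coe.1 hu)
      obtain ⟨j, hj, rfl⟩ := Finset.mem_map.1 (Finset.mem_coe.1 hv)
      exact hI _ (Finset.mem_coe.2 hi) _ (Finset.mem_coe.2 hj) ((trfP_adj' G i j).1 hadj)

theorem trfP_rch_to {n : ℕ} (G : SimpleGraph (Fin n)) (S : Set (Fin n)) {a b : Fin n}
    (h : Rch G S a b) : Rch (gE (decE (encG G))) (Fin.val '' S) a b := by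
  refine ⟨⟨a, h.1, rfl⟩, ?_⟩
  have h2 := h.2
  induction h2 with
  | refl => exact Relation.ReflTransGen.refl
  | @tail b c _ hbc ih =>
    refine (ih ⟨h.1, by assumption⟩).tail ⟨(trfP_adj' G b c).2 hbc.1, ⟨b, hbc.2.1, rfl⟩,
      ⟨c, hbc.2.2, rfl⟩⟩

theorem trfP_rch_from {n : ℕ} (G : SimpleGraph (Fin n)) (S : Set (Fin n)) {a : Fin n} {v : ℕ}
    (h : Rch (gE (decE (encG G))) (Fin.val '' S) a v) :
    ∃ b : Fin n, (b : ℕ) = v ∧ Rch G S a b := by
  have h1 : a ∈ S := by
    obtain ⟨a', ha', e⟩ := h.1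
    rw [← Fin.ext e]
    exact ha'
  have h2 := h.2
  clear h
  induction h2 with
  | refl => exact ⟨a, rfl, h1, Relation.ReflTransGen.refl⟩
  | @tail b c _ hbc ih =>
    obtain ⟨b', hb', hr⟩ := ih
    obtain ⟨hadj, ⟨b2, hb2, eb⟩, ⟨c2, hc2, ec⟩⟩ := hbc
    refine ⟨c2, ec, h1, hr.2.tail ⟨?_, ?_, hc2⟩⟩
    · rw [← trfP_adj' G, hb', ec]
      exact hadj
    · have : b' = b2 := Fin.ext (hb'.trans eb.symm)
      rw [this]
      exact hb2

theorem bal_trans {n : ℕ} (G : SimpleGraph (Fin n)) (t : ℕ) (h : Bal G t) :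
    BalN (gE (decE (encG G))) n t := by
  intro W hW
  obtain ⟨X, hX, hbal⟩ := h {i : Fin n | (i : ℕ) ∈ W}
  refine ⟨Fin.val '' X, ?_, ?_, ?_⟩
  · rintro v ⟨i, _, rfl⟩
    exact i.2
  · rw [trfP_al]
    exact hX
  · intro a ha haX
    have ha' : (⟨a, ha⟩ : Fin n) ∉ X := fun hh => haX ⟨_, hh, rfl⟩
    have hb := hbal ⟨a, ha⟩ ha'
    have e1 : W = Fin.val '' {i : Fin n | (i : ℕ) ∈ W} := by
      ext v
      constructor
      · intro hv
        exact ⟨⟨v, hW v hv⟩, hv, rfl⟩
      · rintro ⟨i, hi, rfl⟩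
        exact hi
    have e2 : ({v | v < n} \ Fin.val '' X : Set ℕ) = Fin.val '' (Xᶜ : Set (Fin n)) := by
      ext v
      constructor
      · rintro ⟨hv, hvX⟩
        exact ⟨⟨v, hv⟩, fun hh => hvX ⟨_, hh, rfl⟩, rfl⟩
      · rintro ⟨i, hi, rfl⟩
        refine ⟨i.2, ?_⟩
        rintro ⟨j, hj, hji⟩
        exact hi (Fin.ext hji ▸ hj)
    have e3 : W ∩ cmp (gE (decE (encG G))) ({v | v < n} \ Fin.val '' X) a =
        Fin.val '' ({i : Fin n | (i : ℕ) ∈ W} ∩ cmp G Xᶜ ⟨a, ha⟩) := by
      rw [e2]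
      ext v
      constructor
      · rintro ⟨hv, hr⟩
        obtain ⟨b, hb, hr'⟩ := trfP_rch_from G Xᶜ (a := ⟨a, ha⟩) hr
        refine ⟨b, ⟨?_, hr'⟩, hb⟩
        change (b : ℕ) ∈ W
        rw [hb]
        exact hv
      · rintro ⟨b, ⟨hb, hr⟩, rfl⟩
        exact ⟨hb, trfP_rch_to G Xᶜ hr⟩
    rw [e3, trfP_al]
    conv_rhs => rw [e1]
    rw [trfP_al]
    exact hb

theorem trfP_card {n : ℕ} (J : List ℕ) (hJ : Srt n J) :
    (Finset.univ.filter fun i : Fin n => (i : ℕ) ∈ J).card = J.length := by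
  have hnd : J.Nodup := hJ.nodup List.nodup_range
  have e : (Finset.univ.filter fun i : Fin n => (i : ℕ) ∈ J).map
      ⟨Fin.val, Fin.val_injective⟩ = J.toFinset := by
    ext v
    rw [Finset.mem_map, List.mem_toFinset]
    constructor
    · rintro ⟨i, hi, rfl⟩
      exact (Finset.mem_filter.1 hi).2
    · intro hv
      have hlt : v < n := List.mem_range.1 (hJ.subset hv)
      exact ⟨⟨v, hlt⟩, Finset.mem_filter.2 ⟨Finset.mem_univ _, hv⟩, rfl⟩
  rw [← List.toFinset_card_of_nodup hnd, ← e, Finset.card_map]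

/-- a maximum independent sorted list gives a maximum independent finset -/
theorem max_trans {n : ℕ} (G : SimpleGraph (Fin n)) (I : List ℕ) (hI : Srt n I)
    (hi : Ind (gE (decE (encG G))) (toS I))
    (hm : ∀ I', Srt n I' → Ind (gE (decE (encG G))) (toS I') → I'.length ≤ I.length) :
    G.IsIndepSet (Finset.univ.filter fun i : Fin n => (i : ℕ) ∈ I : Finset (Fin n)) ∧
      ∀ T : Finset (Fin n), G.IsIndepSet (T : Set (Fin n)) →
        T.card ≤ (Finset.univ.filter fun i : Fin n => (i : ℕ) ∈ I).card := by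
  classical
  constructor
  · intro i hi' j hj' _ hadj
    have h1 : (i : ℕ) ∈ I := (Finset.mem_filter.1 (Finset.mem_coe.1 hi')).2
    have h2 : (j : ℕ) ∈ I := (Finset.mem_filter.1 (Finset.mem_coe.1 hj')).2
    exact hi _ h1 _ h2 ((trfP_adj' G i j).2 hadj)
  · intro T hT
    have hs : Srt n ((List.range n).filter fun v => decide (∃ hv : v < n, (⟨v, hv⟩ : Fin n) ∈ T)) :=
      List.filter_sublist
    have hmem : ∀ v, v ∈ ((List.range n).filter fun v =>
        decide (∃ hv : v < n, (⟨v, hv⟩ : Fin n) ∈ T)) ↔ ∃ hv : v < n, (⟨v, hv⟩ : Fin n) ∈ T := by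
      intro v
      rw [List.mem_filter, List.mem_range]
      constructor
      · rintro ⟨_, h⟩
        exact of_decide_eq_true h
      · intro h
        exact ⟨h.1, decide_eq_true h⟩
    have hind : Ind (gE (decE (encG G))) (toS ((List.range n).filter fun v =>
        decide (∃ hv : v < n, (⟨v, hv⟩ : Fin n) ∈ T))) := by
      intro u hu v hv hadj
      obtain ⟨hu1, hu2⟩ := (hmem u).1 hu
      obtain ⟨hv1, hv2⟩ := (hmem v).1 hv
      obtain ⟨_, _, hG⟩ := (trfP_adj G u v).1 hadj
      exact hT (Finset.mem_coe.2 hu2) (Finset.mem_coe.2 hv2) hG.ne hG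
    have hlen := hm _ hs hind
    rw [trfP_card I hI]
    refine le_trans (le_of_eq ?_) hlen
    rw [← trfP_card _ hs]
    congr 1
    ext i
    rw [Finset.mem_filter]
    constructor
    · intro hiT
      exact ⟨Finset.mem_univ _, (hmem i).2 ⟨i.2, hiT⟩⟩
    · rintro ⟨_, h⟩
      obtain ⟨_, h2⟩ := (hmem i).1 h
      exact h2

end Pool.Agent.TIA
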