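import Pool.Agent.TIA.NoHav
import Pool.Agent.TIA.DP
import Pool.Agent.TIA.Transf
import Pool.Agent.TIA.PolE
import Pool.Agent.TIA.TDb

/-!
# Final: maximum independent sets of `{P_k, K_{s,s}}`-free graphs in polynomial time
-/

namespace Pool.Agent.TIA

open FP

/-- For all `k`, `s` a polynomial-time function maps (the adjacency matrix of) every graph without induced
`P_k` and `K_{s,s}` to (the characteristic vector of) a maximum independent set. -/
theorem mis_poly (k s : ℕ) : ∃ f : List Bool → List Bool, NPC.PolyTime NPC.encStr NPC.encStr f ∧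
    ∀ (n : ℕ) (G : SimpleGraph (Fin n)), IsEmpty (SimpleGraph.pathGraph k ↪g G) →
      IsEmpty (completeBipartiteGraph (Fin s) (Fin s) ↪g G) →
      ∃ S : Finset (Fin n), f (encG G) = encS S ∧ G.IsIndepSet (S : Set (Fin n)) ∧
        ∀ T : Finset (Fin n), G.IsIndepSet (T : Set (Fin n)) → T.card ≤ S.card := by
  obtain ⟨t, ht⟩ := struct_bal (max k 2) s
  refine ⟨alg (max k 2) t, (poly_alg (max k 2) t).polyTime_str, fun n G hP hK => ?_⟩
  have hP1 : PFree G k := pfree_of_iso hP
  have hP2 : PFree G (max k 2) := fun q hq => hP1 q (hq.sub (le_max_left _ _))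
  have hbal : Bal G t := ht (Fin n) G hP2 (kfree_of_iso hK)
  have hyp : Hyp (max k 2) t n (decE (encG G)) :=
    { good := good_enc G
      pos := (by omega : 1 ≤ max k 2)
      pfree := pfree_trans G _ (le_max_right _ _) hP2
      bal := bal_trans G t hbal }
  obtain ⟨I, h1, h2, h3, h4⟩ := answer_spec (max k 2) t n (decE (encG G)) hyp
  obtain ⟨h5, h6⟩ := max_trans G I h1 h2 h4
  refine ⟨Finset.univ.filter fun i : Fin n => (i : ℕ) ∈ I, ?_, h5, h6⟩
  rw [alg_enc]
  congr 1
  ext i
  simp [h3]

/-- For all `k`, `s` the graphs without induced `P_k` and `K_{s,s}` have bounded tree-independence number. -/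
theorem tree_alpha (k s : ℕ) : ∃ C, ∀ (V : Type) [Finite V] (G : SimpleGraph V),
    IsEmpty (SimpleGraph.pathGraph k ↪g G) →
    IsEmpty (completeBipartiteGraph (Fin s) (Fin s) ↪g G) → TreeAlphaLe G C := by
  obtain ⟨t, ht⟩ := struct_bal k s
  exact ⟨4 * t + 1, fun V _ G hP hK =>
    treeAlpha_of_bal t (ht V G (pfree_of_iso hP) (kfree_of_iso hK))⟩

end Pool.Agent.TIA
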