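import Pool.Agent.TIA.Tree

/-!
# Glue: optimal independent sets are glued from optimal sets of the children

`IsOpt E n A W J I`: `I` is a largest independent subset of `A` whose trace on `W` is `J`.
Let `X = sepN nd`, `B = bag = W⁺ ∪ X`, `Q ⊆ B` independent. For a representative `v` let `C_v = compB E (rest A X) v`,
`ch_v = (C_v ∪ X, (C_v ∩ W⁺) ∪ X)` and `J_v = cap n ch_v.2 Q` (independent, sorted), `I_v` the optimal set given by `TabOK`.
`glue = Q ∪ ⋃ I_v`.
* `glue ⊆ A`. Trace on `B` is `Q`: for `u ∈ I_v ∩ B`: `u ∈ C_v ∪ X`; in both cases `u ∈ ch_v.2`, so `u ∈ J_v ⊆ Q`.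
* independent: `u, w ∈ glue` adjacent. Both in `Q`: no. `u ∈ I_v \ Q`: then `u ∈ C_v \ W⁺` (not in `B`). Its neighbour `w ∈ A` is in
  `C_v ∪ X` (component). If `w ∈ Q`: `w ∈ B ∩ (C_v ∪ X) = ch_v.2`, so `w ∈ J_v ⊆ I_v` (trace), contradiction to
  `I_v` independent. If `w ∈ I_{v'} \ Q`, then `w ∈ C_{v'}`, so (not in `X`) `w ∈ C_v`, `C_v = C_{v'}`, `v = v'`: both in `I_v`.
* maximal: let `I'` be independent, `I' ⊆ A`, trace `Q` on `B`. `I'_v = I' ∩ (C_v ∪ X)` has trace `J_v` on `ch_v.2`, so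
  `|I'_v| ≤ |I_v|`. `I'_v` is the disjoint union of `J_v` and `(I' ∩ C_v) \ W⁺`, and `I_v` of `J_v` and `(I_v ∩ C_v) \ W⁺`; so
  `|(I' ∩ C_v) \ W⁺| ≤ |(glue ∩ C_v) \ W⁺|`. Every vertex of `A \ B` is in `C_v \ W⁺` for exactly one representative `v` (the
  smallest vertex of its component; the component is not inside `W⁺`). Sum over `v` and add `|Q|`.
-/

namespace Pool.Agent.TIA

/-- `I` is a largest independent subset of `A` with trace `J` on `W` -/
structure IsOpt (E : List (ℕ × ℕ)) (n : ℕ) (A W J I : List ℕ) : Prop where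
  srt : Srt n I
  sub : ∀ v ∈ I, v ∈ A
  ind : Ind (gE E) (toS I)
  trace : ∀ v ∈ W, (v ∈ I ↔ v ∈ J)
  max : ∀ I', Srt n I' → (∀ v ∈ I', v ∈ A) → Ind (gE E) (toS I') →
    (∀ v ∈ W, (v ∈ I' ↔ v ∈ J)) → I'.length ≤ I.length

/-- the table `T` is correct at the node `nd` -/
def TabOK (E : List (ℕ × ℕ)) (n : ℕ) (T : List (Nd × Tab)) (nd : Nd) : Prop :=
  ∀ J, Srt n J → (∀ v ∈ J, v ∈ nd.2) → Ind (gE E) (toS J) →
    ∃ I, IsOpt E n nd.1 nd.2 J I ∧ ∀ v, v ∈ look T nd J ↔ v ∈ I

section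
variable {k t n : ℕ} {E : List (ℕ × ℕ)} {nd : Nd} {u v w : ℕ} {A B : List ℕ}

/-- the component of `v` -/
def Glue_C (k t n : ℕ) (E : List (ℕ × ℕ)) (nd : Nd) (v : ℕ) : List ℕ :=
  compB E (rest nd.1 (sepN k t n E nd)) v

theorem Glue_X_sub (hu : u ∈ sepN k t n E nd) : u ∈ nd.1 :=
  (sepB_sublist k t n E nd.1 (wplus n nd)).subset hu

theorem Glue_X_srt (hv : Valid k t n E nd) : Srt n (sepN k t n E nd) :=
  hv.srtA.sublist (sepB_sublist k t n E nd.1 (wplus n nd))

theorem Glue_mem_bag (hv : Valid k t n E nd) :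
    u ∈ bag k t n E nd ↔ u ∈ wplus n nd ∨ u ∈ sepN k t n E nd :=
  mem_cup (wplus_valid hv).1.lt (Glue_X_srt hv).lt

theorem Glue_C_rest (hu : u ∈ Glue_C k t n E nd v) : u ∈ nd.1 ∧ u ∉ sepN k t n E nd :=
  mem_rest.1 (compB_sublist.subset hu)

theorem Glue_C_lt (hv : Valid k t n E nd) (w : ℕ) : ∀ u ∈ Glue_C k t n E nd w, u < n :=
  fun _ hu => hv.srtA.lt _ (Glue_C_rest hu).1

theorem Glue_C_iff (hE : GoodE n E) : u ∈ Glue_C k t n E nd v ↔
    Rch (gE E) (toS (rest nd.1 (sepN k t n E nd))) v u := mem_compB hE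

theorem Glue_mem_child1 (hv : Valid k t n E nd) :
    u ∈ (child k t n E nd v).1 ↔ u ∈ Glue_C k t n E nd v ∨ u ∈ sepN k t n E nd :=
  mem_cup (Glue_C_lt hv v) (Glue_X_srt hv).lt

theorem Glue_mem_child2 (hv : Valid k t n E nd) :
    u ∈ (child k t n E nd v).2 ↔ (u ∈ Glue_C k t n E nd v ∧ u ∈ wplus n nd) ∨
      u ∈ sepN k t n E nd := by
  have h1 : ∀ u ∈ cap n (Glue_C k t n E nd v) (wplus n nd), u < n := by
    intro u hu
    exact Glue_C_lt hv v u ((mem_cap (Glue_C_lt hv v)).1 hu).1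
  have h2 := mem_cup (v := u) h1 (Glue_X_srt hv).lt
  rw [mem_cap (Glue_C_lt hv v)] at h2
  exact h2

theorem Glue_child2_iff (hv : Valid k t n E nd) :
    u ∈ (child k t n E nd v).2 ↔ u ∈ (child k t n E nd v).1 ∧ u ∈ bag k t n E nd := by
  rw [Glue_mem_child1 hv, Glue_mem_child2 hv, Glue_mem_bag hv]
  constructor
  · rintro (⟨h1, h2⟩ | h)
    · exact ⟨Or.inl h1, Or.inl h2⟩
    · exact ⟨Or.inr h, Or.inr h⟩
  · rintro ⟨h1 | h1, h2 | h2⟩
    · exact Or.inl ⟨h1, h2⟩
    · exact Or.inr h2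
    · exact Or.inr h1
    · exact Or.inr h1

theorem Glue_mem_reps : v ∈ reps k t n E nd ↔ (v ∈ nd.1 ∧ v ∉ sepN k t n E nd) ∧
    (∀ u ∈ Glue_C k t n E nd v, v ≤ u) ∧ ∃ u ∈ Glue_C k t n E nd v, u ∉ wplus n nd := by
  unfold reps
  rw [List.mem_filter, mem_rest]
  simp only [Bool.and_eq_true, List.all_eq_true, decide_eq_true_eq, Bool.not_eq_true',
    List.all_eq_false]
  rfl

theorem Glue_C_self (hE : GoodE n E) (h1 : v ∈ nd.1) (h2 : v ∉ sepN k t n E nd) :
    v ∈ Glue_C k t n E nd v :=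
  (Glue_C_iff hE).2 (Rch.refl (mem_rest.2 ⟨h1, h2⟩))

/-- different representatives have disjoint components -/
theorem Glue_rep_unique (hE : GoodE n E) (hv : v ∈ reps k t n E nd) (hw : w ∈ reps k t n E nd)
    (h1 : u ∈ Glue_C k t n E nd v) (h2 : u ∈ Glue_C k t n E nd w) : v = w := by
  rw [Glue_C_iff hE] at h1 h2
  have hvw : w ∈ Glue_C k t n E nd v := (Glue_C_iff hE).2 (h1.trans h2.symm)
  have hwv : v ∈ Glue_C k t n E nd w := (Glue_C_iff hE).2 (h2.trans h1.symm)
  exact le_antisymm ((Glue_mem_reps.1 hv).2.1 w hvw) ((Glue_mem_reps.1 hw).2.1 v hwv)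

/-- every vertex outside the bag is in the component of a representative -/
theorem Glue_rep_exists (hE : GoodE n E) (hv : Valid k t n E nd) (h1 : u ∈ nd.1)
    (h2 : u ∉ bag k t n E nd) : ∃ v ∈ reps k t n E nd, u ∈ Glue_C k t n E nd v := by
  rw [Glue_mem_bag hv] at h2
  push Not at h2
  have hu := Glue_C_self (k := k) (t := t) hE h1 h2.2
  have hex : ∃ v, v ∈ Glue_C k t n E nd u := ⟨u, hu⟩
  classical
  set v := Nat.find hex with hvd
  have hv1 : v ∈ Glue_C k t n E nd u := Nat.find_spec hex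
  have hv2 : ∀ w ∈ Glue_C k t n E nd u, v ≤ w := fun w hw => Nat.find_min' hex hw
  have hR : Rch (gE E) (toS (rest nd.1 (sepN k t n E nd))) u v := (Glue_C_iff hE).1 hv1
  have huv : u ∈ Glue_C k t n E nd v := (Glue_C_iff hE).2 hR.symm
  refine ⟨v, ?_, huv⟩
  rw [Glue_mem_reps]
  refine ⟨Glue_C_rest hv1, ?_, u, huv, h2.1⟩
  intro w hw
  apply hv2
  rw [Glue_C_iff hE] at hw ⊢
  exact hR.trans hw

theorem Glue_filter_add (l : List ℕ) (B : List ℕ) :
    (l.filter fun u => decide (u ∈ B)).length + (l.filter fun u => !(decide (u ∈ B))).length =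
      l.length := by
  induction l with
  | nil => rfl
  | cons a l ih =>
    by_cases h : a ∈ B
    · simp only [List.filter_cons, h, decide_true, if_true, List.length_cons, Bool.not_true]
      simp only [Bool.false_eq_true, if_false]
      omega
    · simp only [List.filter_cons, h, decide_false, Bool.not_false, if_true, List.length_cons]
      simp only [Bool.false_eq_true, if_false]
      omega

theorem Glue_filter_in (hA : Srt n A) (hB : Srt n B) {D : List ℕ}
    (h : ∀ v ∈ D, (v ∈ A ↔ v ∈ B)) :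
    (A.filter fun u => decide (u ∈ D)) = B.filter fun u => decide (u ∈ D) := by
  apply Srt.ext (n := n) (hA.sublist List.filter_sublist) (hB.sublist List.filter_sublist)
  intro v
  simp only [List.mem_filter, decide_eq_true_eq]
  constructor
  · rintro ⟨h1, h2⟩
    exact ⟨(h v h2).1 h1, h2⟩
  · rintro ⟨h1, h2⟩
    exact ⟨(h v h2).2 h1, h2⟩

/-- comparison of lengths for lists with the same trace -/
theorem Glue_len_iff (hA : Srt n A) (hB : Srt n B) {D : List ℕ}
    (h : ∀ v ∈ D, (v ∈ A ↔ v ∈ B)) : A.length ≤ B.length ↔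
    (A.filter fun u => !(decide (u ∈ D))).length ≤ (B.filter fun u => !(decide (u ∈ D))).length := by
  have h1 := Glue_filter_add A D
  have h2 := Glue_filter_add B D
  rw [Glue_filter_in hA hB h] at h1
  omega

theorem Glue_mem_not {l D : List ℕ} : u ∈ (l.filter fun u => !(decide (u ∈ D))) ↔ u ∈ l ∧ u ∉ D := by
  simp [List.mem_filter]

end

theorem glue_opt (k t n : ℕ) (E : List (ℕ × ℕ)) (h : Hyp k t n E) (nd : Nd)
    (hv : Valid k t n E nd) (T : List (Nd × Tab))
    (hT : ∀ ch ∈ children k t n E nd, TabOK E n T ch) (Q : List ℕ) (hQ : Srt n Q)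
    (hQB : ∀ v ∈ Q, v ∈ bag k t n E nd) (hQi : Ind (gE E) (toS Q)) :
    IsOpt E n nd.1 (bag k t n E nd) Q (glue k t n E T nd Q) := by
  classical
  have hE := h.good
  have hchv : ∀ v ∈ reps k t n E nd, child k t n E nd v ∈ children k t n E nd := by
    intro v hr
    exact List.mem_map_of_mem hr
  have hch2 : ∀ v ∈ reps k t n E nd, ∀ u ∈ (child k t n E nd v).2, u < n := by
    intro v hr u hu
    exact (child_valid h hv _ (hchv v hr)).srtW.lt u hu
  have hch1 : ∀ v ∈ reps k t n E nd, ∀ u ∈ (child k t n E nd v).1, u < n := by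
    intro v hr u hu
    exact (child_valid h hv _ (hchv v hr)).srtA.lt u hu
  have hJ : ∀ v ∈ reps k t n E nd, ∀ u, u ∈ cap n (child k t n E nd v).2 Q ↔
      u ∈ (child k t n E nd v).2 ∧ u ∈ Q := by
    intro v hr u
    exact mem_cap (hch2 v hr)
  have hI : ∀ v ∈ reps k t n E nd, ∃ I, IsOpt E n (child k t n E nd v).1 (child k t n E nd v).2
      (cap n (child k t n E nd v).2 Q) I ∧
      ∀ u, u ∈ look T (child k t n E nd v) (cap n (child k t n E nd v).2 Q) ↔ u ∈ I := by
    intro v hr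
    apply hT _ (hchv v hr)
    · exact srt_cap
    · intro u hu
      exact ((hJ v hr u).1 hu).1
    · intro x hx y hy
      exact hQi x ((hJ v hr x).1 hx).2 y ((hJ v hr y).1 hy).2
  choose! I hIo hIl using hI
  -- membership in `glue`
  have hmem : ∀ u, u ∈ glue k t n E T nd Q ↔ u ∈ Q ∨ ∃ v ∈ reps k t n E nd, u ∈ I v := by
    intro u
    unfold glue children
    simp only [List.mem_filter, List.mem_range, Bool.or_eq_true, decide_eq_true_eq,
      List.any_eq_true, List.mem_map]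
    constructor
    · rintro ⟨-, hu | ⟨ch, ⟨v, hr, rfl⟩, hu⟩⟩
      · exact Or.inl hu
      · exact Or.inr ⟨v, hr, (hIl v hr u).1 hu⟩
    · rintro (hu | ⟨v, hr, hu⟩)
      · exact ⟨hQ.lt u hu, Or.inl hu⟩
      · exact ⟨(hIo v hr).srt.lt u hu, Or.inr ⟨_, ⟨v, hr, rfl⟩, (hIl v hr u).2 hu⟩⟩
  have hgs : Srt n (glue k t n E T nd Q) := srt_filter_range _
  have hIA : ∀ v ∈ reps k t n E nd, ∀ u ∈ I v, u ∈ nd.1 := by
    intro v hr u hu
    rcases (Glue_mem_child1 hv).1 ((hIo v hr).sub u hu) with h1 | h1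
    · exact (Glue_C_rest h1).1
    · exact Glue_X_sub h1
  have hsub : ∀ u ∈ glue k t n E T nd Q, u ∈ nd.1 := by
    intro u hu
    rcases (hmem u).1 hu with h1 | ⟨v, hr, h1⟩
    · exact (bag_spec h hv).2.1 u (hQB u h1)
    · exact hIA v hr u h1
  -- the trace of `I v` on the bag
  have hItr : ∀ v ∈ reps k t n E nd, ∀ u ∈ I v, u ∈ bag k t n E nd → u ∈ Q := by
    intro v hr u hu hub
    have h1 : u ∈ (child k t n E nd v).2 :=
      (Glue_child2_iff hv).2 ⟨(hIo v hr).sub u hu, hub⟩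
    exact ((hJ v hr u).1 (((hIo v hr).trace u h1).1 hu)).2
  have htr : ∀ u ∈ bag k t n E nd, (u ∈ glue k t n E T nd Q ↔ u ∈ Q) := by
    intro u hub
    rw [hmem]
    constructor
    · rintro (hu | ⟨v, hr, hu⟩)
      · exact hu
      · exact hItr v hr u hu hub
    · exact Or.inl
  -- vertices of `I v` outside the bag
  have hIC : ∀ v ∈ reps k t n E nd, ∀ u ∈ I v, u ∉ bag k t n E nd → u ∈ Glue_C k t n E nd v := by
    intro v hr u hu hub
    rcases (Glue_mem_child1 hv).1 ((hIo v hr).sub u hu) with h1 | h1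
    · exact h1
    · exact absurd ((Glue_mem_bag hv).2 (Or.inr h1)) hub
  have key : ∀ v ∈ reps k t n E nd, ∀ u ∈ I v, u ∉ Q → ∀ w ∈ glue k t n E T nd Q,
      ¬ (gE E).Adj u w := by
    intro v hr u hu huQ w hw hadj
    have hub : u ∉ bag k t n E nd := fun hc => huQ (hItr v hr u hu hc)
    have huC := hIC v hr u hu hub
    have hwC : w ∉ sepN k t n E nd → w ∈ Glue_C k t n E nd v := by
      intro hwX
      have h1 := (Glue_C_iff hE).1 huC
      have h2 : w ∈ toS (rest nd.1 (sepN k t n E nd)) := mem_rest.2 ⟨hsub w hw, hwX⟩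
      exact (Glue_C_iff hE).2 (h1.trans (Rch.adj h1.right h2 hadj))
    by_cases hwQ : w ∈ Q
    · have hw2 : w ∈ (child k t n E nd v).2 := by
        rw [Glue_child2_iff hv, Glue_mem_child1 hv]
        refine ⟨?_, hQB w hwQ⟩
        by_cases hwX : w ∈ sepN k t n E nd
        · exact Or.inr hwX
        · exact Or.inl (hwC hwX)
      have hwI : w ∈ I v := ((hIo v hr).trace w hw2).2 ((hJ v hr w).2 ⟨hw2, hwQ⟩)
      exact (hIo v hr).ind u hu w hwI hadj
    · rcases (hmem w).1 hw with h1 | ⟨v', hr', hw'⟩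
      · exact hwQ h1
      · have hwb : w ∉ bag k t n E nd := fun hc => hwQ (hItr v' hr' w hw' hc)
        have hwC' := hIC v' hr' w hw' hwb
        have hwX : w ∉ sepN k t n E nd := (Glue_C_rest hwC').2
        have := Glue_rep_unique hE hr hr' (hwC hwX) hwC'
        subst this
        exact (hIo v hr).ind u hu w hw' hadj
  have hind : Ind (gE E) (toS (glue k t n E T nd Q)) := by
    intro u hu w hw hadj
    by_cases huQ : u ∈ Q
    · by_cases hwQ : w ∈ Q
      · exact hQi u huQ w hwQ hadj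
      · rcases (hmem w).1 hw with h1 | ⟨v, hr, hw'⟩
        · exact hwQ h1
        · exact key v hr w hw' hwQ u hu hadj.symm
    · rcases (hmem u).1 hu with h1 | ⟨v, hr, hu'⟩
      · exact huQ h1
      · exact key v hr u hu' huQ w hw hadj
  refine ⟨hgs, hsub, hind, htr, ?_⟩
  intro I' hI's hI'A hI'i hI't
  -- the traces of `I'`
  have hI'v : ∀ v ∈ reps k t n E nd, ∀ u, u ∈ cap n (child k t n E nd v).1 I' ↔
      u ∈ (child k t n E nd v).1 ∧ u ∈ I' := by
    intro v hr u
    exact mem_cap (hch1 v hr)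
  have hlen : ∀ v ∈ reps k t n E nd,
      ((cap n (child k t n E nd v).1 I').filter fun u => !(decide (u ∈ bag k t n E nd))).length ≤
      ((I v).filter fun u => !(decide (u ∈ bag k t n E nd))).length := by
    intro v hr
    have hW' : ∀ u ∈ (child k t n E nd v).2, (u ∈ cap n (child k t n E nd v).1 I' ↔
        u ∈ cap n (child k t n E nd v).2 Q) := by
      intro u hu
      rw [hI'v v hr, hJ v hr]
      have h1 := (Glue_child2_iff hv).1 hu
      rw [hI't u h1.2]
      exact ⟨fun h2 => ⟨hu, h2.2⟩, fun h2 => ⟨h1.1, h2.2⟩⟩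
    have h1 := (hIo v hr).max (cap n (child k t n E nd v).1 I') srt_cap
      (fun u hu => ((hI'v v hr u).1 hu).1)
      (fun x hx y hy => hI'i x ((hI'v v hr x).1 hx).2 y ((hI'v v hr y).1 hy).2) hW'
    refine (Glue_len_iff srt_cap (hIo v hr).srt ?_).1 h1
    intro u hub
    constructor
    · intro hu
      have h2 := (hI'v v hr u).1 hu
      have h3 : u ∈ (child k t n E nd v).2 := (Glue_child2_iff hv).2 ⟨h2.1, hub⟩
      exact ((hIo v hr).trace u h3).2 ((hW' u h3).1 hu)
    · intro hu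
      have h3 : u ∈ (child k t n E nd v).2 :=
        (Glue_child2_iff hv).2 ⟨(hIo v hr).sub u hu, hub⟩
      exact (hW' u h3).2 (((hIo v hr).trace u h3).1 hu)
  have htr' : ∀ u ∈ bag k t n E nd, (u ∈ I' ↔ u ∈ glue k t n E T nd Q) := by
    intro u hub
    rw [hI't u hub, htr u hub]
  refine (Glue_len_iff hI's hgs htr').2 ?_
  have hnd : ∀ l : List ℕ, Srt n l →
      (l.filter fun u => !(decide (u ∈ bag k t n E nd))).length =
      (l.filter fun u => !(decide (u ∈ bag k t n E nd))).toFinset.card := by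
    intro l hl
    rw [List.toFinset_card_of_nodup (hl.nodup.filter _)]
  rw [hnd _ hI's, hnd _ hgs]
  have hs1 : (I'.filter fun u => !(decide (u ∈ bag k t n E nd))).toFinset ⊆
      (reps k t n E nd).toFinset.biUnion fun v =>
        ((cap n (child k t n E nd v).1 I').filter fun u =>
          !(decide (u ∈ bag k t n E nd))).toFinset := by
    intro u hu
    rw [List.mem_toFinset, Glue_mem_not] at hu
    obtain ⟨v, hr, huC⟩ := Glue_rep_exists hE hv (hI'A u hu.1) hu.2
    rw [Finset.mem_biUnion]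
    refine ⟨v, List.mem_toFinset.2 hr, ?_⟩
    rw [List.mem_toFinset, Glue_mem_not, hI'v v hr, Glue_mem_child1 hv]
    exact ⟨⟨Or.inl huC, hu.1⟩, hu.2⟩
  have hs2 : ((reps k t n E nd).toFinset.biUnion fun v =>
      ((I v).filter fun u => !(decide (u ∈ bag k t n E nd))).toFinset) ⊆
      ((glue k t n E T nd Q).filter fun u => !(decide (u ∈ bag k t n E nd))).toFinset := by
    intro u hu
    rw [Finset.mem_biUnion] at hu
    obtain ⟨v, hr, hu⟩ := hu
    rw [List.mem_toFinset, Glue_mem_not] at hu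
    rw [List.mem_toFinset] at hr
    rw [List.mem_toFinset, Glue_mem_not, hmem]
    exact ⟨Or.inr ⟨v, hr, hu.1⟩, hu.2⟩
  refine (Finset.card_le_card hs1).trans (le_trans ?_ (Finset.card_le_card hs2))
  rw [Finset.card_biUnion (s := (reps k t n E nd).toFinset)
    (t := fun v => ((I v).filter fun u => !(decide (u ∈ bag k t n E nd))).toFinset)]
  · refine Finset.card_biUnion_le.trans (Finset.sum_le_sum fun v hr => ?_)
    rw [List.mem_toFinset] at hr
    rw [← hnd _ srt_cap, ← hnd _ (hIo v hr).srt]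
    exact hlen v hr
  · intro v hr v' hr' hne
    simp only [Function.onFun]
    rw [Finset.disjoint_left]
    intro u hu hu'
    rw [Finset.mem_coe, List.mem_toFinset] at hr hr'
    rw [List.mem_toFinset, Glue_mem_not] at hu hu'
    exact hne (Glue_rep_unique hE hr hr' (hIC v hr u hu.1 hu.2) (hIC v' hr' u hu'.1 hu'.2))

end Pool.Agent.TIA
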