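import Pool.Agent.TIA.AlB
import Pool.Agent.TIA.RchB

/-!
# HavN: a graph without balanced separators has a haven (section 0 of the notes)

Not `Bal G t`: there is `W` such that for every `X` with `al X ≤ t` some `a ∉ X` has
`al W < 2 al (W ∩ cmp G Xᶜ a)` (a big component). Put `β X = {b | ∃ a ∉ X, al W < 2 al (W ∩ cmp Xᶜ a) ∧ b ∈ cmp Xᶜ a}`.
Two big components of `G - X` are equal: otherwise `cmp_disj` and `al_add_le` give
`al (W ∩ C) + al (W ∩ C') ≤ al W`. So `β X` is one component: connected (`cmp_conn`), closed (`cmp_closed`), disjoint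
from `X`, nonempty. `X ⊆ Y`: a big component of `G - Y` is contained in the component of `G - X` of
the same vertex (`cmp_mono`), which is big by `al_mono`.
-/

namespace Pool.Agent.TIA

/-- two big components are equal -/
theorem HavN_eq {V : Type} [Finite V] {G : SimpleGraph V} {W Y : Set V} {a b : V}
    (ha : al G W < 2 * al G (W ∩ cmp G Y a)) (hb : al G W < 2 * al G (W ∩ cmp G Y b)) :
    cmp G Y a = cmp G Y b := by
  by_contra hne
  obtain ⟨h1, h2⟩ := cmp_disj hne
  have h3 : al G (W ∩ cmp G Y a) + al G (W ∩ cmp G Y b) ≤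
      al G ((W ∩ cmp G Y a) ∪ (W ∩ cmp G Y b)) := by
    apply al_add_le (Set.toFinite _) (Set.toFinite _)
    · exact h1.mono Set.inter_subset_right Set.inter_subset_right
    · intro x hx y hy
      exact h2 x hx.2 y hy.2
  have h4 : al G ((W ∩ cmp G Y a) ∪ (W ∩ cmp G Y b)) ≤ al G W := by
    apply al_mono (Set.toFinite _)
    exact Set.union_subset Set.inter_subset_left Set.inter_subset_left
  omega

theorem haven_of_not_bal {V : Type} [Finite V] {G : SimpleGraph V} {t : ℕ} (h : ¬ Bal G t) :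
    Nonempty (Haven G t) := by
  have h0 : ∃ W : Set V, ∀ X : Set V, al G X ≤ t →
      ∃ a, a ∉ X ∧ al G W < 2 * al G (W ∩ cmp G Xᶜ a) := by
    unfold Bal at h
    push Not at h
    obtain ⟨W, hW⟩ := h
    refine ⟨W, fun X hX => ?_⟩
    obtain ⟨a, ha, h1⟩ := hW X hX
    exact ⟨a, ha, h1⟩
  obtain ⟨W, hW⟩ := h0
  let β : Set V → Set V := fun X =>
    {b | ∃ a, a ∉ X ∧ al G W < 2 * al G (W ∩ cmp G Xᶜ a) ∧ b ∈ cmp G Xᶜ a}
  -- `β X` is the component of any of its members
  have key : ∀ X a, a ∉ X → al G W < 2 * al G (W ∩ cmp G Xᶜ a) → β X = cmp G Xᶜ a := by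
    intro X a ha h1
    ext b
    constructor
    · rintro ⟨c, hc, h2, h3⟩
      rw [HavN_eq h1 h2]
      exact h3
    · intro hb
      exact ⟨a, ha, h1, hb⟩
  refine ⟨⟨β, ?_, ?_, ?_, ?_, ?_⟩⟩
  · rintro X hX b ⟨a, ha, h1, h2⟩
    exact cmp_subset h2
  · intro X hX
    obtain ⟨a, ha, h1⟩ := hW X hX
    exact ⟨a, a, ha, h1, mem_cmp_self ha⟩
  · intro X hX b hb c hc
    obtain ⟨a, ha, h1⟩ := hW X hX
    rw [key X a ha h1] at hb hc ⊢
    exact cmp_conn hb hc
  · intro X hX b hb c hc hbc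
    obtain ⟨a, ha, h1⟩ := hW X hX
    rw [key X a ha h1] at hb ⊢
    exact cmp_closed hb hc hbc
  · rintro X Y hXY hY b ⟨a, ha, h1, h2⟩
    have h3 : cmp G Yᶜ a ⊆ cmp G Xᶜ a := cmp_mono (Set.compl_subset_compl.2 hXY)
    refine ⟨a, fun h => ha (hXY h), lt_of_lt_of_le h1 ?_, h3 h2⟩
    apply Nat.mul_le_mul_left
    apply al_mono (Set.toFinite _)
    exact Set.inter_subset_inter_right W h3

end Pool.Agent.TIA
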