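import Pool.Agent.TIA.PathL

/-!
# HubE: hubs (section B of the notes)
-/

namespace Pool.Agent.TIA

variable {V : Type} {G : SimpleGraph V} {t : ℕ}

theorem exists_hubs [Finite V] (k m r : ℕ) (hk : PFree G k) (H : Haven G t)
    (ht : m + k * (r + 1) ≤ t) :
    ∃ M : Finset V, Ind G (M : Set V) ∧ M.card = m ∧ ∀ u ∈ M, Hub H r u := by
  classical
  set U : Set V := {x | Hub H r x} with hUdef
  rcases le_or_gt m (al G U) with h | h
  · obtain ⟨I, hIU, hI, hc⟩ := exists_al G (Set.toFinite U)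
    obtain ⟨M, hMI, hM⟩ := Finset.exists_subset_card_eq (s := I) (n := m) (by omega)
    refine ⟨M, ?_, hM, ?_⟩
    · intro x hx y hy
      exact hI x (hMI hx) y (hMI hy)
    · intro u hu
      exact hIU (hMI hu)
  · exfalso
    obtain ⟨q, hq⟩ := path_lemma k m r ht H U h.le (by
      intro x hx
      have hx' : ¬ Hub H r x := hx
      unfold Hub at hx'
      push Not at hx'
      exact hx')
    exact hk q hq

theorem hub_nbr [Finite V] (r : ℕ) (H : Haven G t) (hrt : r ≤ t) (u : V) (hu : Hub H r u)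
    (X : Set V) (hX : al G X ≤ r) (huX : u ∈ X) : ∃ z ∈ H.β X, G.Adj u z := by
  classical
  set Y : Set V := X \ {u} with hY
  have hYX : Y ⊆ X := Set.sdiff_subset
  have hYal : al G Y ≤ r := (al_mono (Set.toFinite X) hYX).trans hX
  have huY : u ∉ Y := fun h => h.2 rfl
  have hmem : u ∈ H.β Y := hu Y huY hYal
  have hsub : H.β X ⊆ H.β Y := H.mono Y X hYX (hX.trans hrt)
  obtain ⟨v, hv⟩ := H.ne X (hX.trans hrt)
  have hr : Rch G (H.β Y) v u := H.conn Y (hYal.trans hrt) v (hsub hv) u hmem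
  have huX' : u ∉ H.β X := fun h => H.disj X (hX.trans hrt) u h huX
  obtain ⟨a, ha, b, hb, hbX, hab⟩ := Rch.exit hr hv huX'
  have hbX2 : b ∈ X := by
    by_contra hb2
    exact hbX (H.closed X (hX.trans hrt) a ha.2 b hb2 hab)
  have hbY : b ∉ Y := H.disj Y (hYal.trans hrt) b hb
  have hbu : b = u := by
    by_contra hne
    exact hbY ⟨hbX2, hne⟩
  subst hbu
  exact ⟨a, ha.2, hab.symm⟩

end Pool.Agent.TIA
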