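import Pool.Agent.TIA.AlgD

/-!
# LRat: the local ratio algorithm

`lower n c P` subtracts `m = min_{u ∈ P} c u` from the costs of the members of `P` (`c.getD v 0`, `v < n`). So after
treating `P` some member of `P` has cost 0, and costs only decrease: `hitSet_hit`.
`hitSet_cost`: let `m_P` be the amount subtracted for `P`. Every `v ∈ hitSet` has final cost 0, so `c v` is the sum of the
`m_P` over the `P ∋ v`; summing over `v ∈ hitSet`: at most `sum_P m_P * K` (at most `K` distinct members). For the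
optimal set `X`: `sum_{v ∈ X ∩ S} c v ≥ sum_{v ∈ X ∩ S} sum_{P ∋ v} m_P ≥ sum_P m_P` as `X` hits every `P`
(and `P ⊆ S`). By induction on `F` it is convenient to prove, for the residual costs `c'`:
`sum_{v ∈ Y} (c v - c' v) ≤ K * D` and `D ≤ sum_{v ∈ X} (c v - c' v)` for a common `D` (`D = sum_P m_P`).
-/

namespace Pool.Agent.TIA

theorem LRat_foldl (l : List ℕ) : ∀ a : ℕ, l.foldl min a ≤ a ∧ (∀ x ∈ l, l.foldl min a ≤ x) ∧
    (l.foldl min a = a ∨ l.foldl min a ∈ l) := by
  induction l with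
  | nil => intro a; simp
  | cons y l ih =>
    intro a
    obtain ⟨h1, h2, h3⟩ := ih (min a y)
    simp only [List.foldl_cons]
    refine ⟨h1.trans (min_le_left _ _), ?_, ?_⟩
    · intro x hx
      rcases List.mem_cons.mp hx with rfl | hx
      · exact h1.trans (min_le_right _ _)
      · exact h2 x hx
    · rcases h3 with h3 | h3
      · rcases min_choice a y with e | e
        · left; rw [h3, e]
        · right; rw [h3, e]; exact List.mem_cons_self
      · right; exact List.mem_cons_of_mem _ h3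

theorem LRat_min {l : List ℕ} (hl : l ≠ []) : (∀ x ∈ l, minL l ≤ x) ∧ minL l ∈ l := by
  cases l with
  | nil => exact absurd rfl hl
  | cons y l =>
    obtain ⟨h1, h2, h3⟩ := LRat_foldl (y :: l) y
    refine ⟨h2, ?_⟩
    rcases h3 with h3 | h3
    · have : minL (y :: l) = y := h3
      rw [this]; exact List.mem_cons_self
    · exact h3

theorem LRat_lower {n : ℕ} (c P : List ℕ) {v : ℕ} (hv : v < n) :
    (lower n c P).getD v 0 =
      if v ∈ P then c.getD v 0 - minL (P.map fun u => c.getD u 0) else c.getD v 0 := by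
  unfold lower
  rw [List.getD_eq_getElem?_getD, List.getElem?_map, List.getElem?_range hv]
  rfl

theorem LRat_lower_le {n : ℕ} (c P : List ℕ) {v : ℕ} (hv : v < n) :
    (lower n c P).getD v 0 ≤ c.getD v 0 := by
  rw [LRat_lower c P hv]
  split_ifs
  · exact Nat.sub_le _ _
  · exact le_rfl

theorem LRat_le {n : ℕ} (F : List (List ℕ)) : ∀ (c : List ℕ) {v : ℕ}, v < n →
    (lrat n c F).getD v 0 ≤ c.getD v 0 := by
  induction F with
  | nil => intro c v hv; exact le_rfl
  | cons P F ih =>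
    intro c v hv
    exact (ih (lower n c P) hv).trans (LRat_lower_le c P hv)

theorem LRat_hit (n : ℕ) (S : List ℕ) (F : List (List ℕ)) (hS : ∀ v ∈ S, v < n) :
    ∀ c : List ℕ, (∀ P ∈ F, P ≠ [] ∧ ∀ v ∈ P, v ∈ S) →
      ∀ P ∈ F, ∃ v ∈ P, (lrat n c F).getD v 0 = 0 := by
  induction F with
  | nil => intro c _ P hP; exact absurd hP List.not_mem_nil
  | cons P0 F ih =>
    intro c hF P hP
    rcases List.mem_cons.mp hP with rfl | hP
    · obtain ⟨hne, hsub⟩ := hF P List.mem_cons_self
      have hne' : (P.map fun u => c.getD u 0) ≠ [] := by simpa using hne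
      obtain ⟨v, hv, hv'⟩ := List.mem_map.mp (LRat_min hne').2
      refine ⟨v, hv, ?_⟩
      have hvn := hS v (hsub v hv)
      have h1 : (lrat n (lower n c P) F).getD v 0 ≤ (lower n c P).getD v 0 := LRat_le F _ hvn
      have h2 : (lower n c P).getD v 0 = 0 := by
        rw [LRat_lower c P hvn, if_pos hv, ← hv', Nat.sub_self]
      have h3 : lrat n c (P :: F) = lrat n (lower n c P) F := rfl
      rw [h3]
      omega
    · exact ih (lower n c P0) (fun Q hQ => hF Q (List.mem_cons_of_mem _ hQ)) P hP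

theorem hitSet_hit (n : ℕ) (S c : List ℕ) (F : List (List ℕ)) (hS : ∀ v ∈ S, v < n)
    (hF : ∀ P ∈ F, P ≠ [] ∧ ∀ v ∈ P, v ∈ S) : ∀ P ∈ F, ∃ v ∈ P, v ∈ hitSet n S c F := by
  intro P hP
  obtain ⟨v, hv, h0⟩ := LRat_hit n S F hS c hF P hP
  refine ⟨v, hv, ?_⟩
  unfold hitSet
  rw [List.mem_filter]
  exact ⟨(hF P hP).2 v hv, by simpa using h0⟩

theorem LRat_D (n K : ℕ) (S : List ℕ) (X : Finset ℕ) (F : List (List ℕ)) (hS : ∀ v ∈ S, v < n) :
    ∀ c : List ℕ, (∀ P ∈ F, P ≠ [] ∧ P.length ≤ K ∧ ∀ v ∈ P, v ∈ S) →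
      (∀ P ∈ F, ∃ v ∈ P, v ∈ X) →
      ∃ D, (∀ Y : Finset ℕ, (∀ v ∈ Y, v < n) →
          ∑ v ∈ Y, (c.getD v 0 - (lrat n c F).getD v 0) ≤ K * D) ∧
        D ≤ ∑ v ∈ S.toFinset ∩ X, (c.getD v 0 - (lrat n c F).getD v 0) := by
  induction F with
  | nil =>
    intro c _ _
    refine ⟨0, fun Y _ => ?_, Nat.zero_le _⟩
    have : ∀ v ∈ Y, (c.getD v 0 - (lrat n c []).getD v 0) = 0 := fun v _ => Nat.sub_self _
    rw [Finset.sum_congr rfl this]
    simp
  | cons P F ih =>
    intro c hF hX
    obtain ⟨D, hD1, hD2⟩ := ih (lower n c P) (fun Q hQ => hF Q (List.mem_cons_of_mem _ hQ))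
      (fun Q hQ => hX Q (List.mem_cons_of_mem _ hQ))
    obtain ⟨hne, hlen, hsub⟩ := hF P List.mem_cons_self
    obtain ⟨w, hwP, hwX⟩ := hX P List.mem_cons_self
    have hne' : (P.map fun u => c.getD u 0) ≠ [] := by simpa using hne
    obtain ⟨hmin, -⟩ := LRat_min hne'
    have hmin' : ∀ v ∈ P, minL (P.map fun u => c.getD u 0) ≤ c.getD v 0 := fun v hv =>
      hmin _ (List.mem_map.mpr ⟨v, hv, rfl⟩)
    have key : ∀ v, v < n → c.getD v 0 - (lrat n c (P :: F)).getD v 0 =
        (if v ∈ P then minL (P.map fun u => c.getD u 0) else 0) +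
          ((lower n c P).getD v 0 - (lrat n (lower n c P) F).getD v 0) := by
      intro v hv
      have h3 : lrat n c (P :: F) = lrat n (lower n c P) F := rfl
      have h1 : (lrat n (lower n c P) F).getD v 0 ≤ (lower n c P).getD v 0 := LRat_le F _ hv
      have h2 := LRat_lower c P hv
      rw [h3]
      by_cases hvP : v ∈ P
      · rw [if_pos hvP] at h2 ⊢
        have := hmin' v hvP
        omega
      · rw [if_neg hvP] at h2 ⊢
        omega
    refine ⟨minL (P.map fun u => c.getD u 0) + D, ?_, ?_⟩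
    · intro Y hY
      rw [Finset.sum_congr rfl fun v hv => key v (hY v hv), Finset.sum_add_distrib]
      have h1 : ∑ v ∈ Y, (if v ∈ P then minL (P.map fun u => c.getD u 0) else 0)
          ≤ K * minL (P.map fun u => c.getD u 0) := by
        rw [← Finset.sum_filter, Finset.sum_const, smul_eq_mul]
        refine Nat.mul_le_mul_right _ (le_trans ?_ hlen)
        refine le_trans (Finset.card_le_card ?_) (List.toFinset_card_le P)
        intro v hv
        exact List.mem_toFinset.mpr (Finset.mem_filter.mp hv).2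
      have h2 := hD1 Y hY
      rw [Nat.mul_add]
      omega
    · have hSX : ∀ v ∈ S.toFinset ∩ X, v < n := fun v hv =>
        hS v (List.mem_toFinset.mp (Finset.mem_inter.mp hv).1)
      rw [Finset.sum_congr rfl fun v hv => key v (hSX v hv), Finset.sum_add_distrib]
      have h1 : minL (P.map fun u => c.getD u 0) ≤
          ∑ v ∈ S.toFinset ∩ X, (if v ∈ P then minL (P.map fun u => c.getD u 0) else 0) := by
        have hw : w ∈ S.toFinset ∩ X :=
          Finset.mem_inter.mpr ⟨List.mem_toFinset.mpr (hsub w hwP), hwX⟩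
        have := Finset.single_le_sum (f := fun v =>
          (if v ∈ P then minL (P.map fun u => c.getD u 0) else 0)) (s := S.toFinset ∩ X)
          (fun v _ => Nat.zero_le _) hw
        simpa only [if_pos hwP] using this
      omega

theorem hitSet_cost (n K : ℕ) (S c : List ℕ) (F : List (List ℕ)) (hS : ∀ v ∈ S, v < n)
    (hF : ∀ P ∈ F, P ≠ [] ∧ P.length ≤ K ∧ ∀ v ∈ P, v ∈ S) (X : Finset ℕ)
    (hX : ∀ P ∈ F, ∃ v ∈ P, v ∈ X) :
    ∑ v ∈ (hitSet n S c F).toFinset, c.getD v 0 ≤ K * ∑ v ∈ S.toFinset ∩ X, c.getD v 0 := by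
  obtain ⟨D, h1, h2⟩ := LRat_D n K S X F hS c hF hX
  have hmem : ∀ v ∈ (hitSet n S c F).toFinset, v ∈ S ∧ (lrat n c F).getD v 0 = 0 := by
    intro v hv
    have := List.mem_filter.mp (List.mem_toFinset.mp hv)
    exact ⟨this.1, by simpa using this.2⟩
  calc ∑ v ∈ (hitSet n S c F).toFinset, c.getD v 0
      = ∑ v ∈ (hitSet n S c F).toFinset, (c.getD v 0 - (lrat n c F).getD v 0) := by
        refine Finset.sum_congr rfl fun v hv => ?_
        rw [(hmem v hv).2, Nat.sub_zero]
    _ ≤ K * D := h1 _ fun v hv => hS v (hmem v hv).1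
    _ ≤ K * ∑ v ∈ S.toFinset ∩ X, (c.getD v 0 - (lrat n c F).getD v 0) :=
        Nat.mul_le_mul_left _ h2
    _ ≤ K * ∑ v ∈ S.toFinset ∩ X, c.getD v 0 :=
        Nat.mul_le_mul_left _ (Finset.sum_le_sum fun v _ => Nat.sub_le _ _)

end Pool.Agent.TIA
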