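import Pool.Agent.TIA.AlgD
import Pool.Agent.TIA.AlB

/-!
# SpecA: specifications of the basic list functions

`mem_tup`: induction on `c`. `mem_subs`: `S.filter (· ∈ l)` is a sublist of `S` with at most `c` elements (they
are entries of `l`, `S` has no duplicates); conversely a nonempty sublist `J` with at most `c` elements comes
from the tuple `J` padded with copies of its head. `alB_iff`: `al_le_iff`, and sets of `c + 1` elements of `S` are the
tuples of length `c + 1` with `c + 1` distinct entries.
-/

namespace Pool.Agent.TIA

variable {n c q : ℕ} {E : List (ℕ × ℕ)} {S J l A B : List ℕ} {u v : ℕ}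

theorem mem_tup : l ∈ tup S c ↔ l.length = c ∧ ∀ v ∈ l, v ∈ S := by
  induction c generalizing l with
  | zero =>
    simp only [tup, List.mem_singleton]
    constructor
    · rintro rfl
      simp
    · rintro ⟨h, -⟩
      exact List.eq_nil_of_length_eq_zero h
  | succ c ih =>
    simp only [tup, List.mem_flatMap, List.mem_map]
    constructor
    · rintro ⟨v, hv, l', hl', rfl⟩
      obtain ⟨h1, h2⟩ := ih.1 hl'
      refine ⟨by simp [h1], ?_⟩
      intro w hw
      rcases List.mem_cons.1 hw with rfl | hw
      · exact hv
      · exact h2 w hw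
    · rintro ⟨h1, h2⟩
      cases l with
      | nil => simp at h1
      | cons v l' =>
        refine ⟨v, h2 v (by simp), l', ih.2 ⟨by simpa using h1, ?_⟩, rfl⟩
        intro w hw
        exact h2 w (by simp [hw])

theorem length_tup : (tup S c).length = S.length ^ c := by
  induction c with
  | zero => simp [tup]
  | succ c ih =>
    simp only [tup, List.length_flatMap, List.length_map, ih]
    simp [pow_succ, mul_comm]

theorem SpecA_filter_sub (hS : S.Nodup) (hJ : J.Sublist S) :
    (S.filter fun v => decide (v ∈ J)) = J := by
  induction hJ with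
  | slnil => simp
  | @cons l₁ l₂ a h ih =>
    have hn := List.nodup_cons.1 hS
    have ha : a ∉ l₁ := fun h' => hn.1 (h.subset h')
    rw [List.filter_cons_of_neg (by simpa using ha)]
    exact ih hn.2
  | @cons_cons l₁ l₂ a h ih =>
    have hn := List.nodup_cons.1 hS
    rw [List.filter_cons_of_pos (by simp)]
    congr 1
    have h2 : (l₂.filter fun v => decide (v ∈ a :: l₁)) = l₂.filter fun v => decide (v ∈ l₁) := by
      apply List.filter_congr
      intro x hx
      have hxa : x ≠ a := fun h' => hn.1 (h' ▸ hx)
      simp [hxa]
    rw [h2]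
    exact ih hn.2

theorem SpecA_filter_len (hS : S.Nodup) (l : List ℕ) :
    (S.filter fun v => decide (v ∈ l)).length ≤ l.length := by
  have h1 : (S.filter fun v => decide (v ∈ l)).Nodup := hS.filter _
  have h2 : (S.filter fun v => decide (v ∈ l)) ⊆ l := by
    intro v hv
    simpa using (List.mem_filter.1 hv).2
  exact (List.subperm_of_subset h1 h2).length_le

theorem mem_subs (hS : S.Nodup) : J ∈ subs S c ↔ J.Sublist S ∧ J.length ≤ c := by
  simp only [subs, List.mem_cons, List.mem_map]
  constructor
  · rintro (rfl | ⟨l, hl, rfl⟩)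
    · simp
    · obtain ⟨h1, h2⟩ := mem_tup.1 hl
      exact ⟨List.filter_sublist, by rw [← h1]; exact SpecA_filter_len hS l⟩
  · rintro ⟨h1, h2⟩
    cases J with
    | nil => left; rfl
    | cons a J' =>
      right
      refine ⟨(a :: J') ++ List.replicate (c - (a :: J').length) a, mem_tup.2 ⟨?_, ?_⟩, ?_⟩
      · rw [List.length_append, List.length_replicate]
        omega
      · intro v hv
        rcases List.mem_append.1 hv with hv | hv
        · exact h1.subset hv
        · rw [List.eq_of_mem_replicate hv]
          exact h1.subset (by simp)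
      · have h3 : (S.filter fun v => decide (v ∈ (a :: J') ++ List.replicate (c - (a :: J').length) a))
            = S.filter fun v => decide (v ∈ a :: J') := by
          apply List.filter_congr
          intro x hx
          rw [decide_eq_decide]
          constructor
          · intro h
            rcases List.mem_append.1 h with h | h
            · exact h
            · rw [List.eq_of_mem_replicate h]; simp
          · intro h
            exact List.mem_append.2 (Or.inl h)
        rw [h3]
        exact SpecA_filter_sub hS h1

theorem gE_adj (h : GoodE n E) : (gE E).Adj u v ↔ (u, v) ∈ E := by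
  simp only [gE, SimpleGraph.fromRel_adj]
  constructor
  · rintro ⟨-, h1 | h1⟩
    · exact h1
    · exact h.symm _ _ h1
  · intro h1
    refine ⟨?_, Or.inl h1⟩
    rintro rfl
    exact h.irr _ h1

theorem indB_iff (h : GoodE n E) : indB E l = true ↔ Ind (gE E) (toS l) := by
  simp only [indB, List.all_eq_true, Bool.not_eq_true', adjB, decide_eq_false_iff_not, Ind]
  constructor
  · intro h1 x hx y hy h2
    exact h1 x hx y hy ((gE_adj h).1 h2)
  · intro h1 x hx y hy h2
    exact h1 x hx y hy ((gE_adj h).2 h2)

theorem toS_finite (l : List ℕ) : (toS l).Finite := by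
  have : toS l = (l.toFinset : Set ℕ) := by
    ext v
    simp [toS]
  rw [this]
  exact Finset.finite_toSet _

/-- a tuple that passes the test -/
theorem SpecA_dindB (h : GoodE n E) : dindB E S c l = true ↔
    (S.filter fun v => decide (v ∈ l)).length = c ∧ Ind (gE E) (toS l) := by
  simp only [dindB, Bool.and_eq_true, decide_eq_true_eq, indB_iff h]

theorem alB_iff (h : GoodE n E) (hS : S.Nodup) : alB E S c = true ↔ al (gE E) (toS S) ≤ c := by
  rw [al_le_iff (toS_finite S)]
  simp only [alB, List.all_eq_true, Bool.not_eq_true']
  constructor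
  · intro h1 I hI hI'
    by_contra hc
    push Not at hc
    obtain ⟨K, hK, hKc⟩ := Finset.exists_subset_card_eq (show c + 1 ≤ I.card from hc)
    have hmem : K.toList ∈ tup S (c + 1) := by
      refine mem_tup.2 ⟨by simp [hKc], ?_⟩
      intro v hv
      exact hI (Finset.mem_coe.2 (hK (Finset.mem_toList.1 hv)))
    have h2 := h1 _ hmem
    have h3 : dindB E S (c + 1) K.toList = true := by
      rw [SpecA_dindB h]
      constructor
      · have h4 : (S.filter fun v => decide (v ∈ K.toList)).toFinset = K := by
          ext v
          simp only [List.mem_toFinset, List.mem_filter, Finset.mem_toList, decide_eq_true_eq]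
          constructor
          · exact fun h => h.2
          · intro hv
            exact ⟨hI (Finset.mem_coe.2 (hK hv)), hv⟩
        have h5 := List.toFinset_card_of_nodup (hS.filter fun v => decide (v ∈ K.toList))
        rw [h4] at h5
        omega
      · intro x hx y hy
        apply hI' x (Finset.mem_coe.2 (hK (Finset.mem_toList.1 hx))) y
          (Finset.mem_coe.2 (hK (Finset.mem_toList.1 hy)))
    rw [h3] at h2
    exact Bool.noConfusion h2
  · intro h1 l hl
    obtain ⟨h2, h3⟩ := mem_tup.1 hl
    by_contra hc
    have hc' : dindB E S (c + 1) l = true := by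
      cases hb : dindB E S (c + 1) l
      · exact absurd hb hc
      · rfl
    rw [SpecA_dindB h] at hc'
    obtain ⟨h4, h5⟩ := hc'
    have h6 := h1 (S.filter fun v => decide (v ∈ l)).toFinset (by
      intro v hv
      rw [Finset.mem_coe, List.mem_toFinset, List.mem_filter] at hv
      exact hv.1) (by
      intro x hx y hy
      rw [Finset.mem_coe, List.mem_toFinset, List.mem_filter] at hx hy
      exact h5 x (by simpa [toS] using hx.2) y (by simpa [toS] using hy.2))
    rw [List.toFinset_card_of_nodup (hS.filter _), h4] at h6
    omega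

theorem mem_inds (h : GoodE n E) (hS : S.Nodup) :
    l ∈ inds E S q ↔ l.length = q ∧ (∀ v ∈ l, v ∈ S) ∧ l.Nodup ∧ Ind (gE E) (toS l) := by
  simp only [inds, List.mem_filter, mem_tup, SpecA_dindB h]
  constructor
  · rintro ⟨⟨h1, h2⟩, h3, h4⟩
    refine ⟨h1, h2, ?_, h4⟩
    have h5 : (S.filter fun v => decide (v ∈ l)).toFinset = l.toFinset := by
      ext v
      simp only [List.mem_toFinset, List.mem_filter, decide_eq_true_eq]
      exact ⟨fun h => h.2, fun h => ⟨h2 v h, h⟩⟩
    have h6 := List.toFinset_card_of_nodup (hS.filter fun v => decide (v ∈ l))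
    rw [h5, h3, ← h1] at h6
    rw [← List.dedup_eq_self]
    have h7 : l.dedup.length = l.length := by
      rw [← h6, List.card_toFinset]
    exact (List.dedup_sublist l).eq_of_length h7
  · rintro ⟨h1, h2, h3, h4⟩
    refine ⟨⟨h1, h2⟩, ?_, h4⟩
    have h5 : (S.filter fun v => decide (v ∈ l)).toFinset = l.toFinset := by
      ext v
      simp only [List.mem_toFinset, List.mem_filter, decide_eq_true_eq]
      exact ⟨fun h => h.2, fun h => ⟨h2 v h, h⟩⟩
    rw [← List.toFinset_card_of_nodup (hS.filter fun v => decide (v ∈ l)), h5,
      List.toFinset_card_of_nodup h3, h1]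

theorem mem_rest : v ∈ rest A B ↔ v ∈ A ∧ v ∉ B := by
  simp [rest]

theorem mem_cap (hA : ∀ u ∈ A, u < n) : v ∈ cap n A B ↔ v ∈ A ∧ v ∈ B := by
  simp only [cap, List.mem_filter, List.mem_range, Bool.and_eq_true, decide_eq_true_eq]
  exact ⟨fun h => h.2, fun h => ⟨hA v h.1, h⟩⟩

theorem mem_cup (hA : ∀ u ∈ A, u < n) (hB : ∀ u ∈ B, u < n) : v ∈ cup n A B ↔ v ∈ A ∨ v ∈ B := by
  simp only [cup, List.mem_filter, List.mem_range, Bool.or_eq_true, decide_eq_true_eq]
  exact ⟨fun h => h.2, fun h => ⟨h.elim (hA v) (hB v), h⟩⟩

theorem Srt.nodup (h : Srt n A) : A.Nodup := List.nodup_range.sublist h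

theorem Srt.lt (h : Srt n A) : ∀ u ∈ A, u < n := fun _ hu => List.mem_range.1 (h.subset hu)

theorem Srt.length_le (h : Srt n A) : A.length ≤ n := by
  have := List.Sublist.length_le h
  simpa using this

theorem srt_filter_range (p : ℕ → Bool) : Srt n ((List.range n).filter p) := List.filter_sublist

theorem srt_cap : Srt n (cap n A B) := List.filter_sublist

theorem srt_cup : Srt n (cup n A B) := List.filter_sublist

theorem Srt.sublist (h : Srt n A) (hB : B.Sublist A) : Srt n B := hB.trans h

/-- Sorted lists are determined by their elements. -/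
theorem Srt.ext (hA : Srt n A) (hB : Srt n B) (h : ∀ v, v ∈ A ↔ v ∈ B) : A = B := by
  rw [← SpecA_filter_sub List.nodup_range hA, ← SpecA_filter_sub List.nodup_range hB]
  apply List.filter_congr
  intro x _
  rw [decide_eq_decide]
  exact h x

/-- Sorted lists with smaller element set are sublists. -/
theorem Srt.sublist_of_subset (hA : Srt n A) (hB : Srt n B) (h : ∀ v ∈ A, v ∈ B) :
    A.Sublist B := by
  have h1 : (B.filter fun v => decide (v ∈ A)) = A := by
    apply Srt.ext (n := n) (hB.sublist List.filter_sublist) hA
    intro v
    simp only [List.mem_filter, decide_eq_true_eq]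
    exact ⟨fun h => h.2, fun h' => ⟨h v h', h'⟩⟩
  rw [← h1]
  exact List.filter_sublist

/-- The length of an independent list without duplicates in `S` is at most `al`. -/
theorem length_le_al (hl : l.Nodup) (hi : Ind (gE E) (toS l)) {T : Set ℕ} (hT : T.Finite)
    (hlT : toS l ⊆ T) : l.length ≤ al (gE E) T := by
  rw [← List.toFinset_card_of_nodup hl]
  apply card_le_al hT
  · intro v hv
    exact hlT (by simpa [toS] using hv)
  · intro x hx y hy
    exact hi x (by simpa [toS] using hx) y (by simpa [toS] using hy)

end Pool.Agent.TIA
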