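import Pool.Agent.TIA.LRat
import Pool.Agent.TIA.SpecA

/-!
# MWa: one round of the multiplicative weights algorithm

`aI Xs I = (I.map (cnt Xs)).sum`, potential `Phi q Is Xs = sum_{I ∈ Is} ((q+1)/q) ^ aI Xs I` (real).
If `Xs` has at most `R` members and `I` has `q` entries then `aI ≤ q * R` and `wt q R Xs I = q^(qR) * ((q+1)/q)^aI`.
For a set `Y` and lists `I` without duplicates: `sum_{v ∈ Y} cost v = sum_I wt_I * |I ∩ Y|`. With `Y = hitSet` and
`hitSet_cost` (costs list `(range n).map (cost ..)`, `getD v 0 = cost v` for `v < n`):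
`sum_I wt_I |I ∩ Y| ≤ K sum_I wt_I |I ∩ X| ≤ K t sum_I wt_I`, since `I ∩ X` is an independent subset of `X`.
`(1 + 1/q)^j ≤ 1 + 2 j / q` for `0 ≤ j ≤ q` (e.g. `(1+1/q)^j ≤ exp (j/q) ≤ 1 + 2 (j/q)` for `j/q ≤ 1`, by convexity
of `exp` and `e ≤ 3`). So `Phi (Y :: Xs) ≤ Phi Xs * (1 + 2 K t / q)`.
-/

namespace Pool.Agent.TIA

/-- the exponent of the tuple `I` -/
def aI (Xs : List (List ℕ)) (I : List ℕ) : ℕ := (I.map (cnt Xs)).sum

/-- the potential -/
noncomputable def Phi (q : ℕ) (Is Xs : List (List ℕ)) : ℝ :=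
  (Is.map fun I => (((q : ℝ) + 1) / q) ^ aI Xs I).sum

theorem MWa_swap (w : List ℕ → ℕ) (Is : List (List ℕ)) (A : Finset ℕ) :
    ∑ v ∈ A, ((Is.filter fun I => decide (v ∈ I)).map w).sum =
      (Is.map fun I => w I * (A.filter (fun v => v ∈ I)).card).sum := by
  induction Is with
  | nil => simp
  | cons I Is ih =>
    rw [List.map_cons, List.sum_cons, ← ih, Finset.card_filter, Finset.mul_sum,
      ← Finset.sum_add_distrib]
    refine Finset.sum_congr rfl fun v _ => ?_
    by_cases h : v ∈ I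
    · rw [List.filter_cons_of_pos (by simpa using h), if_pos h, List.map_cons, List.sum_cons,
        mul_one]
    · rw [List.filter_cons_of_neg (by simpa using h), if_neg h, mul_zero, zero_add]

theorem MWa_cnt (Y : List ℕ) (Xs : List (List ℕ)) (v : ℕ) :
    cnt (Y :: Xs) v = cnt Xs v + if v ∈ Y then 1 else 0 := by
  unfold cnt
  rw [List.countP_cons]
  by_cases h : v ∈ Y <;> simp [h]

theorem MWa_aI (Y : List ℕ) (Xs : List (List ℕ)) {I : List ℕ} (hI : I.Nodup) :
    aI (Y :: Xs) I = aI Xs I + (Y.toFinset.filter (fun v => v ∈ I)).card := by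
  unfold aI
  have h1 : (I.map (cnt (Y :: Xs))) = I.map fun v => cnt Xs v + if v ∈ Y then 1 else 0 := by
    refine List.map_congr_left fun v _ => MWa_cnt Y Xs v
  rw [h1, List.sum_map_add]
  congr 1
  rw [← List.sum_toFinset _ hI, ← Finset.card_filter]
  congr 1
  ext v
  simp only [Finset.mem_filter, List.mem_toFinset]
  tauto

theorem MWa_cnt_le (Xs : List (List ℕ)) (v : ℕ) : cnt Xs v ≤ Xs.length := List.countP_le_length

theorem MWa_aI_le (Xs : List (List ℕ)) (I : List ℕ) : aI Xs I ≤ I.length * Xs.length := by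
  unfold aI
  have := List.sum_le_card_nsmul (I.map (cnt Xs)) Xs.length (by
    intro x hx
    obtain ⟨v, _, rfl⟩ := List.mem_map.1 hx
    exact MWa_cnt_le Xs v)
  simpa using this

theorem MWa_wt {q R : ℕ} (hq : 1 ≤ q) {Xs : List (List ℕ)} (hR : Xs.length ≤ R) {I : List ℕ}
    (hI : I.length = q) : (wt q R Xs I : ℝ) = (q : ℝ) ^ (q * R) * (((q : ℝ) + 1) / q) ^ aI Xs I := by
  have h1 : aI Xs I ≤ q * R := by
    have := MWa_aI_le Xs I
    rw [hI] at this
    exact this.trans (Nat.mul_le_mul_left _ hR)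
  have hq0 : (q : ℝ) ≠ 0 := by
    have : (0 : ℝ) < q := by exact_mod_cast hq
    exact this.ne'
  unfold wt
  rw [show (I.map (cnt Xs)).sum = aI Xs I from rfl]
  push_cast
  rw [div_pow]
  have h2 : (q : ℝ) ^ (q * R) = (q : ℝ) ^ (aI Xs I) * (q : ℝ) ^ (q * R - aI Xs I) := by
    rw [← pow_add, Nat.add_sub_cancel' h1]
  rw [h2]
  field_simp

theorem MWa_pow {q j : ℕ} (hq : 1 ≤ q) (hj : j ≤ q) :
    (((q : ℝ) + 1) / q) ^ j ≤ 1 + 2 * j / q := by
  have hq0 : (0 : ℝ) < q := by exact_mod_cast hq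
  have h1 : ((q : ℝ) + 1) / q ≤ Real.exp (1 / q) := by
    have := Real.add_one_le_exp (1 / (q : ℝ))
    have e : ((q : ℝ) + 1) / q = 1 / q + 1 := by field_simp; ring
    rw [e]; exact this
  have h2 : (((q : ℝ) + 1) / q) ^ j ≤ Real.exp (j / q) := by
    calc (((q : ℝ) + 1) / q) ^ j ≤ (Real.exp (1 / q)) ^ j :=
          pow_le_pow_left₀ (by positivity) h1 j
      _ = Real.exp (j / q) := by
          rw [← Real.exp_nat_mul]
          congr 1
          ring
  have hx0 : (0 : ℝ) ≤ j / q := by positivity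
  have hx1 : (j : ℝ) / q ≤ 1 := by
    rw [div_le_one hq0]
    exact_mod_cast hj
  have h3 := convexOn_exp.2 (Set.mem_univ (0 : ℝ)) (Set.mem_univ (1 : ℝ))
    (sub_nonneg.2 hx1) hx0 (by ring)
  simp only [smul_eq_mul, mul_zero, mul_one, zero_add, Real.exp_zero] at h3
  have h4 : Real.exp 1 < 3 := by
    have := Real.exp_one_lt_d9
    linarith
  have h5 : 1 - (j : ℝ) / q + j / q * Real.exp 1 ≤ 1 + 2 * (j / q) := by nlinarith
  have h6 : 1 + 2 * (j / q : ℝ) = 1 + 2 * j / q := by ring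
  rw [← h6]
  exact (h2.trans h3).trans h5

theorem MWa_getD {n v : ℕ} (f : ℕ → ℕ) (hv : v < n) : ((List.range n).map f).getD v 0 = f v := by
  rw [List.getD_eq_getElem?_getD]
  simp [List.getElem?_map, List.getElem?_range hv]

theorem phi_step (n K q t R : ℕ) (E : List (ℕ × ℕ)) (hE : GoodE n E) (S : List ℕ)
    (hS : Srt n S) (hq : 1 ≤ q) (F : List (List ℕ))
    (hF : ∀ P ∈ F, P ≠ [] ∧ P.length ≤ K ∧ ∀ v ∈ P, v ∈ S) (X : Finset ℕ)
    (hX : ∀ P ∈ F, ∃ v ∈ P, v ∈ X) (hal : al (gE E) (X : Set ℕ) ≤ t) (Xs : List (List ℕ))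
    (hR : Xs.length ≤ R) (Y : List ℕ)
    (hY : Y = hitSet n S ((List.range n).map (cost q R (inds E S q) Xs)) F) :
    Phi q (inds E S q) (Y :: Xs) ≤ Phi q (inds E S q) Xs * (1 + 2 * K * t / q) := by
  classical
  obtain ⟨Is, hIs⟩ : ∃ Is, Is = inds E S q := ⟨_, rfl⟩
  have hmem : ∀ I ∈ Is, I.length = q ∧ (∀ v ∈ I, v ∈ S) ∧ I.Nodup ∧ Ind (gE E) (toS I) := by
    intro I hI
    rw [hIs] at hI
    exact (mem_inds hE hS.nodup).1 hI
  rw [← hIs] at hY ⊢
  have hYS : ∀ v ∈ Y, v ∈ S := by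
    intro v hv
    rw [hY] at hv
    exact (List.mem_filter.1 hv).1
  have hcost := hitSet_cost n K S ((List.range n).map (cost q R Is Xs)) F hS.lt hF X hX
  rw [← hY] at hcost
  have e1 : ∑ v ∈ Y.toFinset, ((List.range n).map (cost q R Is Xs)).getD v 0 =
      (Is.map fun I => wt q R Xs I * (Y.toFinset.filter (fun v => v ∈ I)).card).sum := by
    rw [← MWa_swap]
    refine Finset.sum_congr rfl fun v hv => ?_
    rw [MWa_getD _ (hS.lt v (hYS v (List.mem_toFinset.1 hv)))]
    rfl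
  have e2 : ∑ v ∈ S.toFinset ∩ X, ((List.range n).map (cost q R Is Xs)).getD v 0 =
      (Is.map fun I => wt q R Xs I * ((S.toFinset ∩ X).filter (fun v => v ∈ I)).card).sum := by
    rw [← MWa_swap]
    refine Finset.sum_congr rfl fun v hv => ?_
    rw [MWa_getD _ (hS.lt v (List.mem_toFinset.1 (Finset.mem_inter.1 hv).1))]
    rfl
  have e3 : (Is.map fun I => wt q R Xs I * ((S.toFinset ∩ X).filter (fun v => v ∈ I)).card).sum ≤
      (Is.map fun I => wt q R Xs I * t).sum := by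
    refine List.sum_le_sum fun I hI => Nat.mul_le_mul_left _ ?_
    refine le_trans (card_le_al (G := gE E) X.finite_toSet ?_ ?_) hal
    · intro v hv
      have := (Finset.mem_filter.1 (Finset.mem_coe.1 hv)).1
      exact (Finset.mem_inter.1 this).2
    · intro u hu v hv
      have h1 := (Finset.mem_filter.1 (Finset.mem_coe.1 hu)).2
      have h2 := (Finset.mem_filter.1 (Finset.mem_coe.1 hv)).2
      exact (hmem I hI).2.2.2 u h1 v h2
  have e4 : (Is.map fun I => wt q R Xs I * (Y.toFinset.filter (fun v => v ∈ I)).card).sum ≤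
      K * (t * (Is.map fun I => wt q R Xs I).sum) := by
    rw [← e1]
    refine hcost.trans (Nat.mul_le_mul_left _ ?_)
    rw [e2]
    refine e3.trans (le_of_eq ?_)
    rw [List.sum_map_mul_right, mul_comm]
  have hq0 : (0 : ℝ) < q := by exact_mod_cast hq
  -- real sums
  have e4' : (Is.map fun I => (wt q R Xs I : ℝ) * ((Y.toFinset.filter (fun v => v ∈ I)).card : ℝ)).sum ≤
      K * (t * (Is.map fun I => (wt q R Xs I : ℝ)).sum) := by
    have h := (Nat.cast_le (α := ℝ)).2 e4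
    push_cast at h
    rw [List.map_map, List.map_map] at h
    refine le_trans (le_of_eq ?_) (h.trans (le_of_eq rfl))
    congr 1
    refine List.map_congr_left fun I _ => ?_
    simp
  have hw : ∀ I ∈ Is, (wt q R Xs I : ℝ) = (q : ℝ) ^ (q * R) * (((q : ℝ) + 1) / q) ^ aI Xs I :=
    fun I hI => MWa_wt hq hR (hmem I hI).1
  have e5 : (q : ℝ) ^ (q * R) * Phi q Is Xs = (Is.map fun I => (wt q R Xs I : ℝ)).sum := by
    unfold Phi
    rw [← List.sum_map_mul_left]
    congr 1
    exact List.map_congr_left fun I hI => (hw I hI).symm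
  have e6 : (q : ℝ) ^ (q * R) * Phi q Is (Y :: Xs) ≤ (Is.map fun I => (wt q R Xs I : ℝ)
      + 2 / q * ((wt q R Xs I : ℝ) * ((Y.toFinset.filter (fun v => v ∈ I)).card : ℝ))).sum := by
    unfold Phi
    rw [← List.sum_map_mul_left]
    refine List.sum_le_sum fun I hI => ?_
    have hj : (Y.toFinset.filter (fun v => v ∈ I)).card ≤ q := by
      have h1 : Y.toFinset.filter (fun v => v ∈ I) ⊆ I.toFinset := by
        intro v hv
        exact List.mem_toFinset.2 (Finset.mem_filter.1 hv).2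
      have h2 := Finset.card_le_card h1
      have h3 := List.toFinset_card_le I
      rw [(hmem I hI).1] at h3
      exact h2.trans h3
    rw [MWa_aI Y Xs (hmem I hI).2.2.1, pow_add, ← mul_assoc, ← hw I hI]
    have h4 := mul_le_mul_of_nonneg_left (MWa_pow hq hj) (Nat.cast_nonneg (α := ℝ) (wt q R Xs I))
    refine h4.trans (le_of_eq ?_)
    ring
  rw [List.sum_map_add, List.sum_map_mul_left] at e6
  have e7 : (q : ℝ) ^ (q * R) * Phi q Is (Y :: Xs) ≤
      (q : ℝ) ^ (q * R) * (Phi q Is Xs * (1 + 2 * K * t / q)) := by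
    refine e6.trans ?_
    rw [← mul_assoc, e5]
    have h8 := mul_le_mul_of_nonneg_left e4' (by positivity : (0 : ℝ) ≤ 2 / q)
    refine (add_le_add_right h8 _).trans (le_of_eq ?_)
    ring
  exact le_of_mul_le_mul_left e7 (by positivity)

end Pool.Agent.TIA
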