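import Pool.Agent.TIA.MWa

/-!
# MWb: the multiplicative weights algorithm finds a hitting set of small independence number

`R = rounds n q = 2 q^2 (n+1)`. After `R` rounds (`phi_step`): `Phi ≤ n^q (1 + 2Kt/q)^R ≤ exp (q n + 2KtR/q)` (number of
tuples `≤ n^q`, `length_tup`, `Srt.length_le`). For `I ∈ inds`: `(1+1/q)^(aI) ≤ Phi` and `log (1+1/q) ≥ 1/(2q)`, so
`aI ≤ 2 q^2 n + 4KtR ≤ R (1 + 4Kt)`.
(i) every `P ∈ F` is hit by all `R` members of `mwRun` (`hitSet_hit`), so `sum_{v ∈ P} cnt v ≥ R` (over the distinct
members, at most `K`), so some `v ∈ P` has `K * cnt v ≥ R`: `v ∈ mwHit`.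
(ii) if `mwHit` contained `q` independent vertices, they form (in some order) `I ∈ inds E S q` with `K * aI ≥ q * R`, so
`q R ≤ K (1 + 4Kt) R`, `R ≥ 1`: contradiction to `hqt`. So `al ≤ q - 1` (`al_le_iff`).
-/

namespace Pool.Agent.TIA

namespace MWb

/-- the family after `j` rounds -/
def run (E : List (ℕ × ℕ)) (n q : ℕ) (S : List ℕ) (F : List (List ℕ)) (j : ℕ) : List (List ℕ) :=
  (mwStep n q (rounds n q) S (inds E S q) F)^[j] []

theorem run_succ (E : List (ℕ × ℕ)) (n q : ℕ) (S : List ℕ) (F : List (List ℕ)) (j : ℕ) :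
    run E n q S F (j + 1) = hitSet n S ((List.range n).map
      (cost q (rounds n q) (inds E S q) (run E n q S F j))) F :: run E n q S F j := by
  unfold run
  rw [Function.iterate_succ_apply']
  rfl

theorem length_run (E : List (ℕ × ℕ)) (n q : ℕ) (S : List ℕ) (F : List (List ℕ)) (j : ℕ) :
    (run E n q S F j).length = j := by
  induction j with
  | zero => rfl
  | succ j ih => rw [run_succ, List.length_cons, ih]

theorem mem_run (E : List (ℕ × ℕ)) (n q : ℕ) (S : List ℕ) (F : List (List ℕ)) (j : ℕ) :
    ∀ Y ∈ run E n q S F j, ∃ c, Y = hitSet n S c F := by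
  induction j with
  | zero => intro Y hY; simp [run] at hY
  | succ j ih =>
    intro Y hY
    rw [run_succ] at hY
    rcases List.mem_cons.1 hY with h | h
    · exact ⟨_, h⟩
    · exact ih Y h

theorem length_le_sum (P : List ℕ) (Xs : List (List ℕ)) (h : ∀ X ∈ Xs, ∃ v ∈ P, v ∈ X) :
    Xs.length ≤ ∑ v ∈ P.toFinset, cnt Xs v := by
  induction Xs with
  | nil => simp
  | cons X Xs ih =>
    have h1 := ih fun Y hY => h Y (List.mem_cons_of_mem _ hY)
    obtain ⟨v, hv, hvX⟩ := h X List.mem_cons_self
    have h2 : ∀ u, cnt (X :: Xs) u = cnt Xs u + if u ∈ X then 1 else 0 := by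
      intro u
      unfold cnt
      rw [List.countP_cons]
      simp
    simp_rw [h2]
    rw [Finset.sum_add_distrib, List.length_cons]
    have h3 : 1 ≤ ∑ u ∈ P.toFinset, if u ∈ X then 1 else 0 := by
      have := Finset.single_le_sum (f := fun u => if u ∈ X then 1 else 0)
        (fun u _ => Nat.zero_le _) (List.mem_toFinset.2 hv)
      simpa [hvX] using this
    omega

end MWb

theorem mw_main (n K q t : ℕ) (E : List (ℕ × ℕ)) (hE : GoodE n E) (S : List ℕ)
    (hS : Srt n S) (hK : 1 ≤ K) (F : List (List ℕ))
    (hF : ∀ P ∈ F, P ≠ [] ∧ P.length ≤ K ∧ ∀ v ∈ P, v ∈ S) (X : Finset ℕ)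
    (hX : ∀ P ∈ F, ∃ v ∈ P, v ∈ X) (hal : al (gE E) (X : Set ℕ) ≤ t)
    (hqt : K * (1 + 4 * K * t) < q) :
    (∀ P ∈ F, ∃ v ∈ P, v ∈ mwHit E n K q S F) ∧
      al (gE E) (toS (mwHit E n K q S F)) ≤ q - 1 := by
  classical
  have hq : 1 ≤ q := by omega
  set R := rounds n q with hR
  have hRdef : R = 2 * q ^ 2 * (n + 1) := rfl
  have hq2 : 1 ≤ q ^ 2 := Nat.one_le_pow _ _ hq
  have hR1 : 1 ≤ R := by
    rw [hRdef]
    have : 0 < 2 * q ^ 2 * (n + 1) := by positivity
    omega
  have hrun : mwRun E n q S F = MWb.run E n q S F R := rfl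
  constructor
  · intro P hP
    obtain ⟨hP0, hPK, hPS⟩ := hF P hP
    by_contra hcon
    push Not at hcon
    have h1 : ∀ v ∈ P, K * cnt (MWb.run E n q S F R) v < R := by
      intro v hv
      have := hcon v hv
      unfold mwHit at this
      rw [List.mem_filter, not_and, hrun] at this
      have h2 := this (hPS v hv)
      simpa using h2
    have h2 := MWb.length_le_sum P (MWb.run E n q S F R) (by
      intro Y hY
      obtain ⟨c, rfl⟩ := MWb.mem_run E n q S F R Y hY
      exact hitSet_hit n S c F hS.lt (fun P hP => ⟨(hF P hP).1, (hF P hP).2.2⟩) P hP)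
    rw [MWb.length_run] at h2
    have h3 : K * ∑ v ∈ P.toFinset, cnt (MWb.run E n q S F R) v ≤ P.toFinset.card * (R - 1) := by
      rw [Finset.mul_sum, ← smul_eq_mul, ← Finset.sum_const]
      refine Finset.sum_le_sum fun v hv => ?_
      have := h1 v (List.mem_toFinset.1 hv)
      omega
    have h4 : P.toFinset.card ≤ K := (List.toFinset_card_le P).trans hPK
    have h5 : K * R ≤ K * (R - 1) := by
      calc K * R ≤ K * ∑ v ∈ P.toFinset, cnt (MWb.run E n q S F R) v := Nat.mul_le_mul_left _ h2
        _ ≤ P.toFinset.card * (R - 1) := h3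
        _ ≤ K * (R - 1) := Nat.mul_le_mul_right _ h4
    have h6 := Nat.le_of_mul_le_mul_left h5 (by omega)
    omega
  · rw [al_le_iff (toS_finite _)]
    intro I hI hInd
    by_contra hcon
    have hcard : q ≤ I.card := by omega
    obtain ⟨J, hJI, hJc⟩ := Finset.exists_subset_card_eq hcard
    have hJhit : ∀ v ∈ J.toList, v ∈ mwHit E n K q S F := fun v hv =>
      hI (hJI (Finset.mem_toList.1 hv))
    have hmem : J.toList ∈ inds E S q := by
      rw [mem_inds hE hS.nodup]
      refine ⟨by rw [Finset.length_toList, hJc], fun v hv => (List.mem_filter.1 (hJhit v hv)).1,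
        Finset.nodup_toList J, fun x hx y hy => ?_⟩
      exact hInd x (hJI (Finset.mem_toList.1 hx)) y (hJI (Finset.mem_toList.1 hy))
    -- lower bound
    have hlow : q * R ≤ K * aI (MWb.run E n q S F R) J.toList := by
      have h1 : ∀ l : List ℕ, (∀ v ∈ l, v ∈ mwHit E n K q S F) →
          l.length * R ≤ K * aI (MWb.run E n q S F R) l := by
        intro l
        induction l with
        | nil => intro _; simp
        | cons v l ih =>
          intro hl
          have h2 := ih fun u hu => hl u (List.mem_cons_of_mem _ hu)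
          have h3 := (List.mem_filter.1 (hl v List.mem_cons_self)).2
          rw [decide_eq_true_eq, hrun] at h3
          unfold aI at h2 ⊢
          rw [List.length_cons, List.map_cons, List.sum_cons, Nat.add_mul, Nat.mul_add]
          omega
      have := h1 _ hJhit
      rwa [Finset.length_toList, hJc] at this
    -- upper bound
    have hqR : (0 : ℝ) < q := by exact_mod_cast hq
    have hphi : ∀ j ≤ R, Phi q (inds E S q) (MWb.run E n q S F j) ≤
        (n : ℝ) ^ q * (1 + 2 * K * t / q) ^ j := by
      intro j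
      induction j with
      | zero =>
        intro _
        have h1 : Phi q (inds E S q) (MWb.run E n q S F 0) = (inds E S q).length := by
          unfold Phi
          have : ∀ I : List ℕ, aI (MWb.run E n q S F 0) I = 0 := by
            intro I
            unfold aI
            have h0 : ∀ v, cnt (MWb.run E n q S F 0) v = 0 := fun v => by simp [MWb.run, cnt]
            have h00 : cnt (MWb.run E n q S F 0) = fun _ => 0 := funext h0
            rw [h00]
            simp
          simp [this]
        rw [h1, pow_zero, mul_one]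
        have h2 : (inds E S q).length ≤ (tup S q).length := List.length_filter_le _ _
        rw [length_tup] at h2
        have h3 : S.length ^ q ≤ n ^ q := Nat.pow_le_pow_left hS.length_le q
        exact_mod_cast h2.trans h3
      | succ j ih =>
        intro hj
        have h1 := ih (by omega)
        have h2 := phi_step n K q t R E hE S hS hq F hF X hX hal (MWb.run E n q S F j)
          (by rw [MWb.length_run]; omega) _ rfl
        rw [MWb.run_succ]
        refine h2.trans ?_
        rw [pow_succ, ← mul_assoc]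
        exact mul_le_mul_of_nonneg_right h1 (by positivity)
    have hterm : (((q : ℝ) + 1) / q) ^ aI (MWb.run E n q S F R) J.toList ≤
        Phi q (inds E S q) (MWb.run E n q S F R) := by
      unfold Phi
      refine List.single_le_sum ?_ _ (List.mem_map.2 ⟨_, hmem, rfl⟩)
      intro y hy
      obtain ⟨I, _, rfl⟩ := List.mem_map.1 hy
      positivity
    set a := aI (MWb.run E n q S F R) J.toList with ha
    have hexp : (((q : ℝ) + 1) / q) ^ a ≤ Real.exp (q * n + 2 * K * t * R / q) := by
      refine (hterm.trans (hphi R le_rfl)).trans ?_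
      rw [Real.exp_add]
      have h1 : (n : ℝ) ^ q ≤ Real.exp (q * n) := by
        rw [Real.exp_nat_mul]
        refine pow_le_pow_left₀ (Nat.cast_nonneg _) ?_ q
        have := Real.add_one_le_exp (n : ℝ)
        linarith
      have h2 : (1 + 2 * (K : ℝ) * t / q) ^ R ≤ Real.exp (2 * K * t * R / q) := by
        have h3 : 2 * (K : ℝ) * t * R / q = (R : ℕ) * (2 * K * t / q) := by ring
        rw [h3, Real.exp_nat_mul]
        refine pow_le_pow_left₀ (by positivity) ?_ R
        have := Real.add_one_le_exp (2 * (K : ℝ) * t / q)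
        linarith
      exact mul_le_mul h1 h2 (by positivity) (Real.exp_pos _).le
    have hlog : (a : ℝ) * Real.log (((q : ℝ) + 1) / q) ≤ q * n + 2 * K * t * R / q := by
      have h1 := Real.log_le_log (by positivity) hexp
      rwa [Real.log_pow, Real.log_exp] at h1
    have hlog2 : 1 / (2 * (q : ℝ)) ≤ Real.log (((q : ℝ) + 1) / q) := by
      have h1 := Real.one_sub_inv_le_log_of_pos (x := ((q : ℝ) + 1) / q) (by positivity)
      refine le_trans ?_ h1
      rw [inv_div]
      have h2 : 1 - (q : ℝ) / (q + 1) = 1 / (q + 1) := by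
        field_simp
        ring
      rw [h2]
      apply one_div_le_one_div_of_le (by positivity)
      have : (1 : ℝ) ≤ q := by exact_mod_cast hq
      linarith
    have hup : (a : ℝ) ≤ 2 * q ^ 2 * n + 4 * K * t * R := by
      have h1 : (a : ℝ) * (1 / (2 * (q : ℝ))) ≤ q * n + 2 * K * t * R / q :=
        (mul_le_mul_of_nonneg_left hlog2 (Nat.cast_nonneg _)).trans hlog
      have h2 : (a : ℝ) = (a : ℝ) * (1 / (2 * (q : ℝ))) * (2 * q) := by
        field_simp
      have h3 : (2 : ℝ) * q ^ 2 * n + 4 * K * t * R = (q * n + 2 * K * t * R / q) * (2 * q) := by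
        field_simp
        ring
      rw [h2, h3]
      exact mul_le_mul_of_nonneg_right h1 (by positivity)
    have hup' : a ≤ R * (1 + 4 * K * t) := by
      have h1 : a ≤ 2 * q ^ 2 * n + 4 * K * t * R := by exact_mod_cast hup
      refine h1.trans ?_
      have h2 : 2 * q ^ 2 * n ≤ R := by
        rw [hRdef]
        exact Nat.mul_le_mul_left _ (Nat.le_succ n)
      calc 2 * q ^ 2 * n + 4 * K * t * R ≤ R + 4 * K * t * R := Nat.add_le_add_right h2 _
        _ = R * (1 + 4 * K * t) := by ring
    have hfin : q * R ≤ K * (1 + 4 * K * t) * R := by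
      calc q * R ≤ K * a := hlow
        _ ≤ K * (R * (1 + 4 * K * t)) := Nat.mul_le_mul_left _ hup'
        _ = K * (1 + 4 * K * t) * R := by ring
    have := Nat.le_of_mul_le_mul_right hfin (by omega)
    omega

end Pool.Agent.TIA
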