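import Pool.Agent.TIA.StarCh
import Pool.Agent.TIA.DblRam
import Pool.Agent.TIA.AlB
import Pool.Agent.TIA.ShortP

/-!
# StarCen: the centres of large stars have bounded independence number

`k = 0`: `PFree G 0` is contradictory when `V` is nonempty; if `V` is empty the set is empty. `k ≥ 1`:
let `L = max k (2s+3)`, `N = max (k+1) (s+3)`; `ns := L'` from `dbl_ramsey (P := k) L` (legs have `p + 1 < k`
vertices, so `P = p + 1 ≤ k`), `N'` from `dbl_ramsey` for `N`. Given `m`: pigeonhole (`pigeon`) for the colours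
`(p, hub tuple)`: `p < k`, hub tuple a function `Fin ns → M`; to have a colour type independent of `M` number the
elements of `M` by `Fin m` (an injection `M → Fin m`, `M.card ≤ m`). `q := ` the pigeonhole number `R` for `N'`.
If `al` of the set of centres were `≥ q`.. (`exists_seq_of_lt`) we get `q` (+1) independent centres `r i` with
stars `(p i, h i, x i)`; choose `N'` of them with the same `p` and the same hubs on `{0..ns-1}`; then `dbl_ramsey`
for `cmb r x`, restrict the stars (`Star.reindex` with `g`), `star_chain` contradicts `PFree G k`.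
(The hubs functions agree only on `< ns`: replace `h i` by `h 0`: `Star` only looks at indices `< ns`.)
-/

namespace Pool.Agent.TIA

theorem StarCen_congr {V : Type} {G : SimpleGraph V} {B : Set V} {M : Finset V} {n p : ℕ} {z : V}
    {h h' : ℕ → V} {x : ℕ → ℕ → V} (hs : Star G B M n p z h x) (hh : ∀ u < n, h u = h' u) :
    Star G B M n p z h' x := by
  refine ⟨hs.cen, ⟨?_, ?_⟩, ?_, ?_, hs.cenLeg, hs.cross, ?_⟩
  · intro i hi
    rw [← hh i hi]
    exact hs.hubs.1 i hi
  · intro i hi j hj hij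
    rw [← hh i hi, ← hh j hj] at hij
    exact hs.hubs.2 i hi j hj hij
  · intro i hi
    rw [← hh i hi]
    exact hs.leg i hi
  · intro i hi
    rw [← hh i hi]
    exact hs.cenHub i hi
  · intro i hi j hj hij a ha
    rw [← hh j hj]
    exact hs.crossHub i hi j hj hij a ha

theorem StarCen_enc {V : Type} (M : Finset V) (m : ℕ) (hm : M.card ≤ m) :
    ∃ enc : V → Fin (m + 1), ∀ u ∈ M, ∀ v ∈ M, enc u = enc v → u = v := by
  classical
  refine ⟨fun v => if hv : v ∈ M then ⟨(M.equivFin ⟨v, hv⟩ : ℕ), ?_⟩ else 0, ?_⟩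
  · have := (M.equivFin ⟨v, hv⟩).2
    omega
  · intro u hu v hv huv
    simp only [dif_pos hu, dif_pos hv, Fin.mk.injEq] at huv
    have h1 := M.equivFin.injective (Fin.ext huv)
    exact congrArg Subtype.val h1

theorem star_centres (k s : ℕ) : ∃ ns, ∀ m, ∃ q, ∀ (V : Type) [Finite V] (G : SimpleGraph V)
    (M : Finset V) (B : Set V), PFree G k → KFree G s → Ind G (M : Set V) → M.card ≤ m →
    (∀ b ∈ B, b ∉ M) → al G {z | ∃ p h x, Star G B M ns p z h x} ≤ q := by
  obtain ⟨ns, hns⟩ := dbl_ramsey k (max k (2 * s + 3))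
  refine ⟨ns, fun m => ?_⟩
  obtain ⟨N', hN'⟩ := hns (max (k + 1) (s + 3))
  obtain ⟨R, hR⟩ := pigeon (Fin (k + 1) × (Fin ns → Fin (m + 1))) N'
  refine ⟨R, ?_⟩
  intro V _ G M B hP hK hM hMm hB
  by_contra hcon
  push Not at hcon
  obtain ⟨r, hr1, hr2⟩ := exists_seq_of_lt (Set.toFinite _) hcon
  have hV : Nonempty V := ⟨r 0⟩
  obtain ⟨enc, henc⟩ := StarCen_enc M m hMm
  -- choose the stars
  have hch : ∀ i, ∃ (p : ℕ) (h : ℕ → V) (x : ℕ → ℕ → V), i < R + 1 → Star G B M ns p (r i) h x := by
    intro i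
    by_cases hi : i < R + 1
    · obtain ⟨p, h, x, hs⟩ := hr1 i hi
      exact ⟨p, h, x, fun _ => hs⟩
    · exact ⟨0, fun _ => r 0, fun _ _ => r 0, fun h => absurd h hi⟩
  choose p h x hst using hch
  -- colours
  obtain ⟨f, hf, κ, hκ⟩ := hR (fun i => (⟨min (p i) k, by omega⟩, fun u => enc (h i u)))
  -- double Ramsey
  obtain ⟨f2, g, E, A, hf2, hg, hom⟩ := hN' V G (cmb (fun i => r (f i)) (fun i => x (f i)))
  have hL1 : 0 < max k (2 * s + 3) := by omega
  have hN1 : 0 < max (k + 1) (s + 3) := by omega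
  have hns1 : 0 < ns := lt_of_le_of_lt (Nat.zero_le _) (hg.2 0 hL1)
  have hN'1 : 0 < N' := lt_of_le_of_lt (Nat.zero_le _) (hf2.2 0 hN1)
  have hfR : ∀ i < N', f i < R + 1 := fun i hi => lt_trans (hf.2 i hi) (Nat.lt_succ_self R)
  have hpk : ∀ i < N', p (f i) < k := by
    intro i hi
    have h1 := (hst (f i) (hfR i hi)).leg 0 hns1
    have h2 := PFree.short hP h1.2.1
    omega
  have hpeq : ∀ i < N', p (f i) = p (f 0) := by
    intro i hi
    have h1 := hκ i hi
    have h2 := hκ 0 hN'1
    have h3 := h1.trans h2.symm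
    have h4 := congrArg (fun t => ((Prod.fst t : Fin (k + 1)) : ℕ)) h3
    simp only at h4
    have h5 := hpk i hi
    have h6 := hpk 0 hN'1
    omega
  have hheq : ∀ i < N', ∀ u < ns, h (f i) u = h (f 0) u := by
    intro i hi u hu
    have h1 := hκ i hi
    have h2 := hκ 0 hN'1
    have h3 := h1.trans h2.symm
    have h4 := congrArg (fun t => (Prod.snd t : Fin ns → Fin (m + 1)) ⟨u, hu⟩) h3
    simp only at h4
    exact henc _ ((hst (f i) (hfR i hi)).hubs.1 u hu) _ ((hst (f 0) (hfR 0 hN'1)).hubs.1 u hu) h4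
  have hginj : ∀ i < max k (2 * s + 3), ∀ j < max k (2 * s + 3), g i = g j → i = j := by
    intro i hi j hj hij
    rcases lt_trichotomy i j with h1 | h1 | h1
    · have := hg.1 i j h1 hj
      omega
    · exact h1
    · have := hg.1 j i h1 hi
      omega
  have hinj2 : ∀ i < max (k + 1) (s + 3), ∀ j < max (k + 1) (s + 3), i ≠ j → f (f2 i) ≠ f (f2 j) := by
    intro i hi j hj hij
    rcases lt_or_gt_of_ne hij with h1 | h1
    · have h2 := hf2.1 i j h1 hj
      have h3 := hf.1 _ _ h2 (hf2.2 j hj)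
      omega
    · have h2 := hf2.1 j i h1 hi
      have h3 := hf.1 _ _ h2 (hf2.2 i hi)
      omega
  have hk1 : 1 ≤ k := by
    have := hpk 0 hN'1
    omega
  obtain ⟨q, hq⟩ := star_chain k s (max (k + 1) (s + 3)) (max k (2 * s + 3)) (p (f 0)) hk1
    (le_max_left _ _) (le_max_right _ _) (le_max_left _ _) (le_max_right _ _) hK M B hM hB
    (fun i => r (f (f2 i))) (fun u => h (f 0) (g u)) (fun i u => x (f (f2 i)) (g u))
    (by
      intro i hi
      have hi2 := hf2.2 i hi
      have h1 := (hst (f (f2 i)) (hfR _ hi2)).reindex (L := max k (2 * s + 3)) (g := g) hg.2 hginj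
      rw [hpeq _ hi2] at h1
      exact StarCen_congr h1 (fun u hu => hheq _ hi2 _ (hg.2 u hu)))
    (by
      intro i hi j hj hij
      exact hr2 _ (hfR _ (hf2.2 i hi)) _ (hfR _ (hf2.2 j hj)) (hinj2 i hi j hj hij))
    E A
    (by
      intro i j hij hj u hu v hv a ha b hb
      have h0 := hpk 0 hN'1
      have h1 := hom i j hij hj u hu v hv a (by omega) b (by omega)
      have key : ∀ i u a, cmb (fun i => r (f (f2 i))) (fun i u => x (f (f2 i)) (g u)) i u a =
          cmb (fun i => r (f i)) (fun i => x (f i)) (f2 i) (g u) a := by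
        intro i u a
        cases a <;> rfl
      rw [key, key]
      exact h1)
  exact hP q hq

end Pool.Agent.TIA
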