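import Pool.Agent.TIA.AlB

/-!
# ZB: vertices with many neighbours in an independent set

`ZS G M s` = vertices with at least `s` neighbours in `M`. For an `s`-subset `F` of the independent set `M` the common
neighbourhood has independence number `< s` (otherwise `K_{s,s}`: the two sides are complete to each
other). `ZS` is the union over the `≤ 2 ^ M.card` subsets `F` (`al_biUnion_le`).
-/

namespace Pool.Agent.TIA

variable {V : Type} {G : SimpleGraph V}

def ZS (G : SimpleGraph V) (M : Finset V) (s : ℕ) : Set V :=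
  {v | ∃ F : Finset V, F ⊆ M ∧ F.card = s ∧ ∀ f ∈ F, G.Adj v f}

theorem zs_al [Finite V] (M : Finset V) (s : ℕ) (hM : Ind G (M : Set V)) (hK : KFree G s) :
    al G (ZS G M s) ≤ 2 ^ M.card * s := by
  classical
  have hsub : ZS G M s ⊆ ⋃ F ∈ M.powerset.filter (fun F => F.card = s),
      {v : V | ∀ f ∈ F, G.Adj v f} := by
    rintro v ⟨F, hF, hc, hv⟩
    simp only [Set.mem_iUnion, Set.mem_ofPred_eq]
    exact ⟨F, Finset.mem_filter.2 ⟨Finset.mem_powerset.2 hF, hc⟩, hv⟩
  have h1 := al_mono (G := G) (Set.toFinite _) hsub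
  have h2 : al G (⋃ F ∈ M.powerset.filter (fun F => F.card = s), {v : V | ∀ f ∈ F, G.Adj v f}) ≤
      (M.powerset.filter (fun F => F.card = s)).card * s := by
    refine al_biUnion_le _ _ (fun F _ => Set.toFinite _) s fun F hF => ?_
    rw [Finset.mem_filter, Finset.mem_powerset] at hF
    refine (al_le_iff (Set.toFinite _)).2 fun I hI hInd => ?_
    by_contra hlt
    refine hK F I (fun x hx y hy => hM x (hF.1 hx) y (hF.1 hy)) hInd (fun a ha b hb => ?_)
      hF.2.ge (by omega)
    exact ((hI hb) a ha).symm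
  have h3 : (M.powerset.filter (fun F => F.card = s)).card ≤ 2 ^ M.card := by
    rw [← Finset.card_powerset]
    exact Finset.card_filter_le _ _
  exact h1.trans (h2.trans (Nat.mul_le_mul_right s h3))

/-- Outside `ZS` the hubs are sparse. -/
theorem zs_sparse (M : Finset V) (s : ℕ) (B : Set V) (hB : ∀ b ∈ B, b ∉ ZS G M s) :
    Sparse G B M s := by
  intro b hb F hF hadj
  by_contra hlt
  obtain ⟨F', hF', hc⟩ := Finset.exists_subset_card_eq (not_lt.1 hlt)
  exact hB b hb ⟨F', hF'.trans hF, hc, fun f hf => hadj f (hF' hf)⟩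

end Pool.Agent.TIA
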