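import Pool.Agent.TIA.Stages
import Pool.Agent.TIA.StarCen
import Pool.Agent.TIA.HubE
import Pool.Agent.TIA.ZB
import Pool.Agent.TIA.HavN

/-!
# NoHav: the structure theorem (section J of the notes)

Constants: `ns` from `star_centres k s`; `n` from `stages k s ns k`; `N` from `comb s k n` (`P = k`);
`m = s + k * N`; `q` from `star_centres` for `m`; `w` from `stages` for `m`;
`r = m + 2 ^ m * s + q + w`; `t = m + k * (r + 1) + r`.
Let `H : Haven G t`. `M` from `exists_hubs k m r`. `X0 = M ∪ ZS G M s`, `al ≤ m + 2^m s`. `B0 = H.β X0` is Sparse (`zs_sparse`,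
`H.disj`) and disjoint from `M`. `X1 = X0 ∪ {centres of Star G B0 M ns}`; `H.β X1 ⊆ B0` has no `Star ns` (a star in
`H.β X1` is a star in `B0`, so its centre is in `X1`, but the centre is in `H.β X1`). `stages` gives `X`, `al X ≤ r`, with no
`Star n` and no `Clq n p`, `p < k`, in `B = H.β X`. Let `ρ ∈ B`. Every `u ∈ M` has a neighbour in `B` (`hub_nbr`).
At most `s - 1` of the `u ∈ M` are adjacent to `ρ` (Sparse). For the others (at least `k * N + 1`) let
`q_u` be a shortest path in `B` from `ρ` to `T = {v | G.Adj v u}` (`H.conn`, `short_path`), `d_u ≥ 1`, `d_u + 1 < k` (`PFree.short`).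
Pigeonhole: `N` of the `u` have the same `d`. `comb` with `z = ρ`, `p = d - 1`, `x i a = q_{u_i} (a + 1)`:
`Leg` by `IPath.shift` and `q a ∈ T` iff `a = d` (for `a ≤ d`); `z = q 0`. It gives `HasStar n` or `HasClq n p'` with
`p' ≤ p < k`: contradiction.
-/

namespace Pool.Agent.TIA

theorem no_haven (k s : ℕ) : ∃ t, ∀ (V : Type) [Finite V] (G : SimpleGraph V), PFree G k →
    KFree G s → IsEmpty (Haven G t) := by
  classical
  obtain ⟨ns, hns⟩ := star_centres k s
  obtain ⟨n, hn0, hn⟩ := stages k s ns k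
  obtain ⟨N, hN⟩ := comb s k n
  obtain ⟨q, hq⟩ := hns (s + k * N)
  obtain ⟨w, hw⟩ := hn (s + k * N)
  set m := s + k * N with hm
  set r := m + 2 ^ m * s + q + w with hr
  refine ⟨m + k * (r + 1) + r, fun V _ G hP hK => ⟨fun H => ?_⟩⟩
  set t := m + k * (r + 1) + r with ht
  have hrt : r ≤ t := by omega
  obtain ⟨M, hMi, hMc, hMh⟩ := exists_hubs k m r hP H (by omega)
  set X0 : Set V := (M : Set V) ∪ ZS G M s with hX0
  have hX0al : al G X0 ≤ m + 2 ^ m * s := by
    have h1 := al_union_le (G := G) (S := (M : Set V)) (T := ZS G M s) (Set.toFinite _)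
      (Set.toFinite _)
    have h2 := al_le_card (G := G) M
    have h3 := zs_al M s hMi hK
    rw [hMc] at h2 h3
    rw [← hX0] at h1
    omega
  have hX0t : al G X0 ≤ t := by omega
  have hB0 : ∀ b ∈ H.β X0, b ∉ X0 := H.disj X0 hX0t
  have hB0M : ∀ b ∈ H.β X0, b ∉ M := fun b hb h => hB0 b hb (Or.inl h)
  have hSp0 : Sparse G (H.β X0) M s := zs_sparse M s _ fun b hb h => hB0 b hb (Or.inr h)
  have hC := hq V G M (H.β X0) hP hK hMi hMc.le hB0M
  set Cs : Set V := {z | ∃ p h x, Star G (H.β X0) M ns p z h x} with hCs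
  set X1 : Set V := X0 ∪ Cs with hX1
  have hX1al : al G X1 ≤ m + 2 ^ m * s + q := by
    have h1 := al_union_le (G := G) (S := X0) (T := Cs) (Set.toFinite _) (Set.toFinite _)
    rw [← hX1] at h1
    omega
  have hX1t : al G X1 ≤ t := by omega
  have hB10 : H.β X1 ⊆ H.β X0 := H.mono X0 X1 Set.subset_union_left hX1t
  have hns1 : ¬ HasStar G (H.β X1) M ns := by
    rintro ⟨p, z, h, x, hs⟩
    exact H.disj X1 hX1t z hs.cen (Or.inr ⟨p, h, x, hs.mono hB10⟩)
  obtain ⟨X, hX1X, hXal, hXs, hXc⟩ := hw V G t H M X1 hP hK hMi hMc.le (by omega)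
    (fun v hv => Or.inl (Or.inl hv)) (hSp0.mono hB10) hns1
  have hXr : al G X ≤ r := by omega
  have hXt : al G X ≤ t := by omega
  have hBX1 : H.β X ⊆ H.β X1 := H.mono X1 X hX1X hXt
  have hSp : Sparse G (H.β X) M s := hSp0.mono (hBX1.trans hB10)
  have hBM : ∀ b ∈ H.β X, b ∉ M := fun b hb => hB0M b (hB10 (hBX1 hb))
  obtain ⟨ρ, hρ⟩ := H.ne X hXt
  have : Nonempty V := ⟨ρ⟩
  have hF : (M.filter fun u => G.Adj ρ u).card < s :=
    hSp ρ hρ _ (Finset.filter_subset _ _) fun f hf => (Finset.mem_filter.1 hf).2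
  set M' := M.filter fun u => ¬ G.Adj ρ u with hM'
  have hM'c : k * N < M'.card := by
    have := Finset.card_filter_add_card_filter_not (s := M) (fun u => G.Adj ρ u)
    rw [hMc, ← hM'] at this
    omega
  have key : ∀ u ∈ M', ∃ (d : ℕ) (p : ℕ → V), p 0 = ρ ∧ (∀ i ≤ d, p i ∈ H.β X) ∧
      G.Adj (p d) u ∧ (∀ i < d, ¬ G.Adj (p i) u) ∧ IPath G (d + 1) p ∧ 1 ≤ d ∧ d + 1 < k := by
    intro u hu
    obtain ⟨huM, hnadj⟩ := Finset.mem_filter.1 hu
    obtain ⟨z, hz, hadj⟩ := hub_nbr r H hrt u (hMh u huM) X hXr (hX1X (Or.inl (Or.inl huM)))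
    obtain ⟨d, p, h0, h1, h2, h3, h4, -⟩ := short_path (S := H.β X) (T := {v | G.Adj v u})
      (H.conn X hXt ρ hρ z hz) (show G.Adj z u from hadj.symm)
    refine ⟨d, p, h0, h1, h2, h3, h4, ?_, hP.short h4⟩
    rcases Nat.eq_zero_or_pos d with rfl | hd
    · exact absurd (show G.Adj ρ u from h0 ▸ h2) hnadj
    · exact hd
  choose! d p hp0 hpB hpd hpn hpP hd1 hdk using key
  obtain ⟨d0, hd0, hcard⟩ := Finset.exists_lt_card_fiber_of_mul_lt_card_of_maps_to
    (s := M') (t := Finset.range k) (f := d) (n := N)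
    (fun a ha => Finset.mem_range.2 (by have := hdk a ha; omega)) (by simpa using hM'c)
  set Fd := M'.filter fun x => d x = d0 with hFd
  let e := Fd.equivFin.symm
  let h : ℕ → V := fun i => if hi : i < Fd.card then (e ⟨i, hi⟩ : V) else ρ
  have hh : ∀ i < N, h i ∈ Fd := by
    intro i hi
    have : i < Fd.card := by omega
    simp only [h, this, dif_pos]
    exact (e ⟨i, this⟩).2
  have hhinj : ∀ i < N, ∀ j < N, h i = h j → i = j := by
    intro i hi j hj hij
    have h1 : i < Fd.card := by omega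
    have h2 : j < Fd.card := by omega
    simp only [h, h1, h2, dif_pos] at hij
    have := e.injective (Subtype.ext hij)
    simpa using this
  have hhM' : ∀ i < N, h i ∈ M' := fun i hi => (Finset.mem_filter.1 (hh i hi)).1
  have hhd : ∀ i < N, d (h i) = d0 := fun i hi => (Finset.mem_filter.1 (hh i hi)).2
  have hHubs : Hubs M N h := ⟨fun i hi => (Finset.mem_filter.1 (hhM' i hi)).1, hhinj⟩
  rcases Nat.eq_zero_or_pos N with hN0 | hNpos
  · -- `N = 0`: use any member
    have hx : ∃ u, u ∈ Fd := by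
      have : 0 < Fd.card := by omega
      exact Finset.card_pos.1 this
    obtain ⟨u, hu⟩ := hx
    have huM' := (Finset.mem_filter.1 hu).1
    have hdu := (Finset.mem_filter.1 hu).2
    have h1 := hd1 u huM'
    have h2 := hdk u huM'
    rcases hN V G M (H.β X) hK hSp hBM (d0 - 1) (by omega) ρ h (fun i a => p (h i) (1 + a)) hρ
      hHubs (fun i hi => absurd hi (by omega)) (fun i hi => absurd hi (by omega)) with hs | ⟨p', hp', hc, -⟩
    · exact hXs hs
    · exact hXc p' (by omega) hc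
  · have h1 := hd1 _ (hhM' 0 hNpos)
    have h2 := hdk _ (hhM' 0 hNpos)
    rw [hhd 0 hNpos] at h1 h2
    have hlegs : ∀ i < N, Leg G (H.β X) (d0 - 1) (fun a => p (h i) (1 + a)) (h i) := by
      intro i hi
      have hu := hhM' i hi
      have hdi := hhd i hi
      refine ⟨fun a ha => hpB _ hu _ (by omega), (hpP _ hu).shift (by omega), fun a ha => ?_⟩
      constructor
      · intro hadj
        by_contra hne
        exact hpn _ hu (1 + a) (by omega) hadj
      · rintro rfl
        have := hpd _ hu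
        rwa [hdi, show d0 = 1 + (d0 - 1) by omega] at this
    have hcen : ∀ i < N, ∀ a ≤ d0 - 1, ρ ≠ p (h i) (1 + a) ∧
        (G.Adj ρ (p (h i) (1 + a)) ↔ a = 0) := by
      intro i hi a ha
      have hu := hhM' i hi
      have hdi := hhd i hi
      obtain ⟨g1, g2⟩ := hpP _ hu
      have g0 := hp0 _ hu
      constructor
      · intro heq
        have := g1 0 (by omega) (1 + a) (by omega) (by rw [g0]; exact heq)
        omega
      · rw [← g0, g2 0 (by omega) (1 + a) (by omega)]
        omega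
    rcases hN V G M (H.β X) hK hSp hBM (d0 - 1) (by omega) ρ h (fun i a => p (h i) (1 + a)) hρ
      hHubs hlegs hcen with hs | ⟨p', hp', hc, -⟩
    · exact hXs hs
    · exact hXc p' (by omega) hc

theorem struct_bal (k s : ℕ) : ∃ t, ∀ (V : Type) [Finite V] (G : SimpleGraph V), PFree G k →
    KFree G s → Bal G t := by
  obtain ⟨t, ht⟩ := no_haven k s
  refine ⟨t, fun V _ G h1 h2 => ?_⟩
  by_contra hb
  exact (ht V G h1 h2).false (haven_of_not_bal hb).some

end Pool.Agent.TIA
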