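import Pool.Agent.TIA.ShortP
import Pool.Agent.TIA.AlB

/-!
# PathL: the path lemma (section A of the notes)

Invariant `PInv H U X l p` (below) at a stage: `U ⊆ X`, induced path `p 0, ..., p (l-1)` with `l ≥ 1`, last vertex
`y = p (l-1) ∉ U`, `y ∈ H.β X` or `y` has a neighbour in `H.β X`; the vertices `p i`, `i + 1 < l`, are not in `H.β X`
and have no neighbour in `H.β X`.
`path_step`: given the invariant for `X` with `al G X + (r + 1) ≤ t` and `X_y` (`y ∉ X_y`, `al X_y ≤ r`, `y ∉ H.β X_y`): let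
`X' = X ∪ X_y ∪ {y}`. `y` has no neighbour in `H.β X_y` (`H.closed` would put `y` in it), and
`H.β X' ⊆ H.β X ∩ H.β X_y` (`H.mono`). The set `S = H.β X ∪ {y}` is connected: take a shortest path (`short_path`) in `S`
from `y` to `T = H.β X'`: `y = q 0, ..., q d`; `d ≥ 2` since `y ∉ H.β X'` (`H.disj`) and `y` has no neighbour in
it; `q 1, ..., q d ∈ H.β X` (distinct from `y`). New path: append `q 1, ..., q (d-1)` (`IPath.append`), new last
vertex `q (d-1)`: adjacent to `q d ∈ H.β X'`, in `H.β X` hence not in `X ⊇ U`. Older vertices: `p i` (`i + 1 < l`) are not in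
`H.β X ⊇ H.β X'`; `y`; `q i` with `1 ≤ i`, `i + 1 < d`: not in `T` and no neighbour in `T` (last part of `short_path`;
`T ∩ S = T`).
`path_lemma`: iterate `k` times from `X = U`, `l = 1`, `p 0 ∈ H.β U`; after `j` steps `l ≥ j + 1` and
`al X ≤ m + j (r+1)`.
-/

namespace Pool.Agent.TIA

variable {V : Type} {G : SimpleGraph V} {t : ℕ}

/-- the invariant of the path lemma -/
structure PInv (H : Haven G t) (U X : Set V) (l : ℕ) (p : ℕ → V) : Prop where
  sub : U ⊆ X
  pos : 1 ≤ l
  path : IPath G l p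
  notU : p (l - 1) ∉ U
  last : p (l - 1) ∈ H.β X ∨ ∃ z ∈ H.β X, G.Adj (p (l - 1)) z
  old : ∀ i, i + 1 < l → p i ∉ H.β X ∧ ∀ z ∈ H.β X, ¬ G.Adj (p i) z

theorem path_step [Finite V] (H : Haven G t) (U X : Set V) (l r : ℕ) (p : ℕ → V)
    (hI : PInv H U X l p) (ht : al G X + (r + 1) ≤ t)
    (hy : ∃ Y : Set V, p (l - 1) ∉ Y ∧ al G Y ≤ r ∧ p (l - 1) ∉ H.β Y) :
    ∃ X' l' p', PInv H U X' l' p' ∧ l + 1 ≤ l' ∧ al G X' ≤ al G X + (r + 1) := by
  obtain ⟨Y, hyY, hYr, hyβ⟩ := hy
  obtain ⟨hsub, hpos, hpath, hnotU, hlast, hold⟩ := hI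
  set y := p (l - 1) with hydef
  set X' : Set V := X ∪ Y ∪ {y} with hX'
  have hXX' : X ⊆ X' := fun a ha => Or.inl (Or.inl ha)
  have hYX' : Y ⊆ X' := fun a ha => Or.inl (Or.inr ha)
  have hyX' : y ∈ X' := Or.inr rfl
  have hal' : al G X' ≤ al G X + (r + 1) := by
    have h1 : al G X' ≤ al G (X ∪ Y) + al G {y} :=
      al_union_le (Set.toFinite _) (Set.toFinite _)
    have h2 : al G (X ∪ Y) ≤ al G X + al G Y := al_union_le (Set.toFinite _) (Set.toFinite _)
    have h3 : al G ({y} : Set V) ≤ 1 := al_singleton_le y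
    omega
  have halt : al G X' ≤ t := le_trans hal' ht
  have hXt : al G X ≤ t := by omega
  have hYt : al G Y ≤ t := by omega
  have hβX : H.β X' ⊆ H.β X := H.mono X X' hXX' halt
  have hβY : H.β X' ⊆ H.β Y := H.mono Y X' hYX' halt
  have hynb : ∀ z ∈ H.β X', ¬ G.Adj y z := by
    intro z hz hadj
    exact hyβ (H.closed Y hYt z (hβY hz) y hyY hadj.symm)
  have hyβ' : y ∉ H.β X' := fun h => H.disj X' halt y h hyX'
  obtain ⟨b, hb⟩ := H.ne X' halt
  have hbX : b ∈ H.β X := hβX hb
  have hrch : Rch G (H.β X ∪ {y}) y b := by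
    rcases hlast with h | ⟨z, hz, hadj⟩
    · exact (H.conn X hXt y h b hbX).mono Set.subset_union_left
    · have h1 : Rch G (H.β X ∪ {y}) y z := Rch.adj (Or.inr rfl) (Or.inl hz) hadj
      exact h1.trans ((H.conn X hXt z hz b hbX).mono Set.subset_union_left)
  obtain ⟨d, q, hq0, hqS, hqT, hqnT, hqP, hqn⟩ := short_path hrch hb
  have hd0 : d ≠ 0 := by
    rintro rfl
    rw [hq0] at hqT
    exact hyβ' hqT
  have hd1 : d ≠ 1 := by
    rintro rfl
    have h1 : G.Adj (q 0) (q 1) := (hqP.2 0 (by omega) 1 (by omega)).2 (Or.inr rfl)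
    rw [hq0] at h1
    exact hynb _ hqT h1
  have hd : 2 ≤ d := by omega
  have hqβ : ∀ j, 1 ≤ j → j ≤ d → q j ∈ H.β X := by
    intro j hj hjd
    rcases hqS j hjd with h | h
    · exact h
    · exfalso
      have h2 : q j = q 0 := by rw [hq0]; exact h
      have := hqP.1 j (by omega) 0 (by omega) h2
      omega
  have happ : IPath G (l + (d - 1)) (fun i => if i < l then p i else q (i - (l - 1))) := by
    apply IPath.append hpos hpath (hqP.sub (by omega)) hq0
    intro i hi j hj hjd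
    have h1 := hold i hi
    have h2 : q j ∈ H.β X := hqβ j hj (by omega)
    refine ⟨?_, h1.2 _ h2⟩
    intro h3
    exact h1.1 (h3 ▸ h2)
  refine ⟨X', l + (d - 1), _, ⟨fun a ha => hXX' (hsub ha), by omega, happ, ?_, ?_, ?_⟩, by omega,
    hal'⟩
  · have h1 : ¬ (l + (d - 1) - 1 < l) := by omega
    have h2 : l + (d - 1) - 1 - (l - 1) = d - 1 := by omega
    simp only [h1, if_false, h2]
    intro h3
    exact H.disj X hXt _ (hqβ (d - 1) (by omega) (by omega)) (hsub h3)
  · have h1 : ¬ (l + (d - 1) - 1 < l) := by omega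
    have h2 : l + (d - 1) - 1 - (l - 1) = d - 1 := by omega
    simp only [h1, if_false, h2]
    refine Or.inr ⟨q d, hqT, ?_⟩
    exact (hqP.2 (d - 1) (by omega) d (by omega)).2 (Or.inr (by omega))
  · intro i hi
    by_cases hil : i < l
    · simp only [hil, if_true]
      by_cases hil' : i + 1 < l
      · exact ⟨fun h => (hold i hil').1 (hβX h), fun z hz => (hold i hil').2 z (hβX hz)⟩
      · have hi' : i = l - 1 := by omega
        rw [hi', ← hydef]
        exact ⟨hyβ', hynb⟩
    · simp only [hil, if_false]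
      have h1 : i - (l - 1) + 1 < d := by omega
      refine ⟨hqnT _ (by omega), fun z hz => ?_⟩
      exact hqn _ h1 z ⟨hz, Or.inl (hβX hz)⟩

theorem path_lemma [Finite V] (k m r : ℕ) (ht : m + k * (r + 1) ≤ t) (H : Haven G t) (U : Set V)
    (hU : al G U ≤ m) (hX : ∀ x ∉ U, ∃ Y : Set V, x ∉ Y ∧ al G Y ≤ r ∧ x ∉ H.β Y) :
    ∃ q, IPath G k q := by
  have key : ∀ j, j ≤ k → ∃ X l p, PInv H U X l p ∧ j + 1 ≤ l ∧ al G X ≤ m + j * (r + 1) := by
    intro j
    induction j with
    | zero =>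
      intro _
      have hUt : al G U ≤ t := by
        have : m ≤ m + k * (r + 1) := Nat.le_add_right _ _
        omega
      obtain ⟨a, ha⟩ := H.ne U hUt
      refine ⟨U, 1, fun _ => a, ⟨fun _ h => h, le_refl _, ⟨?_, ?_⟩, H.disj U hUt a ha, Or.inl ha, ?_⟩,
        le_refl _, by omega⟩
      · intro i hi j hj _
        omega
      · intro i hi j hj
        constructor
        · intro h
          exact absurd h (G.loopless.irrefl a)
        · intro h
          omega
      · intro i hi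
        omega
    | succ j ih =>
      intro hj
      obtain ⟨X, l, p, hP, hl, hal⟩ := ih (by omega)
      have h1 : (j + 1) * (r + 1) ≤ k * (r + 1) := Nat.mul_le_mul_right _ hj
      have h2 : (j + 1) * (r + 1) = j * (r + 1) + (r + 1) := by ring
      obtain ⟨X', l', p', hP', hl', hal'⟩ := path_step H U X l r p hP (by omega)
        (hX _ hP.notU)
      exact ⟨X', l', p', hP', by omega, by omega⟩
  obtain ⟨X, l, p, hP, hl, _⟩ := key k (le_refl _)
  exact ⟨p, hP.path.sub (by omega)⟩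

end Pool.Agent.TIA
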