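import Pool.Agent.TIA.AlgD
import Pool.Agent.PolyTime.Tags
import Pool.Agent.PolyTime.More

/-!
# PolA: polynomial-time closure for the basic list functions

(`FP.Poly` is closed under map, filter, flatMap, any, all, ...: `fun_prop`.)
-/

namespace Pool.Agent.TIA

open FP

variable {α : Type} [Code α]

@[fun_prop]
theorem poly_adjB {f : α → List (ℕ × ℕ)} {g h : α → ℕ} (hf : Poly f) (hg : Poly g)
    (hh : Poly h) : Poly (fun a => adjB (f a) (g a) (h a)) := by
  unfold adjB
  fun_prop

@[fun_prop]
theorem poly_tup (c : ℕ) {f : α → List ℕ} (hf : Poly f) : Poly (fun a => tup (f a) c) := by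
  induction c with
  | zero => exact FP.Poly.const _
  | succ c ih =>
    simp only [tup]
    refine FP.Poly.flatMap (g := fun a v => (tup (f a) c).map fun l => v :: l) hf ?_
    refine FP.Poly.map (g := fun (p : α × ℕ) l => p.2 :: l) (ih.comp FP.Poly.fst') ?_
    fun_prop

@[fun_prop]
theorem poly_subs (c : ℕ) {f : α → List ℕ} (hf : Poly f) : Poly (fun a => subs (f a) c) := by
  unfold subs
  fun_prop

@[fun_prop]
theorem poly_indB {f : α → List (ℕ × ℕ)} {g : α → List ℕ} (hf : Poly f) (hg : Poly g) :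
    Poly (fun a => indB (f a) (g a)) := by
  unfold indB
  fun_prop

@[fun_prop]
theorem poly_dindB (c : ℕ) {f : α → List (ℕ × ℕ)} {g h : α → List ℕ} (hf : Poly f)
    (hg : Poly g) (hh : Poly h) : Poly (fun a => dindB (f a) (g a) c (h a)) := by
  unfold dindB
  fun_prop

@[fun_prop]
theorem poly_alB (c : ℕ) {f : α → List (ℕ × ℕ)} {g : α → List ℕ} (hf : Poly f)
    (hg : Poly g) : Poly (fun a => alB (f a) (g a) c) := by
  unfold alB
  fun_prop

@[fun_prop]
theorem poly_rest {f g : α → List ℕ} (hf : Poly f) (hg : Poly g) :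
    Poly (fun a => rest (f a) (g a)) := by
  unfold rest
  fun_prop

@[fun_prop]
theorem poly_grow {e : α → List (ℕ × ℕ)} {f g : α → List ℕ} (he : Poly e) (hf : Poly f)
    (hg : Poly g) : Poly (fun a => grow (e a) (f a) (g a)) := by
  unfold grow
  fun_prop

@[fun_prop]
theorem poly_inds (q : ℕ) {e : α → List (ℕ × ℕ)} {f : α → List ℕ} (he : Poly e)
    (hf : Poly f) : Poly (fun a => inds (e a) (f a) q) := by
  unfold inds
  fun_prop

@[fun_prop]
theorem poly_side {e : α → List (ℕ × ℕ)} {f g h : α → List ℕ} (he : Poly e) (hf : Poly f)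
    (hg : Poly g) (hh : Poly h) : Poly (fun a => side (e a) (f a) (g a) (h a)) := by
  unfold side nbB
  fun_prop

@[fun_prop]
theorem poly_walkB {e : α → List (ℕ × ℕ)} {f : α → List ℕ} (he : Poly e) (hf : Poly f) :
    Poly (fun a => walkB (e a) (f a)) := by
  unfold walkB
  fun_prop

@[fun_prop]
theorem poly_fam (k : ℕ) {e : α → List (ℕ × ℕ)} {f g h : α → List ℕ} (he : Poly e)
    (hf : Poly f) (hg : Poly g) (hh : Poly h) :
    Poly (fun a => fam (e a) (f a) (g a) (h a) k) := by
  unfold fam
  fun_prop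

end Pool.Agent.TIA
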