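import Pool.Agent.TIA.PolA

/-!
# PolB: polynomial-time closure for `compB`, `cap`, `cup` and the local ratio algorithm
-/

namespace Pool.Agent.TIA

open FP

variable {α : Type} [Code α]

@[fun_prop]
theorem poly_cap {n : α → ℕ} {f g : α → List ℕ} (hn : Poly n) (hb : PolyBdd n) (hf : Poly f)
    (hg : Poly g) : Poly (fun a => cap (n a) (f a) (g a)) := by
  unfold cap
  refine FP.Poly.filter (FP.Poly.range hn hb) ?_
  fun_prop

@[fun_prop]
theorem poly_cup {n : α → ℕ} {f g : α → List ℕ} (hn : Poly n) (hb : PolyBdd n) (hf : Poly f)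
    (hg : Poly g) : Poly (fun a => cup (n a) (f a) (g a)) := by
  unfold cup
  refine FP.Poly.filter (FP.Poly.range hn hb) ?_
  fun_prop

theorem size_filter_le {β : Type} [Code β] (p : β → Bool) (l : List β) :
    size (l.filter p) ≤ size l := by
  induction l with
  | nil => simp
  | cons b l ih =>
    rw [List.filter_cons]
    split
    · rw [size_cons, size_cons]; omega
    · rw [size_cons]; omega

@[fun_prop]
theorem poly_compB {e : α → List (ℕ × ℕ)} {f : α → List ℕ} {v : α → ℕ} (he : Poly e)
    (hf : Poly f) (hv : Poly v) : Poly (fun a => compB (e a) (f a) (v a)) := by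
  unfold compB
  obtain ⟨P, hP⟩ := hf.size_le
  refine FP.Poly.iterate (h := fun a s => grow (e a) (f a) s) (B := P) (by fun_prop)
    (PolyBdd.length hf) (by fun_prop) ?_ ?_
  · have h1 := he.comp (FP.Poly.fst' (α := α) (β := List ℕ))
    have h2 := hf.comp (FP.Poly.fst' (α := α) (β := List ℕ))
    fun_prop
  · intro a k _
    cases k with
    | zero => exact (size_filter_le _ _).trans (hP a)
    | succ k =>
      rw [Function.iterate_succ_apply']
      exact (size_filter_le _ _).trans (hP a)

theorem size_min_le (a b : ℕ) : size (min a b) ≤ size a := FP.size_mono (min_le_left _ _)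

@[fun_prop]
theorem poly_minL {f : α → List ℕ} (hf : Poly f) : Poly (fun a => minL (f a)) := by
  unfold minL
  refine FP.Poly.foldl_add (h := fun _ s b => min s b) hf (by fun_prop) (by fun_prop) 0 ?_
  intro a s b _
  simpa using size_min_le s b

@[fun_prop]
theorem poly_lower {n : α → ℕ} {c P : α → List ℕ} (hn : Poly n) (hb : PolyBdd n)
    (hc : Poly c) (hP : Poly P) : Poly (fun a => lower (n a) (c a) (P a)) := by
  unfold lower
  refine FP.Poly.map (FP.Poly.range hn hb) ?_
  fun_prop

theorem lower_getD (n : ℕ) (c P : List ℕ) (v : ℕ) : (lower n c P).getD v 0 ≤ c.getD v 0 := by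
  unfold lower
  by_cases hv : v < n
  · rw [List.getD_eq_getElem _ _ (by simpa using hv)]
    simp only [List.getElem_map, List.getElem_range]
    split
    · exact Nat.sub_le _ _
    · exact le_rfl
  · rw [List.getD_eq_default _ _ (by simpa using hv)]
    exact Nat.zero_le _

theorem size_map_range_le {n M : ℕ} {f : ℕ → ℕ} (h : ∀ v, size (f v) ≤ M) :
    size ((List.range n).map f) ≤ n * (2 * M + 1) := by
  induction n with
  | zero => simp [size_nil]
  | succ n ih =>
    rw [List.range_succ, List.map_append, size_append, List.map_cons, List.map_nil, size_cons,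
      size_nil]
    have := h n
    nlinarith

theorem size_getD_le (c : List ℕ) (v : ℕ) : size (c.getD v 0) ≤ size c := by
  by_cases hv : v < c.length
  · rw [List.getD_eq_getElem _ _ hv]
    have := size_le_of_mem (List.getElem_mem hv)
    omega
  · rw [List.getD_eq_default _ _ (by omega)]
    have : size (0 : ℕ) = 0 := by rw [size_nat]; simp
    omega

theorem lrat_getD (n : ℕ) (F : List (List ℕ)) (v : ℕ) : ∀ c : List ℕ,
    (F.foldl (lower n) c).getD v 0 ≤ c.getD v 0 := by
  induction F with
  | nil => intro c; exact le_rfl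
  | cons P F ih => intro c; exact (ih _).trans (lower_getD n c P v)

theorem size_lrat (n : ℕ) (F : List (List ℕ)) (c : List ℕ) :
    size (F.foldl (lower n) c) ≤ size c + n * (2 * size c + 1) := by
  induction F using List.reverseRecOn with
  | nil => simp
  | append_singleton F P ih =>
    rw [List.foldl_append, List.foldl_cons, List.foldl_nil]
    have h1 : ∀ v, size ((lower n (F.foldl (lower n) c) P).getD v 0) ≤ size c := fun v =>
      (FP.size_mono ((lower_getD _ _ _ _).trans (lrat_getD n F v c))).trans (size_getD_le c v)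
    have h2 : lower n (F.foldl (lower n) c) P =
        (List.range n).map fun v => (lower n (F.foldl (lower n) c) P).getD v 0 := by
      apply List.ext_getElem
      · simp [lower]
      · intro i hi hi'
        rw [List.getElem_map, List.getElem_range, List.getD_eq_getElem _ _ hi]
    rw [h2]
    refine (size_map_range_le h1).trans ?_
    omega

@[fun_prop]
theorem poly_lrat {n : α → ℕ} {c : α → List ℕ} {F : α → List (List ℕ)} (hn : Poly n)
    (hb : PolyBdd n) (hc : Poly c) (hF : Poly F) : Poly (fun a => lrat (n a) (c a) (F a)) := by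
  unfold lrat
  obtain ⟨C, hC⟩ := hc.size_le
  obtain ⟨N, hN⟩ := hb
  refine FP.Poly.foldl (h := fun a s P => lower (n a) s P) hF hc ?_ (C + N * (2 * C + 1)) ?_
  · have hb' : PolyBdd n := ⟨N, hN⟩
    have h1 : Poly (fun p : α × List ℕ × List ℕ => n p.1) := hn.comp FP.Poly.fst'
    have h2 : PolyBdd (fun p : α × List ℕ × List ℕ => n p.1) := PolyBdd.fst hb'
    fun_prop
  · intro a k _
    refine (size_lrat _ _ _).trans ?_
    have h1 := hC a
    have h2 := hN a
    simp only [Polynomial.eval_add, Polynomial.eval_mul, Polynomial.eval_ofNat,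
      Polynomial.eval_one]
    have h3 : n a * (2 * size (c a) + 1) ≤ N.eval (size a) * (2 * C.eval (size a) + 1) :=
      Nat.mul_le_mul h2 (by omega)
    omega

@[fun_prop]
theorem poly_hitSet {n : α → ℕ} {S c : α → List ℕ} {F : α → List (List ℕ)} (hn : Poly n)
    (hb : PolyBdd n) (hS : Poly S) (hc : Poly c) (hF : Poly F) :
    Poly (fun a => hitSet (n a) (S a) (c a) (F a)) := by
  unfold hitSet
  have h := poly_lrat hn hb hc hF
  refine FP.Poly.filter hS ?_
  have h1 : Poly (fun p : α × ℕ => lrat (n p.1) (c p.1) (F p.1)) := h.comp FP.Poly.fst'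
  fun_prop

end Pool.Agent.TIA
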