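import Pool.Agent.TIA.PolB

/-!
# PolC: polynomial-time closure for the multiplicative weights algorithm and the separators
-/

namespace Pool.Agent.TIA

open FP

variable {α : Type} [Code α]

@[fun_prop]
theorem poly_cnt {X : α → List (List ℕ)} {v : α → ℕ} (hX : Poly X) (hv : Poly v) :
    Poly (fun a => cnt (X a) (v a)) := by
  unfold cnt
  fun_prop

theorem sum_map_cnt_le (X : List (List ℕ)) (I : List ℕ) :
    (I.map (cnt X)).sum ≤ I.length * X.length := by
  induction I with
  | nil => simp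
  | cons v I ih =>
    rw [List.map_cons, List.sum_cons, List.length_cons]
    have : cnt X v ≤ X.length := List.countP_le_length
    nlinarith

@[fun_prop]
theorem poly_wt (q : ℕ) {R : α → ℕ} {X : α → List (List ℕ)} {I : α → List ℕ} (hR : Poly R)
    (hb : PolyBdd R) (hX : Poly X) (hI : Poly I) : Poly (fun a => wt q (R a) (X a) (I a)) := by
  unfold wt
  have h1 : Poly (fun a => ((I a).map (cnt (X a))).sum) :=
    FP.Poly.sum (FP.Poly.map (g := fun a v => cnt (X a) v) hI (by fun_prop))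
  have h2 : PolyBdd (fun a => ((I a).map (cnt (X a))).sum) :=
    PolyBdd.mono (g := fun a => (I a).length * (X a).length)
      (PolyBdd.mul (PolyBdd.length hI) (PolyBdd.length hX)) (fun a => sum_map_cnt_le _ _)
  refine FP.Poly.mul (FP.Poly.pow (FP.Poly.const _) h1 h2) (FP.Poly.pow (FP.Poly.const _) ?_ ?_)
  · fun_prop
  · exact PolyBdd.mono (g := fun a => q * R a) (PolyBdd.mul (PolyBdd.const q) hb)
      (fun a => Nat.sub_le _ _)

@[fun_prop]
theorem poly_cost (q : ℕ) {R v : α → ℕ} {Is X : α → List (List ℕ)} (hR : Poly R)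
    (hb : PolyBdd R) (hIs : Poly Is) (hX : Poly X) (hv : Poly v) :
    Poly (fun a => cost q (R a) (Is a) (X a) (v a)) := by
  unfold cost
  refine FP.Poly.sum (FP.Poly.map (g := fun a I => wt q (R a) (X a) I) (by fun_prop) ?_)
  have h1 : PolyBdd (fun p : α × List ℕ => R p.1) := PolyBdd.fst hb
  fun_prop

theorem polyBdd_rounds (q : ℕ) {n : α → ℕ} (hb : PolyBdd n) :
    PolyBdd (fun a => rounds (n a) q) := by
  unfold rounds
  exact PolyBdd.mul (PolyBdd.const _) (PolyBdd.add hb (PolyBdd.const 1))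

@[fun_prop]
theorem poly_rounds (q : ℕ) {n : α → ℕ} (hn : Poly n) : Poly (fun a => rounds (n a) q) := by
  unfold rounds
  fun_prop

theorem size_mwRun (n q R : ℕ) (S : List ℕ) (Is F : List (List ℕ)) (k : ℕ) :
    size ((mwStep n q R S Is F)^[k] []) ≤ k * (2 * size S + 1) := by
  induction k with
  | zero => simp [size_nil]
  | succ k ih =>
    rw [Function.iterate_succ_apply']
    generalize (mwStep n q R S Is F)^[k] [] = Z at ih ⊢
    unfold mwStep
    rw [size_cons]
    have : size (hitSet n S ((List.range n).map (cost q R Is Z)) F) ≤ size S :=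
      size_filter_le _ _
    nlinarith

@[fun_prop]
theorem poly_mwRun (q : ℕ) {n : α → ℕ} {e : α → List (ℕ × ℕ)} {S : α → List ℕ}
    {F : α → List (List ℕ)} (he : Poly e) (hn : Poly n) (hb : PolyBdd n) (hS : Poly S)
    (hF : Poly F) : Poly (fun a => mwRun (e a) (n a) q (S a) (F a)) := by
  unfold mwRun
  obtain ⟨P, hP⟩ := hS.size_le
  obtain ⟨N, hN⟩ := polyBdd_rounds q hb
  refine FP.Poly.iterate
    (h := fun a s => mwStep (n a) q (rounds (n a) q) (S a) (inds (e a) (S a) q) (F a) s)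
    (poly_rounds q hn) (polyBdd_rounds q hb) (FP.Poly.const _) ?_ (N * (2 * P + 1)) ?_
  · unfold mwStep
    have hi : Poly (fun a => inds (e a) (S a) q) := by fun_prop
    have h0 : Poly (fun p : α × List (List ℕ) => (List.range (n p.1)).map
        (cost q (rounds (n p.1) q) (inds (e p.1) (S p.1) q) p.2)) := by
      refine FP.Poly.map (g := fun (p : α × List (List ℕ)) v =>
        cost q (rounds (n p.1) q) (inds (e p.1) (S p.1) q) p.2 v)
        (FP.Poly.range (hn.comp FP.Poly.fst') (PolyBdd.fst hb)) ?_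
      refine poly_cost q ?_ ?_ ?_ ?_ ?_
      · exact (poly_rounds q hn).comp (FP.Poly.fst'.comp FP.Poly.fst')
      · exact PolyBdd.fst (PolyBdd.fst (polyBdd_rounds q hb))
      · exact hi.comp (FP.Poly.fst'.comp FP.Poly.fst')
      · fun_prop
      · fun_prop
    refine FP.Poly.cons (poly_hitSet (hn.comp FP.Poly.fst') (PolyBdd.fst hb)
      (hS.comp FP.Poly.fst') h0 (hF.comp FP.Poly.fst')) FP.Poly.snd'
  · intro a k hk
    refine (size_mwRun _ _ _ _ _ _ _).trans ?_
    simp only [Polynomial.eval_add, Polynomial.eval_mul, Polynomial.eval_ofNat,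
      Polynomial.eval_one]
    have h1 := hN a
    have h2 := hP a
    exact Nat.mul_le_mul (hk.trans h1) (by omega)

@[fun_prop]
theorem poly_mwHit (K q : ℕ) {n : α → ℕ} {e : α → List (ℕ × ℕ)} {S : α → List ℕ}
    {F : α → List (List ℕ)} (he : Poly e) (hn : Poly n) (hb : PolyBdd n) (hS : Poly S)
    (hF : Poly F) : Poly (fun a => mwHit (e a) (n a) K q (S a) (F a)) := by
  unfold mwHit
  have h := poly_mwRun q he hn hb hS hF
  refine FP.Poly.filter hS ?_
  have h1 : Poly (fun p : α × ℕ => mwRun (e p.1) (n p.1) q (S p.1) (F p.1)) :=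
    h.comp FP.Poly.fst'
  have h2 : Poly (fun p : α × ℕ => rounds (n p.1) q) := (poly_rounds q hn).comp FP.Poly.fst'
  fun_prop

@[fun_prop]
theorem poly_cands (k t : ℕ) {n : α → ℕ} {e : α → List (ℕ × ℕ)} {S W : α → List ℕ}
    (he : Poly e) (hn : Poly n) (hb : PolyBdd n) (hS : Poly S) (hW : Poly W) :
    Poly (fun a => cands k t (n a) (e a) (S a) (W a)) := by
  unfold cands
  refine FP.Poly.flatMap (by fun_prop) ?_
  refine FP.Poly.map (g := fun (p : α × List ℕ) J' => mwHit (e p.1) (n p.1) k (qq k t) (S p.1)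
    (fam (e p.1) (S p.1) (side (e p.1) (W p.1) p.2 J') (side (e p.1) (W p.1) J' p.2) k)) ?_ ?_
  · exact (poly_subs (wm k t + 1) hW).comp FP.Poly.fst'
  · have e' : Poly (fun p : (α × List ℕ) × List ℕ => e p.1.1) :=
      he.comp (FP.Poly.fst'.comp FP.Poly.fst')
    have n' : Poly (fun p : (α × List ℕ) × List ℕ => n p.1.1) :=
      hn.comp (FP.Poly.fst'.comp FP.Poly.fst')
    have S' : Poly (fun p : (α × List ℕ) × List ℕ => S p.1.1) :=
      hS.comp (FP.Poly.fst'.comp FP.Poly.fst')
    have W' : Poly (fun p : (α × List ℕ) × List ℕ => W p.1.1) :=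
      hW.comp (FP.Poly.fst'.comp FP.Poly.fst')
    refine poly_mwHit k (qq k t) e' n' (PolyBdd.fst (PolyBdd.fst hb)) S' ?_
    refine poly_fam k e' S' ?_ ?_
    · exact poly_side e' W' (by fun_prop) (by fun_prop)
    · exact poly_side e' W' (by fun_prop) (by fun_prop)

@[fun_prop]
theorem poly_okB (k t : ℕ) {e : α → List (ℕ × ℕ)} {S W X : α → List ℕ}
    (he : Poly e) (hS : Poly S) (hW : Poly W) (hX : Poly X) :
    Poly (fun a => okB k t (e a) (S a) (W a) (X a)) := by
  unfold okB
  refine FP.Poly.and (by fun_prop) ?_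
  refine FP.Poly.all (by fun_prop) ?_
  refine poly_alB _ (he.comp FP.Poly.fst') ?_
  refine FP.Poly.filter (hW.comp FP.Poly.fst') ?_
  have e' : Poly (fun p : (α × ℕ) × ℕ => e p.1.1) :=
    he.comp (FP.Poly.fst'.comp FP.Poly.fst')
  have S' : Poly (fun p : (α × ℕ) × ℕ => S p.1.1) :=
    hS.comp (FP.Poly.fst'.comp FP.Poly.fst')
  have X' : Poly (fun p : (α × ℕ) × ℕ => X p.1.1) :=
    hX.comp (FP.Poly.fst'.comp FP.Poly.fst')
  fun_prop

@[fun_prop]
theorem poly_sepB (k t : ℕ) {n : α → ℕ} {e : α → List (ℕ × ℕ)} {S W : α → List ℕ}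
    (he : Poly e) (hn : Poly n) (hb : PolyBdd n) (hS : Poly S) (hW : Poly W) :
    Poly (fun a => sepB k t (n a) (e a) (S a) (W a)) := by
  unfold sepB
  refine FP.Poly.headD (FP.Poly.filter (g := fun a X => okB k t (e a) (S a) (W a) X)
    (poly_cands k t he hn hb hS hW) ?_) (FP.Poly.const _)
  exact poly_okB k t (he.comp FP.Poly.fst') (hS.comp FP.Poly.fst') (hW.comp FP.Poly.fst')
    FP.Poly.snd'

end Pool.Agent.TIA
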