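import Pool.Agent.TIA.PolC

/-!
# PolD: polynomial-time closure for the recursion tree and the dynamic programming
-/

namespace Pool.Agent.TIA

open FP

variable {α : Type} [Code α]

@[fun_prop]
theorem poly_wplus {n : α → ℕ} {nd : α → Nd} (hn : Poly n) (hb : PolyBdd n) (hnd : Poly nd) :
    Poly (fun a => wplus (n a) (nd a)) := by
  unfold wplus
  refine poly_cup hn hb ?_ ?_
  · fun_prop
  · fun_prop

@[fun_prop]
theorem poly_sepN (k t : ℕ) {n : α → ℕ} {e : α → List (ℕ × ℕ)} {nd : α → Nd} (he : Poly e)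
    (hn : Poly n) (hb : PolyBdd n) (hnd : Poly nd) :
    Poly (fun a => sepN k t (n a) (e a) (nd a)) := by
  unfold sepN
  exact poly_sepB k t he hn hb (by fun_prop) (poly_wplus hn hb hnd)

@[fun_prop]
theorem poly_bag (k t : ℕ) {n : α → ℕ} {e : α → List (ℕ × ℕ)} {nd : α → Nd} (he : Poly e)
    (hn : Poly n) (hb : PolyBdd n) (hnd : Poly nd) :
    Poly (fun a => bag k t (n a) (e a) (nd a)) := by
  unfold bag
  exact poly_cup hn hb (poly_wplus hn hb hnd) (poly_sepN k t he hn hb hnd)

theorem poly_child (k t : ℕ) {n v : α → ℕ} {e : α → List (ℕ × ℕ)} {nd : α → Nd} (he : Poly e)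
    (hn : Poly n) (hb : PolyBdd n) (hnd : Poly nd) (hv : Poly v) :
    Poly (fun a => child k t (n a) (e a) (nd a) (v a)) := by
  unfold child
  have h1 := poly_sepN k t he hn hb hnd
  have h2 := poly_wplus hn hb hnd
  have h3 : Poly (fun a => compB (e a) (rest (nd a).1 (sepN k t (n a) (e a) (nd a))) (v a)) :=
    poly_compB he (poly_rest (by fun_prop) h1) hv
  exact FP.Poly.pair (poly_cup hn hb h3 h1) (poly_cup hn hb (poly_cap hn hb h3 h2) h1)

theorem poly_reps (k t : ℕ) {n : α → ℕ} {e : α → List (ℕ × ℕ)} {nd : α → Nd} (he : Poly e)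
    (hn : Poly n) (hb : PolyBdd n) (hnd : Poly nd) :
    Poly (fun a => reps k t (n a) (e a) (nd a)) := by
  unfold reps
  have h1 := poly_sepN k t he hn hb hnd
  have h2 := poly_wplus hn hb hnd
  have h4 : Poly (fun a => rest (nd a).1 (sepN k t (n a) (e a) (nd a))) :=
    poly_rest (by fun_prop) h1
  have h3 : Poly (fun p : α × ℕ => compB (e p.1)
      (rest (nd p.1).1 (sepN k t (n p.1) (e p.1) (nd p.1))) p.2) :=
    poly_compB (he.comp FP.Poly.fst') (h4.comp FP.Poly.fst') FP.Poly.snd'
  have h5 : Poly (fun p : (α × ℕ) × ℕ => wplus (n p.1.1) (nd p.1.1)) :=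
    h2.comp (FP.Poly.fst'.comp FP.Poly.fst')
  refine FP.Poly.filter h4 (FP.Poly.and (FP.Poly.all h3 ?_) (FP.Poly.not (FP.Poly.all h3 ?_)))
  · fun_prop
  · fun_prop

@[fun_prop]
theorem poly_children (k t : ℕ) {n : α → ℕ} {e : α → List (ℕ × ℕ)} {nd : α → Nd} (he : Poly e)
    (hn : Poly n) (hb : PolyBdd n) (hnd : Poly nd) :
    Poly (fun a => children k t (n a) (e a) (nd a)) := by
  unfold children
  exact FP.Poly.map (g := fun a v => child k t (n a) (e a) (nd a) v)
    (poly_reps k t he hn hb hnd) (poly_child k t (he.comp FP.Poly.fst') (hn.comp FP.Poly.fst')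
    (PolyBdd.fst hb) (hnd.comp FP.Poly.fst') FP.Poly.snd')

/-- nodes whose components are filters of `List.range n` -/
def NdR (n : ℕ) (nd : Nd) : Prop := size nd.1 ≤ size (List.range n) ∧ size nd.2 ≤ size (List.range n)

theorem ndR_root (n : ℕ) : NdR n (root n) := ⟨le_rfl, by simp [root, size_nil]⟩

theorem ndR_child (k t n : ℕ) (e : List (ℕ × ℕ)) (nd : Nd) :
    ∀ ch ∈ children k t n e nd, NdR n ch := by
  intro ch hch
  obtain ⟨v, _, rfl⟩ := List.mem_map.1 hch
  exact ⟨size_filter_le _ _, size_filter_le _ _⟩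

theorem size_nd {n : ℕ} {nd : Nd} (h : NdR n nd) : size nd ≤ 3 * size (List.range n) + 1 := by
  have : size nd = size (nd.1, nd.2) := rfl
  rw [this, size_pair]
  have h1 := h.1
  have h2 := h.2
  omega

theorem size_list_le {β : Type} [Code β] {l : List β} {M : ℕ} (h : ∀ b ∈ l, size b ≤ M) :
    size l ≤ l.length * (2 * M + 1) := by
  induction l with
  | nil => simp [size_nil]
  | cons b l ih =>
    rw [size_cons, List.length_cons]
    have h1 := h b List.mem_cons_self
    have h2 := ih (fun c hc => h c (List.mem_cons_of_mem _ hc))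
    nlinarith

/-- the invariant of the level computation -/
def AccR (n k : ℕ) (acc : List (List Nd)) : Prop :=
  acc.length = k + 1 ∧ ∀ L ∈ acc, L.length ≤ n + 1 ∧ ∀ nd ∈ L, NdR n nd

theorem accR_levs (k t n : ℕ) (e : List (ℕ × ℕ)) (j : ℕ) :
    AccR n j ((fun acc => nextL k t n e (acc.headD []) :: acc)^[j] [[root n]]) := by
  induction j with
  | zero =>
    refine ⟨rfl, fun L hL => ?_⟩
    rw [Function.iterate_zero, id, List.mem_singleton] at hL
    subst hL
    exact ⟨by simp, fun nd hnd => by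
      rw [List.mem_singleton] at hnd
      rw [hnd]; exact ndR_root n⟩
  | succ j ih =>
    rw [Function.iterate_succ_apply']
    generalize (fun acc => nextL k t n e (acc.headD []) :: acc)^[j] [[root n]] = acc at ih ⊢
    refine ⟨by rw [List.length_cons, ih.1], fun L hL => ?_⟩
    rcases List.mem_cons.1 hL with rfl | hL
    · refine ⟨?_, fun nd hnd => ?_⟩
      · unfold nextL
        rw [List.length_take]
        omega
      · unfold nextL at hnd
        obtain ⟨nd0, _, h0⟩ := List.mem_flatMap.1 (List.mem_of_mem_take hnd)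
        exact ndR_child k t n e nd0 nd h0
    · exact ih.2 L hL

@[fun_prop]
theorem poly_nextL (k t : ℕ) {n : α → ℕ} {e : α → List (ℕ × ℕ)} {L : α → List Nd} (he : Poly e)
    (hn : Poly n) (hb : PolyBdd n) (hL : Poly L) :
    Poly (fun a => nextL k t (n a) (e a) (L a)) := by
  unfold nextL
  refine FP.Poly.take hn (FP.Poly.flatMap (g := fun a nd => children k t (n a) (e a) nd) hL ?_)
  exact poly_children k t (he.comp FP.Poly.fst') (hn.comp FP.Poly.fst') (PolyBdd.fst hb)
    FP.Poly.snd'

@[fun_prop]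
theorem poly_levs (k t : ℕ) {n : α → ℕ} {e : α → List (ℕ × ℕ)} (he : Poly e) (hn : Poly n)
    (hb : PolyBdd n) : Poly (fun a => levs k t (n a) (e a)) := by
  unfold levs
  have hr : Poly (fun a => List.range (n a)) := FP.Poly.range hn hb
  obtain ⟨N, hN⟩ := hb
  have hb : PolyBdd n := ⟨N, hN⟩
  obtain ⟨P, hP⟩ := hr.size_le
  refine FP.Poly.iterate (h := fun a s => nextL k t (n a) (e a) (s.headD []) :: s)
    hn hb ?_ ?_ ((N + 1) * (2 * ((N + 1) * (2 * (3 * P + 1) + 1)) + 1)) ?_
  · unfold root
    fun_prop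
  · refine FP.Poly.cons (poly_nextL k t (he.comp FP.Poly.fst') (hn.comp FP.Poly.fst')
      (PolyBdd.fst hb) ?_) FP.Poly.snd'
    fun_prop
  · intro a j hj
    obtain ⟨h1, h2⟩ := accR_levs k t (n a) (e a) j
    have hNa := hN a
    have hPa := hP a
    have h3 : ∀ L ∈ (fun acc => nextL k t (n a) (e a) (acc.headD []) :: acc)^[j] [[root (n a)]],
        size L ≤ (N.eval (size a) + 1) * (2 * (3 * P.eval (size a) + 1) + 1) := by
      intro L hL
      obtain ⟨h4, h5⟩ := h2 L hL
      refine (size_list_le (M := 3 * P.eval (size a) + 1) (fun nd hnd => ?_)).trans ?_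
      · refine (size_nd (h5 nd hnd)).trans ?_
        omega
      · exact Nat.mul_le_mul_right _ (by omega)
    refine (size_list_le h3).trans ?_
    rw [h1]
    simp only [Polynomial.eval_add, Polynomial.eval_mul, Polynomial.eval_ofNat,
      Polynomial.eval_one]
    exact Nat.mul_le_mul_right _ (by omega)

@[fun_prop]
theorem poly_look {T : α → List (Nd × Tab)} {nd : α → Nd} {J : α → List ℕ} (hT : Poly T)
    (hnd : Poly nd) (hJ : Poly J) : Poly (fun a => look (T a) (nd a) (J a)) := by
  unfold look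
  refine FP.Poly.flatMap hT (FP.Poly.ite ?_ ?_ (FP.Poly.const _))
  · have : Poly (fun p : α × Nd × Tab => nd p.1) := hnd.comp FP.Poly.fst'
    exact PolyPred.eq (by fun_prop) this
  · refine FP.Poly.flatMap (f := fun p : α × Nd × Tab => p.2.2)
      (g := fun (p : α × Nd × Tab) (r : List ℕ × List ℕ) => if r.1 = J p.1 then r.2 else [])
      (by fun_prop) (FP.Poly.ite ?_ (by fun_prop) (FP.Poly.const _))
    have : Poly (fun p : (α × Nd × Tab) × List ℕ × List ℕ => J p.1.1) :=
      hJ.comp (FP.Poly.fst'.comp FP.Poly.fst')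
    exact PolyPred.eq (by fun_prop) this

theorem longest_mem (l : List (List ℕ)) : longest l = [] ∨ longest l ∈ l := by
  unfold longest
  have : ∀ (l : List (List ℕ)) (b : List ℕ),
      l.foldl (fun b x => if b.length < x.length then x else b) b = b ∨
        l.foldl (fun b x => if b.length < x.length then x else b) b ∈ l := by
    intro l
    induction l with
    | nil => intro b; left; rfl
    | cons x l ih =>
      intro b
      rw [List.foldl_cons]
      rcases ih (if b.length < x.length then x else b) with h | h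
      · rw [h]
        split
        · right; exact List.mem_cons_self
        · left; rfl
      · right; exact List.mem_cons_of_mem _ h
  exact this l []

@[fun_prop]
theorem poly_longest {l : α → List (List ℕ)} (hl : Poly l) : Poly (fun a => longest (l a)) := by
  obtain ⟨P, hP⟩ := hl.size_le
  refine FP.Poly.foldl (h := fun _ (b x : List ℕ) => if b.length < x.length then x else b) hl
    (FP.Poly.const _) ?_ P ?_
  · refine FP.Poly.ite (PolyPred.lt (by fun_prop) (by fun_prop)) (by fun_prop) (by fun_prop)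
  · intro a k _
    have h := longest_mem ((l a).take k)
    unfold longest at h
    rcases h with h | h
    · rw [h]; simp [size_nil]
    · have h1 := size_le_of_mem (List.mem_of_mem_take h)
      have h2 := hP a
      omega

@[fun_prop]
theorem poly_glue (k t : ℕ) {n : α → ℕ} {e : α → List (ℕ × ℕ)} {T : α → List (Nd × Tab)}
    {nd : α → Nd} {Q : α → List ℕ} (he : Poly e) (hn : Poly n) (hb : PolyBdd n) (hT : Poly T)
    (hnd : Poly nd) (hQ : Poly Q) :
    Poly (fun a => glue k t (n a) (e a) (T a) (nd a) (Q a)) := by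
  unfold glue
  refine FP.Poly.filter (FP.Poly.range hn hb) (FP.Poly.or ?_ (FP.Poly.any
    (g := fun (p : α × ℕ) ch => decide (p.2 ∈ look (T p.1) ch (cap (n p.1) ch.2 (Q p.1))))
    ((poly_children k t he hn hb hnd).comp FP.Poly.fst') ?_))
  · have : Poly (fun p : α × ℕ => Q p.1) := hQ.comp FP.Poly.fst'
    fun_prop
  · have h1 : Poly (fun p : (α × ℕ) × Nd => T p.1.1) := hT.comp (FP.Poly.fst'.comp FP.Poly.fst')
    have h2 : Poly (fun p : (α × ℕ) × Nd => cap (n p.1.1) p.2.2 (Q p.1.1)) :=
      poly_cap (hn.comp (FP.Poly.fst'.comp FP.Poly.fst')) (PolyBdd.fst (PolyBdd.fst hb))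
        (by fun_prop) (hQ.comp (FP.Poly.fst'.comp FP.Poly.fst'))
    exact FP.Poly.decideMem (by fun_prop) (poly_look h1 (by fun_prop) h2)

@[fun_prop]
theorem poly_solve (k t : ℕ) {n : α → ℕ} {e : α → List (ℕ × ℕ)} {T : α → List (Nd × Tab)}
    {nd : α → Nd} (he : Poly e) (hn : Poly n) (hb : PolyBdd n) (hT : Poly T) (hnd : Poly nd) :
    Poly (fun a => solve k t (n a) (e a) (T a) (nd a)) := by
  unfold solve
  have hbag := poly_bag k t he hn hb hnd
  refine FP.Poly.map (g := fun a J =>
    (J, longest (((subs (bag k t (n a) (e a) (nd a)) (wm k t + qq k t)).filter fun Q =>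
      indB (e a) Q && decide (cap (n a) (nd a).2 Q = J)).map
        (glue k t (n a) (e a) (T a) (nd a))))) ?_ ?_
  · refine FP.Poly.filter (poly_subs _ (by fun_prop)) ?_
    exact poly_indB (he.comp FP.Poly.fst') FP.Poly.snd'
  · refine FP.Poly.pair FP.Poly.snd' (poly_longest (FP.Poly.map
      (g := fun (p : α × List ℕ) Q => glue k t (n p.1) (e p.1) (T p.1) (nd p.1) Q)
      (FP.Poly.filter (poly_subs _ (hbag.comp FP.Poly.fst')) (FP.Poly.and ?_ ?_)) ?_))
    · exact poly_indB (he.comp (FP.Poly.fst'.comp FP.Poly.fst')) FP.Poly.snd'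
    · refine PolyPred.dec (PolyPred.eq (poly_cap (hn.comp (FP.Poly.fst'.comp FP.Poly.fst'))
        (PolyBdd.fst (PolyBdd.fst hb)) ?_ FP.Poly.snd') (by fun_prop))
      have : Poly (fun p : (α × List ℕ) × List ℕ => nd p.1.1) :=
        hnd.comp (FP.Poly.fst'.comp FP.Poly.fst')
      fun_prop
    · exact poly_glue k t (he.comp (FP.Poly.fst'.comp FP.Poly.fst'))
        (hn.comp (FP.Poly.fst'.comp FP.Poly.fst')) (PolyBdd.fst (PolyBdd.fst hb))
        (hT.comp (FP.Poly.fst'.comp FP.Poly.fst')) (hnd.comp (FP.Poly.fst'.comp FP.Poly.fst'))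
        FP.Poly.snd'

end Pool.Agent.TIA
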