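import Pool.Agent.TIA.Defs

/-!
# Ram: pigeonhole and Ramsey's theorem for pairs with finitely many colours

`ramsey2`: by induction in the usual way (or from a Ramsey theorem in Mathlib / our libraries).
`Sub f N R` says that `f` is strictly increasing on `{0..N-1}` with values `< R`.
-/

namespace Pool.Agent.TIA

theorem Sub.comp {f g : ℕ → ℕ} {N M R : ℕ} (hf : Sub f M R) (hg : Sub g N M) :
    Sub (fun i => f (g i)) N R :=
  ⟨fun i j hij hj => hf.1 _ _ (hg.1 i j hij hj) (hg.2 j hj), fun i hi => hf.2 _ (hg.2 i hi)⟩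

theorem Sub.mono {f : ℕ → ℕ} {N N' R R' : ℕ} (hf : Sub f N R) (hN : N' ≤ N) (hR : R ≤ R') :
    Sub f N' R' :=
  ⟨fun i j hij hj => hf.1 i j hij (hj.trans_le hN), fun i hi => (hf.2 i (hi.trans_le hN)).trans_le hR⟩

theorem pigeon (C : Type) [Finite C] (N : ℕ) :
    ∃ R, ∀ col : ℕ → C, ∃ f, Sub f N R ∧ ∃ κ, ∀ i < N, col (f i) = κ := by
  classical
  haveI := Fintype.ofFinite C
  rcases Nat.eq_zero_or_pos N with rfl | hN
  · exact ⟨0, fun col => ⟨id, ⟨fun i j _ h => absurd h (Nat.not_lt_zero _),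
      fun i h => absurd h (Nat.not_lt_zero _)⟩, col 0, fun i h => absurd h (Nat.not_lt_zero _)⟩⟩
  refine ⟨Fintype.card C * N + 1, fun col => ?_⟩
  have hlt : (Finset.univ : Finset C).card * (N - 1) < (Finset.range (Fintype.card C * N + 1)).card := by
    rw [Finset.card_range, Finset.card_univ]
    have : Fintype.card C * (N - 1) ≤ Fintype.card C * N := Nat.mul_le_mul_left _ (Nat.sub_le _ _)
    omega
  obtain ⟨κ, -, hκ⟩ := Finset.exists_lt_card_fiber_of_mul_lt_card_of_maps_to
    (s := Finset.range (Fintype.card C * N + 1)) (t := (Finset.univ : Finset C)) (f := col)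
    (n := N - 1) (fun a _ => Finset.mem_univ _) hlt
  have h1 : N ≤ ((Finset.range (Fintype.card C * N + 1)).filter fun x => col x = κ).card := by
    omega
  obtain ⟨F, hF, hFc⟩ := Finset.exists_subset_card_eq h1
  set e := F.orderEmbOfFin hFc with he
  have hmem : ∀ i : Fin N, e i ∈ F := fun i => Finset.orderEmbOfFin_mem F hFc i
  refine ⟨fun i => if h : i < N then e ⟨i, h⟩ else 0, ⟨?_, ?_⟩, κ, ?_⟩
  · intro i j hij hj
    simp only [dif_pos hj, dif_pos (hij.trans hj)]
    exact e.strictMono (by exact_mod_cast hij)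
  · intro i hi
    simp only [dif_pos hi]
    exact Finset.mem_range.mp (Finset.mem_filter.mp (hF (hmem ⟨i, hi⟩))).1
  · intro i hi
    simp only [dif_pos hi]
    exact (Finset.mem_filter.mp (hF (hmem ⟨i, hi⟩))).2

theorem Ram_end (C : Type) [Finite C] (N : ℕ) :
    ∃ R, ∀ col : ℕ → ℕ → C, ∃ f, Sub f N R ∧ ∃ c : ℕ → C, ∀ i j, i < j → j < N →
      col (f i) (f j) = c i := by
  induction N with
  | zero =>
    exact ⟨0, fun col => ⟨id, ⟨fun i j _ h => absurd h (Nat.not_lt_zero _),
      fun i h => absurd h (Nat.not_lt_zero _)⟩, fun i => col i i,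
      fun i j _ h => absurd h (Nat.not_lt_zero _)⟩⟩
  | succ N ih =>
    obtain ⟨R0, h0⟩ := ih
    obtain ⟨R1, h1⟩ := pigeon C R0
    refine ⟨R1 + 1, fun col => ?_⟩
    obtain ⟨g, hg, κ, hκ⟩ := h1 (fun u => col 0 (u + 1))
    obtain ⟨f, hf, c, hc⟩ := h0 (fun i j => col (g i + 1) (g j + 1))
    refine ⟨fun i => Nat.casesOn i 0 (fun i => g (f i) + 1), ⟨?_, ?_⟩,
      fun i => Nat.casesOn i κ c, ?_⟩
    · intro i j hij hj
      cases j with
      | zero => exact absurd hij (Nat.not_lt_zero _)
      | succ j =>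
        cases i with
        | zero => exact Nat.succ_pos _
        | succ i =>
          show g (f i) + 1 < g (f j) + 1
          have := (hg.comp hf).1 i j (by omega) (by omega)
          simp only at this
          omega
    · intro i hi
      cases i with
      | zero => exact Nat.succ_pos _
      | succ i =>
        show g (f i) + 1 < R1 + 1
        have := (hg.comp hf).2 i (by omega)
        simp only at this
        omega
    · intro i j hij hj
      cases j with
      | zero => exact absurd hij (Nat.not_lt_zero _)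
      | succ j =>
        cases i with
        | zero => exact hκ (f j) (hf.2 j (by omega))
        | succ i => exact hc i j (by omega) (by omega)

theorem ramsey2 (C : Type) [Finite C] (N : ℕ) :
    ∃ R, ∀ col : ℕ → ℕ → C, ∃ f, Sub f N R ∧ ∃ κ, ∀ i j, i < j → j < N →
      col (f i) (f j) = κ := by
  obtain ⟨M, hM⟩ := pigeon C N
  obtain ⟨R, hR⟩ := Ram_end C M
  refine ⟨R, fun col => ?_⟩
  obtain ⟨f, hf, c, hc⟩ := hR col
  obtain ⟨g, hg, κ, hκ⟩ := hM c
  refine ⟨fun i => f (g i), hf.comp hg, κ, fun i j hij hj => ?_⟩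
  rw [hc (g i) (g j) (hg.1 i j hij hj) (hg.2 j hj)]
  exact hκ i (hij.trans hj)

end Pool.Agent.TIA
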