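import Pool.Agent.TIA.ShortP

/-!
# SegP: a shortest path through a chain of segments

Let `S 0, ..., S (K-1)` be pairwise disjoint sets, `S i` anticomplete to `S j` for `i + 2 ≤ j`. If the union
contains a walk from `S 0` to `S (K-1)` then `G` contains an induced path with `K` vertices.
Proof: take a shortest path `q 0, ..., q d` (ShortP with `T = {b}`) in the union from `a` to `b`; let
`ind i` be the index with `q i ∈ S (ind i)` (unique). `ind 0 = 0`, `ind d = K - 1`, and
`|ind (i+1) - ind i| ≤ 1` as `q i`, `q (i+1)` are adjacent; so `ind` takes all values `0..K-1`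
(by induction: `ind i ≤ i`, so `K - 1 ≤ d`). Hence `d + 1 ≥ K`; take the first `K` vertices (IPath.sub).
-/

namespace Pool.Agent.TIA

variable {V : Type} {G : SimpleGraph V}

theorem seg_path (K : ℕ) (hK : 1 ≤ K) (S : ℕ → Set V)
    (hd : ∀ i < K, ∀ j < K, i ≠ j → Disjoint (S i) (S j))
    (ha : ∀ i j, i + 2 ≤ j → j < K → ∀ x ∈ S i, ∀ y ∈ S j, ¬ G.Adj x y)
    {a b : V} (h0 : a ∈ S 0) (h1 : b ∈ S (K - 1))
    (hr : Rch G {v | ∃ i < K, v ∈ S i} a b) : ∃ q, IPath G K q := by
  obtain ⟨d, q, q0, qS, qd, -, hq, -⟩ := short_path hr (T := {b}) rfl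
  refine ⟨q, hq.sub ?_⟩
  have huniq : ∀ i < K, ∀ j < K, ∀ v, v ∈ S i → v ∈ S j → i = j := by
    intro i hi j hj v hvi hvj
    by_contra hne
    exact Set.disjoint_left.1 (hd i hi j hj hne) hvi hvj
  have key : ∀ i ≤ d, ∀ j < K, q i ∈ S j → j ≤ i := by
    intro i
    induction i with
    | zero =>
      intro _ j hj hqj
      rw [q0] at hqj
      have := huniq j hj 0 (by omega) a hqj h0
      omega
    | succ i ih =>
      intro hi j hj hqj
      obtain ⟨k, hk, hqk⟩ := qS i (by omega)
      have h1 := ih (by omega) k hk hqk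
      have hadj : G.Adj (q i) (q (i + 1)) :=
        (hq.2 i (by omega) (i + 1) (by omega)).2 (Or.inr rfl)
      by_contra hc
      exact ha k j (by omega) hj _ hqk _ hqj hadj
  have h2 := key d le_rfl (K - 1) (by omega) (by
    have : q d = b := qd
    rw [this]
    exact h1)
  omega

end Pool.Agent.TIA
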