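import Pool.Agent.TIA.SpecA
import Pool.Agent.TIA.RchB

/-!
# SpecC: breadth first search computes components

`grow` is monotone and inflationary on sublists (`S.filter`), all members of the iterates are reachable from `v`
inside `S`. After `S.length` steps the process is stationary (the number of distinct members strictly increases
until it is stationary, it is at most the number of distinct members of `S`), and a stationary set that contains `v` and is
closed under adjacency inside `S` contains everything that is reachable (`Rch.closed`).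
-/

namespace Pool.Agent.TIA

theorem SpecC_grow_mem {E : List (ℕ × ℕ)} {S C : List ℕ} {u : ℕ} :
    u ∈ grow E S C ↔ u ∈ S ∧ (u ∈ C ∨ ∃ w ∈ C, (w, u) ∈ E) := by
  simp only [grow, List.mem_filter, Bool.or_eq_true, decide_eq_true_eq, List.any_eq_true, adjB]

theorem SpecC_iter_sub {E : List (ℕ × ℕ)} {S : List ℕ} {v : ℕ} (i : ℕ) :
    ((grow E S)^[i] (S.filter fun u => decide (u = v))).Sublist S := by
  cases i with
  | zero => exact List.filter_sublist
  | succ i =>
    rw [Function.iterate_succ_apply']
    exact List.filter_sublist

theorem SpecC_iter_reach {n : ℕ} {E : List (ℕ × ℕ)} (h : GoodE n E) {S : List ℕ} {v : ℕ} (i : ℕ) :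
    ∀ u ∈ (grow E S)^[i] (S.filter fun u => decide (u = v)), Rch (gE E) (toS S) v u := by
  induction i with
  | zero =>
    intro u hu
    simp only [Function.iterate_zero, id_eq, List.mem_filter, decide_eq_true_eq] at hu
    obtain ⟨h1, rfl⟩ := hu
    exact Rch.refl h1
  | succ i ih =>
    intro u hu
    rw [Function.iterate_succ_apply', SpecC_grow_mem] at hu
    obtain ⟨h1, h2 | ⟨w, hw, hwu⟩⟩ := hu
    · exact ih u h2
    · have h3 := ih w hw
      exact h3.trans (Rch.adj h3.right h1 ((gE_adj h).2 hwu))

theorem SpecC_mono {E : List (ℕ × ℕ)} {S C : List ℕ} (hC : C ⊆ S) : C ⊆ grow E S C := by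
  intro u hu
  rw [SpecC_grow_mem]
  exact ⟨hC hu, Or.inl hu⟩

/-- the set of members is stationary after `|S|` steps -/
theorem SpecC_stat {E : List (ℕ × ℕ)} {S : List ℕ} {v : ℕ} (hv : v ∈ S) (i : ℕ) :
    (∃ j ≤ i, ∀ u, u ∈ (grow E S)^[j + 1] (S.filter fun u => decide (u = v)) →
      u ∈ (grow E S)^[j] (S.filter fun u => decide (u = v))) ∨
    i + 2 ≤ ((grow E S)^[i + 1] (S.filter fun u => decide (u = v))).toFinset.card := by
  induction i with
  | zero =>
    by_cases hc : ∀ u, u ∈ (grow E S)^[0 + 1] (S.filter fun u => decide (u = v)) →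
      u ∈ (grow E S)^[0] (S.filter fun u => decide (u = v))
    · exact Or.inl ⟨0, le_refl _, hc⟩
    · right
      push Not at hc
      obtain ⟨u, hu, hu'⟩ := hc
      have h1 : ((S.filter fun u => decide (u = v)).toFinset) ⊂
          ((grow E S)^[0 + 1] (S.filter fun u => decide (u = v))).toFinset := by
        rw [Finset.ssubset_iff_of_subset]
        · exact ⟨u, List.mem_toFinset.2 hu, fun h => hu' (List.mem_toFinset.1 h)⟩
        · intro w hw
          rw [List.mem_toFinset] at hw ⊢
          exact SpecC_mono List.filter_sublist.subset hw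
      have h2 := Finset.card_lt_card h1
      have h3 : 1 ≤ ((S.filter fun u => decide (u = v)).toFinset).card := by
        apply Finset.card_pos.2
        exact ⟨v, by simp [hv]⟩
      omega
  | succ i ih =>
    rcases ih with ⟨j, hj, h1⟩ | h1
    · exact Or.inl ⟨j, by omega, h1⟩
    · by_cases hc : ∀ u, u ∈ (grow E S)^[i + 1 + 1] (S.filter fun u => decide (u = v)) →
        u ∈ (grow E S)^[i + 1] (S.filter fun u => decide (u = v))
      · exact Or.inl ⟨i + 1, le_refl _, hc⟩
      · right
        push Not at hc
        obtain ⟨u, hu, hu'⟩ := hc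
        have h2 : ((grow E S)^[i + 1] (S.filter fun u => decide (u = v))).toFinset ⊂
            ((grow E S)^[i + 1 + 1] (S.filter fun u => decide (u = v))).toFinset := by
          rw [Finset.ssubset_iff_of_subset]
          · exact ⟨u, List.mem_toFinset.2 hu, fun h => hu' (List.mem_toFinset.1 h)⟩
          · intro w hw
            rw [List.mem_toFinset] at hw ⊢
            rw [Function.iterate_succ_apply' (grow E S) (i + 1)]
            exact SpecC_mono (SpecC_iter_sub (i + 1)).subset hw
        have h3 := Finset.card_lt_card h2
        omega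

/-- once stationary, always stationary -/
theorem SpecC_stat_ge {E : List (ℕ × ℕ)} {S : List ℕ} {v : ℕ} {j : ℕ}
    (hj : ∀ u, u ∈ (grow E S)^[j + 1] (S.filter fun u => decide (u = v)) →
      u ∈ (grow E S)^[j] (S.filter fun u => decide (u = v))) (m : ℕ) (hm : j ≤ m) :
    ∀ u, u ∈ (grow E S)^[m] (S.filter fun u => decide (u = v)) ↔
      u ∈ (grow E S)^[j] (S.filter fun u => decide (u = v)) := by
  induction m, hm using Nat.le_induction with
  | base => intro u; rfl
  | succ m hm ih =>
    intro u
    constructor
    · intro hu
      apply hj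
      rw [Function.iterate_succ_apply', SpecC_grow_mem] at hu ⊢
      refine ⟨hu.1, ?_⟩
      rcases hu.2 with h1 | ⟨w, hw, hwu⟩
      · exact Or.inl ((ih u).1 h1)
      · exact Or.inr ⟨w, (ih w).1 hw, hwu⟩
    · intro hu
      rw [Function.iterate_succ_apply']
      exact SpecC_mono (SpecC_iter_sub m).subset ((ih u).2 hu)

theorem mem_compB {n : ℕ} {E : List (ℕ × ℕ)} (h : GoodE n E) {S : List ℕ} {u v : ℕ} :
    u ∈ compB E S v ↔ Rch (gE E) (toS S) v u := by
  constructor
  · intro hu
    exact SpecC_iter_reach h S.length u hu
  · intro hu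
    have hv : v ∈ S := hu.left
    have hS : 0 < S.length := List.length_pos_of_mem hv
    -- a stationary index below the length
    have h1 : ∃ j ≤ S.length, ∀ u, u ∈ (grow E S)^[j + 1] (S.filter fun u => decide (u = v)) →
        u ∈ (grow E S)^[j] (S.filter fun u => decide (u = v)) := by
      rcases SpecC_stat (E := E) hv S.length with h1 | h1
      · exact h1
      · exfalso
        have h2 : ((grow E S)^[S.length + 1] (S.filter fun u => decide (u = v))).toFinset.card
            ≤ S.length :=
          (List.toFinset_card_le _).trans (SpecC_iter_sub (S.length + 1)).length_le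
        omega
    obtain ⟨j, hj, h2⟩ := h1
    have h3 := SpecC_stat_ge h2 S.length hj
    have h4 := SpecC_stat_ge h2 (S.length + 1) (by omega)
    have hv0 : ∀ i, v ∈ (grow E S)^[i] (S.filter fun u => decide (u = v)) := by
      intro i
      induction i with
      | zero => simp [hv]
      | succ i ih =>
        rw [Function.iterate_succ_apply']
        exact SpecC_mono (SpecC_iter_sub i).subset ih
    have h5 := Rch.closed (D := {w | w ∈ compB E S v}) hu (hv0 S.length) (by
      intro x hx y hy hxy
      show y ∈ (grow E S)^[S.length] (S.filter fun u => decide (u = v))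
      rw [h3 y, ← h4 y, Function.iterate_succ_apply', SpecC_grow_mem]
      exact ⟨hy, Or.inr ⟨x, hx, (gE_adj h).1 hxy⟩⟩)
    exact h5.1

theorem compB_sublist {E : List (ℕ × ℕ)} {S : List ℕ} {v : ℕ} : (compB E S v).Sublist S :=
  SpecC_iter_sub S.length

end Pool.Agent.TIA
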