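import Pool.Agent.TIA.SpecA
import Pool.Agent.TIA.ShortP

/-!
# SpecW: the family of walks from `A` to `B`

`fam_hit`: a walk in the family that avoids `X` starts in `L` (`hA`), stays in `L` (`hL`, consecutive entries are
equal or adjacent) and ends outside `L` (`hB`).
`fam_sep`: if `b` is reachable from `a` in `S \ X`, a shortest path `q 0, ..., q d` (`short_path` with `T = {b}`) has `d + 1 < k`
vertices (`PFree.short`); the list `q (min i d)`, `i < k`, is in the family and avoids `X`.
-/

namespace Pool.Agent.TIA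

variable {n k : ℕ} {E : List (ℕ × ℕ)}

theorem SpecW_mem (S A B l : List ℕ) : l ∈ fam E S A B k ↔
    (l.length = k ∧ ∀ v ∈ l, v ∈ S) ∧
      (∀ p ∈ l.zip l.tail, p.1 = p.2 ∨ p ∈ E) ∧ l.headD 0 ∈ A ∧ l.reverse.headD 0 ∈ B := by
  simp only [fam, List.mem_filter, mem_tup, walkB, adjB, Bool.and_eq_true, List.all_eq_true,
    Bool.or_eq_true, decide_eq_true_eq, Prod.mk.eta]

/-- a walk whose head is in `L` and that avoids `X` ends in `L` -/
theorem SpecW_stay (hE : GoodE n E) (S : List ℕ) (X L : Set ℕ)
    (hL : ∀ x ∈ L, ∀ y ∈ S, (gE E).Adj x y → y ∈ X ∨ y ∈ L) :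
    ∀ l : List ℕ, l ≠ [] → (∀ v ∈ l, v ∈ S) → (∀ v ∈ l, v ∉ X) →
      (∀ p ∈ l.zip l.tail, p.1 = p.2 ∨ p ∈ E) → l.headD 0 ∈ L → l.reverse.headD 0 ∈ L := by
  intro l
  induction l with
  | nil => intro h; exact absurd rfl h
  | cons a l ih =>
    intro _ hS hX hw hh
    cases l with
    | nil => simpa using hh
    | cons b l =>
      have hb : b ∈ L := by
        have ha : a ∈ L := by simpa using hh
        have h1 := hw (a, b) (by simp)
        rcases h1 with h1 | h1
        · have h1' : a = b := h1
          exact h1' ▸ ha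
        · rcases hL a ha b (hS b (by simp)) ((gE_adj hE).2 h1) with h2 | h2
          · exact absurd h2 (hX b (by simp))
          · exact h2
      have h2 := ih (by simp) (fun v hv => hS v (by simp only [List.mem_cons] at hv ⊢; tauto))
        (fun v hv => hX v (by simp only [List.mem_cons] at hv ⊢; tauto))
        (fun p hp => hw p (by
          rw [List.tail_cons, List.zip_cons_cons]
          exact List.mem_cons_of_mem _ hp)) (by simpa using hb)
      have h3 : (a :: b :: l).reverse.headD 0 = (b :: l).reverse.headD 0 := by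
        rw [List.reverse_cons]
        cases h : (b :: l).reverse with
        | nil => simp at h
        | cons c l' => simp
      rw [h3]
      exact h2

theorem fam_hit (hE : GoodE n E) (S A B : List ℕ) (hk : 1 ≤ k) (X L : Set ℕ)
    (hA : ∀ a ∈ A, a ∈ X ∨ a ∈ L) (hB : ∀ b ∈ B, b ∈ X ∨ b ∉ L)
    (hL : ∀ x ∈ L, ∀ y ∈ S, (gE E).Adj x y → y ∈ X ∨ y ∈ L) :
    ∀ P ∈ fam E S A B k, ∃ v ∈ P, v ∈ X := by
  intro P hP
  rw [SpecW_mem] at hP
  obtain ⟨⟨h1, h2⟩, h3, h4, h5⟩ := hP
  by_contra hc
  push Not at hc
  have hne : P ≠ [] := by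
    rintro rfl
    simp at h1
    omega
  have hh : P.headD 0 ∈ P := by
    cases P with
    | nil => exact absurd rfl hne
    | cons a l => simp
  have hr : P.reverse.headD 0 ∈ P := by
    have h6 : P.reverse ≠ [] := by simpa using hne
    cases h : P.reverse with
    | nil => exact absurd h h6
    | cons a l =>
      have h7 : a ∈ P.reverse := by rw [h]; simp
      simpa using List.mem_reverse.1 h7
  have h6 : P.headD 0 ∈ L := (hA _ h4).resolve_left (hc _ hh)
  have h7 := SpecW_stay hE S X L hL P hne h2 hc h3 h6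
  rcases hB _ h5 with h8 | h8
  · exact hc _ hr h8
  · exact h8 h7

theorem fam_sep (hE : GoodE n E) (hP : PFree (gE E) k) (S A B X : List ℕ)
    (hX : ∀ P ∈ fam E S A B k, ∃ v ∈ P, v ∈ X) (a b : ℕ) (ha : a ∈ A) (hb : b ∈ B) :
    ¬ Rch (gE E) (toS (rest S X)) a b := by
  intro hr
  obtain ⟨d, q, h0, hS, hT, -, hI, -⟩ := short_path hr (Set.mem_singleton b)
  have hd := hP.short hI
  have hqd : q d = b := hT
  obtain ⟨v, hv, hvX⟩ := hX ((List.range k).map fun i => q (min i d)) (by
    rw [SpecW_mem]
    refine ⟨⟨by simp, ?_⟩, ?_, ?_, ?_⟩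
    · intro v hv
      obtain ⟨i, -, rfl⟩ := List.mem_map.1 hv
      exact (mem_rest.1 (hS (min i d) (min_le_right _ _))).1
    · intro p hp
      obtain ⟨i, hi, hp⟩ := List.getElem_of_mem hp
      rw [List.getElem_zip] at hp
      simp only [List.getElem_map, List.getElem_range, List.getElem_tail] at hp
      subst hp
      have h1 : i < k - 1 := by
        simpa [List.length_zip, List.length_tail] using hi
      rcases lt_or_ge i d with h2 | h2
      · right
        rw [min_eq_left h2.le, min_eq_left (show i + 1 ≤ d by omega)]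
        exact (gE_adj hE).1 ((hI.2 i (by omega) (i + 1) (by omega)).2 (Or.inr rfl))
      · left
        rw [min_eq_right h2, min_eq_right (by omega)]
    · have h1 : k ≠ 0 := by omega
      obtain ⟨k', rfl⟩ := Nat.exists_eq_succ_of_ne_zero h1
      rw [List.range_succ_eq_map]
      simpa [h0] using ha
    · have h1 : k ≠ 0 := by omega
      obtain ⟨k', rfl⟩ := Nat.exists_eq_succ_of_ne_zero h1
      rw [List.range_succ]
      simp only [List.map_append, List.map_cons, List.map_nil, List.reverse_append,
        List.reverse_cons, List.reverse_nil, List.nil_append, List.singleton_append,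
        List.headD_cons]
      rw [min_eq_right (by omega), hqd]
      exact hb)
  obtain ⟨i, -, rfl⟩ := List.mem_map.1 hv
  exact (mem_rest.1 (hS (min i d) (min_le_right _ _))).2 hvX

theorem fam_mem (S A B : List ℕ) : ∀ P ∈ fam E S A B k, P.length = k ∧ ∀ v ∈ P, v ∈ S := by
  intro P hP
  rw [SpecW_mem] at hP
  exact hP.1

end Pool.Agent.TIA
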