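import Pool.Agent.TIA.AlB
import Pool.Agent.TIA.RchB

/-!
# Split: two sides of a balanced separator

Write `U = S \ X`, `w = al W`. Call `L ⊆ U` closed if adjacency inside `U` does not leave `L`. Choose a closed `L` with
`3 al (W ∩ L) ≤ 2 w` and maximal cardinality (`∅` is one). If `L = U` we are done (`al ∅ = 0`). Otherwise let `a ∈ U \ L`,
`C = cmp G U a` (closed, disjoint from `L`); `L ∪ C` is closed and larger, so `3 al (W ∩ (L ∪ C)) > 2 w`. If
`3 al (W ∩ L) ≥ w`: `L` and `U \ L` are anticomplete, so `al (W ∩ (U \ L)) ≤ w - al (W ∩ L)` (`al_add_le`, `al_mono`)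
and `L` works. Otherwise `al (W ∩ C) ≥ al (W ∩ (L ∪ C)) - al (W ∩ L) > w / 3` (`al_union_le`), and
`2 al (W ∩ C) ≤ w`: take `L' = C`: `3 al (W ∩ C) ≤ 2 w`, and `al (W ∩ (U \ C)) ≤ w - al (W ∩ C) ≤ 2 w / 3`.
-/

namespace Pool.Agent.TIA

/-- a closed side and the rest -/
theorem Split_rest {V : Type} (G : SimpleGraph V) (U W L : Set V) (hU : U.Finite)
    (hW : W.Finite) (hL : L ⊆ U) (hc : ∀ x ∈ L, ∀ y ∈ U, G.Adj x y → y ∈ L) :
    al G (W ∩ L) + al G (W ∩ (U \ L)) ≤ al G W := by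
  have h1 : (W ∩ L).Finite := hW.subset Set.inter_subset_left
  have h2 : (W ∩ (U \ L)).Finite := hW.subset Set.inter_subset_left
  have hd : Disjoint (W ∩ L) (W ∩ (U \ L)) := by
    rw [Set.disjoint_left]
    intro x hx hx'
    exact hx'.2.2 hx.2
  refine (al_add_le h1 h2 hd ?_).trans (al_mono hW ?_)
  · intro x hx y hy hxy
    exact hy.2.2 (hc x hx.2 y hy.2.1 hxy)
  · intro x hx
    rcases hx with hx | hx
    · exact hx.1
    · exact hx.1

theorem split_sides {V : Type} (G : SimpleGraph V) (S X W : Set V) (hS : S.Finite)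
    (hW : W.Finite) (hb : ∀ a ∈ S \ X, 2 * al G (W ∩ cmp G (S \ X) a) ≤ al G W) :
    ∃ L : Set V, L ⊆ S \ X ∧ (∀ x ∈ L, ∀ y ∈ S \ X, G.Adj x y → y ∈ L) ∧
      3 * al G (W ∩ L) ≤ 2 * al G W ∧ 3 * al G (W ∩ ((S \ X) \ L)) ≤ 2 * al G W := by
  have hU : (S \ X).Finite := hS.subset Set.diff_subset
  generalize S \ X = U at hb hU
  have hfin : {L : Set V | L ⊆ U ∧ (∀ x ∈ L, ∀ y ∈ U, G.Adj x y → y ∈ L) ∧
      3 * al G (W ∩ L) ≤ 2 * al G W}.Finite :=
    hU.finite_subsets.subset (fun L hL => hL.1)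
  have hne : {L : Set V | L ⊆ U ∧ (∀ x ∈ L, ∀ y ∈ U, G.Adj x y → y ∈ L) ∧
      3 * al G (W ∩ L) ≤ 2 * al G W}.Nonempty := by
    refine ⟨∅, Set.empty_subset _, fun x hx => absurd hx (Set.notMem_empty x), ?_⟩
    rw [Set.inter_empty, al_empty]
    omega
  obtain ⟨L, hL⟩ := hfin.exists_maximal hne
  obtain ⟨hL1, hL2, hL3⟩ := hL.prop
  by_cases hUL : U ⊆ L
  · refine ⟨L, hL1, hL2, hL3, ?_⟩
    rw [Set.diff_eq_empty.2 hUL, Set.inter_empty, al_empty]
    omega
  · obtain ⟨a, haU, haL⟩ := Set.not_subset.1 hUL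
    have hC1 : cmp G U a ⊆ U := cmp_subset
    have hC2 : ∀ x ∈ cmp G U a, ∀ y ∈ U, G.Adj x y → y ∈ cmp G U a :=
      fun x hx y hy hxy => cmp_closed hx hy hxy
    have hbig : ¬ 3 * al G (W ∩ (L ∪ cmp G U a)) ≤ 2 * al G W := by
      intro h3
      have h4 : L ∪ cmp G U a ⊆ L := by
        refine hL.le_of_ge ?_ ?_
        · refine ⟨Set.union_subset hL1 hC1, ?_, h3⟩
          intro x hx y hy hxy
          rcases hx with hx | hx
          · exact Or.inl (hL2 x hx y hy hxy)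
          · exact Or.inr (hC2 x hx y hy hxy)
        · exact Set.subset_union_left
      exact haL (h4 (Or.inr (mem_cmp_self haU)))
    by_cases h3 : al G W ≤ 3 * al G (W ∩ L)
    · refine ⟨L, hL1, hL2, hL3, ?_⟩
      have := Split_rest G U W L hU hW hL1 hL2
      omega
    · have h4 : al G (W ∩ (L ∪ cmp G U a)) ≤ al G (W ∩ L) + al G (W ∩ cmp G U a) := by
        rw [Set.inter_union_distrib_left]
        exact al_union_le (hW.subset Set.inter_subset_left) (hW.subset Set.inter_subset_left)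
      have h5 := hb a haU
      have h6 := Split_rest G U W (cmp G U a) hU hW hC1 hC2
      exact ⟨cmp G U a, hC1, hC2, by omega, by omega⟩

end Pool.Agent.TIA
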