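import Pool.Agent.TIA.MWb
import Pool.Agent.TIA.Split
import Pool.Agent.TIA.SpecW
import Pool.Agent.TIA.SpecC

/-!
# SepE: one of the candidates is a good separator; specification of `sepB`

`BalN` for `W` gives `X0`; put `X* = X0 ∩ S` (a component of `S \ X*` is inside a component of `{< n} \ X0`:
`cmp_mono`, so the bound `2 al (W ∩ cmp) ≤ al W` holds in `S`). `split_sides` gives `L`, `Rt = (S \ X*) \ L`. Let `J` be
a maximal independent subset of `W ∩ L` and `J'` one of `W ∩ Rt` (sizes `≤ al W ≤ wm + 1`), as sorted lists: both are in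
`subs W (wm + 1)` (`mem_subs`). Every vertex of `W ∩ L` is in the closed neighbourhood of `J` and (as `L` is closed and
`J' ⊆ Rt`) not in that of `J'`: so `W ∩ L ⊆ side W J J'`, and a vertex of `side W J J'` is in `L` or in `X*` (it is in `J` or
adjacent to a vertex of `J ⊆ L`, `L` closed in `S \ X*`). The same for `J'`, `Rt`. So `X*` hits the family (`fam_hit` with
`X = X*`, `L`). `mw_main` (`K = k`, `q = qq k t`, `hqt` holds by definition): `X = mwHit ..` hits the family and
`al X ≤ qq - 1`. For `v ∈ S \ X` let `C` be its component: it does not meet both sides (`fam_sep`). If it misses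
`side W J' J ⊇ W ∩ Rt`: `W ∩ C ⊆ (W ∩ L) ∪ X*`, so `3 al (W ∩ C) ≤ 2 (wm + 1) + 3 t`, hence `al (W ∩ C) ≤ wm - qq`
(`wm = 3 (t + qq + 1)`). The same in the other case. So `okB` holds (`alB_iff`, `mem_compB`).
`sepB_spec`: `headD` of the nonempty filtered list satisfies `okB`; all candidates are filters of `S`.
-/

namespace Pool.Agent.TIA

theorem SepE_nb {n : ℕ} {E : List (ℕ × ℕ)} (hE : GoodE n E) {J : List ℕ} {u : ℕ} :
    nbB E J u = true ↔ ∃ j ∈ J, u = j ∨ (gE E).Adj j u := by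
  unfold nbB adjB
  rw [List.any_eq_true]
  refine exists_congr fun j => and_congr_right fun _ => ?_
  rw [Bool.or_eq_true, decide_eq_true_eq, decide_eq_true_eq, gE_adj hE]

theorem SepE_mem_side {n : ℕ} {E : List (ℕ × ℕ)} (hE : GoodE n E) {W J J' : List ℕ} {u : ℕ} :
    u ∈ side E W J J' ↔ u ∈ W ∧ (∃ j ∈ J, u = j ∨ (gE E).Adj j u) ∧
      ¬ ∃ j ∈ J', u = j ∨ (gE E).Adj j u := by
  unfold side
  rw [List.mem_filter, Bool.and_eq_true, SepE_nb hE, Bool.not_eq_true', ← Bool.not_eq_true,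
    SepE_nb hE]

/-- maximal independent subsets, as sublists -/
theorem SepE_max {n : ℕ} {E : List (ℕ × ℕ)} {W : List ℕ} (hW : Srt n W) {T : Set ℕ}
    (hT : T ⊆ toS W) : ∃ J : List ℕ, J.Sublist W ∧ (∀ j ∈ J, j ∈ T) ∧ J.length ≤ al (gE E) T ∧
      ∀ u ∈ T, ∃ j ∈ J, u = j ∨ (gE E).Adj j u := by
  classical
  have hfin : T.Finite := (toS_finite W).subset hT
  obtain ⟨I, hIT, hI, hcard⟩ := exists_al (gE E) hfin
  have hmem : ∀ v, v ∈ W.filter (fun v => decide (v ∈ I)) ↔ v ∈ I := by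
    intro v
    rw [List.mem_filter, decide_eq_true_eq]
    exact ⟨fun h => h.2, fun h => ⟨hT (hIT (Finset.mem_coe.2 h)), h⟩⟩
  refine ⟨W.filter (fun v => decide (v ∈ I)), List.filter_sublist, ?_, ?_, ?_⟩
  · intro j hj
    exact hIT (Finset.mem_coe.2 ((hmem j).1 hj))
  · rw [← hcard]
    have h1 : (W.filter (fun v => decide (v ∈ I))).toFinset = I := by
      ext v
      rw [List.mem_toFinset, hmem]
    have h2 := List.toFinset_card_of_nodup (hW.nodup.filter (fun v => decide (v ∈ I)))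
    rw [h1] at h2
    exact h2.ge
  · intro u hu
    by_contra hcon
    push Not at hcon
    have huI : u ∉ I := fun h => (hcon u ((hmem u).2 h)).1 rfl
    have h3 := card_le_al (G := gE E) hfin (I := insert u I) ?_ ?_
    · rw [Finset.card_insert_of_notMem huI, hcard] at h3
      omega
    · intro v hv
      rw [Finset.mem_coe, Finset.mem_insert] at hv
      rcases hv with rfl | hv
      · exact hu
      · exact hIT (Finset.mem_coe.2 hv)
    · intro a ha b hb hab
      rw [Finset.mem_coe, Finset.mem_insert] at ha hb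
      rcases ha with rfl | ha
      · rcases hb with rfl | hb
        · exact (gE E).loopless.irrefl _ hab
        · exact (hcon b ((hmem b).2 hb)).2 hab.symm
      · rcases hb with rfl | hb
        · exact (hcon a ((hmem a).2 ha)).2 hab
        · exact hI a ha b hb hab

theorem SepE_mwHit (E : List (ℕ × ℕ)) (n K q : ℕ) (S : List ℕ) (F : List (List ℕ)) :
    (mwHit E n K q S F).Sublist S := List.filter_sublist

theorem SepE_cands {k t n : ℕ} {E : List (ℕ × ℕ)} {S W X : List ℕ} (h : X ∈ cands k t n E S W) :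
    X.Sublist S := by
  unfold cands at h
  rw [List.mem_flatMap] at h
  obtain ⟨J, _, h⟩ := h
  obtain ⟨J', _, rfl⟩ := List.mem_map.1 h
  exact SepE_mwHit _ _ _ _ _ _

theorem SepE_filter {n : ℕ} {E : List (ℕ × ℕ)} (hE : GoodE n E) (S X W : List ℕ) (v : ℕ) :
    toS (W.filter fun u => decide (u ∈ compB E (rest S X) v)) =
      toS W ∩ cmp (gE E) (toS (rest S X)) v := by
  ext u
  simp only [toS, Set.mem_setOf_eq, Set.mem_inter_iff, List.mem_filter, decide_eq_true_eq]
  rw [mem_compB hE]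
  rfl

theorem SepE_okB {k t n : ℕ} {E : List (ℕ × ℕ)} (hE : GoodE n E) {S W X : List ℕ}
    (hW : Srt n W) (hX : X.Nodup) : okB k t E S W X = true ↔
      al (gE E) (toS X) ≤ qq k t - 1 ∧ ∀ v ∈ rest S X,
        al (gE E) (toS W ∩ cmp (gE E) (toS (rest S X)) v) ≤ wm k t - qq k t := by
  unfold okB
  rw [Bool.and_eq_true, alB_iff hE hX, List.all_eq_true]
  refine and_congr_right fun _ => forall_congr' fun v => imp_congr_right fun _ => ?_
  rw [alB_iff hE (hW.nodup.filter _), SepE_filter hE]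

theorem sep_exists (k t n : ℕ) (E : List (ℕ × ℕ)) (hE : GoodE n E) (hk : 1 ≤ k)
    (hP : PFree (gE E) k) (hB : BalN (gE E) n t) (S W : List ℕ) (hS : Srt n S) (hW : Srt n W)
    (hWS : ∀ v ∈ W, v ∈ S) (hw : al (gE E) (toS W) ≤ wm k t + 1) :
    ∃ X ∈ cands k t n E S W, okB k t E S W X = true := by
  classical
  obtain ⟨X0, hX0n, hX0, hbal⟩ := hB (toS W) (fun v hv => hW.lt v hv)
  have hWfin : (toS W).Finite := toS_finite W
  have hSfin : (toS S).Finite := toS_finite S
  obtain ⟨L, hLS, hLc, hL1, hL2⟩ := split_sides (gE E) (toS S) X0 (toS W) hSfin hWfin (by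
    intro a ha
    refine le_trans (Nat.mul_le_mul_left 2 (al_mono (hWfin.subset Set.inter_subset_left) ?_))
      (hbal a (hS.lt a ha.1) ha.2)
    exact Set.inter_subset_inter_right _ (cmp_mono (fun v hv => ⟨hS.lt v hv.1, hv.2⟩)))
  obtain ⟨J, hJW, hJT, hJl, hJd⟩ := SepE_max (E := E) hW (T := toS W ∩ L) Set.inter_subset_left
  obtain ⟨J', hJW', hJT', hJl', hJd'⟩ := SepE_max (E := E) hW (T := toS W ∩ ((toS S \ X0) \ L))
    Set.inter_subset_left
  have hsym : ∀ {u v : ℕ}, (gE E).Adj u v → (gE E).Adj v u := fun h => h.symm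
  -- the four facts
  have f1 : ∀ u ∈ toS W ∩ L, u ∈ side E W J J' := by
    intro u hu
    refine (SepE_mem_side hE).2 ⟨hu.1, hJd u hu, ?_⟩
    rintro ⟨j, hj, h | h⟩
    · have := hJT' j hj
      rw [← h] at this
      exact this.2.2 hu.2
    · have hj' := hJT' j hj
      exact hj'.2.2 (hLc u hu.2 j hj'.2.1 h.symm)
  have f2 : ∀ u ∈ side E W J J', u ∈ X0 ∨ u ∈ L := by
    intro u hu
    obtain ⟨huW, ⟨j, hj, h | h⟩, _⟩ := (SepE_mem_side hE).1 hu
    · right
      rw [h]
      exact (hJT j hj).2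
    · by_cases hx : u ∈ X0
      · exact Or.inl hx
      · exact Or.inr (hLc j (hJT j hj).2 u ⟨hWS u huW, hx⟩ h)
  have f3 : ∀ u ∈ toS W ∩ ((toS S \ X0) \ L), u ∈ side E W J' J := by
    intro u hu
    refine (SepE_mem_side hE).2 ⟨hu.1, hJd' u hu, ?_⟩
    rintro ⟨j, hj, h | h⟩
    · have := hJT j hj
      rw [← h] at this
      exact hu.2.2 this.2
    · exact hu.2.2 (hLc j (hJT j hj).2 u hu.2.1 h)
  have f4 : ∀ u ∈ side E W J' J, u ∈ X0 ∨ u ∉ L := by
    intro u hu
    obtain ⟨huW, ⟨j, hj, h | h⟩, _⟩ := (SepE_mem_side hE).1 hu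
    · right
      rw [h]
      exact (hJT' j hj).2.2
    · right
      intro huL
      exact (hJT' j hj).2.2 (hLc u huL j (hJT' j hj).2.1 h.symm)
  -- the finite set `X0`
  obtain ⟨X1, hX1⟩ : ∃ X1 : Finset ℕ, (X1 : Set ℕ) = X0 := by
    have : X0.Finite := (Set.finite_lt_nat n).subset hX0n
    exact ⟨this.toFinset, this.coe_toFinset⟩
  have hhit : ∀ P ∈ fam E S (side E W J J') (side E W J' J) k, ∃ v ∈ P, v ∈ X1 := by
    intro P hPf
    obtain ⟨v, hv, hvX⟩ := fam_hit hE S (side E W J J') (side E W J' J) hk X0 L f2 f4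
      (fun x hx y hy hadj => by
        by_cases h : y ∈ X0
        · exact Or.inl h
        · exact Or.inr (hLc x hx y ⟨hy, h⟩ hadj)) P hPf
    rw [← hX1] at hvX
    exact ⟨v, hv, Finset.mem_coe.1 hvX⟩
  obtain ⟨m1, m2⟩ := mw_main n k (qq k t) t E hE S hS hk
    (fam E S (side E W J J') (side E W J' J) k) (fun P hPf => by
      obtain ⟨h1, h2⟩ := fam_mem S _ _ P hPf
      refine ⟨?_, h1.le, h2⟩
      intro h
      rw [h] at h1
      simp at h1
      omega) X1 hhit (by rw [hX1]; exact hX0) (by unfold qq; omega)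
  have hsubJ : J ∈ subs W (wm k t + 1) := by
    refine (mem_subs hW.nodup).2 ⟨hJW, hJl.trans (le_trans (al_mono hWfin Set.inter_subset_left) hw)⟩
  have hsubJ' : J' ∈ subs W (wm k t + 1) := by
    refine (mem_subs hW.nodup).2 ⟨hJW', hJl'.trans (le_trans (al_mono hWfin Set.inter_subset_left) hw)⟩
  refine ⟨mwHit E n k (qq k t) S (fam E S (side E W J J') (side E W J' J) k), ?_, ?_⟩
  · unfold cands
    exact List.mem_flatMap.2 ⟨J, hsubJ, List.mem_map.2 ⟨J', hsubJ', rfl⟩⟩
  · obtain ⟨X, hX⟩ : ∃ X, X = mwHit E n k (qq k t) S (fam E S (side E W J J') (side E W J' J) k) :=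
      ⟨_, rfl⟩
    rw [← hX] at m1 m2 ⊢
    have hXn : X.Nodup := by
      rw [hX]
      exact (SepE_mwHit _ _ _ _ _ _).nodup hS.nodup
    rw [SepE_okB hE hW hXn]
    refine ⟨m2, ?_⟩
    intro v hv
    obtain ⟨C, hC⟩ : ∃ C, C = cmp (gE E) (toS (rest S X)) v := ⟨_, rfl⟩
    rw [← hC]
    have hX0fin : X0.Finite := (Set.finite_lt_nat n).subset hX0n
    have hfin1 : (toS W ∩ L).Finite := hWfin.subset Set.inter_subset_left
    have hfin2 : (toS W ∩ ((toS S \ X0) \ L)).Finite := hWfin.subset Set.inter_subset_left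
    have hdis : (∀ u ∈ C, u ∉ side E W J J') ∨ ∀ u ∈ C, u ∉ side E W J' J := by
      by_contra hcon
      push Not at hcon
      obtain ⟨⟨a, ha, ha'⟩, b, hb, hb'⟩ := hcon
      rw [hC] at ha hb
      refine fam_sep hE hP S (side E W J J') (side E W J' J) X m1 a b ha' hb' ?_
      exact (Rch.symm ha).trans hb
    have hwm : wm k t = 3 * (t + qq k t + 1) := rfl
    rcases hdis with hd | hd
    · have hsub : toS W ∩ C ⊆ (toS W ∩ ((toS S \ X0) \ L)) ∪ X0 := by
        intro u hu
        by_cases hx : u ∈ X0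
        · exact Or.inr hx
        · left
          refine ⟨hu.1, ⟨hWS u hu.1, hx⟩, ?_⟩
          intro hL
          exact hd u hu.2 (f1 u ⟨hu.1, hL⟩)
      have h5 := al_mono (G := gE E) (hfin2.union hX0fin) hsub
      have h6 := al_union_le (G := gE E) hfin2 hX0fin
      omega
    · have hsub : toS W ∩ C ⊆ (toS W ∩ L) ∪ X0 := by
        intro u hu
        by_cases hx : u ∈ X0
        · exact Or.inr hx
        · left
          refine ⟨hu.1, ?_⟩
          by_contra hL
          exact hd u hu.2 (f3 u ⟨hu.1, ⟨hWS u hu.1, hx⟩, hL⟩)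
      have h5 := al_mono (G := gE E) (hfin1.union hX0fin) hsub
      have h6 := al_union_le (G := gE E) hfin1 hX0fin
      omega

theorem SepE_headD {l : List (List ℕ)} {Q : List ℕ → Prop} (h : ∀ x ∈ l, Q x) (h0 : l = [] → Q []) :
    Q (l.headD []) := by
  cases l with
  | nil => exact h0 rfl
  | cons a l => exact h a List.mem_cons_self

theorem sepB_sublist (k t n : ℕ) (E : List (ℕ × ℕ)) (S W : List ℕ) :
    (sepB k t n E S W).Sublist S := by
  unfold sepB
  refine SepE_headD (Q := fun X => X.Sublist S) ?_ (fun _ => List.nil_sublist S)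
  intro X hX
  exact SepE_cands (List.mem_filter.1 hX).1

theorem sepB_spec (k t n : ℕ) (E : List (ℕ × ℕ)) (hE : GoodE n E) (hk : 1 ≤ k)
    (hP : PFree (gE E) k) (hB : BalN (gE E) n t) (S W : List ℕ) (hS : Srt n S) (hW : Srt n W)
    (hWS : ∀ v ∈ W, v ∈ S) (hw : al (gE E) (toS W) ≤ wm k t + 1) :
    al (gE E) (toS (sepB k t n E S W)) ≤ qq k t - 1 ∧
      ∀ v ∈ rest S (sepB k t n E S W),
        al (gE E) (toS W ∩ cmp (gE E) (toS (rest S (sepB k t n E S W))) v) ≤ wm k t - qq k t := by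
  have hn : (sepB k t n E S W).Nodup := (sepB_sublist k t n E S W).nodup hS.nodup
  rw [← SepE_okB hE hW hn]
  obtain ⟨X, hX1, hX2⟩ := sep_exists k t n E hE hk hP hB S W hS hW hWS hw
  unfold sepB
  refine SepE_headD (Q := fun X => okB k t E S W X = true) ?_ ?_
  · intro Y hY
    exact (List.mem_filter.1 hY).2
  · intro h
    have : X ∈ (cands k t n E S W).filter (okB k t E S W) := List.mem_filter.2 ⟨hX1, hX2⟩
    rw [h] at this
    exact absurd this List.not_mem_nil

end Pool.Agent.TIA
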