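import Pool.Agent.TIA.Glue
import Pool.Agent.TIA.SpecA

/-!
# Solve: the tables of one level are correct

`longest_spec`: for a nonempty list `longest l ∈ l` (if all members have length 0 they are `[]`) and it has maximal
length. `solve_ok`: `nd ∈ L`, `T' = lstep .. T L`. For `J` (sorted, `⊆ W = nd.2`, independent; `J.length ≤ al W ≤ wm`, `length_le_al`)
the entry is `I = longest (...)` over the `Q ∈ subs bag (wm + qq)`, independent, `cap n nd.2 Q = J`. The list is nonempty
(`Q = J`). Every member is optimal for its `Q` (`glue_opt`), in particular independent, inside `A`, and its trace on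
`W ⊆ bag` is that of `Q`, i.e. `J`. Maximality: for a competitor `I'` let `Q = I' ∩ bag` (`cap n (bag ..) I'`), of length
`≤ al bag ≤ wm + qq` (`bag_spec`): it is in the list, and `glue .. Q` is at least as long as `I'`.
`look T' nd J`: all entries of `T'` with first component `nd` have the table `solve .. T nd`, all its entries for
`J` are `(J, I)` with the same `I`; at least one exists; so membership in `look` is membership in `I`.
-/

namespace Pool.Agent.TIA

theorem Solve_fold (l : List (List ℕ)) : ∀ b : List ℕ,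
    (l.foldl (fun b x => if b.length < x.length then x else b) b = b ∨
      l.foldl (fun b x => if b.length < x.length then x else b) b ∈ l) ∧
    b.length ≤ (l.foldl (fun b x => if b.length < x.length then x else b) b).length ∧
    ∀ x ∈ l, x.length ≤ (l.foldl (fun b x => if b.length < x.length then x else b) b).length := by
  induction l with
  | nil => intro b; simp
  | cons a l ih =>
    intro b
    simp only [List.foldl_cons]
    by_cases h : b.length < a.length
    · simp only [h, if_true]
      obtain ⟨h1, h2, h3⟩ := ih a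
      refine ⟨Or.inr ?_, by omega, ?_⟩
      · rcases h1 with h1 | h1
        · rw [h1]; exact List.mem_cons_self
        · exact List.mem_cons_of_mem _ h1
      · intro x hx
        rcases List.mem_cons.1 hx with rfl | hx
        · exact h2
        · exact h3 x hx
    · simp only [h, if_false]
      obtain ⟨h1, h2, h3⟩ := ih b
      refine ⟨?_, h2, ?_⟩
      · rcases h1 with h1 | h1
        · exact Or.inl h1
        · exact Or.inr (List.mem_cons_of_mem _ h1)
      · intro x hx
        rcases List.mem_cons.1 hx with rfl | hx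
        · omega
        · exact h3 x hx

theorem longest_spec (l : List (List ℕ)) (hl : l ≠ []) : longest l ∈ l ∧
    ∀ x ∈ l, x.length ≤ (longest l).length := by
  obtain ⟨h1, h2, h3⟩ := Solve_fold l []
  change (longest l = [] ∨ longest l ∈ l) at h1
  change ∀ x ∈ l, x.length ≤ (longest l).length at h3
  refine ⟨?_, h3⟩
  rcases h1 with h1 | h1
  · obtain ⟨a, l', rfl⟩ := List.exists_cons_of_ne_nil hl
    have h4 := h3 a List.mem_cons_self
    rw [h1, List.length_nil, Nat.le_zero, List.length_eq_zero_iff] at h4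
    rw [h1, h4]
    exact List.mem_cons_self
  · exact h1

theorem Solve_look (T : List (Nd × Tab)) (nd : Nd) (J : List ℕ) (v : ℕ) :
    v ∈ look T nd J ↔ ∃ e ∈ T, e.1 = nd ∧ ∃ r ∈ e.2, r.1 = J ∧ v ∈ r.2 := by
  unfold look
  rw [List.mem_flatMap]
  constructor
  · rintro ⟨e, he, hv⟩
    by_cases h : e.1 = nd
    · rw [if_pos h, List.mem_flatMap] at hv
      obtain ⟨r, hr, hv⟩ := hv
      by_cases h' : r.1 = J
      · rw [if_pos h'] at hv
        exact ⟨e, he, h, r, hr, h', hv⟩
      · rw [if_neg h'] at hv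
        exact absurd hv List.not_mem_nil
    · rw [if_neg h] at hv
      exact absurd hv List.not_mem_nil
  · rintro ⟨e, he, h, r, hr, h', hv⟩
    refine ⟨e, he, ?_⟩
    rw [if_pos h, List.mem_flatMap]
    exact ⟨r, hr, by rw [if_pos h']; exact hv⟩

theorem solve_ok (k t n : ℕ) (E : List (ℕ × ℕ)) (h : Hyp k t n E) (nd : Nd)
    (hv : Valid k t n E nd) (T : List (Nd × Tab))
    (hT : ∀ ch ∈ children k t n E nd, TabOK E n T ch) (L : List Nd) (hL : nd ∈ L) :
    TabOK E n (lstep k t n E T L) nd := by
  intro J hJ hJsub hJi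
  obtain ⟨b1, b2, b3, b4⟩ := bag_spec h hv
  -- membership of a candidate
  have hmemQ : ∀ Q, Srt n Q → (∀ v ∈ Q, v ∈ bag k t n E nd) → Ind (gE E) (toS Q) →
      cap n nd.2 Q = J → Q ∈ (subs (bag k t n E nd) (wm k t + qq k t)).filter
        (fun Q => indB E Q && decide (cap n nd.2 Q = J)) := by
    intro Q hQ hQb hQi hQJ
    rw [List.mem_filter]
    refine ⟨(mem_subs b1.nodup).2 ⟨hQ.sublist_of_subset b1 hQb, ?_⟩, ?_⟩
    · exact (length_le_al hQ.nodup hQi (toS_finite _) hQb).trans b4
    · rw [Bool.and_eq_true]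
      exact ⟨(indB_iff h.good).2 hQi, decide_eq_true hQJ⟩
  have hmemQ' : ∀ Q, Q ∈ (subs (bag k t n E nd) (wm k t + qq k t)).filter
        (fun Q => indB E Q && decide (cap n nd.2 Q = J)) →
      Srt n Q ∧ (∀ v ∈ Q, v ∈ bag k t n E nd) ∧ Ind (gE E) (toS Q) ∧ cap n nd.2 Q = J := by
    intro Q hQ
    rw [List.mem_filter, Bool.and_eq_true] at hQ
    obtain ⟨hQ1, hQ2, hQ3⟩ := hQ
    have hQ4 := ((mem_subs b1.nodup).1 hQ1).1
    exact ⟨b1.sublist hQ4, fun v hv => hQ4.subset hv, (indB_iff h.good).1 hQ2,
      of_decide_eq_true hQ3⟩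
  set F := (subs (bag k t n E nd) (wm k t + qq k t)).filter
        (fun Q => indB E Q && decide (cap n nd.2 Q = J)) with hF
  have hJcap : cap n nd.2 J = J := by
    refine srt_cap.ext hJ fun v => ?_
    rw [mem_cap hv.srtW.lt]
    exact ⟨fun h => h.2, fun h => ⟨hJsub v h, h⟩⟩
  have hJF : J ∈ F := hmemQ J hJ (fun v hv => b3 v (hJsub v hv)) hJi hJcap
  have hne : F.map (glue k t n E T nd) ≠ [] := by
    intro h0
    have h1 : glue k t n E T nd J ∈ F.map (glue k t n E T nd) := List.mem_map_of_mem hJF
    rw [h0] at h1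
    exact absurd h1 List.not_mem_nil
  obtain ⟨m1, m2⟩ := longest_spec _ hne
  set I := longest (F.map (glue k t n E T nd)) with hI
  obtain ⟨Q, hQF, hQI⟩ := List.mem_map.1 m1
  obtain ⟨q1, q2, q3, q4⟩ := hmemQ' Q hQF
  have opt := glue_opt k t n E h nd hv T hT Q q1 q2 q3
  rw [hQI] at opt
  refine ⟨I, ⟨opt.srt, opt.sub, opt.ind, ?_, ?_⟩, ?_⟩
  · intro v hv2
    rw [opt.trace v (b3 v hv2), ← q4, mem_cap hv.srtW.lt]
    exact ⟨fun h => ⟨hv2, h⟩, fun h => h.2⟩
  · intro I' i1 i2 i3 i4
    have c1 : ∀ v, v ∈ cap n (bag k t n E nd) I' ↔ v ∈ bag k t n E nd ∧ v ∈ I' :=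
      fun v => mem_cap b1.lt
    have c2 : cap n nd.2 (cap n (bag k t n E nd) I') = J := by
      refine srt_cap.ext hJ fun v => ?_
      rw [mem_cap hv.srtW.lt, c1]
      constructor
      · rintro ⟨h1, h2, h3⟩
        exact (i4 v h1).1 h3
      · intro h1
        exact ⟨hJsub v h1, b3 v (hJsub v h1), (i4 v (hJsub v h1)).2 h1⟩
    have c3 : Ind (gE E) (toS (cap n (bag k t n E nd) I')) := by
      intro x hx y hy
      exact i3 x ((c1 x).1 hx).2 y ((c1 y).1 hy).2
    have c4 := hmemQ _ srt_cap (fun v hv => ((c1 v).1 hv).1) c3 c2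
    have c5 := m2 _ (List.mem_map_of_mem (f := glue k t n E T nd) c4)
    have c6 := (glue_opt k t n E h nd hv T hT _ srt_cap (fun v hv => ((c1 v).1 hv).1) c3).max
      I' i1 i2 i3 (fun v hv => by rw [c1]; exact ⟨fun h => ⟨hv, h⟩, fun h => h.2⟩)
    exact c6.trans c5
  · intro v
    rw [Solve_look]
    constructor
    · rintro ⟨e, he, h1, r, hr, h2, h3⟩
      unfold lstep at he
      obtain ⟨nd', hnd', rfl⟩ := List.mem_map.1 he
      change nd' = nd at h1
      subst h1
      change r ∈ solve k t n E T nd' at hr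
      unfold solve at hr
      obtain ⟨J', hJ', rfl⟩ := List.mem_map.1 hr
      change J' = J at h2
      subst h2
      exact h3
    · intro hvI
      refine ⟨(nd, solve k t n E T nd), List.mem_map.2 ⟨nd, hL, rfl⟩, rfl, (J, I), ?_, rfl, hvI⟩
      show (J, I) ∈ solve k t n E T nd
      unfold solve
      refine List.mem_map.2 ⟨J, ?_, rfl⟩
      rw [List.mem_filter]
      refine ⟨(mem_subs hv.srtW.nodup).2 ⟨hJ.sublist_of_subset hv.srtW hJsub, ?_⟩,
        (indB_iff h.good).2 hJi⟩
      exact (length_le_al hJ.nodup hJi (toS_finite _) hJsub).trans hv.al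

end Pool.Agent.TIA
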