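import Pool.Agent.TIA.Claim1
import Pool.Agent.TIA.Claim2

/-!
# Stage: a bounded set meets all large cliques (section I of the notes)

`e`, `q'` from `claim2 s p n`; `n'` from `claim1 k s p e (max n 1)` (so `n' ≥ 1`); given `m`: `R` from `claim1`;
`w = R * n' + R * n' * 2 ^ m * q'`.
Take a sequence `Y_0, ..., Y_{j-1}` of structures `Clq G B M n' p` with pairwise disjoint cliques and pairwise (for `i < i'`)
not `e`-linked with `j` maximal (`j < R` by `claim1`; `Nat.findGreatest` or strong induction). Let `C` be the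
union of the cliques (a Finset with `≤ R n'` elements, all in `B`), and for `c ∈ C`, `U ⊆ M` with `U.card = e` choose
`u = u(c, U)` from `claim2` (same `n'`). `W = C ∪ ⋃ TSet G B M p n' c U u(c,U)`.
Let `(h, x)` be any structure. By maximality it cannot be appended: either a vertex `x i 0` is in `C`, or its clique is
disjoint from `C` and `Y_i` is linked to it for some `i` (`Linked` with `Y_i` first): `U0`, `U0.card = e + 1`. Choose
`u0 ∈ U0`, `U = U0.erase u0`, `c` = clique vertex of `Y_i` for `u0`. Then `c` is adjacent to the clique vertices of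
`(h, x)` for all `v ∈ U`, so for `u = u(c, U)` the clique vertex `x i 0` with `h i = u` is in `TSet ... c U u ⊆ W`.
-/

namespace Pool.Agent.TIA

theorem stage (k s p n : ℕ) : ∃ n', n ≤ n' ∧ ∀ m, ∃ w, ∀ (V : Type) [Finite V]
    (G : SimpleGraph V) (M : Finset V) (B : Set V), PFree G k → KFree G s →
    Ind G (M : Set V) → M.card ≤ m → Sparse G B M s → (∀ b ∈ B, b ∉ M) →
    ¬ HasStar G B M n → (∀ p' < p, ¬ HasClq G B M n p') →
    ∃ W : Set V, al G W ≤ w ∧ ∀ h x, Clq G B M n' p h x → ∃ i < n', x i 0 ∈ W := by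
  classical
  obtain ⟨e, q', he, hcl2⟩ := claim2 s p n
  obtain ⟨n', hn', hcl1⟩ := claim1 k s p e (max n 1)
  refine ⟨n', le_trans (le_max_left _ _) hn', fun m => ?_⟩
  obtain ⟨R, hR⟩ := hcl1 m
  refine ⟨R * n' + R * n' * 2 ^ m * q', ?_⟩
  intro V _ G M B hP hK hM hMc hSp hBM hS hC
  have hR' := hR V G M B hP hK hM hMc hBM
  -- a maximal sequence
  set Q : ℕ → Prop := fun j => ∃ (h : ℕ → ℕ → V) (x : ℕ → ℕ → ℕ → V),
    (∀ i < j, Clq G B M n' p (h i) (x i)) ∧
    (∀ i < j, ∀ i' < j, i ≠ i' → ∀ u < n', ∀ v < n', x i u 0 ≠ x i' v 0) ∧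
    (∀ i i', i < i' → i' < j → ¬ Linked G e n' (h i) (x i) (h i') (x i')) with hQ
  have hQR : ¬ Q R := by
    rintro ⟨h, x, h1, h2, h3⟩
    exact hR' h x h1 h2 h3
  by_cases hne : Nonempty V
  swap
  · refine ⟨∅, by rw [al_empty]; exact Nat.zero_le _, ?_⟩
    intro h
    exact absurd ⟨h 0⟩ hne
  obtain ⟨v0⟩ := hne
  have hQ0 : Q 0 := ⟨fun _ _ => v0, fun _ _ _ => v0, fun i hi => absurd hi (by omega),
    fun i hi => absurd hi (by omega), fun i i' _ hi => absurd hi (by omega)⟩
  have hmax : ∃ j < R, Q j ∧ ¬ Q (j + 1) := by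
    by_contra hcon
    push Not at hcon
    have : ∀ j ≤ R, Q j := by
      intro j
      induction j with
      | zero => exact fun _ => hQ0
      | succ j ih => exact fun hj => hcon j (by omega) (ih (by omega))
    exact hQR (this R le_rfl)
  obtain ⟨j, hjR, ⟨h, x, h1, h2, h3⟩, hQ1⟩ := hmax
  set C : Finset V := (Finset.range j ×ˢ Finset.range n').image (fun iu => x iu.1 iu.2 0) with hCdef
  have hCB : ∀ c ∈ C, c ∈ B := by
    intro c hc
    rw [hCdef, Finset.mem_image] at hc
    obtain ⟨⟨i, u⟩, hiu, rfl⟩ := hc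
    rw [Finset.mem_product, Finset.mem_range, Finset.mem_range] at hiu
    exact ((h1 i hiu.1).leg u hiu.2).1 0 (Nat.zero_le _)
  have hCcard : C.card ≤ R * n' := by
    refine le_trans Finset.card_image_le ?_
    rw [Finset.card_product, Finset.card_range, Finset.card_range]
    exact Nat.mul_le_mul_right _ hjR.le
  have hch : ∀ (c : V) (U : Finset V), ∃ u, (c ∈ B → U ⊆ M → U.card = e →
      u ∈ U ∧ al G (TSet G B M p n' c U u) ≤ q') := by
    intro c U
    by_cases hh : c ∈ B ∧ U ⊆ M ∧ U.card = e
    · obtain ⟨u, hu, hu'⟩ := hcl2 V G M B hK hSp hBM hS hC n' c hh.1 U hh.2.1 hh.2.2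
      exact ⟨u, fun _ _ _ => ⟨hu, hu'⟩⟩
    · exact ⟨v0, fun a b c => absurd ⟨a, b, c⟩ hh⟩
  choose f hf using hch
  set T : V × Finset V → Set V := fun cu => TSet G B M p n' cu.1 cu.2 (f cu.1 cu.2) with hT
  set F : Finset (V × Finset V) := C ×ˢ M.powersetCard e with hF
  refine ⟨(C : Set V) ∪ ⋃ cu ∈ F, T cu, ?_, ?_⟩
  · refine le_trans (al_union_le (Set.toFinite _) (Set.toFinite _)) ?_
    have e1 : al G (C : Set V) ≤ R * n' := le_trans (al_le_card C) hCcard
    have e2 : al G (⋃ cu ∈ F, T cu) ≤ F.card * q' := by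
      refine al_biUnion_le F T (fun i _ => Set.toFinite _) q' ?_
      intro cu hcu
      rw [hF, Finset.mem_product, Finset.mem_powersetCard] at hcu
      exact (hf cu.1 cu.2 (hCB _ hcu.1) hcu.2.1 hcu.2.2).2
    have e3 : F.card ≤ R * n' * 2 ^ m := by
      rw [hF, Finset.card_product, Finset.card_powersetCard]
      refine Nat.mul_le_mul hCcard ?_
      refine le_trans (Nat.choose_le_two_pow _ _) ?_
      exact Nat.pow_le_pow_right (by norm_num) hMc
    exact Nat.add_le_add e1 (le_trans e2 (Nat.mul_le_mul_right _ e3))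
  · intro h' x' hY
    by_contra hcon
    push Not at hcon
    apply hQ1
    refine ⟨fun i => if i < j then h i else h', fun i => if i < j then x i else x', ?_, ?_, ?_⟩
    · intro i hi
      by_cases hij : i < j
      · simp only [hij, if_true]
        exact h1 i hij
      · simp only [hij, if_false]
        exact hY
    · intro i hi i' hi' hne u hu v hv
      have key : ∀ i < j, ∀ u < n', ∀ v < n', x i u 0 ≠ x' v 0 := by
        intro i hi u hu v hv heq
        apply hcon v hv
        refine Or.inl ?_
        rw [Finset.mem_coe, hCdef, Finset.mem_image]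
        exact ⟨(i, u), by simp [hi, hu], heq⟩
      by_cases hij : i < j
      · by_cases hij' : i' < j
        · simp only [hij, hij', if_true]
          exact h2 i hij i' hij' hne u hu v hv
        · simp only [hij, hij', if_true, if_false]
          exact key i hij u hu v hv
      · by_cases hij' : i' < j
        · simp only [hij, hij', if_true, if_false]
          exact fun hh => key i' hij' v hv u hu hh.symm
        · exact absurd (show i = i' by omega) hne
    · intro i i' hii hi'
      have hij : i < j := by omega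
      by_cases hij' : i' < j
      · simp only [hij, hij', if_true]
        exact h3 i i' hii hij'
      · simp only [hij, hij', if_true, if_false]
        rintro ⟨U0, hU0c, hU0, hU1⟩
        have hpos : 0 < U0.card := by omega
        obtain ⟨u0, hu0⟩ := Finset.card_pos.mp hpos
        have hUc : (U0.erase u0).card = e := by
          rw [Finset.card_erase_of_mem hu0, hU0c]
          rfl
        obtain ⟨⟨a, ha, hau⟩, -⟩ := hU0 u0 hu0
        have hcC : x i a 0 ∈ C := by
          rw [hCdef, Finset.mem_image]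
          exact ⟨(i, a), by simp [hij, ha], rfl⟩
        have hUM : U0.erase u0 ⊆ M := by
          intro v hv
          obtain ⟨⟨b, hb, hbv⟩, -⟩ := hU0 v (Finset.mem_of_mem_erase hv)
          rw [← hbv]
          exact (h1 i hij).hubs.1 b hb
        obtain ⟨hfU, -⟩ := hf (x i a 0) (U0.erase u0) (hCB _ hcC) hUM hUc
        obtain ⟨-, b, hb, hbv⟩ := hU0 _ (Finset.mem_of_mem_erase hfU)
        apply hcon b hb
        refine Or.inr ?_
        rw [Set.mem_iUnion₂]
        refine ⟨(x i a 0, U0.erase u0), ?_, ?_⟩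
        · rw [hF, Finset.mem_product, Finset.mem_powersetCard]
          exact ⟨hcC, hUM, hUc⟩
        · refine ⟨h', x', hY, ?_, b, hb, hbv, rfl⟩
          intro v hv
          obtain ⟨-, b', hb', hbv'⟩ := hU0 v (Finset.mem_of_mem_erase hv)
          refine ⟨b', hb', hbv', ?_⟩
          have hvne : u0 ≠ v := fun hh => (Finset.ne_of_mem_erase hv) hh.symm
          refine hU1 a ha b' hb' ?_ ?_ ?_
          · rw [hau]; exact hu0
          · rw [hbv']; exact Finset.mem_of_mem_erase hv
          · rw [hau, hbv']; exact hvne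

end Pool.Agent.TIA
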