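import Pool.Agent.TIA.Stage
import Pool.Agent.TIA.AlB

/-!
# Stages: iteration of `stage` for `p = 0, 1, ..., P - 1` inside the haven

Induction on `P`. `P = 0`: `n = n0`, `w = 0`, `X = X1`. Step: `n_P`, `w_P` by induction, `n'`, `w'` from
`stage k s P n_P`; new `n = n'`, new `w = w_P + w'`. Given `X` for `P` (`X1 ⊆ X`, so `H.β X ⊆ H.β X1`: `Sparse.mono`;
`M ⊆ X` so `H.β X` is disjoint from `M` by `H.disj`) apply `stage` with `B = H.β X` to get `W`; `X' = X ∪ W`,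
`al G X' ≤ al G X + w' ≤ t`. `H.β X' ⊆ H.β X` (`H.mono`) and `H.β X'` is disjoint from `W`, so it contains no
`Clq n' P` (a structure in `H.β X'` is one in `H.β X`, `Clq.mono`, so a clique vertex is in `W`, but it is in
`H.β X'`); no star and no `Clq n' p`, `p < P`, by `HasStar.anti`, `HasClq.anti`.
-/

namespace Pool.Agent.TIA

theorem stages (k s n0 P : ℕ) : ∃ n, n0 ≤ n ∧ ∀ m, ∃ w, ∀ (V : Type) [Finite V]
    (G : SimpleGraph V) (t : ℕ) (H : Haven G t) (M : Finset V) (X1 : Set V), PFree G k →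
    KFree G s → Ind G (M : Set V) → M.card ≤ m → al G X1 + w ≤ t → (M : Set V) ⊆ X1 →
    Sparse G (H.β X1) M s → ¬ HasStar G (H.β X1) M n0 →
    ∃ X, X1 ⊆ X ∧ al G X ≤ al G X1 + w ∧ ¬ HasStar G (H.β X) M n ∧
      ∀ p < P, ¬ HasClq G (H.β X) M n p := by
  induction P with
  | zero =>
    refine ⟨n0, le_rfl, fun m => ⟨0, ?_⟩⟩
    intro V _ G t H M X1 hP hK hI hM ht hMX hS hStar
    exact ⟨X1, subset_rfl, le_rfl, hStar, fun p hp => absurd hp (Nat.not_lt_zero p)⟩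
  | succ P ih =>
    obtain ⟨n, hn, ih⟩ := ih
    obtain ⟨n', hn', st⟩ := stage k s P n
    refine ⟨n', hn.trans hn', fun m => ?_⟩
    obtain ⟨w, hw⟩ := ih m
    obtain ⟨w', hw'⟩ := st m
    refine ⟨w + w', ?_⟩
    intro V _ G t H M X1 hP hK hI hM ht hMX hS hStar
    obtain ⟨X, hX1, hX2, hX3, hX4⟩ :=
      hw V G t H M X1 hP hK hI hM (by omega) hMX hS hStar
    have htX : al G X ≤ t := by omega
    have hsub : H.β X ⊆ H.β X1 := H.mono X1 X hX1 htX
    obtain ⟨W, hW1, hW2⟩ := hw' V G M (H.β X) hP hK hI hM (hS.mono hsub)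
      (fun b hb hbM => H.disj X htX b hb (hX1 (hMX hbM))) hX3 hX4
    have hu : al G (X ∪ W) ≤ al G X + al G W := al_union_le (Set.toFinite _) (Set.toFinite _)
    have htu : al G (X ∪ W) ≤ t := by omega
    have hsub' : H.β (X ∪ W) ⊆ H.β X := H.mono X (X ∪ W) Set.subset_union_left htu
    refine ⟨X ∪ W, hX1.trans Set.subset_union_left, by omega, fun h => hX3 (h.anti hn' hsub'),
      fun p hp h => ?_⟩
    rcases Nat.lt_succ_iff_lt_or_eq.1 hp with hp | rfl
    · exact hX4 p hp (h.anti hn' hsub')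
    · obtain ⟨g, x, hc⟩ := h
      obtain ⟨i, hi, hiW⟩ := hW2 g x (hc.mono hsub')
      exact H.disj (X ∪ W) htu (x i 0) ((hc.leg i hi).1 0 (Nat.zero_le _)) (Or.inr hiW)

end Pool.Agent.TIA
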