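import Pool.Agent.TIA.Chain
import Pool.Agent.TIA.StructB

/-!
# StarCh: many stars with the same hubs give an induced path (section F of the notes)

Let `P = p + 1` and `y i u 0 = r i`, `y i u (a+1) = x i u a` (`cmb r x`). The data: `N` stars with centres `r i`
(pairwise distinct, nonadjacent), the same hubs `h u` (`u < L`), legs `x i u`. `HomF` with tables `E`, `A`.
1. `E .lt a b` is false for all `a, b ≤ P`: if `y i u a = y j v b` for all `i < j`, `u < v`: if `b ≥ 1`, take
   `u = 0, v = 1, 2`, `i = 0, j = 1`: `y 1 1 b = y 1 2 b`, but legs of one star are disjoint. If `b = 0` then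
   `y 0 0 a = r 1 = r 2`, contradiction. `E .gt a b` is false in the same way (`u = 2, 1`, `v = 0`: if `a ≥ 1`,
   `y 0 1 a = y 0 2 a` (= y 1 0 b); if `a = 0` use `i = 0, 1, j = 2`: `r 0 = y 2 v b = r 1`).
2. `E .eq a b` implies `a = b` (`y 0 u a = y 1 u b = y 2 u b` [pairs (0,1), (0,2)] and `y 1 u a = y 2 u b`, so
   `y 1 u a = y 1 u b`; the leg together with the centre is injective); `E .eq 0 0` is false (`r 0 ≠ r 1`);
   `E .eq 1 1` is false: otherwise `f u = x 0 u 0 = x i u 0` for all `i`, `u < s` is an independent set adjacent to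
   all `r i`, `i < s`: `K_{s,s}`.
3. `a0` = least `a ≤ P` with `E .eq a a`, or `P + 1` if there is none; `a0 ≥ 2`. `e u = y 0 u a0` (which is
   `y j u a0` for all `j < N`) if `a0 ≤ P`, and `e u = h u` if `a0 = P + 1`.
4. `A .lt a b` is false for all `a, b < a0`: (0,0): centres independent. (0,b), b ≥ 1: `{r i : i < s}` against
   `{y s v b : 1 ≤ v ≤ s}`: both independent, complete: `K_{s,s}`. (a,0), a ≥ 1: `{y 0 u a : u < s}` against
   `{r j : 1 ≤ j ≤ s}`. (a,b ≥ 1): `{y 0 u a : u < s}` against `{y 1 v b : s ≤ v < 2s}`.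
5. `chain` with `K = k`, `x := y`: c1, c1' from the legs (`r i` adjacent to the first vertex; last vertex
   adjacent to the hub); c2 equality; c3 = 1. + 4.; c4: `e u = y j u a0` (`a0 ≥ 2`) against `y j v b`: different legs
   of the star `j`, or (`b = 0`) the centre `r j`, which is adjacent only to the first vertices `y j u 1`; in the hub
   case `crossHub`, `cenHub`; `h u ∉ B`. c5 similar (`Ind G M`). c6a: 2.; c6b: injectivity of the leg, `cenLeg`,
   resp. `h u ∉ B`; c6c: `cenLeg`; c6d: `cross`, `cenLeg`.
-/

namespace Pool.Agent.TIA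

variable {V : Type} {G : SimpleGraph V}

/-- centres at level 0, legs at the levels `≥ 1` -/
def cmb (r : ℕ → V) (x : ℕ → ℕ → ℕ → V) : ℕ → ℕ → ℕ → V
  | i, _, 0 => r i
  | i, u, a + 1 => x i u a

/-- `K_{s,s}`-freeness for sequences -/
theorem StarCh_kf {s : ℕ} (hK : KFree G s) (f g : ℕ → V)
    (hf : ∀ i < s, ∀ j < s, i ≠ j → f i ≠ f j ∧ ¬ G.Adj (f i) (f j))
    (hg : ∀ i < s, ∀ j < s, i ≠ j → g i ≠ g j ∧ ¬ G.Adj (g i) (g j))
    (hfg : ∀ i < s, ∀ j < s, G.Adj (f i) (g j)) : False := by
  classical
  have hind : ∀ f : ℕ → V, (∀ i < s, ∀ j < s, i ≠ j → f i ≠ f j ∧ ¬ G.Adj (f i) (f j)) →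
      Ind G (((Finset.range s).image f : Finset V) : Set V) ∧
        s ≤ ((Finset.range s).image f).card := by
    intro f hf
    constructor
    · intro a ha b hb hab
      rw [Finset.mem_coe, Finset.mem_image] at ha hb
      obtain ⟨i, hi, rfl⟩ := ha
      obtain ⟨j, hj, rfl⟩ := hb
      rw [Finset.mem_range] at hi hj
      by_cases hij : i = j
      · subst hij; exact G.loopless.irrefl _ hab
      · exact (hf i hi j hj hij).2 hab
    · rw [Finset.card_image_of_injOn, Finset.card_range]
      intro i hi j hj hij
      by_contra hne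
      rw [Finset.mem_coe, Finset.mem_range] at hi hj
      exact (hf i hi j hj hne).1 hij
  refine hK _ _ (hind f hf).1 (hind g hg).1 ?_ (hind f hf).2 (hind g hg).2
  intro a ha b hb
  rw [Finset.mem_image] at ha hb
  obtain ⟨i, hi, rfl⟩ := ha
  obtain ⟨j, hj, rfl⟩ := hb
  rw [Finset.mem_range] at hi hj
  exact hfg i hi j hj

theorem StarCh_mem {B : Set V} {M : Finset V} {L p : ℕ} {r h : ℕ → V} {x : ℕ → ℕ → ℕ → V} {i : ℕ}
    (hs : Star G B M L p (r i) h (x i)) {u a : ℕ} (hu : u < L) (ha : a ≤ p + 1) :
    cmb r x i u a ∈ B := by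
  rcases a with _ | a
  · exact hs.cen
  · exact (hs.leg u hu).1 a (by omega)

theorem StarCh_eq {B : Set V} {M : Finset V} {L p : ℕ} {r h : ℕ → V} {x : ℕ → ℕ → ℕ → V} {i : ℕ}
    (hs : Star G B M L p (r i) h (x i)) {u v a b : ℕ} (hu : u < L) (hv : v < L) (ha : a ≤ p + 1)
    (hb : b ≤ p + 1) (he : cmb r x i u a = cmb r x i v b) :
    (a = 0 ∧ b = 0) ∨ (u = v ∧ a = b) := by
  rcases a with _ | a <;> rcases b with _ | b
  · left; exact ⟨rfl, rfl⟩
  · exact absurd he (hs.cenLeg v hv b (by omega)).1
  · exact absurd he.symm (hs.cenLeg u hu a (by omega)).1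
  · right
    by_cases huv : u = v
    · subst huv
      refine ⟨rfl, ?_⟩
      have := (hs.leg u hu).2.1.1 a (by omega) b (by omega) he
      omega
    · exact absurd he (hs.cross u hu v hv huv a (by omega) b (by omega)).1

theorem StarCh_adj {B : Set V} {M : Finset V} {L p : ℕ} {r h : ℕ → V} {x : ℕ → ℕ → ℕ → V} {i : ℕ}
    (hs : Star G B M L p (r i) h (x i)) {u v a b : ℕ} (hu : u < L) (hv : v < L) (ha : a ≤ p + 1)
    (hb : b ≤ p + 1) :
    G.Adj (cmb r x i u a) (cmb r x i v b) ↔
      (u = v ∨ a = 0 ∨ b = 0) ∧ (a = b + 1 ∨ b = a + 1) := by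
  rcases a with _ | a <;> rcases b with _ | b
  · constructor
    · intro h; exact absurd h (G.loopless.irrefl _)
    · rintro ⟨_, h⟩; omega
  · have := (hs.cenLeg v hv b (by omega)).2
    constructor
    · intro h
      have := this.1 h
      omega
    · rintro ⟨_, h⟩
      exact this.2 (by omega)
  · have := (hs.cenLeg u hu a (by omega)).2
    constructor
    · intro h
      have := this.1 h.symm
      omega
    · rintro ⟨_, h⟩
      exact (this.2 (by omega)).symm
  · by_cases huv : u = v
    · subst huv
      have := (hs.leg u hu).2.1.2 a (by omega) b (by omega)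
      constructor
      · intro h
        have := this.1 h
        omega
      · rintro ⟨_, h⟩
        exact this.2 (by omega)
    · constructor
      · intro h
        exact absurd h (hs.cross u hu v hv huv a (by omega) b (by omega)).2
      · rintro ⟨h, _⟩
        omega

theorem StarCh_hub {B : Set V} {M : Finset V} {L p : ℕ} {r h : ℕ → V} {x : ℕ → ℕ → ℕ → V} {i : ℕ}
    (hs : Star G B M L p (r i) h (x i)) {u v a : ℕ} (hu : u < L) (hv : v < L) (ha : a ≤ p + 1) :
    G.Adj (cmb r x i u a) (h v) ↔ (u = v ∧ a = p + 1) := by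
  rcases a with _ | a
  · constructor
    · intro h; exact absurd h (hs.cenHub v hv)
    · rintro ⟨_, h⟩; omega
  · by_cases huv : u = v
    · subst huv
      have := (hs.leg u hu).2.2 a (by omega)
      constructor
      · intro h
        have := this.1 h
        omega
      · rintro ⟨_, h⟩
        exact this.2 (by omega)
    · constructor
      · intro h
        exact absurd h (hs.crossHub u hu v hv huv a (by omega))
      · rintro ⟨h, _⟩
        omega

theorem star_chain (k s N L p : ℕ) (hk : 1 ≤ k) (hN : k + 1 ≤ N) (hN' : s + 3 ≤ N) (hL : k ≤ L)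
    (hL' : 2 * s + 3 ≤ L) (hK : KFree G s) (M : Finset V) (B : Set V)
    (hM : Ind G (M : Set V)) (hB : ∀ b ∈ B, b ∉ M) (r h : ℕ → V) (x : ℕ → ℕ → ℕ → V)
    (hst : ∀ i < N, Star G B M L p (r i) h (x i))
    (hr : ∀ i < N, ∀ j < N, i ≠ j → r i ≠ r j ∧ ¬ G.Adj (r i) (r j))
    (E A : Ordering → ℕ → ℕ → Prop) (hom : HomF G N L (p + 1) (cmb r x) E A) :
    ∃ q, IPath G k q := by
  have h0N : 0 < N := by omega
  have h1N : 1 < N := by omega
  have h2N : 2 < N := by omega
  have h0L : 0 < L := by omega
  have h1L : 1 < L := by omega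
  have h2L : 2 < L := by omega
  have hlt : ∀ i j, i < j → j < N → ∀ u v, u < v → v < L → ∀ a ≤ p + 1, ∀ b ≤ p + 1,
      (cmb r x i u a = cmb r x j v b ↔ E .lt a b) ∧
        (G.Adj (cmb r x i u a) (cmb r x j v b) ↔ A .lt a b) := by
    intro i j hij hj u v huv hv a ha b hb
    have := hom i j hij hj u (huv.trans hv) v hv a ha b hb
    rw [compare_lt_iff_lt.2 huv] at this
    exact this
  have hgt : ∀ i j, i < j → j < N → ∀ u v, v < u → u < L → ∀ a ≤ p + 1, ∀ b ≤ p + 1,
      (cmb r x i u a = cmb r x j v b ↔ E .gt a b) ∧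
        (G.Adj (cmb r x i u a) (cmb r x j v b) ↔ A .gt a b) := by
    intro i j hij hj u v huv hu a ha b hb
    have := hom i j hij hj u hu v (huv.trans hu) a ha b hb
    rw [compare_gt_iff_gt.2 huv] at this
    exact this
  have heq : ∀ i j, i < j → j < N → ∀ u, u < L → ∀ a ≤ p + 1, ∀ b ≤ p + 1,
      (cmb r x i u a = cmb r x j u b ↔ E .eq a b) ∧
        (G.Adj (cmb r x i u a) (cmb r x j u b) ↔ A .eq a b) := by
    intro i j hij hj u hu a ha b hb
    have := hom i j hij hj u hu u hu a ha b hb
    rw [compare_eq_iff_eq.2 rfl] at this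
    exact this
  -- step 1
  have E1 : ∀ a ≤ p + 1, ∀ b ≤ p + 1, ¬ E .lt a b := by
    intro a ha b hb hE
    rcases Nat.eq_zero_or_pos b with hb0 | hb0
    · subst hb0
      have e1 := (hlt 0 1 (by omega) h1N 0 1 (by omega) h1L a ha 0 (by omega)).1.2 hE
      have e2 := (hlt 0 2 (by omega) h2N 0 1 (by omega) h1L a ha 0 (by omega)).1.2 hE
      exact (hr 1 h1N 2 h2N (by omega)).1 (e1.symm.trans e2)
    · have e1 := (hlt 0 1 (by omega) h1N 0 1 (by omega) h1L a ha b hb).1.2 hE
      have e2 := (hlt 0 1 (by omega) h1N 0 2 (by omega) h2L a ha b hb).1.2 hE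
      have := StarCh_eq (hst 1 h1N) h1L h2L hb hb (e1.symm.trans e2)
      omega
  -- step 2
  have E2 : ∀ a ≤ p + 1, ∀ b ≤ p + 1, E .eq a b → a = b := by
    intro a ha b hb hE
    have e1 := (heq 0 1 (by omega) h1N 0 h0L a ha b hb).1.2 hE
    have e2 := (heq 0 2 (by omega) h2N 0 h0L a ha b hb).1.2 hE
    have e3 := (heq 1 2 (by omega) h2N 0 h0L a ha b hb).1.2 hE
    have := StarCh_eq (hst 1 h1N) h0L h0L ha hb ((e3.trans e2.symm).trans e1)
    omega
  have E20 : ¬ E .eq 0 0 := by
    intro hE
    have e1 := (heq 0 1 (by omega) h1N 0 h0L 0 (by omega) 0 (by omega)).1.2 hE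
    exact (hr 0 h0N 1 h1N (by omega)).1 e1
  have E21 : ¬ E .eq 1 1 := by
    intro hE
    refine StarCh_kf hK (fun u => cmb r x 0 u 1) (fun i => r (i + 1)) ?_ ?_ ?_
    · intro u hu v hv huv
      constructor
      · intro he
        have := StarCh_eq (hst 0 h0N) (by omega) (by omega) (by omega) (by omega) he
        omega
      · intro he
        have := (StarCh_adj (hst 0 h0N) (by omega) (by omega) (by omega) (by omega)).1 he
        omega
    · intro i hi j hj hij
      exact hr (i + 1) (by omega) (j + 1) (by omega) (by omega)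
    · intro u hu i hi
      have e1 := (heq 0 (i + 1) (by omega) (by omega) u (by omega) 1 (by omega) 1 (by omega)).1.2 hE
      have e2 : G.Adj (cmb r x (i + 1) u 1) (cmb r x (i + 1) u 0) :=
        (StarCh_adj (hst (i + 1) (by omega)) (by omega) (by omega) (by omega) (by omega)).2
          ⟨Or.inl rfl, Or.inl rfl⟩
      show G.Adj (cmb r x 0 u 1) (r (i + 1))
      rw [e1]
      exact e2
  -- step 3
  classical
  have hex : ∃ a, E .eq a a ∨ p + 2 ≤ a := ⟨p + 2, Or.inr le_rfl⟩
  obtain ⟨a0, ha0s, ha0m⟩ : ∃ a0, (E .eq a0 a0 ∨ p + 2 ≤ a0) ∧ ∀ a < a0, ¬ (E .eq a a ∨ p + 2 ≤ a) :=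
    ⟨Nat.find hex, Nat.find_spec hex, fun a ha => Nat.find_min hex ha⟩
  have ha0le : a0 ≤ p + 2 := by
    by_contra hcon
    exact ha0m (p + 2) (by omega) (Or.inr le_rfl)
  have ha02 : 2 ≤ a0 := by
    by_contra hcon
    have : a0 = 0 ∨ a0 = 1 := by omega
    rcases this with rfl | rfl
    · rcases ha0s with h | h
      · exact E20 h
      · omega
    · rcases ha0s with h | h
      · exact E21 h
      · omega
  have ha0E : a0 ≤ p + 1 → ∀ j < N, ∀ u < L, cmb r x 0 u a0 = cmb r x j u a0 := by
    intro hle j hj u hu
    have hE : E .eq a0 a0 := by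
      rcases ha0s with h | h
      · exact h
      · omega
    rcases Nat.eq_zero_or_pos j with hj0 | hj0
    · rw [hj0]
    · exact (heq 0 j hj0 hj u hu a0 hle a0 hle).1.2 hE
  set e : ℕ → V := fun u => if a0 ≤ p + 1 then cmb r x 0 u a0 else h u with he
  have hsN : s < N := by omega
  have hsL : s < L := by omega
  -- step 4
  have A4 : ∀ a < a0, ∀ b < a0, ¬ A .lt a b := by
    intro a ha b hb hA
    have ha' : a ≤ p + 1 := by omega
    have hb' : b ≤ p + 1 := by omega
    rcases Nat.eq_zero_or_pos a with ha0 | ha0 <;> rcases Nat.eq_zero_or_pos b with hb0 | hb0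
    · subst ha0; subst hb0
      have e1 := (hlt 0 1 (by omega) h1N 0 1 (by omega) h1L 0 (by omega) 0 (by omega)).2.2 hA
      exact (hr 0 h0N 1 h1N (by omega)).2 e1
    · subst ha0
      refine StarCh_kf hK (fun i => r i) (fun v => cmb r x s (v + 1) b) ?_ ?_ ?_
      · intro i hi j hj hij
        exact hr i (by omega) j (by omega) hij
      · intro u hu v hv huv
        constructor
        · intro he
          have := StarCh_eq (hst s hsN) (by omega) (by omega) hb' hb' he
          omega
        · intro he
          have := (StarCh_adj (hst s hsN) (by omega) (by omega) hb' hb').1 he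
          omega
      · intro i hi v hv
        exact (hlt i s hi hsN 0 (v + 1) (by omega) (by omega) 0 (by omega) b hb').2.2 hA
    · subst hb0
      refine StarCh_kf hK (fun u => cmb r x 0 u a) (fun j => r (j + 1)) ?_ ?_ ?_
      · intro u hu v hv huv
        constructor
        · intro he
          have := StarCh_eq (hst 0 h0N) (by omega) (by omega) ha' ha' he
          omega
        · intro he
          have := (StarCh_adj (hst 0 h0N) (by omega) (by omega) ha' ha').1 he
          omega
      · intro i hi j hj hij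
        exact hr (i + 1) (by omega) (j + 1) (by omega) (by omega)
      · intro u hu j hj
        exact (hlt 0 (j + 1) (by omega) (by omega) u s hu hsL a ha' 0 (by omega)).2.2 hA
    · refine StarCh_kf hK (fun u => cmb r x 0 u a) (fun v => cmb r x 1 (s + v) b) ?_ ?_ ?_
      · intro u hu v hv huv
        constructor
        · intro he
          have := StarCh_eq (hst 0 h0N) (by omega) (by omega) ha' ha' he
          omega
        · intro he
          have := (StarCh_adj (hst 0 h0N) (by omega) (by omega) ha' ha').1 he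
          omega
      · intro u hu v hv huv
        constructor
        · intro he
          have := StarCh_eq (hst 1 h1N) (by omega) (by omega) hb' hb' he
          omega
        · intro he
          have := (StarCh_adj (hst 1 h1N) (by omega) (by omega) hb' hb').1 he
          omega
      · intro u hu v hv
        exact (hlt 0 1 (by omega) h1N u (s + v) (by omega) (by omega) a ha' b hb').2.2 hA
  -- step 5
  refine chain k a0 hk (by omega) (cmb r x) e ?_ ?_ ?_ ?_ ?_ ?_ ?_ ?_ ?_ ?_
  · intro i hi u hu a ha
    exact (StarCh_adj (hst i (by omega)) (by omega) (by omega) (by omega) (by omega)).2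
      ⟨Or.inl rfl, Or.inr rfl⟩
  · intro i hi u hu
    by_cases hle : a0 ≤ p + 1
    · have e1 : e u = cmb r x i u a0 := by
        rw [he]; simp only [if_pos hle]; exact ha0E hle i (by omega) u (by omega)
      rw [e1]
      exact (StarCh_adj (hst i (by omega)) (by omega) (by omega) (by omega) (by omega)).2
        ⟨Or.inl rfl, Or.inr (by omega)⟩
    · have e1 : e u = h u := by rw [he]; simp only [if_neg hle]
      rw [e1]
      exact (StarCh_hub (hst i (by omega)) (by omega) (by omega) (by omega)).2 ⟨rfl, by omega⟩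
  · intro i hi u hu v hv
    left; rfl
  · intro i j hij hj u v huv hv a ha b hb
    have hh := hlt i j hij (by omega) u v huv (by omega) a (by omega) b (by omega)
    exact ⟨fun h => E1 a (by omega) b (by omega) (hh.1.1 h), fun h => A4 a ha b hb (hh.2.1 h)⟩
  · intro j hj u hu v hv huv b hb
    by_cases hle : a0 ≤ p + 1
    · have e1 : e u = cmb r x j u a0 := by
        rw [he]; simp only [if_pos hle]; exact ha0E hle j (by omega) u (by omega)
      rw [e1]
      constructor
      · intro h
        have := StarCh_eq (hst j (by omega)) (by omega) (by omega) (by omega) (by omega) h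
        omega
      · intro h
        have := (StarCh_adj (hst j (by omega)) (by omega) (by omega) (by omega) (by omega)).1 h
        omega
    · have e1 : e u = h u := by rw [he]; simp only [if_neg hle]
      rw [e1]
      constructor
      · intro h'
        refine hB _ (StarCh_mem (hst j (by omega)) (u := v) (a := b) (by omega) (by omega)) ?_
        rw [← h']
        exact (hst j (by omega)).hubs.1 u (by omega)
      · intro h'
        have := (StarCh_hub (hst j (by omega)) (by omega) (by omega) (by omega)).1 h'.symm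
        omega
  · intro u hu v hv huv
    by_cases hle : a0 ≤ p + 1
    · have e1 : ∀ u, e u = cmb r x 0 u a0 := by
        intro u; rw [he]; simp only [if_pos hle]
      rw [e1, e1]
      constructor
      · intro h
        have := StarCh_eq (hst 0 (by omega)) (by omega) (by omega) (by omega) (by omega) h
        omega
      · intro h
        have := (StarCh_adj (hst 0 (by omega)) (by omega) (by omega) (by omega) (by omega)).1 h
        omega
    · have e1 : ∀ u, e u = h u := by intro u; rw [he]; simp only [if_neg hle]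
      rw [e1, e1]
      constructor
      · intro h'
        exact huv ((hst 0 h0N).hubs.2 u (by omega) v (by omega) h')
      · exact hM _ ((hst 0 h0N).hubs.1 u (by omega)) _ ((hst 0 h0N).hubs.1 v (by omega))
  · intro i j hij hj u hu a ha h'
    have hE := (heq i j hij (by omega) u (by omega) a (by omega) 0 (by omega)).1.1 h'
    have := E2 a (by omega) 0 (by omega) hE
    subst this
    exact E20 hE
  · intro j hj u hu b hb
    by_cases hle : a0 ≤ p + 1
    · have e1 : e u = cmb r x j u a0 := by
        rw [he]; simp only [if_pos hle]; exact ha0E hle j (by omega) u (by omega)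
      rw [e1]
      intro h
      have := StarCh_eq (hst j (by omega)) (by omega) (by omega) (by omega) (by omega) h
      omega
    · have e1 : e u = h u := by rw [he]; simp only [if_neg hle]
      rw [e1]
      intro h'
      refine hB _ (StarCh_mem (hst j (by omega)) (u := u) (a := b) (by omega) (by omega)) ?_
      rw [← h']
      exact (hst j (by omega)).hubs.1 u (by omega)
  · intro j hj u hu a ha1 ha h'
    have := StarCh_eq (hst j (by omega)) (by omega) (by omega) (by omega) (by omega) h'
    omega
  · intro j hj u hu v hv huv a ha1 ha b hb h'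
    have := StarCh_eq (hst j (by omega)) (by omega) (by omega) (by omega) (by omega) h'
    omega

end Pool.Agent.TIA
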