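import Pool.Agent.TIA.Defs

/-!
# TDD: tree decompositions with bags of bounded independence number (definitions)
-/

namespace Pool.Agent.TIA

variable {V : Type}

/-- `G` has a tree decomposition all of whose bags induce graphs of independence number at most `C`
(that is: the tree-independence number of `G` is at most `C`). -/
def TreeAlphaLe (G : SimpleGraph V) (C : ℕ) : Prop :=
  ∃ (m : ℕ) (T : SimpleGraph (Fin m)) (B : Fin m → Set V), T.IsTree ∧
    (∀ v, ∃ i, v ∈ B i) ∧ (∀ u v, G.Adj u v → ∃ i, u ∈ B i ∧ v ∈ B i) ∧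
    (∀ v, (T.induce {i | v ∈ B i}).Preconnected) ∧
    ∀ i, ∀ I : Finset V, (I : Set V) ⊆ B i → G.IsIndepSet (I : Set V) → I.card ≤ C

/-- Rooted form: nodes `0, ..., m - 1`, root `0`, parent `π j < j`, bags `B j`, for the subgraph induced by `A`. -/
structure RDec (G : SimpleGraph V) (A : Set V) (C m : ℕ) (π : ℕ → ℕ) (B : ℕ → Set V) : Prop where
  pos : 1 ≤ m
  par : ∀ j, 0 < j → j < m → π j < j
  sub : ∀ j < m, B j ⊆ A
  cov : ∀ v ∈ A, ∃ j < m, v ∈ B j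
  edge : ∀ u ∈ A, ∀ v ∈ A, G.Adj u v → ∃ j < m, u ∈ B j ∧ v ∈ B j
  top : ∀ v ∈ A, ∃ j0 < m, v ∈ B j0 ∧ ∀ j < m, v ∈ B j → j = j0 ∨ (0 < j ∧ v ∈ B (π j))
  al : ∀ j < m, al G (B j) ≤ C

end Pool.Agent.TIA
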