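import Pool.Agent.TIA.TDD
import Pool.Agent.TIA.AlB

/-!
# TDa: gluing a child decomposition below the root; conversion to a tree

`rdec_glue`: nodes of `D` first, then those of `D1` shifted by `m`: `π' j = π j` for `j < m`, `π' m = 0`,
`π' (m + j) = m + π1 j` for `j > 0`; `B' j = B j` for `j < m`, `B' (m + j) = B1 j`.
top: `v ∈ A \ A1`: top of `D`; `v ∈ A1 \ A`: `m +` top of `D1` (node `m` is its top or `D1`'s root does not contain
`v`... if `v ∈ B1 0` then the top of `D1` is 0); `v ∈ A ∩ A1 ⊆ W1 ⊆ B 0 ∩ B1 0`: the top is `0` (`0 < j` fails for `j = 0`, so the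
top of `D` is 0), the node `m` has parent `0` whose bag contains `v`.
edge: `u, v ∈ A ∪ A1` adjacent: both in `A` or both in `A1` by `hedge`.
`rdec_single`: one bag.
`treeAlpha_of_rdec`: `T` on `Fin m`: `i ~ j` iff `0 < j ∧ π j = i` or `0 < i ∧ π i = j`. Connected: every `j` reaches `0` (strong
induction). Acyclic: e.g. `SimpleGraph.isTree_iff_connected_and_card`-type lemma: the edges are in bijection with `{1..m-1}`,
`j ↦ s(j, π j)`; or: the largest vertex of a cycle would have two different neighbours that are both smaller, but its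
only smaller neighbour is its parent. `induce` connected: every `i` with `v ∈ B i` reaches the top `j0` (strong
induction on `i`). `IsIndepSet` and `Ind` agree; `al_le_iff` for the last part (V finite).
-/

namespace Pool.Agent.TIA

variable {V : Type} {G : SimpleGraph V}

theorem rdec_single (A : Set V) (C : ℕ) (h : al G A ≤ C) :
    RDec G A C 1 (fun _ => 0) (fun _ => A) where
  pos := le_rfl
  par j h0 h1 := by omega
  sub _ _ := subset_rfl
  cov v hv := ⟨0, one_pos, hv⟩
  edge u hu v hv _ := ⟨0, one_pos, hu, hv⟩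
  top v hv := ⟨0, one_pos, hv, fun j hj _ => Or.inl (by omega)⟩
  al _ _ := h

theorem rdec_glue {A A1 W1 : Set V} {C m m1 : ℕ} {π π1 : ℕ → ℕ} {B B1 : ℕ → Set V}
    (hD : RDec G A C m π B) (hD1 : RDec G A1 C m1 π1 B1) (hW : W1 ⊆ B 0) (hW1 : W1 ⊆ B1 0)
    (hAA : A ∩ A1 ⊆ W1) (hedge : ∀ u ∈ A, ∀ v ∈ A1, u ∉ A1 → v ∉ A → ¬ G.Adj u v) :
    ∃ π' B', RDec G (A ∪ A1) C (m + m1) π' B' ∧ B' 0 = B 0 := by
  have hm := hD.pos
  have hm1 := hD1.pos
  obtain ⟨π', hπ⟩ : ∃ π' : ℕ → ℕ, π' = fun j =>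
    if j < m then π j else if j = m then 0 else m + π1 (j - m) := ⟨_, rfl⟩
  obtain ⟨B', hB⟩ : ∃ B' : ℕ → Set V, B' = fun j => if j < m then B j else B1 (j - m) := ⟨_, rfl⟩
  have p1 : ∀ j, j < m → π' j = π j := fun j hj => by rw [hπ]; simp only [hj, if_true]
  have p2 : π' m = 0 := by rw [hπ]; simp only [lt_irrefl, if_false, if_true]
  have p3 : ∀ i, 0 < i → π' (m + i) = m + π1 i := fun i hi => by
    rw [hπ]
    have h1 : ¬ (m + i < m) := by omega
    have h2 : ¬ (m + i = m) := by omega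
    simp only [h1, h2, if_false, Nat.add_sub_cancel_left]
  have b1 : ∀ j, j < m → B' j = B j := fun j hj => by rw [hB]; simp only [hj, if_true]
  have b2 : ∀ i, B' (m + i) = B1 i := fun i => by
    rw [hB]
    have h1 : ¬ (m + i < m) := by omega
    simp only [h1, if_false, Nat.add_sub_cancel_left]
  clear hπ hB
  have split : ∀ j, j < m + m1 → j < m ∨ ∃ i, i < m1 ∧ j = m + i := fun j hj => by
    by_cases h : j < m
    · exact Or.inl h
    · exact Or.inr ⟨j - m, by omega, by omega⟩
  refine ⟨π', B', ⟨?_, ?_, ?_, ?_, ?_, ?_, ?_⟩, b1 0 hm⟩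
  · omega
  · intro j h0 hj
    rcases split j hj with h | ⟨i, hi, rfl⟩
    · rw [p1 j h]; exact hD.par j h0 h
    · rcases Nat.eq_zero_or_pos i with rfl | hi0
      · rw [Nat.add_zero, p2]; exact hm
      · rw [p3 i hi0]
        have := hD1.par i hi0 hi
        omega
  · intro j hj
    rcases split j hj with h | ⟨i, hi, rfl⟩
    · rw [b1 j h]; exact (hD.sub j h).trans Set.subset_union_left
    · rw [b2 i]; exact (hD1.sub i hi).trans Set.subset_union_right
  · rintro v (hv | hv)
    · obtain ⟨j, hj, h⟩ := hD.cov v hv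
      exact ⟨j, by omega, by rw [b1 j hj]; exact h⟩
    · obtain ⟨j, hj, h⟩ := hD1.cov v hv
      exact ⟨m + j, by omega, by rw [b2 j]; exact h⟩
  · intro u hu v hv huv
    by_cases h1 : u ∈ A ∧ v ∈ A
    · obtain ⟨j, hj, h2, h3⟩ := hD.edge u h1.1 v h1.2 huv
      exact ⟨j, by omega, by rw [b1 j hj]; exact h2, by rw [b1 j hj]; exact h3⟩
    by_cases h2 : u ∈ A1 ∧ v ∈ A1
    · obtain ⟨j, hj, h3, h4⟩ := hD1.edge u h2.1 v h2.2 huv
      exact ⟨m + j, by omega, by rw [b2 j]; exact h3, by rw [b2 j]; exact h4⟩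
    exfalso
    by_cases h3 : u ∈ A
    · have h4 : v ∉ A := fun h => h1 ⟨h3, h⟩
      have h5 : v ∈ A1 := hv.resolve_left h4
      have h6 : u ∉ A1 := fun h => h2 ⟨h, h5⟩
      exact hedge u h3 v h5 h6 h4 huv
    · have h4 : u ∈ A1 := hu.resolve_left h3
      have h5 : v ∉ A1 := fun h => h2 ⟨h4, h⟩
      have h6 : v ∈ A := hv.resolve_right h5
      exact hedge v h6 u h4 h5 h3 huv.symm
  · intro v hv
    by_cases h1 : v ∈ A
    · obtain ⟨j0, hj0, h2, h3⟩ := hD.top v h1
      by_cases h4 : v ∈ A1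
      · obtain ⟨j1, hj1, h5, h6⟩ := hD1.top v h4
        have hw : v ∈ W1 := hAA ⟨h1, h4⟩
        have e0 : j0 = 0 := by
          rcases h3 0 hm (hW hw) with h | h
          · exact h.symm
          · exact absurd h.1 (lt_irrefl 0)
        have e1 : j1 = 0 := by
          rcases h6 0 hm1 (hW1 hw) with h | h
          · exact h.symm
          · exact absurd h.1 (lt_irrefl 0)
        subst e0
        subst e1
        refine ⟨0, by omega, by rw [b1 0 hm]; exact h2, ?_⟩
        intro j hj hvj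
        rcases split j hj with h | ⟨i, hi, rfl⟩
        · rw [b1 j h] at hvj
          rcases h3 j h hvj with h7 | ⟨h7, h8⟩
          · exact Or.inl h7
          · right
            refine ⟨h7, ?_⟩
            rw [p1 j h, b1 _ (lt_trans (hD.par j h7 h) h)]
            exact h8
        · rcases Nat.eq_zero_or_pos i with rfl | hi0
          · right
            refine ⟨by omega, ?_⟩
            rw [Nat.add_zero, p2, b1 0 hm]
            exact h2
          · rw [b2 i] at hvj
            rcases h6 i hi hvj with h7 | ⟨h7, h8⟩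
            · omega
            · right
              refine ⟨by omega, ?_⟩
              rw [p3 i hi0, b2]
              exact h8
      · refine ⟨j0, by omega, by rw [b1 j0 hj0]; exact h2, ?_⟩
        intro j hj hvj
        rcases split j hj with h | ⟨i, hi, rfl⟩
        · rw [b1 j h] at hvj
          rcases h3 j h hvj with h7 | ⟨h7, h8⟩
          · exact Or.inl h7
          · right
            refine ⟨h7, ?_⟩
            rw [p1 j h, b1 _ (lt_trans (hD.par j h7 h) h)]
            exact h8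
        · rw [b2 i] at hvj
          exact absurd (hD1.sub i hi hvj) h4
    · have h4 : v ∈ A1 := hv.resolve_left h1
      obtain ⟨j1, hj1, h5, h6⟩ := hD1.top v h4
      refine ⟨m + j1, by omega, by rw [b2 j1]; exact h5, ?_⟩
      intro j hj hvj
      rcases split j hj with h | ⟨i, hi, rfl⟩
      · rw [b1 j h] at hvj
        exact absurd (hD.sub j h hvj) h1
      · rw [b2 i] at hvj
        rcases h6 i hi hvj with h7 | ⟨h7, h8⟩
        · left; rw [h7]
        · right
          refine ⟨by omega, ?_⟩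
          rw [p3 i h7, b2]
          exact h8
  · intro j hj
    rcases split j hj with h | ⟨i, hi, rfl⟩
    · rw [b1 j h]; exact hD.al j h
    · rw [b2 i]; exact hD1.al i hi

/-- the tree of a parent function -/
def TDa_T (m : ℕ) (π : ℕ → ℕ) : SimpleGraph (Fin m) :=
  SimpleGraph.fromRel fun i j => 0 < (i : ℕ) ∧ π i = j

theorem TDa_adj {m : ℕ} {π : ℕ → ℕ} (hπ : ∀ j, 0 < j → j < m → π j < j) {i : ℕ} (hi : i < m)
    (h0 : 0 < i) : (TDa_T m π).Adj ⟨i, hi⟩ ⟨π i, lt_trans (hπ i h0 hi) hi⟩ := by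
  rw [TDa_T, SimpleGraph.fromRel_adj]
  refine ⟨?_, Or.inl ⟨h0, rfl⟩⟩
  intro h
  have h1 : i = π i := congrArg Fin.val h
  have := hπ i h0 hi
  omega

theorem TDa_reach {m : ℕ} {π : ℕ → ℕ} (hπ : ∀ j, 0 < j → j < m → π j < j) (hm : 0 < m) :
    ∀ i (hi : i < m), (TDa_T m π).Reachable ⟨i, hi⟩ ⟨0, hm⟩ := by
  intro i
  induction i using Nat.strong_induction_on with
  | _ i ih =>
    intro hi
    rcases Nat.eq_zero_or_pos i with h | h
    · subst h; exact SimpleGraph.Reachable.refl _
    · exact (TDa_adj hπ hi h).reachable.trans (ih _ (hπ i h hi) _)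

theorem TDa_tree {m : ℕ} {π : ℕ → ℕ} (hπ : ∀ j, 0 < j → j < m → π j < j) (hm : 0 < m) :
    (TDa_T m π).IsTree := by
  have hconn : (TDa_T m π).Connected := by
    have : Nonempty (Fin m) := ⟨⟨0, hm⟩⟩
    refine ⟨fun i j => ?_⟩
    exact (TDa_reach hπ hm i i.2).trans (TDa_reach hπ hm j j.2).symm
  rw [SimpleGraph.isTree_iff_connected_and_card]
  refine ⟨hconn, ?_⟩
  have h1 := hconn.card_vert_le_card_edgeSet_add_one
  have h2 : Nat.card (TDa_T m π).edgeSet ≤ Nat.card (Fin (m - 1)) := by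
    have hlt : ∀ i : Fin (m - 1), (i : ℕ) + 1 < m := fun i => by omega
    refine Nat.card_le_card_of_surjective (fun i : Fin (m - 1) =>
      (⟨s(⟨(i : ℕ) + 1, hlt i⟩, ⟨π (i + 1), lt_trans (hπ _ (Nat.succ_pos _) (hlt i)) (hlt i)⟩),
        TDa_adj hπ (hlt i) (Nat.succ_pos _)⟩ : (TDa_T m π).edgeSet)) ?_
    rintro ⟨e, he⟩
    induction e using Sym2.ind with
    | _ a b =>
      have he' : (TDa_T m π).Adj a b := he
      rw [TDa_T, SimpleGraph.fromRel_adj] at he'
      obtain ⟨hne, h | h⟩ := he'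
      · refine ⟨⟨(a : ℕ) - 1, by omega⟩, ?_⟩
        apply Subtype.ext
        show s(_, _) = s(a, b)
        have ha : (a : ℕ) - 1 + 1 = a := by omega
        congr 1
        · exact Fin.ext ha
        · apply Fin.ext
          show π ((a : ℕ) - 1 + 1) = b
          rw [ha]; exact h.2
      · refine ⟨⟨(b : ℕ) - 1, by omega⟩, ?_⟩
        apply Subtype.ext
        show s(_, _) = s(a, b)
        rw [Sym2.eq_swap (a := a) (b := b)]
        have ha : (b : ℕ) - 1 + 1 = b := by omega
        congr 1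
        · exact Fin.ext ha
        · apply Fin.ext
          show π ((b : ℕ) - 1 + 1) = a
          rw [ha]; exact h.2
  rw [Nat.card_fin] at h1 h2
  rw [Nat.card_fin]
  omega

theorem treeAlpha_of_rdec [Finite V] {C m : ℕ} {π : ℕ → ℕ} {B : ℕ → Set V}
    (hD : RDec G Set.univ C m π B) : TreeAlphaLe G C := by
  refine ⟨m, TDa_T m π, fun i => B i, TDa_tree hD.par hD.pos, ?_, ?_, ?_, ?_⟩
  · intro v
    obtain ⟨j, hj, h⟩ := hD.cov v (Set.mem_univ v)
    exact ⟨⟨j, hj⟩, h⟩
  · intro u v huv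
    obtain ⟨j, hj, h1, h2⟩ := hD.edge u (Set.mem_univ u) v (Set.mem_univ v) huv
    exact ⟨⟨j, hj⟩, h1, h2⟩
  · intro v
    obtain ⟨j0, hj0, h1, h2⟩ := hD.top v (Set.mem_univ v)
    have key : ∀ i (hi : i < m) (hv : v ∈ B i),
        ((TDa_T m π).induce {i : Fin m | v ∈ B i}).Reachable ⟨⟨i, hi⟩, hv⟩ ⟨⟨j0, hj0⟩, h1⟩ := by
      intro i
      induction i using Nat.strong_induction_on with
      | _ i ih =>
        intro hi hv
        rcases h2 i hi hv with h | ⟨h, h'⟩
        · subst h; exact SimpleGraph.Reachable.refl _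
        · have hlt := hD.par i h hi
          have hadj : ((TDa_T m π).induce {i : Fin m | v ∈ B i}).Adj ⟨⟨i, hi⟩, hv⟩
              ⟨⟨π i, lt_trans hlt hi⟩, h'⟩ := TDa_adj hD.par hi h
          exact hadj.reachable.trans (ih _ hlt (lt_trans hlt hi) h')
    rintro ⟨⟨i, hi⟩, hvi⟩ ⟨⟨j, hj⟩, hvj⟩
    exact (key i hi hvi).trans (key j hj hvj).symm
  · intro i I hI hind
    refine (al_le_iff (Set.toFinite _)).1 (hD.al i i.2) I hI ?_
    intro x hx y hy hxy
    exact hind hx hy hxy.ne hxy

end Pool.Agent.TIA
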