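import Pool.Agent.TIA.SepE

/-!
# Tree: the recursion tree (validity of nodes and the potential)

Let `X = sepN nd`, `A = nd.1`, `W⁺ = wplus n nd` (sorted, `⊆ A`, `al ≤ al W + 1 ≤ wm + 1`: `al_union_le`, `al_singleton_le`). By
`sepB_spec`: `X ⊆ A`, `al X ≤ qq - 1` and `al (W⁺ ∩ C) ≤ wm - qq` for the components `C` of `A \ X`. The child of `v`:
`(C ∪ X, (C ∩ W⁺) ∪ X)` with `C = compB E (rest A X) v` (`mem_compB`). `child_valid`: `al ≤ (wm - qq) + (qq - 1) ≤ wm`.
`pot nd = |A \ W|`. For a child `rest ch.1 ch.2` is `C \ W⁺` (as a set; `C` is disjoint from `X`), nonempty by the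
definition of `reps`. Different representatives (smallest elements) have different, hence disjoint components
(`cmp_disj`), so the sum of the potentials of the children is at most `|A \ W⁺| = pot nd - 1` (if `pot nd ≥ 1`; the head of
`rest A W` is the new vertex). If `pot nd = 0` then `W⁺ = W ⊇ A` and there are no representatives.
(For the sum: the lists `rest ch.1 ch.2` for the children are pairwise disjoint sublists of the sorted list
`rest A W⁺`; reps has no duplicates.)
-/

namespace Pool.Agent.TIA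

/-- the independence number of a graph with the data of the algorithm -/
structure Hyp (k t n : ℕ) (E : List (ℕ × ℕ)) : Prop where
  good : GoodE n E
  pos : 1 ≤ k
  pfree : PFree (gE E) k
  bal : BalN (gE E) n t

/-- valid nodes -/
structure Valid (k t n : ℕ) (E : List (ℕ × ℕ)) (nd : Nd) : Prop where
  srtA : Srt n nd.1
  srtW : Srt n nd.2
  sub : ∀ v ∈ nd.2, v ∈ nd.1
  al : al (gE E) (toS nd.2) ≤ wm k t

/-- the potential -/
def pot (nd : Nd) : ℕ := (rest nd.1 nd.2).length

variable {k t n : ℕ} {E : List (ℕ × ℕ)} {nd : Nd}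

theorem root_valid (k t n : ℕ) (E : List (ℕ × ℕ)) : Valid k t n E (root n) := by
  refine ⟨List.Sublist.refl _, List.nil_sublist _, ?_, ?_⟩
  · intro v hv
    simp [root] at hv
  · have : toS (root n).2 = ∅ := by
      ext v
      simp [root, toS]
    rw [this, al_empty]
    exact Nat.zero_le _

theorem treeP_rest_srt {A B : List ℕ} (h : Srt n A) : Srt n (rest A B) :=
  Srt.sublist h List.filter_sublist

theorem treeP_head_mem {v : ℕ} (h : v ∈ (rest nd.1 nd.2).head?.toList) :
    v ∈ nd.1 ∧ v ∉ nd.2 := by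
  have h1 : v ∈ rest nd.1 nd.2 := by
    cases hr : rest nd.1 nd.2 with
    | nil => rw [hr] at h; simp at h
    | cons a l =>
      rw [hr] at h
      simp at h
      rw [h]
      exact List.mem_cons_self
  exact mem_rest.1 h1

theorem treeP_mem_wplus (hv : Valid k t n E nd) {v : ℕ} :
    v ∈ wplus n nd ↔ v ∈ nd.2 ∨ v ∈ (rest nd.1 nd.2).head?.toList := by
  unfold wplus
  exact mem_cup hv.srtW.lt (fun u hu => hv.srtA.lt u (treeP_head_mem hu).1)

theorem wplus_valid (hv : Valid k t n E nd) : Srt n (wplus n nd) ∧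
    (∀ v ∈ wplus n nd, v ∈ nd.1) ∧ (∀ v ∈ nd.2, v ∈ wplus n nd) ∧
    Pool.Agent.TIA.al (gE E) (toS (wplus n nd)) ≤ wm k t + 1 := by
  refine ⟨srt_cup, ?_, ?_, ?_⟩
  · intro v h
    rcases (treeP_mem_wplus hv).1 h with h | h
    · exact hv.sub v h
    · exact (treeP_head_mem h).1
  · intro v h
    exact (treeP_mem_wplus hv).2 (Or.inl h)
  · have hsub : toS (wplus n nd) ⊆ toS nd.2 ∪ toS ((rest nd.1 nd.2).head?.toList) := by
      intro v h
      exact (treeP_mem_wplus hv).1 h
    have h2 : Pool.Agent.TIA.al (gE E) (toS ((rest nd.1 nd.2).head?.toList)) ≤ 1 := by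
      cases hr : (rest nd.1 nd.2).head? with
      | none =>
        have : toS ((none : Option ℕ).toList) = ∅ := by
          ext v
          simp [toS]
        rw [this, al_empty]
        exact Nat.zero_le _
      | some a =>
        have : toS ((some a : Option ℕ).toList) = {a} := by
          ext v
          simp [toS]
        rw [this]
        exact al_singleton_le a
    calc Pool.Agent.TIA.al (gE E) (toS (wplus n nd))
        ≤ Pool.Agent.TIA.al (gE E) (toS nd.2 ∪ toS ((rest nd.1 nd.2).head?.toList)) :=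
          al_mono ((toS_finite _).union (toS_finite _)) hsub
      _ ≤ _ := al_union_le (toS_finite _) (toS_finite _)
      _ ≤ wm k t + 1 := Nat.add_le_add hv.al h2

theorem treeP_sepN_sub {v : ℕ} (h : v ∈ sepN k t n E nd) : v ∈ nd.1 :=
  (sepB_sublist k t n E nd.1 (wplus n nd)).subset h

theorem treeP_sepN_srt (hv : Valid k t n E nd) : Srt n (sepN k t n E nd) :=
  hv.srtA.sublist (sepB_sublist k t n E nd.1 (wplus n nd))

theorem treeP_sepN_spec (h : Hyp k t n E) (hv : Valid k t n E nd) :
    al (gE E) (toS (sepN k t n E nd)) ≤ qq k t - 1 ∧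
      ∀ v ∈ rest nd.1 (sepN k t n E nd),
        al (gE E) (toS (wplus n nd) ∩ cmp (gE E) (toS (rest nd.1 (sepN k t n E nd))) v) ≤
          wm k t - qq k t := by
  obtain ⟨h1, h2, _, h4⟩ := wplus_valid hv
  exact sepB_spec k t n E h.good h.pos h.pfree h.bal nd.1 (wplus n nd) hv.srtA h1 h2 h4

theorem treeP_qq_pos (k t : ℕ) : 1 ≤ qq k t := by
  unfold qq
  omega

theorem treeP_qq_le (k t : ℕ) : qq k t ≤ wm k t := by
  unfold wm
  omega

theorem bag_spec (h : Hyp k t n E) (hv : Valid k t n E nd) : Srt n (bag k t n E nd) ∧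
    (∀ v ∈ bag k t n E nd, v ∈ nd.1) ∧ (∀ v ∈ nd.2, v ∈ bag k t n E nd) ∧
    Pool.Agent.TIA.al (gE E) (toS (bag k t n E nd)) ≤ wm k t + qq k t := by
  obtain ⟨h1, h2, h3, h4⟩ := wplus_valid hv
  have hm : ∀ v, v ∈ bag k t n E nd ↔ v ∈ wplus n nd ∨ v ∈ sepN k t n E nd := by
    intro v
    unfold bag
    exact mem_cup h1.lt (treeP_sepN_srt hv).lt
  refine ⟨srt_cup, ?_, ?_, ?_⟩
  · intro v hvb
    rcases (hm v).1 hvb with hb | hb
    · exact h2 v hb
    · exact treeP_sepN_sub hb
  · intro v hvb
    exact (hm v).2 (Or.inl (h3 v hvb))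
  · have hsub : toS (bag k t n E nd) ⊆ toS (wplus n nd) ∪ toS (sepN k t n E nd) := by
      intro v hvb
      exact (hm v).1 hvb
    have hq := treeP_qq_pos k t
    have hs := (treeP_sepN_spec h hv).1
    calc Pool.Agent.TIA.al (gE E) (toS (bag k t n E nd))
        ≤ Pool.Agent.TIA.al (gE E) (toS (wplus n nd) ∪ toS (sepN k t n E nd)) :=
          al_mono ((toS_finite _).union (toS_finite _)) hsub
      _ ≤ _ := al_union_le (toS_finite _) (toS_finite _)
      _ ≤ (wm k t + 1) + (qq k t - 1) := Nat.add_le_add h4 hs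
      _ = wm k t + qq k t := by omega

/-- the component of a representative -/
theorem treeP_mem_comp (hE : GoodE n E) {v u : ℕ} :
    u ∈ compB E (rest nd.1 (sepN k t n E nd)) v ↔
      u ∈ cmp (gE E) (toS (rest nd.1 (sepN k t n E nd))) v := by
  rw [mem_compB hE]
  exact Iff.rfl

theorem treeP_comp_srt (hv : Valid k t n E nd) (v : ℕ) :
    Srt n (compB E (rest nd.1 (sepN k t n E nd)) v) :=
  (treeP_rest_srt hv.srtA).sublist compB_sublist

theorem treeP_comp_rest {v u : ℕ}
    (h : u ∈ compB E (rest nd.1 (sepN k t n E nd)) v) : u ∈ nd.1 ∧ u ∉ sepN k t n E nd :=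
  mem_rest.1 (compB_sublist.subset h)

theorem treeP_mem_ch1 (hv : Valid k t n E nd) {v u : ℕ} :
    u ∈ (child k t n E nd v).1 ↔
      u ∈ compB E (rest nd.1 (sepN k t n E nd)) v ∨ u ∈ sepN k t n E nd := by
  unfold child
  exact mem_cup (treeP_comp_srt hv v).lt (treeP_sepN_srt hv).lt

theorem treeP_mem_ch2 (hv : Valid k t n E nd) {v u : ℕ} :
    u ∈ (child k t n E nd v).2 ↔
      (u ∈ compB E (rest nd.1 (sepN k t n E nd)) v ∧ u ∈ wplus n nd) ∨ u ∈ sepN k t n E nd := by
  have h1 : u ∈ (child k t n E nd v).2 ↔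
      u ∈ cap n (compB E (rest nd.1 (sepN k t n E nd)) v) (wplus n nd) ∨
        u ∈ sepN k t n E nd := by
    unfold child
    exact mem_cup (fun w hw => srt_cap.lt w hw) (treeP_sepN_srt hv).lt
  rw [h1, mem_cap (treeP_comp_srt hv v).lt]

theorem child_valid (h : Hyp k t n E) (hv : Valid k t n E nd) :
    ∀ ch ∈ children k t n E nd, Valid k t n E ch := by
  intro ch hch
  unfold children at hch
  obtain ⟨v, hvr, rfl⟩ := List.mem_map.1 hch
  have hvr' : v ∈ rest nd.1 (sepN k t n E nd) := (List.mem_filter.1 hvr).1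
  refine ⟨srt_cup, srt_cup, ?_, ?_⟩
  · intro u hu
    rw [treeP_mem_ch2 hv] at hu
    rw [treeP_mem_ch1 hv]
    rcases hu with hu | hu
    · exact Or.inl hu.1
    · exact Or.inr hu
  · have hsub : toS (child k t n E nd v).2 ⊆
        (toS (wplus n nd) ∩ cmp (gE E) (toS (rest nd.1 (sepN k t n E nd))) v) ∪
          toS (sepN k t n E nd) := by
      intro u hu
      have hu' := (treeP_mem_ch2 hv).1 hu
      rcases hu' with hu' | hu'
      · exact Or.inl ⟨hu'.2, (treeP_mem_comp h.good).1 hu'.1⟩
      · exact Or.inr hu'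
    have hfin : (toS (wplus n nd) ∩
        cmp (gE E) (toS (rest nd.1 (sepN k t n E nd))) v).Finite :=
      (toS_finite _).subset Set.inter_subset_left
    have hs := treeP_sepN_spec h hv
    have hq := treeP_qq_pos k t
    have hq2 := treeP_qq_le k t
    calc Pool.Agent.TIA.al (gE E) (toS (child k t n E nd v).2)
        ≤ Pool.Agent.TIA.al (gE E)
          ((toS (wplus n nd) ∩ cmp (gE E) (toS (rest nd.1 (sepN k t n E nd))) v) ∪
            toS (sepN k t n E nd)) :=
          al_mono (hfin.union (toS_finite _)) hsub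
      _ ≤ _ := al_union_le hfin (toS_finite _)
      _ ≤ (wm k t - qq k t) + (qq k t - 1) := Nat.add_le_add (hs.2 v hvr') hs.1
      _ ≤ wm k t := by omega

theorem treeP_mem_rest_child (hv : Valid k t n E nd) {v u : ℕ} :
    u ∈ rest (child k t n E nd v).1 (child k t n E nd v).2 ↔
      u ∈ compB E (rest nd.1 (sepN k t n E nd)) v ∧ u ∉ wplus n nd := by
  rw [mem_rest, treeP_mem_ch1 hv, treeP_mem_ch2 hv]
  constructor
  · rintro ⟨h1, h2⟩
    rcases h1 with h1 | h1
    · exact ⟨h1, fun h3 => h2 (Or.inl ⟨h1, h3⟩)⟩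
    · exact absurd (Or.inr h1) h2
  · rintro ⟨h1, h2⟩
    refine ⟨Or.inl h1, ?_⟩
    rintro (h3 | h3)
    · exact h2 h3.2
    · exact (treeP_comp_rest h1).2 h3

theorem treeP_mem_reps {v : ℕ} : v ∈ reps k t n E nd ↔
    v ∈ rest nd.1 (sepN k t n E nd) ∧
      (∀ u ∈ compB E (rest nd.1 (sepN k t n E nd)) v, v ≤ u) ∧
      ∃ u ∈ compB E (rest nd.1 (sepN k t n E nd)) v, u ∉ wplus n nd := by
  unfold reps
  rw [List.mem_filter]
  simp only [Bool.and_eq_true, List.all_eq_true, decide_eq_true_eq, Bool.not_eq_true',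
    List.all_eq_false]

theorem child_pot (hv : Valid k t n E nd) (hE : GoodE n E) :
    ∀ ch ∈ children k t n E nd, 1 ≤ pot ch := by
  intro ch hch
  unfold children at hch
  obtain ⟨v, hvr, rfl⟩ := List.mem_map.1 hch
  obtain ⟨_, _, u, hu, hu'⟩ := treeP_mem_reps.1 hvr
  have : u ∈ rest (child k t n E nd v).1 (child k t n E nd v).2 :=
    (treeP_mem_rest_child hv).2 ⟨hu, hu'⟩
  unfold pot
  exact List.length_pos_of_mem this

/-- sum of lengths of pairwise disjoint duplicate-free lists inside a list -/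
theorem treeP_sum_le {α : Type} (f : α → List ℕ) : ∀ (R : List α) (T : List ℕ), 
    (∀ r ∈ R, (f r).Nodup) → (∀ r ∈ R, ∀ u ∈ f r, u ∈ T) →
    R.Pairwise (fun a b => ∀ u, u ∈ f a → u ∈ f b → False) →
    (R.map fun r => (f r).length).sum ≤ T.length := by
  classical
  intro R
  induction R with
  | nil => intro T _ _ _; simp
  | cons a R ih =>
    intro T h1 h2 h3
    rw [List.pairwise_cons] at h3
    rw [List.map_cons, List.sum_cons]
    have hfa : (f a).Nodup := h1 a List.mem_cons_self
    -- remove the elements of `f a` from `T`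
    have hT : (f a).length + (T.filter fun u => !(decide (u ∈ f a))).length ≤ T.length := by
      have e1 : (T.filter fun u => decide (u ∈ f a)).length +
          (T.filter fun u => !(decide (u ∈ f a))).length = T.length := by
        have := List.length_eq_length_filter_add (l := T) (fun u => decide (u ∈ f a))
        omega
      have e2 : (f a).length ≤ (T.filter fun u => decide (u ∈ f a)).length := by
        have hsub : (f a).Subperm (T.filter fun u => decide (u ∈ f a)) := by
          apply hfa.subperm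
          intro u hu
          rw [List.mem_filter]
          exact ⟨h2 a List.mem_cons_self u hu, by simpa using hu⟩
        exact hsub.length_le
      omega
    have := ih (T.filter fun u => !(decide (u ∈ f a)))
      (fun r hr => h1 r (List.mem_cons_of_mem _ hr))
      (fun r hr u hu => by
        rw [List.mem_filter]
        refine ⟨h2 r (List.mem_cons_of_mem _ hr) u hu, ?_⟩
        have : u ∉ f a := fun hua => h3.1 r hr u hua hu
        simp [this])
      h3.2
    omega

theorem treeP_rest_wplus_length (hv : Valid k t n E nd) :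
    (rest nd.1 (wplus n nd)).length ≤ pot nd - 1 := by
  unfold pot
  cases hr : rest nd.1 nd.2 with
  | nil =>
    have hsub : ∀ u ∈ rest nd.1 (wplus n nd), u ∈ rest nd.1 nd.2 := by
      intro u hu
      rw [mem_rest] at hu ⊢
      exact ⟨hu.1, fun h => hu.2 ((treeP_mem_wplus hv).2 (Or.inl h))⟩
    rw [hr] at hsub
    have : rest nd.1 (wplus n nd) = [] := by
      rw [List.eq_nil_iff_forall_not_mem]
      intro u hu
      exact absurd (hsub u hu) List.not_mem_nil
    rw [this]
    simp
  | cons a l =>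
    have hnd : (rest nd.1 nd.2).Nodup := (treeP_rest_srt hv.srtA).nodup
    rw [hr] at hnd
    have hsub : ∀ u ∈ rest nd.1 (wplus n nd), u ∈ l := by
      intro u hu
      rw [mem_rest] at hu
      have h1 : u ∈ rest nd.1 nd.2 := by
        rw [mem_rest]
        exact ⟨hu.1, fun h => hu.2 ((treeP_mem_wplus hv).2 (Or.inl h))⟩
      rw [hr] at h1
      rcases List.mem_cons.1 h1 with h1 | h1
      · exfalso
        apply hu.2
        rw [treeP_mem_wplus hv, hr]
        right
        rw [h1]
        simp
      · exact h1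
    have hnd2 : (rest nd.1 (wplus n nd)).Nodup := (treeP_rest_srt hv.srtA).nodup
    have := (hnd2.subperm hsub).length_le
    simpa using this

theorem pot_children (h : Hyp k t n E) (hv : Valid k t n E nd) :
    ((children k t n E nd).map pot).sum ≤ pot nd - 1 := by
  refine le_trans ?_ (treeP_rest_wplus_length hv)
  have e : ((children k t n E nd).map pot) = (reps k t n E nd).map fun v =>
      (rest (child k t n E nd v).1 (child k t n E nd v).2).length := by
    unfold children
    rw [List.map_map]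
    rfl
  rw [e]
  apply treeP_sum_le (fun v => rest (child k t n E nd v).1 (child k t n E nd v).2)
  · intro v _
    exact (treeP_rest_srt (n := n) (srt_cup)).nodup
  · intro v hvr u hu
    rw [treeP_mem_rest_child hv] at hu
    rw [mem_rest]
    exact ⟨(treeP_comp_rest hu.1).1, hu.2⟩
  · have hndr : (reps k t n E nd).Nodup :=
      ((treeP_rest_srt hv.srtA).sublist List.filter_sublist).nodup
    refine List.Pairwise.imp_of_mem ?_ hndr
    intro v w hvr hwr hne u hu1 hu2
    rw [treeP_mem_rest_child hv] at hu1 hu2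
    obtain ⟨hv1, hv2, _⟩ := treeP_mem_reps.1 hvr
    obtain ⟨hw1, hw2, _⟩ := treeP_mem_reps.1 hwr
    have c1 := (treeP_mem_comp h.good).1 hu1.1
    have c2 := (treeP_mem_comp h.good).1 hu2.1
    have e1 := cmp_eq_of_mem c1
    have e2 := cmp_eq_of_mem c2
    have e3 : cmp (gE E) (toS (rest nd.1 (sepN k t n E nd))) v =
        cmp (gE E) (toS (rest nd.1 (sepN k t n E nd))) w := e1.symm.trans e2
    apply hne
    apply le_antisymm
    · apply hv2
      rw [treeP_mem_comp h.good, e3]
      exact mem_cmp_self hw1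
    · apply hw2
      rw [treeP_mem_comp h.good, ← e3]
      exact mem_cmp_self hv1

theorem children_of_pot_zero (hE : GoodE n E) (hv : Valid k t n E nd) (h0 : pot nd = 0) :
    children k t n E nd = [] := by
  unfold children
  rw [List.map_eq_nil_iff, List.eq_nil_iff_forall_not_mem]
  intro v hvr
  obtain ⟨_, _, u, hu, hu'⟩ := treeP_mem_reps.1 hvr
  have h1 : u ∈ rest nd.1 nd.2 := by
    rw [mem_rest]
    exact ⟨(treeP_comp_rest hu).1, fun h => hu' ((treeP_mem_wplus hv).2 (Or.inl h))⟩
  unfold pot at h0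
  rw [List.length_eq_zero_iff] at h0
  rw [h0] at h1
  exact List.not_mem_nil h1

end Pool.Agent.TIA
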